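import Pool.Agent.Mg.F71da5e.G8cdf38

section

namespace Pool.Agent.MP_71da5e_an

open MeasureTheory Metric Set Laplacian Filter Topology
open scoped ContDiff ENNReal RealInnerProductSpace

variable {n : ℕ}

theorem norm_inv_sub (c : E n) (R : ℝ) (x : E n) : ‖inv c R x - c‖ = R ^ 2 / ‖x - c‖ := by
  rw [inv, add_sub_cancel_left, norm_smul, Real.norm_of_nonneg (by positivity)]
  by_cases h : ‖x - c‖ = 0
  · simp [h]
  · field_simp

theorem inv_ne {c : E n} {R : ℝ} (hR : 0 < R) {x : E n} (hx : x ≠ c) : inv c R x ≠ c := by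
  have : 0 < ‖x - c‖ := norm_pos_iff.2 (sub_ne_zero.2 hx)
  rw [← sub_ne_zero, ← norm_pos_iff, norm_inv_sub]
  positivity

theorem jac_inv (c : E n) {R : ℝ} (hR : 0 < R) (x : E n) : jac c R (inv c R x) = (jac c R x)⁻¹ := by
  rw [jac, norm_inv_sub, jac]
  by_cases h : ‖x - c‖ = 0
  · simp [h]
  · field_simp

theorem jac_pos {c : E n} {R : ℝ} (hR : 0 < R) {x : E n} (hx : x ≠ c) : 0 < jac c R x := by
  have : 0 < ‖x - c‖ := norm_pos_iff.2 (sub_ne_zero.2 hx)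
  unfold jac
  positivity

theorem inv_inv' (c : E n) {R : ℝ} (hR : 0 < R) (x : E n) : inv c R (inv c R x) = x := by
  by_cases hx : x = c
  · simp [hx, inv]
  · have h1 : inv c R (inv c R x) = c + jac c R (inv c R x) • jac c R x • (x - c) := by
      simp only [inv, jac, add_sub_cancel_left]
    rw [h1, jac_inv c hR, smul_smul, inv_mul_cancel₀ (jac_pos hR hx).ne', one_smul, add_sub_cancel]

theorem kel_kel {c : E n} {R : ℝ} (hR : 0 < R) (f : E n → ℂ) {x : E n} (hx : x ≠ c) :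
    kel c R (kel c R f) x = f x := by
  have : 0 < ‖x - c‖ := norm_pos_iff.2 (sub_ne_zero.2 hx)
  rw [kel, kel, inv_inv' c hR, norm_inv_sub, ← mul_assoc, ← Complex.ofReal_mul, ← mul_pow,
    show R / ‖x - c‖ * (R / (R ^ 2 / ‖x - c‖)) = 1 by field_simp]
  simp

theorem kq_kq {c : E n} {R : ℝ} (hR : 0 < R) (q : E n → ℂ) {x : E n} (hx : x ≠ c) :
    kq c R (kq c R q) x = q x := by
  rw [kq, kq, inv_inv' c hR, jac_inv c hR, ← mul_assoc, ← Complex.ofReal_mul, ← mul_pow,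
    mul_inv_cancel₀ (jac_pos hR hx).ne']
  simp

theorem kel_center (hn : 3 ≤ n) (c : E n) (R : ℝ) (f : E n → ℂ) : kel c R f c = 0 := by
  simp [kel, show n - 2 ≠ 0 by omega]

theorem contDiffAt_inv' {c : E n} (R : ℝ) {x : E n} (hx : x ≠ c) : ContDiffAt ℝ ∞ (inv c R) x := by
  have h : ContDiffAt ℝ ∞ (fun y : E n => y - c) x := contDiffAt_id.sub contDiffAt_const
  exact contDiffAt_const.add ((contDiffAt_const.div (h.norm_sq ℝ)
    (pow_ne_zero 2 (norm_ne_zero_iff.2 (sub_ne_zero.2 hx)))).smul h)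

theorem contDiffAt_kel {c : E n} (R : ℝ) {f : E n → ℂ} {x : E n} (hx : x ≠ c)
    (hf : ContDiffAt ℝ ∞ f (inv c R x)) : ContDiffAt ℝ ∞ (kel c R f) x := by
  have h : ContDiffAt ℝ ∞ (fun y : E n => y - c) x := contDiffAt_id.sub contDiffAt_const
  have h1 : ContDiffAt ℝ ∞ (fun y : E n => (R / ‖y - c‖) ^ (n - 2)) x :=
    (contDiffAt_const.div (h.norm ℝ (sub_ne_zero.2 hx))
      (norm_ne_zero_iff.2 (sub_ne_zero.2 hx))).pow _
  exact (Complex.ofRealCLM.contDiff.contDiffAt.comp x h1).mul (hf.comp x (contDiffAt_inv' R hx))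

theorem notMem_tsupport_kel (hn : 3 ≤ n) (c : E n) {R : ℝ} (hR : 0 < R) {f : E n → ℂ}
    (hf : HasCompactSupport f) : c ∉ tsupport (kel c R f) := by
  obtain ⟨S, hS0, hS⟩ := hf.isBounded.subset_ball_lt 0 c
  rw [notMem_tsupport_iff_eventuallyEq]
  filter_upwards [ball_mem_nhds c (show 0 < R ^ 2 / S by positivity)] with x hx
  by_cases hxc : x = c
  · rw [hxc, kel_center hn]; rfl
  · have h0 : 0 < ‖x - c‖ := norm_pos_iff.2 (sub_ne_zero.2 hxc)
    rw [mem_ball_iff_norm, lt_div_iff₀ hS0] at hx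
    have : inv c R x ∉ tsupport f := fun h => by
      have := mem_ball_iff_norm.1 (hS h)
      rw [norm_inv_sub, div_lt_iff₀ h0] at this
      linarith
    simp [kel, image_eq_zero_of_notMem_tsupport this]

theorem contDiff_kel (hn : 3 ≤ n) (c : E n) {R : ℝ} (hR : 0 < R) {f : E n → ℂ} (hf : Tst f) :
    ContDiff ℝ ∞ (kel c R f) := by
  refine contDiff_iff_contDiffAt.2 fun x => ?_
  by_cases hx : x = c
  · subst hx
    exact contDiffAt_const.congr_of_eventuallyEq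
      (notMem_tsupport_iff_eventuallyEq.1 (notMem_tsupport_kel hn x hR hf.2))
  · exact contDiffAt_kel R hx hf.1.contDiffAt

theorem inv_mem_tsupport (hn : 3 ≤ n) (c : E n) {R : ℝ} (hR : 0 < R) {f : E n → ℂ}
    (hf : HasCompactSupport f) {x : E n} (hx : x ∈ tsupport (kel c R f)) :
    inv c R x ∈ tsupport f := by
  have hxc : x ≠ c := by rintro rfl; exact notMem_tsupport_kel hn x hR hf hx
  by_contra h
  refine notMem_tsupport_iff_eventuallyEq.2 ?_ hx
  filter_upwards [(contDiffAt_inv' R hxc).continuousAt.eventually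
    (notMem_tsupport_iff_eventuallyEq.1 h)] with y hy
  simp [kel, hy]

theorem Tst.kel (hn : 3 ≤ n) {c : E n} {R : ℝ} (hR : 0 < R) {f : E n → ℂ} (hf : Tst f)
    (hc : c ∉ tsupport f) : Tst (kel c R f) := by
  refine ⟨contDiff_kel hn c hR hf, ?_⟩
  obtain ⟨δ, hδ, h⟩ := Metric.isOpen_iff.1 (isClosed_tsupport f).isOpen_compl c hc
  refine (isCompact_closedBall c (R ^ 2 / δ)).of_isClosed_subset (isClosed_tsupport _)
    fun x hx => ?_
  have h1 := inv_mem_tsupport hn c hR hf.2 hx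
  have h2 : δ ≤ ‖inv c R x - c‖ := not_lt.1 fun h3 => h (mem_ball_iff_norm.2 h3) h1
  have hxc : x ≠ c := by rintro rfl; exact notMem_tsupport_kel hn x hR hf.2 hx
  have h0 : 0 < ‖x - c‖ := norm_pos_iff.2 (sub_ne_zero.2 hxc)
  rw [norm_inv_sub, le_div_iff₀ h0] at h2
  rw [mem_closedBall_iff_norm, le_div_iff₀ hδ]
  linarith

theorem inner_inv_zero (ν x : E n) : ⟪inv 0 1 x, ν⟫ = ⟪x, ν⟫ / ‖x‖ ^ 2 := by
  simp only [inv, sub_zero, zero_add, real_inner_smul_left]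
  ring

theorem norm_inv_zero (x : E n) : ‖inv 0 1 x‖ = ‖x‖⁻¹ := by
  simpa using norm_inv_sub 0 1 x

theorem jac_sq_mul_wt {x : E n} (hx : x ≠ 0) : jac 0 1 x ^ 2 * wt (inv 0 1 x) = wt x := by
  have : 0 < ‖x‖ := norm_pos_iff.2 hx
  simp only [jac, wt, norm_inv_zero, sub_zero]
  field_simp
  ring

theorem Dec.kq {A : ℝ} {q : E n → ℂ} (h : Dec A q) : Dec A (kq 0 1 q) := by
  refine ⟨(Complex.measurable_ofReal.comp ((measurable_jac 0 1).pow_const 2)).mul
    (h.1.comp (measurable_inv' 0 1)), fun x => ?_⟩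
  unfold MP_71da5e_an.kq
  rw [norm_mul, Complex.norm_real, Real.norm_of_nonneg (sq_nonneg _)]
  by_cases hx : x = 0
  · simpa [hx, jac] using mul_nonneg h.nonneg (wt_pos (0 : E n)).le
  · rw [← jac_sq_mul_wt hx, mul_left_comm]
    exact mul_le_mul_of_nonneg_left (h.2 _) (sq_nonneg _)

/-- The inversion with centre `p` on the unit sphere and radius `√2`. -/
theorem one_sub_norm_inv {p : E n} (hp : ‖p‖ = 1) {x : E n} (hx : x ≠ p) :
    1 - ‖inv p √2 x‖ ^ 2 = 2 * jac p √2 x * ⟪x, -p⟫ := by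
  have h0 : 0 < ‖x - p‖ := norm_pos_iff.2 (sub_ne_zero.2 hx)
  rw [inv, jac, norm_add_sq_real, norm_smul, real_inner_smul_right, inner_sub_right,
    real_inner_self_eq_norm_sq, hp, inner_neg_right, real_inner_comm, Real.sq_sqrt zero_le_two,
    Real.norm_of_nonneg (by positivity)]
  field_simp
  ring

end Pool.Agent.MP_71da5e_an

end

section

namespace Pool.Agent.MP_71da5e_an

open MeasureTheory Metric Set Laplacian Filter Topology
open scoped ContDiff ENNReal RealInnerProductSpace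

variable {n : ℕ}

lemma kelL_norm {c x : E n} (hx : x ≠ c) :
    HasFDerivAt (fun y : E n => ‖y - c‖) (‖x - c‖⁻¹ • innerSL ℝ (x - c)) x := by
  have hr : ‖x - c‖ ≠ 0 := norm_ne_zero_iff.2 (sub_ne_zero.2 hx)
  have h1 := ((hasFDerivAt_id x).sub_const c).norm_sq
  have h2 := h1.sqrt (pow_ne_zero 2 hr)
  simp only [id, Real.sqrt_sq (norm_nonneg _)] at h2
  refine h2.congr_fderiv (ContinuousLinearMap.ext fun v => ?_)
  simp only [ContinuousLinearMap.smul_apply, ContinuousLinearMap.comp_id, smul_eq_mul, nsmul_eq_mul,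
    Nat.cast_ofNat]
  field_simp

lemma kelL_rad {c x : E n} (hx : x ≠ c) {h : ℝ → ℝ} {h' : ℝ} (hh : HasDerivAt h h' ‖x - c‖) :
    HasFDerivAt (fun y : E n => h ‖y - c‖) ((h' / ‖x - c‖) • innerSL ℝ (x - c)) x := by
  refine (hh.comp_hasFDerivAt x (kelL_norm hx)).congr_fderiv ?_
  rw [smul_smul, div_eq_mul_inv]

lemma kelL_lin (c x e : E n) : HasFDerivAt (fun y : E n => ⟪y - c, e⟫) (innerSL ℝ e) x := by
  have h : (fun y : E n => ⟪y - c, e⟫) = fun y => innerSL ℝ e (y - c) :=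
    funext fun y => real_inner_comm _ _
  rw [h]
  exact (innerSL ℝ e).hasFDerivAt.comp x ((hasFDerivAt_id x).sub_const c)

lemma kelL_d1 (R : ℝ) (p : ℕ) {t : ℝ} (ht : t ≠ 0) :
    HasDerivAt (fun t : ℝ => (R / t) ^ (p + 1)) (-(p + 1) * (R / t) ^ (p + 1) / t) t := by
  have := ((hasDerivAt_const t R).fun_div (hasDerivAt_id' t) ht).fun_pow (p + 1)
  refine this.congr_deriv ?_
  simp only [Nat.add_sub_cancel, pow_succ]
  push_cast
  field_simp
  ring

lemma kelL_d2 (R : ℝ) (p : ℕ) {t : ℝ} (ht : t ≠ 0) :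
    HasDerivAt (fun t : ℝ => -(p + 1) * (R / t) ^ (p + 1) / t / t)
      ((p + 1) * (p + 3) * (R / t) ^ (p + 1) / t ^ 3) t := by
  have := ((((kelL_d1 R p ht).const_mul (-((p : ℝ) + 1))).fun_div (hasDerivAt_id' t) ht).fun_div
    (hasDerivAt_id' t) ht)
  simp only [← mul_div_assoc] at this
  refine this.congr_deriv ?_
  field_simp
  ring

lemma kelL_d3 (R : ℝ) {t : ℝ} (ht : t ≠ 0) :
    HasDerivAt (fun t : ℝ => R ^ 2 / t ^ 2) (-2 * R ^ 2 / t ^ 3) t := by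
  have := (hasDerivAt_const t (R ^ 2)).fun_div ((hasDerivAt_id' t).fun_pow 2) (pow_ne_zero 2 ht)
  refine this.congr_deriv ?_
  field_simp
  ring

lemma kelL_d4 (R : ℝ) {t : ℝ} (ht : t ≠ 0) :
    HasDerivAt (fun t : ℝ => -2 * R ^ 2 / t ^ 3 / t) (8 * R ^ 2 / t ^ 5) t := by
  have := ((hasDerivAt_const t (-2 * R ^ 2)).fun_div ((hasDerivAt_id' t).fun_pow 3)
    (pow_ne_zero 3 ht)).fun_div (hasDerivAt_id' t) ht
  refine this.congr_deriv ?_
  field_simp
  ring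

lemma kelL_sum_sq (u : E n) : ∑ i, ⟪u, ev i⟫ * ⟪u, ev i⟫ = ‖u‖ ^ 2 := by
  simp only [inner_ev]
  rw [EuclideanSpace.real_norm_sq_eq]
  exact Finset.sum_congr rfl fun i _ => (sq _).symm

lemma kelL_ev_ev (i : Fin n) : ⟪(ev i : E n), ev i⟫ = 1 := by
  rw [inner_ev]; simp [ev]

lemma kelL_sum_smul (u : E n) : ∑ i, ⟪u, ev i⟫ • ev i = u := by
  simp only [inner_ev]; exact sum_coord_smul_ev u

/-- The Newton kernel is harmonic. -/
lemma kelL_harm {p : ℕ} {c x : E (p + 3)} (R : ℝ) (hx : x ≠ c)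
    (hm : ContDiffAt ℝ 2 (fun y : E (p + 3) => (R / ‖y - c‖) ^ (p + 1)) x) :
    Δ (fun y : E (p + 3) => (R / ‖y - c‖) ^ (p + 1)) x = 0 := by
  have hr : ‖x - c‖ ≠ 0 := norm_ne_zero_iff.2 (sub_ne_zero.2 hx)
  rw [lap_eq hm]
  have key : ∀ i, fderiv ℝ (fun y => fderiv ℝ (fun y : E (p + 3) => (R / ‖y - c‖) ^ (p + 1)) y
      (ev i)) x (ev i) = -(p + 1) * (R / ‖x - c‖) ^ (p + 1) / ‖x - c‖ / ‖x - c‖ +
        (p + 1) * (p + 3) * (R / ‖x - c‖) ^ (p + 1) / ‖x - c‖ ^ 3 / ‖x - c‖ *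
          (⟪x - c, ev i⟫ * ⟪x - c, ev i⟫) := by
    intro i
    have e : (fun y => fderiv ℝ (fun y : E (p + 3) => (R / ‖y - c‖) ^ (p + 1)) y (ev i)) =ᶠ[𝓝 x]
        fun y => -(p + 1) * (R / ‖y - c‖) ^ (p + 1) / ‖y - c‖ / ‖y - c‖ * ⟪y - c, ev i⟫ := by
      filter_upwards [isOpen_ne.mem_nhds hx] with y hy
      have hy' : ‖y - c‖ ≠ 0 := norm_ne_zero_iff.2 (sub_ne_zero.2 hy)
      rw [(kelL_rad hy (kelL_d1 R p hy')).fderiv]
      simp only [ContinuousLinearMap.smul_apply, innerSL_apply_apply, smul_eq_mul]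
    rw [e.fderiv_eq, ((kelL_rad hx (kelL_d2 R p hr)).fun_mul (kelL_lin c x (ev i))).fderiv]
    simp only [ContinuousLinearMap.add_apply, ContinuousLinearMap.smul_apply, innerSL_apply_apply,
      smul_eq_mul, kelL_ev_ev]
    ring
  simp only [key]
  rw [Finset.sum_add_distrib, ← Finset.mul_sum, kelL_sum_sq, Finset.sum_const, Finset.card_univ,
    Fintype.card_fin, nsmul_eq_mul]
  push_cast
  field_simp
  ring

/-- The derivative of the inversion. -/
noncomputable def kelLA (c : E n) (R : ℝ) (x : E n) : E n →L[ℝ] E n :=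
  (R ^ 2 / ‖x - c‖ ^ 2) • ContinuousLinearMap.id ℝ (E n) +
    ((-2 * R ^ 2 / ‖x - c‖ ^ 3 / ‖x - c‖) • innerSL ℝ (x - c)).smulRight (x - c)

lemma kelLA_apply (c : E n) (R : ℝ) (x v : E n) : kelLA c R x v = (R ^ 2 / ‖x - c‖ ^ 2) • v +
    (-2 * R ^ 2 / ‖x - c‖ ^ 3 / ‖x - c‖ * ⟪x - c, v⟫) • (x - c) := by
  simp only [kelLA, ContinuousLinearMap.add_apply, ContinuousLinearMap.smul_apply,
    ContinuousLinearMap.id_apply, ContinuousLinearMap.smulRight_apply, innerSL_apply_apply,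
    smul_eq_mul]

lemma kelL_inv {c x : E n} (R : ℝ) (hx : x ≠ c) : HasFDerivAt (inv c R) (kelLA c R x) x := by
  have hr : ‖x - c‖ ≠ 0 := norm_ne_zero_iff.2 (sub_ne_zero.2 hx)
  exact ((kelL_rad hx (kelL_d3 R hr)).fun_smul ((hasFDerivAt_id x).sub_const c)).const_add c

lemma kelL_dA {c x : E n} (R : ℝ) (hx : x ≠ c) (e : E n) :
    ∃ L : E n →L[ℝ] E n, HasFDerivAt (fun y => kelLA c R y e) L x ∧
      L e = (2 * (-2 * R ^ 2 / ‖x - c‖ ^ 3 / ‖x - c‖)) • (⟪x - c, e⟫ • e) +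
        (-2 * R ^ 2 / ‖x - c‖ ^ 3 / ‖x - c‖ * ⟪e, e⟫ +
          8 * R ^ 2 / ‖x - c‖ ^ 5 / ‖x - c‖ * (⟪x - c, e⟫ * ⟪x - c, e⟫)) • (x - c) := by
  have hr : ‖x - c‖ ≠ 0 := norm_ne_zero_iff.2 (sub_ne_zero.2 hx)
  simp only [kelLA_apply]
  refine ⟨_, ((kelL_rad hx (kelL_d3 R hr)).smul_const e).fun_add
    (((kelL_rad hx (kelL_d4 R hr)).fun_mul (kelL_lin c x e)).fun_smul
      ((hasFDerivAt_id x).sub_const c)), ?_⟩
  simp only [ContinuousLinearMap.add_apply, ContinuousLinearMap.smul_apply,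
    ContinuousLinearMap.id_apply, ContinuousLinearMap.smulRight_apply, innerSL_apply_apply,
    smul_eq_mul, id]
  module

lemma kelL_bil (B : E n →L[ℝ] E n →L[ℝ] ℂ) {u : E n} (hu : ‖u‖ ≠ 0) (R : ℝ) :
    ∑ i, B ((R ^ 2 / ‖u‖ ^ 2) • ev i + (-2 * R ^ 2 / ‖u‖ ^ 3 / ‖u‖ * ⟪u, ev i⟫) • u)
      ((R ^ 2 / ‖u‖ ^ 2) • ev i + (-2 * R ^ 2 / ‖u‖ ^ 3 / ‖u‖ * ⟪u, ev i⟫) • u) =
      ((R ^ 2 / ‖u‖ ^ 2) ^ 2 : ℝ) • ∑ i, B (ev i) (ev i) := by
  set J := R ^ 2 / ‖u‖ ^ 2 with hJ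
  set b := -2 * R ^ 2 / ‖u‖ ^ 3 / ‖u‖ with hb
  have h1 : ∑ i, ⟪u, ev i⟫ • B (ev i) u = B u u := by
    have := congrArg (fun v => B v u) (kelL_sum_smul u)
    simpa only [map_sum, map_smul, ContinuousLinearMap.sum_apply,
      ContinuousLinearMap.smul_apply] using this
  have h2 : ∑ i, ⟪u, ev i⟫ • B u (ev i) = B u u := by
    have := congrArg (fun v => B u v) (kelL_sum_smul u)
    simpa only [map_sum, map_smul] using this
  have h3 : ∀ i, B (J • ev i + (b * ⟪u, ev i⟫) • u) (J • ev i + (b * ⟪u, ev i⟫) • u) =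
      (J ^ 2) • B (ev i) (ev i) + (J * b) • (⟪u, ev i⟫ • B (ev i) u) +
        (J * b) • (⟪u, ev i⟫ • B u (ev i)) + (b ^ 2 * (⟪u, ev i⟫ * ⟪u, ev i⟫)) • B u u := by
    intro i
    simp only [map_add, map_smul, ContinuousLinearMap.add_apply, ContinuousLinearMap.smul_apply]
    module
  simp only [h3, Finset.sum_add_distrib, ← Finset.smul_sum, h1, h2, ← Finset.sum_smul,
    ← Finset.mul_sum, kelL_sum_sq]
  have h4 : J * b + J * b + b ^ 2 * ‖u‖ ^ 2 = 0 := by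
    rw [hJ, hb]; field_simp; ring
  rw [add_assoc, add_assoc, ← add_smul, ← add_smul, ← add_assoc (J * b), h4, zero_smul, add_zero]

/-- The Laplacian of a composition with the inversion. -/
lemma kelL_comp {c x : E n} (R : ℝ) (hx : x ≠ c) {f : E n → ℂ}
    (hf : ContDiffAt ℝ 2 f (inv c R x)) (hg : ContDiffAt ℝ 2 (fun y => f (inv c R y)) x) :
    Δ (fun y => f (inv c R y)) x = ((R ^ 2 / ‖x - c‖ ^ 2) ^ 2 : ℝ) • Δ f (inv c R x) +
      (-2 * (n - 2) * R ^ 2 / ‖x - c‖ ^ 4 : ℝ) • fderiv ℝ f (inv c R x) (x - c) := by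
  have hr : ‖x - c‖ ≠ 0 := norm_ne_zero_iff.2 (sub_ne_zero.2 hx)
  have hB : HasFDerivAt (fderiv ℝ f) (fderiv ℝ (fderiv ℝ f) (inv c R x)) (inv c R x) :=
    ((hf.fderiv_right (m := 1) (by norm_num)).differentiableAt (by norm_num)).hasFDerivAt
  set B := fderiv ℝ (fderiv ℝ f) (inv c R x) with hBd
  have hl : Δ f (inv c R x) = ∑ i, B (ev i) (ev i) := by
    rw [lap_eq hf]
    refine Finset.sum_congr rfl fun i _ => ?_
    rw [(hB.clm_apply (hasFDerivAt_const (ev i) _)).fderiv]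
    simp
  have hev : ∀ᶠ y in 𝓝 x, DifferentiableAt ℝ f (inv c R y) := by
    have := (kelL_inv R hx).continuousAt.eventually (hf.eventually (by simp))
    filter_upwards [this] with y hy using hy.differentiableAt (by norm_num)
  choose L hL hLe using kelL_dA R hx
  have key : ∀ i, fderiv ℝ (fun y => fderiv ℝ (fun y => f (inv c R y)) y (ev i)) x (ev i) =
      fderiv ℝ f (inv c R x) (L (ev i) (ev i)) +
        B (kelLA c R x (ev i)) (kelLA c R x (ev i)) := by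
    intro i
    have e : (fun y => fderiv ℝ (fun y => f (inv c R y)) y (ev i)) =ᶠ[𝓝 x]
        fun y => fderiv ℝ f (inv c R y) (kelLA c R y (ev i)) := by
      filter_upwards [isOpen_ne.mem_nhds hx, hev] with y hy hy'
      have := (hy'.hasFDerivAt.comp y (kelL_inv R hy)).fderiv
      rw [Function.comp_def] at this
      rw [this]; rfl
    have h2 := (hB.comp x (kelL_inv R hx)).clm_apply (hL (ev i))
    simp only [Function.comp_apply] at h2
    rw [e.fderiv_eq, h2.fderiv]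
    simp
  rw [lap_eq hg]
  simp only [key]
  rw [Finset.sum_add_distrib, add_comm, ← map_sum, ← map_smul, hl]
  simp only [kelLA_apply]
  rw [kelL_bil B hr]
  congr 2
  simp only [hLe, kelL_ev_ev, Finset.sum_add_distrib, ← Finset.smul_sum, ← Finset.sum_smul,
    ← Finset.mul_sum, kelL_sum_sq, kelL_sum_smul, Finset.sum_const, Finset.card_univ,
    Fintype.card_fin, nsmul_eq_mul, ← add_smul]
  congr 1
  field_simp
  ring

theorem lap_kel (hn : 3 ≤ n) {c : E n} {R : ℝ} (hR : 0 < R) {f : E n → ℂ} {x : E n} (hx : x ≠ c)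
    (hf : ContDiffAt ℝ 2 f (inv c R x)) :
    Δ (kel c R f) x = ((jac c R x ^ 2 : ℝ) : ℂ) * kel c R (Δ f) x := by
  obtain ⟨p, rfl⟩ : ∃ p, n = p + 3 := ⟨n - 3, by omega⟩
  have hr : ‖x - c‖ ≠ 0 := norm_ne_zero_iff.2 (sub_ne_zero.2 hx)
  have hp : p + 3 - 2 = p + 1 := rfl
  have hm : ContDiffAt ℝ 2 (fun y : E (p + 3) => (R / ‖y - c‖) ^ (p + 1)) x :=
    (contDiffAt_const.div ((contDiffAt_id.sub contDiffAt_const).norm ℝ (sub_ne_zero.2 hx)) hr).pow _
  have hi : ContDiffAt ℝ 2 (inv c R) x := (contDiffAt_inv' R hx).of_le (by norm_cast)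
  have hg : ContDiffAt ℝ 2 (fun y => f (inv c R y)) x := hf.comp x hi
  have hgr : gradient (fun y : E (p + 3) => (R / ‖y - c‖) ^ (p + 1)) x =
      (-(p + 1) * (R / ‖x - c‖) ^ (p + 1) / ‖x - c‖ / ‖x - c‖) • (x - c) := by
    refine HasGradientAt.gradient (hasGradientAt_iff_hasFDerivAt.2 ?_)
    refine (kelL_rad hx (kelL_d1 R p hr)).congr_fderiv (ContinuousLinearMap.ext fun v => ?_)
    simp only [ContinuousLinearMap.smul_apply, innerSL_apply_apply, smul_eq_mul,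
      InnerProductSpace.toDual_apply_apply, real_inner_smul_left]
  have hd : fderiv ℝ (fun y => f (inv c R y)) x =
      (fderiv ℝ f (inv c R x)).comp (kelLA c R x) :=
    ((hf.differentiableAt (by norm_num)).hasFDerivAt.comp x (kelL_inv R hx)).fderiv
  have hA : kelLA c R x (x - c) = (-(R ^ 2 / ‖x - c‖ ^ 2)) • (x - c) := by
    rw [kelLA_apply, real_inner_self_eq_norm_sq, ← add_smul]
    congr 1
    field_simp
    ring
  have h := lap_smul hm hg
  unfold kel jac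
  rw [hp, h, kelL_harm R hx hm, kelL_comp R hx hf hg, hgr, hd, map_smul,
    ContinuousLinearMap.comp_apply, hA, map_smul]
  simp only [Complex.real_smul]
  have hr' : ((‖x - c‖ : ℝ) : ℂ) ≠ 0 := by exact_mod_cast hr
  push_cast
  field_simp
  ring

end Pool.Agent.MP_71da5e_an

end

section

namespace Pool.Agent.MP_71da5e_an

open MeasureTheory Metric Set Laplacian Filter Topology
open scoped ContDiff ENNReal RealInnerProductSpace

variable {n : ℕ}

/-- The real linear map `x ↦ x · a + i x · b`. -/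
noncomputable def beamL (a b : E n) : E n →L[ℝ] ℂ :=
  Complex.ofRealCLM.comp (innerSL ℝ a) + (Complex.ofRealCLM.comp (innerSL ℝ b)).smulRight Complex.I

theorem beamL_apply (a b x : E n) :
    beamL a b x = ((⟪x, a⟫ : ℝ) + (⟪x, b⟫ : ℝ) * Complex.I : ℂ) := by
  simp [beamL, real_inner_comm]

theorem beam_eq (a b : E n) (k : ℕ) : beam a b k = fun x => beamL a b x ^ k := by
  funext x
  rw [beamL_apply]
  rfl

theorem beam_hasFDerivAt (L : E n →L[ℝ] ℂ) (k : ℕ) (x : E n) :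
    HasFDerivAt (fun y => L y ^ k) (((k : ℂ) * L x ^ (k - 1)) • L) x := by
  have h₁ : HasDerivAt (fun z : ℂ => z ^ k) ((k : ℂ) * L x ^ (k - 1)) (L x) := hasDerivAt_pow k _
  exact h₁.comp_hasFDerivAt x L.hasFDerivAt

theorem beam_fderiv (L : E n →L[ℝ] ℂ) (k : ℕ) (x v : E n) :
    fderiv ℝ (fun y => L y ^ k) x v = (k : ℂ) * L x ^ (k - 1) * L v := by
  rw [(beam_hasFDerivAt L k x).fderiv]
  simp

theorem beam_fderiv_two (L : E n →L[ℝ] ℂ) (k : ℕ) (x v : E n) :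
    fderiv ℝ (fun y => fderiv ℝ (fun y => L y ^ k) y v) x v =
      (k : ℂ) * ((k - 1 : ℕ) : ℂ) * L x ^ (k - 1 - 1) * L v ^ 2 := by
  have h : (fun y => fderiv ℝ (fun y => L y ^ k) y v) = fun y => ((k : ℂ) * L v) * L y ^ (k - 1) := by
    funext y
    rw [beam_fderiv]
    ring
  rw [h, ((beam_hasFDerivAt L (k - 1) x).const_mul ((k : ℂ) * L v)).fderiv]
  simp only [smul_apply, smul_eq_mul]
  ring

theorem beam_sum_sq {a b : E n} (h : ON a b) : ∑ i, beamL a b (ev i) ^ 2 = 0 := by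
  have e : ∀ (c : E n) (i : Fin n), ⟪ev i, c⟫ = c i := fun c i => by
    rw [real_inner_comm, inner_ev]
  have ha : ∑ i, a i ^ 2 = 1 := by
    rw [← EuclideanSpace.real_norm_sq_eq, h.1, one_pow]
  have hb : ∑ i, b i ^ 2 = 1 := by
    rw [← EuclideanSpace.real_norm_sq_eq, h.2.1, one_pow]
  have hab : ∑ i, a i * b i = 0 := by
    rw [← h.2.2, PiLp.inner_apply]
    exact Finset.sum_congr rfl fun i _ => by simp [mul_comm]
  have h₁ : ∀ i, beamL a b (ev i) ^ 2 =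
      ((a i ^ 2 : ℝ) : ℂ) - ((b i ^ 2 : ℝ) : ℂ) + 2 * Complex.I * ((a i * b i : ℝ) : ℂ) := by
    intro i
    rw [beamL_apply, e, e]
    push_cast
    linear_combination ((b i : ℝ) : ℂ) ^ 2 * Complex.I_sq
  simp only [h₁, Finset.sum_add_distrib, Finset.sum_sub_distrib, ← Finset.mul_sum,
    ← Complex.ofReal_sum, ha, hb, hab]
  simp

theorem contDiff_beam (a b : E n) (k : ℕ) : ContDiff ℝ ∞ (beam a b k) := by
  rw [beam_eq]
  exact (beamL a b).contDiff.pow k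

theorem beam_two (a b : E n) (k : ℕ) (x : E n) : ContDiffAt ℝ 2 (beam a b k) x := by
  rw [beam_eq]
  exact ((beamL a b).contDiff.pow k).contDiffAt

theorem contDiff_obeam (ν a b : E n) (k : ℕ) : ContDiff ℝ ∞ (obeam ν a b k) :=
  (contDiff_beam a b k).sub ((contDiff_beam a b k).comp (contDiff_rf ν))

theorem beam_rf (ν a b : E n) (k : ℕ) (x : E n) :
    beam a b k (rf ν x) = beam (rf ν a) (rf ν b) k x := by
  unfold beam
  rw [inner_rf_left, inner_rf_left]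

theorem beam_smul (a b : E n) (k : ℕ) (t : ℝ) (x : E n) :
    beam a b k (t • x) = (t : ℂ) ^ k * beam a b k x := by
  simp only [beam_eq, map_smul, Complex.real_smul, mul_pow]

theorem obeam_smul (ν a b : E n) (k : ℕ) (t : ℝ) (x : E n) :
    obeam ν a b k (t • x) = (t : ℂ) ^ k * obeam ν a b k x := by
  unfold obeam
  rw [beam_rf, beam_rf, beam_smul, beam_smul, mul_sub]

theorem lap_beam {a b : E n} (h : ON a b) (k : ℕ) (x : E n) : Δ (beam a b k) x = 0 := by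
  rw [lap_eq (beam_two a b k x), beam_eq]
  simp only [beam_fderiv_two, ← Finset.mul_sum, beam_sum_sq h, mul_zero]

theorem lap_obeam {ν a b : E n} (hν : ‖ν‖ = 1) (h : ON a b) (k : ℕ) (x : E n) :
    Δ (obeam ν a b k) x = 0 := by
  have e : obeam ν a b k = beam a b k - beam (rf ν a) (rf ν b) k := by
    funext y
    rw [Pi.sub_apply, ← beam_rf]
    rfl
  rw [e, ContDiffAt.laplacian_sub (beam_two a b k x) (beam_two _ _ k x), lap_beam h,
    lap_beam (h.rf hν), sub_zero]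

theorem obeam_of_mem_Pl {ν : E n} (a b : E n) (k : ℕ) {x : E n} (hx : x ∈ Pl ν) :
    obeam ν a b k x = 0 := by
  unfold obeam
  rw [rf_of_mem_Pl hx, sub_self]

theorem norm_beam_sq (a b : E n) (k : ℕ) (x : E n) :
    ‖beam a b k x‖ ^ 2 = (⟪x, a⟫ ^ 2 + ⟪x, b⟫ ^ 2) ^ k := by
  unfold beam
  rw [norm_pow, ← pow_mul, mul_comm k 2, pow_mul, Complex.sq_norm, Complex.normSq_add_mul_I]

theorem beam_neg_mul (a b : E n) (k : ℕ) (x : E n) :
    beam a (-b) k x * beam a b k x = (((⟪x, a⟫ ^ 2 + ⟪x, b⟫ ^ 2) ^ k : ℝ) : ℂ) := by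
  unfold beam
  rw [← mul_pow, inner_neg_right]
  push_cast
  congr 1
  linear_combination (-((⟪x, b⟫ : ℝ) : ℂ) ^ 2) * Complex.I_sq

theorem beam_neg_conj (a b : E n) (k : ℕ) (x : E n) :
    beam a (-b) k x = (starRingEnd ℂ) (beam a b k x) := by
  unfold beam
  rw [inner_neg_right]
  simp

theorem norm_beam_neg (a b : E n) (k : ℕ) (x : E n) : ‖beam a (-b) k x‖ = ‖beam a b k x‖ := by
  rw [beam_neg_conj, Complex.norm_conj]

theorem norm_obeam_neg (ν a b : E n) (k : ℕ) (x : E n) :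
    ‖obeam ν a (-b) k x‖ = ‖obeam ν a b k x‖ := by
  unfold obeam
  rw [beam_neg_conj, beam_neg_conj, ← map_sub, Complex.norm_conj]

theorem beam_norm_le {a b : E n} (h : ON a b) (k : ℕ) (x : E n) : ‖beam a b k x‖ ≤ ‖x‖ ^ k := by
  refine (pow_le_pow_iff_left₀ (norm_nonneg _) (by positivity) two_ne_zero).1 ?_
  rw [norm_beam_sq, ← pow_mul, mul_comm k 2, pow_mul]
  exact pow_le_pow_left₀ (by positivity) (h.sq_le x) k

theorem norm_obeam_le {ν a b : E n} (hν : ‖ν‖ = 1) (h : ON a b) (k : ℕ) (x : E n) :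
    ‖obeam ν a b k x‖ ≤ 2 * ‖x‖ ^ k := by
  have h₁ := beam_norm_le h k x
  have h₂ := beam_norm_le h k (rf ν x)
  rw [norm_rf hν] at h₂
  exact (norm_sub_le _ _).trans (by linarith)

theorem norm_obeam_sq_le {ν : E n} (hν : ‖ν‖ = 1) (a b : E n) (k : ℕ) {x : E n} (hx : x ≠ 0) :
    ‖obeam ν a b k x‖ ^ 2 ≤
      2 * ‖x‖ ^ (2 * k + n - 2) * (kap a b k x + kap a b k (rf ν x)) := by
  have hr : 0 < ‖x‖ ^ (2 * k + n - 2) := pow_pos (norm_pos_iff.2 hx) _
  have e : 2 * ‖x‖ ^ (2 * k + n - 2) * (kap a b k x + kap a b k (rf ν x)) =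
      2 * (‖beam a b k x‖ ^ 2 + ‖beam a b k (rf ν x)‖ ^ 2) := by
    unfold kap
    rw [norm_rf hν, norm_beam_sq, norm_beam_sq]
    field_simp
  rw [e]
  have h₁ : ‖obeam ν a b k x‖ ≤ ‖beam a b k x‖ + ‖beam a b k (rf ν x)‖ := norm_sub_le _ _
  refine (pow_le_pow_left₀ (norm_nonneg _) h₁ 2).trans ?_
  nlinarith [sq_nonneg (‖beam a b k x‖ - ‖beam a b k (rf ν x)‖)]

theorem kap_neg (a b : E n) (k : ℕ) : kap a (-b) k = kap a b k := by
  funext x
  unfold kap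
  rw [inner_neg_right, neg_sq]

theorem mass_neg (a b : E n) (k : ℕ) : mass a (-b) k = mass a b k := by
  unfold mass
  rw [kap_neg]

theorem kap_smul (hn : 3 ≤ n) (a b : E n) (k : ℕ) {t : ℝ} (ht : 0 < t) (x : E n) :
    kap a b k (t • x) = (t ^ (n - 2))⁻¹ * kap a b k x := by
  unfold kap
  have e : 2 * k + n - 2 = 2 * k + (n - 2) := by omega
  rw [real_inner_smul_left, real_inner_smul_left, norm_smul, Real.norm_of_nonneg ht.le, mul_pow t,
    mul_pow t, ← mul_add, mul_pow, mul_pow, e, pow_add t, pow_mul t]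
  have h₁ : (t ^ 2) ^ k ≠ 0 := by positivity
  have h₂ : t ^ (n - 2) ≠ 0 := by positivity
  rw [mul_assoc, mul_div_mul_left _ _ h₁, inv_mul_eq_div, div_div, mul_comm]

theorem kap_le (hn : 3 ≤ n) {a b : E n} (h : ON a b) (k : ℕ) (x : E n) :
    kap a b k x ≤ (‖x‖ ^ (n - 2))⁻¹ := by
  unfold kap
  have e : 2 * k + n - 2 = 2 * k + (n - 2) := by omega
  rcases eq_or_ne x 0 with rfl | hx
  · rw [norm_zero, zero_pow (by omega), zero_pow (by omega), div_zero, inv_zero]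
  · have hr : 0 < ‖x‖ := norm_pos_iff.2 hx
    rw [e, pow_add, pow_mul, div_le_iff₀ (by positivity), mul_comm ((‖x‖ ^ 2) ^ k),
      inv_mul_cancel_left₀ (by positivity)]
    exact pow_le_pow_left₀ (by positivity) (h.sq_le x) k

theorem beam_tail (hn : 3 ≤ n) {r : ℝ} (hr : 1 ≤ r) :
    ((1 + r ^ 2) ^ 2)⁻¹ * (r ^ (n - 2))⁻¹ ≤ 2 ^ (n + 2) * (1 + r) ^ (-((n + 2 : ℕ) : ℝ)) := by
  have h0 : 0 < r := by linarith
  rw [Real.rpow_neg (by positivity), Real.rpow_natCast, ← mul_inv, ← div_eq_mul_inv, ← one_div,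
    div_le_div_iff₀ (by positivity) (by positivity), one_mul]
  have e : n + 2 = 2 * 2 + (n - 2) := by omega
  calc (1 + r) ^ (n + 2) ≤ (2 * r) ^ (n + 2) := pow_le_pow_left₀ (by positivity) (by linarith) _
    _ = 2 ^ (n + 2) * ((r ^ 2) ^ 2 * r ^ (n - 2)) := by
      rw [mul_pow, ← pow_mul, ← pow_add, ← e]
    _ ≤ 2 ^ (n + 2) * ((1 + r ^ 2) ^ 2 * r ^ (n - 2)) := by gcongr; linarith

theorem integrable_wt_kap (hn : 3 ≤ n) {a b : E n} (h : ON a b) (k : ℕ) :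
    Integrable fun x => wt x * kap a b k x := by
  have hm : AEStronglyMeasurable (fun x => wt x * kap a b k x) (volume : Measure (E n)) :=
    (continuous_wt.measurable.mul (measurable_kap a b k)).aestronglyMeasurable
  have hd : Module.finrank ℝ (E n) = n := finrank_euclideanSpace_fin
  have hnn : ∀ x : E n, ‖wt x * kap a b k x‖ = wt x * kap a b k x := fun x =>
    Real.norm_of_nonneg (mul_nonneg (wt_pos x).le (kap_nonneg a b k x))
  rw [← integrableOn_univ, ← union_compl_self (ball (0 : E n) 1)]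
  refine IntegrableOn.union ?_ ?_
  · refine integrableOn_ball_of_norm_le_rpow (C := 1) (α := ((n - 2 : ℕ) : ℝ)) (by omega) ?_
      (Eventually.of_forall fun x => ?_) hm
    · rw [hd]
      exact_mod_cast (by omega : n - 2 < n)
    · rw [hnn, Real.rpow_neg (norm_nonneg _), Real.rpow_natCast]
      exact mul_le_mul (wt_le_one x) (kap_le hn h k x) (kap_nonneg a b k x) zero_le_one
  · have hi : Integrable (fun x : E n => 2 ^ (n + 2) * (1 + ‖x‖) ^ (-((n + 2 : ℕ) : ℝ))) :=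
      (integrable_one_add_norm (by rw [hd]; exact_mod_cast (by omega : n < n + 2))).const_mul _
    refine hi.integrableOn.mono' hm.restrict ?_
    refine (ae_restrict_iff' measurableSet_ball.compl).2 (Eventually.of_forall fun x hx => ?_)
    rw [hnn]
    refine le_trans ?_ (beam_tail hn (r := ‖x‖) (by simpa using hx))
    exact mul_le_mul_of_nonneg_left (kap_le hn h k x) (wt_pos x).le

theorem mass_pos (hn : 3 ≤ n) {a b : E n} (h : ON a b) (k : ℕ) : 0 < mass a b k := by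
  unfold mass
  rw [integral_pos_iff_support_of_nonneg
    (fun x => mul_nonneg (wt_pos x).le (kap_nonneg a b k x)) (integrable_wt_kap hn h k)]
  have ha : a ∈ Hs a := by
    change 0 < ⟪a, a⟫
    rw [real_inner_self_eq_norm_sq, h.1]
    norm_num
  refine ((isOpen_Hs a).measure_pos volume ⟨a, ha⟩).trans_le (measure_mono fun x hx => ?_)
  have h₁ : 0 < ⟪x, a⟫ := hx
  have h₂ : 0 < ‖x‖ := norm_pos_iff.2 (by rintro rfl; simp at h₁)
  refine (mul_pos (wt_pos x) ?_).ne'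
  unfold kap
  positivity

theorem lintegral_wt_kap (hn : 3 ≤ n) {ν a b : E n} (hν : ‖ν‖ = 1) (h : ON a b) (k : ℕ) {c : ℝ}
    (hc : 0 ≤ c) : ∫⁻ x, ENNReal.ofReal (c * (wt x * (kap a b k x + kap a b k (rf ν x)))) =
      ENNReal.ofReal (2 * c * mass a b k) := by
  have h₁ := integrable_wt_kap hn h k
  have h₂ := integrable_rf hν h₁
  have hw : ∀ x, wt (rf ν x) = wt x := fun x => by
    unfold wt
    rw [norm_rf hν]
  have e : ∀ x, c * (wt x * (kap a b k x + kap a b k (rf ν x))) =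
      c * (wt x * kap a b k x + wt (rf ν x) * kap a b k (rf ν x)) := fun x => by
    rw [hw, mul_add (wt x)]
  have h₃ : Integrable fun x =>
      c * (wt x * kap a b k x + wt (rf ν x) * kap a b k (rf ν x)) := (h₁.add h₂).const_mul c
  simp only [e]
  rw [← ofReal_integral_eq_lintegral_ofReal h₃
    (Eventually.of_forall fun x => mul_nonneg hc (add_nonneg
      (mul_nonneg (wt_pos _).le (kap_nonneg a b k _))
      (mul_nonneg (wt_pos _).le (kap_nonneg a b k _)))),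
    integral_const_mul, integral_add h₁ h₂, integral_rf hν fun x => wt x * kap a b k x]
  unfold mass
  congr 1
  ring

end Pool.Agent.MP_71da5e_an

end

section

namespace Pool.Agent.MP_71da5e_an

open MeasureTheory Metric Set Laplacian Filter Topology
open scoped ContDiff ENNReal RealInnerProductSpace

variable {n : ℕ}

theorem kbeam_eq (hn : 3 ≤ n) (ν a b : E n) (k : ℕ) {x : E n} (hx : x ≠ 0) :
    kbeam ν a b k x = kel 0 1 (obeam ν a b k) x := by
  have h0 : ‖x‖ ≠ 0 := norm_ne_zero_iff.2 hx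
  have h1 : ((‖x‖ : ℝ) : ℂ) ≠ 0 := Complex.ofReal_ne_zero.2 h0
  have e : 2 * k + n - 2 = 2 * k + (n - 2) := by omega
  simp only [kbeam, kel, inv, sub_zero, zero_add, obeam_smul, e]
  push_cast
  rw [pow_add, pow_mul, div_pow, div_pow, one_pow, one_pow, one_pow]
  field_simp

theorem measurable_kbeam (ν a b : E n) (k : ℕ) : Measurable (kbeam ν a b k) := by
  unfold kbeam
  exact (contDiff_obeam ν a b k).continuous.measurable.div (by fun_prop)

theorem contDiff_cb (ν a b : E n) (k : ℕ) {ρ : ℝ} (hρ : 0 < ρ) :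
    ContDiff ℝ ∞ (cb ν a b k ρ) := by
  refine contDiff_of_closed (U := {0}ᶜ) (K := {x | ρ ≤ ‖x‖}) isOpen_compl_singleton
    (isClosed_le continuous_const continuous_norm) (fun x hx h => ?_) (fun x hx => ?_)
    fun x hx => ?_
  · rw [mem_singleton_iff.1 h] at hx
    exact absurd hx (by simpa using hρ)
  · have hx' : x ≠ 0 := hx
    refine ContDiffAt.contDiffWithinAt ?_
    unfold cb kbeam
    simp only [div_eq_mul_inv]
    refine (Complex.ofRealCLM.contDiff.contDiffAt.comp x (contDiff_chi ρ).contDiffAt).mul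
      ((contDiff_obeam ν a b k).contDiffAt.mul ((Complex.ofRealCLM.contDiff.contDiffAt.comp x
        ((contDiffAt_norm ℝ hx').pow _)).inv ?_))
    exact Complex.ofReal_ne_zero.2 (pow_ne_zero _ (norm_ne_zero_iff.2 hx'))
  · simp [cb, chi_eq_zero hρ (not_le.1 hx).le]

theorem cb_of_mem_Pl {ν : E n} (a b : E n) (k : ℕ) (ρ : ℝ) {x : E n} (hx : x ∈ Pl ν) :
    cb ν a b k ρ x = 0 := by
  simp [cb, kbeam, obeam_of_mem_Pl a b k hx]

theorem norm_cb_le (hn : 3 ≤ n) {ν a b : E n} (hν : ‖ν‖ = 1) (h : ON a b) (k : ℕ) (ρ : ℝ)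
    (x : E n) : ‖cb ν a b k ρ x‖ ≤ 2 / ‖x‖ ^ (k + n - 2) := by
  have h1 : ‖cb ν a b k ρ x‖ ≤ ‖obeam ν a b k x‖ / ‖x‖ ^ (2 * k + n - 2) := by
    rw [cb, kbeam, norm_mul, norm_div, Complex.norm_real, Complex.norm_real,
      Real.norm_of_nonneg (chi_nonneg ρ x), Real.norm_of_nonneg (by positivity)]
    exact mul_le_of_le_one_left (by positivity) (chi_le_one ρ x)
  refine h1.trans ?_
  have e : 2 * k + n - 2 = k + (k + n - 2) := by omega
  by_cases hx : ‖x‖ = 0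
  · rw [hx, zero_pow (by omega), zero_pow (by omega), div_zero, div_zero]
  · calc _ ≤ 2 * ‖x‖ ^ k / ‖x‖ ^ (2 * k + n - 2) := by
          gcongr; exact norm_obeam_le hν h k x
      _ = _ := by rw [e, pow_add]; field_simp

theorem kel_cb (hn : 3 ≤ n) (ν a b : E n) (k : ℕ) (ρ : ℝ) {x : E n} (hx : x ≠ 0) :
    kel 0 1 (cb ν a b k ρ) x = chi ρ (inv 0 1 x) * obeam ν a b k x := by
  rw [← kel_kel (c := 0) one_pos (obeam ν a b k) hx, kel, kel, cb,
    kbeam_eq hn ν a b k (inv_ne one_pos hx)]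
  ring

theorem beamB_scale (hn : 3 ≤ n) (ν a b : E n) (k : ℕ) {ρ : ℝ} (hρ : 0 < ρ) :
    cb ν a b k ρ = (ρ ^ (k + n - 2))⁻¹ • fun y => cb ν a b k 1 (0 + ρ⁻¹ • y) := by
  funext x
  have h1 : (ρ : ℂ) ≠ 0 := Complex.ofReal_ne_zero.2 hρ.ne'
  have e : 2 * k + n - 2 = k + (k + n - 2) := by omega
  have e1 : chi 1 (ρ⁻¹ • x) = chi ρ x := by simp [chi]
  simp only [Pi.smul_apply, zero_add, cb, kbeam, obeam_smul, e1, norm_smul, norm_inv,
    Real.norm_of_nonneg hρ.le, Complex.real_smul, mul_pow]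
  push_cast
  rw [inv_pow, inv_pow, e, pow_add (ρ : ℂ)]
  field_simp

theorem lap_cb (hn : 3 ≤ n) {ν a b : E n} (hν : ‖ν‖ = 1) (h : ON a b) (k : ℕ) : ∃ G : ℝ, 0 ≤ G ∧
    ∀ ρ : ℝ, 0 < ρ → ∀ x, ‖Δ (cb ν a b k ρ) x‖ ≤ G / ρ ^ (n + k) ∧
      (‖x‖ < ρ ∨ 2 * ρ < ‖x‖ → Δ (cb ν a b k ρ) x = 0) := by
  have hz : ∀ ρ : ℝ, 0 < ρ → ∀ x, ‖x‖ < ρ ∨ 2 * ρ < ‖x‖ → Δ (cb ν a b k ρ) x = 0 := by
    rintro ρ hρ x (hx | hx)
    · refine lap_eq_zero (notMem_tsupport_iff_eventuallyEq.2 ?_)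
      filter_upwards [(isOpen_lt continuous_norm continuous_const).mem_nhds hx] with y hy
      simp [cb, chi_eq_zero hρ (le_of_lt hy)]
    · have h0 : ∀ y : E n, 2 * ρ < ‖y‖ → y ≠ 0 := fun y hy e => by
        rw [e, norm_zero] at hy; linarith
      have e : cb ν a b k ρ =ᶠ[𝓝 x] kel 0 1 (obeam ν a b k) := by
        filter_upwards [(isOpen_lt continuous_const continuous_norm).mem_nhds hx] with y hy
        rw [cb, chi_eq_one hρ (le_of_lt hy), kbeam_eq hn ν a b k (h0 y hy)]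
        simp
      rw [lap_congr e, lap_kel hn one_pos (h0 x hx)
        ((contDiff_obeam ν a b k).contDiffAt.of_le (by norm_cast)), kel,
        lap_obeam hν h]
      simp
  obtain ⟨C, hC⟩ := (isCompact_closedBall (0 : E n) 2).exists_bound_of_continuousOn
    (contDiff_lap (contDiff_cb ν a b k one_pos)).continuous.continuousOn
  have hC0 : 0 ≤ C := (norm_nonneg _).trans (hC 0 (by simp))
  have hG : ∀ y, ‖Δ (cb ν a b k 1) y‖ ≤ C := fun y => by
    by_cases hy : ‖y‖ ≤ 2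
    · exact hC y (by simpa using hy)
    · rw [hz 1 one_pos y (Or.inr (by linarith)), norm_zero]; exact hC0
  refine ⟨C, hC0, fun ρ hρ x => ⟨?_, hz ρ hρ x⟩⟩
  have h2 : ∀ y, ContDiffAt ℝ 2 (cb ν a b k 1) y := fun y =>
    (contDiff_cb ν a b k one_pos).contDiffAt.of_le (by norm_cast)
  have h3 : ContDiffAt ℝ 2 (fun y : E n => cb ν a b k 1 (0 + ρ⁻¹ • y)) x :=
    (h2 _).comp x (by fun_prop)
  rw [beamB_scale hn ν a b k hρ, InnerProductSpace.laplacian_smul _ h3, lap_affine _ _ (h2 _),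
    norm_smul, norm_smul, Real.norm_of_nonneg (by positivity), Real.norm_of_nonneg (by positivity)]
  have e : n + k = (k + n - 2) + 2 := by omega
  calc _ ≤ (ρ ^ (k + n - 2))⁻¹ * (ρ⁻¹ ^ 2 * C) := by gcongr; exact hG _
    _ = _ := by rw [e, pow_add]; field_simp

theorem Q_cb_ne_top (hn : 3 ≤ n) {ν a b : E n} (hν : ‖ν‖ = 1) (h : ON a b) {k : ℕ} (hk : 4 ≤ k)
    {ρ : ℝ} (hρ : 0 < ρ) : Q (fun x => (wt x)⁻¹) (cb ν a b k ρ) ≠ ⊤ := by
  set m := k + n - 2 with hm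
  set c : ℝ := 1 + ρ⁻¹ with hc
  have hc0 : 0 < c := by positivity
  have key : ∀ x : E n, (wt x)⁻¹ * ‖cb ν a b k ρ x‖ ^ 2 ≤
      4 * c ^ (2 * m) * (1 + ‖x‖) ^ (-((n + 1 : ℕ) : ℝ)) := fun x => by
    have h1 : 0 < 1 + ‖x‖ := by positivity
    by_cases hx : ‖x‖ ≤ ρ
    · rw [cb, chi_eq_zero hρ hx]
      simp only [Complex.ofReal_zero, zero_mul, norm_zero, ne_eq, OfNat.ofNat_ne_zero,
        not_false_eq_true, zero_pow, mul_zero]
      positivity
    · have hx' : ρ < ‖x‖ := not_le.1 hx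
      have hr : 0 < ‖x‖ := hρ.trans hx'
      have h2 : 1 + ‖x‖ ≤ c * ‖x‖ := by
        rw [hc, add_mul, one_mul, add_comm, add_le_add_iff_left]
        exact (one_le_inv_mul₀ hρ).2 hx'.le
      have h3 : (1 + ‖x‖ ^ 2) ^ 2 * (1 + ‖x‖) ^ (n + 1) ≤ c ^ (2 * m) * (‖x‖ ^ m) ^ 2 := by
        calc _ ≤ ((1 + ‖x‖) ^ 2) ^ 2 * (1 + ‖x‖) ^ (n + 1) := by
              gcongr; nlinarith
          _ = (1 + ‖x‖) ^ (n + 5) := by ring
          _ ≤ (1 + ‖x‖) ^ (2 * m) := pow_le_pow_right₀ (by linarith) (by omega)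
          _ ≤ (c * ‖x‖) ^ (2 * m) := by gcongr
          _ = _ := by rw [mul_pow, pow_mul' ‖x‖]
      rw [Real.rpow_neg h1.le, Real.rpow_natCast, wt, inv_inv]
      calc _ ≤ (1 + ‖x‖ ^ 2) ^ 2 * (2 / ‖x‖ ^ m) ^ 2 := by
            gcongr; exact norm_cb_le hn hν h k ρ x
        _ ≤ _ := by
            rw [← div_eq_mul_inv, div_pow, ← mul_div_assoc,
              div_le_div_iff₀ (by positivity) (by positivity)]
            nlinarith
  refine ne_top_of_le_ne_top ?_ (lintegral_mono fun x => ENNReal.ofReal_le_ofReal (key x))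
  simp only [ENNReal.ofReal_mul (show (0 : ℝ) ≤ 4 * c ^ (2 * m) by positivity)]
  rw [lintegral_const_mul' _ _ ENNReal.ofReal_ne_top]
  exact ENNReal.mul_ne_top ENNReal.ofReal_ne_top
    (finite_integral_one_add_norm (by simp)).ne

theorem wl2_cb (hn : 3 ≤ n) {ν a b : E n} (hν : ‖ν‖ = 1) (h : ON a b) {k : ℕ} (hk : 4 ≤ k)
    {ρ : ℝ} (hρ : 0 < ρ) : WL2 (cb ν a b k ρ) :=
  ⟨(contDiff_cb ν a b k hρ).continuous.measurable, ne_top_of_le_ne_top
    (Q_cb_ne_top hn hν h hk hρ) (Q_mono_left _ fun x =>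
      (wt_le_one x).trans ((one_le_inv₀ (wt_pos x)).2 (wt_le_one x)))⟩

end Pool.Agent.MP_71da5e_an

end

section

namespace Pool.Agent.MP_71da5e_an

open MeasureTheory Metric Set Laplacian Filter Topology
open scoped ContDiff ENNReal RealInnerProductSpace

variable {n : ℕ}

theorem testl_supp {φ : E n → ℂ} {R : ℝ} (h : ∀ x, R < ‖x‖ → φ x = 0) : HasCompactSupport φ :=
  HasCompactSupport.intro (isCompact_closedBall (0 : E n) R) fun x hx =>
    h x (by simpa using hx)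

theorem testl_int_lap (hn : 3 ≤ n) {ν a b : E n} (hν : ‖ν‖ = 1) (h : ON a b) (k : ℕ)
    {ρ : ℝ} (hρ : 0 < ρ) {w : E n → ℂ} (hw : WL2 w) :
    Integrable fun x => Δ (cb ν a b k ρ) x * w x := by
  obtain ⟨G, -, hG⟩ := lap_cb hn hν h k
  have := hw.integrable_mul (contDiff_lap (contDiff_cb ν a b k hρ)).continuous
    (testl_supp (R := 2 * ρ) fun x hx => (hG ρ hρ x).2 (Or.inr hx))
  simpa only [mul_comm] using this

theorem testl_int_cb (hn : 3 ≤ n) {ν a b : E n} (hν : ‖ν‖ = 1) (h : ON a b) {k : ℕ} (hk : 4 ≤ k)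
    {ρ : ℝ} (hρ : 0 < ρ) {F : E n → ℂ} (hF : WL2 F) :
    Integrable fun x => cb ν a b k ρ x * F x :=
  cs_integrable continuous_wt.measurable wt_pos (contDiff_cb ν a b k hρ).continuous.measurable
    hF.1 (Q_cb_ne_top hn hν h hk hρ) hF.2

theorem testl_const (hn : 3 ≤ n) {ν a b : E n} (hν : ‖ν‖ = 1) (h : ON a b) {k : ℕ} (hk : 4 ≤ k)
    {ρ S : ℝ} (hρ : 0 < ρ) (hS : 0 < S) {G : Set (E n)} {w F : E n → ℂ} (hw : HP ν G w F) :
    (∫ x, cb ν a b k ρ x * F x) - ∫ x, Δ (cb ν a b k ρ) x * w x =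
      (∫ x, cb ν a b k S x * F x) - ∫ x, Δ (cb ν a b k S) x * w x := by
  have c1 := contDiff_cb ν a b k hρ
  have c2 := contDiff_cb ν a b k hS
  have hT : Tst (cb ν a b k ρ - cb ν a b k S) := by
    refine ⟨c1.sub c2, testl_supp (R := 2 * ρ + 2 * S) fun x hx => ?_⟩
    simp only [Pi.sub_apply, cb]
    rw [chi_eq_one hρ (by linarith), chi_eq_one hS (by linarith), sub_self]
  have h0 := hw.weak _ hT (Or.inl fun x hx => by
    rw [Pi.sub_apply, cb_of_mem_Pl a b k ρ hx, cb_of_mem_Pl a b k S hx, sub_self])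
  rw [pair_eq hw.l2w hw.l2F hT] at h0
  have e1 : ∫ x, F x * (cb ν a b k ρ - cb ν a b k S) x =
      (∫ x, cb ν a b k ρ x * F x) - ∫ x, cb ν a b k S x * F x := by
    rw [← integral_sub (testl_int_cb hn hν h hk hρ hw.l2F) (testl_int_cb hn hν h hk hS hw.l2F)]
    refine integral_congr_ae (Eventually.of_forall fun x => ?_)
    simp only [Pi.sub_apply]; ring
  have e2 : ∫ x, w x * Δ (cb ν a b k ρ - cb ν a b k S) x =
      (∫ x, Δ (cb ν a b k ρ) x * w x) - ∫ x, Δ (cb ν a b k S) x * w x := by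
    rw [← integral_sub (testl_int_lap hn hν h k hρ hw.l2w) (testl_int_lap hn hν h k hS hw.l2w)]
    refine integral_congr_ae (Eventually.of_forall fun x => ?_)
    have := ContDiffAt.laplacian_sub (x := x) (c1.contDiffAt.of_le (by norm_cast))
      (c2.contDiffAt.of_le (by norm_cast))
    simp only [this]; ring
  rw [e1, e2] at h0
  linear_combination h0

theorem testl_lim_cb (hn : 3 ≤ n) {ν a b : E n} (hν : ‖ν‖ = 1) (h : ON a b) {k : ℕ} (hk : 4 ≤ k)
    {F : E n → ℂ} (hF : WL2 F) :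
    Tendsto (fun S : ℝ => ∫ x, cb ν a b k S x * F x) atTop (𝓝 0) := by
  have hz : ∀ S : ℝ, 0 < S → ∀ x : E n, ‖x‖ ≤ S → cb ν a b k S x = 0 := fun S hS x hx => by
    simp [cb, chi_eq_zero hS hx]
  have := tendsto_integral_filter_of_dominated_convergence (μ := volume) (l := atTop)
    (F := fun (S : ℝ) x => cb ν a b k S x * F x) (f := fun _ => 0)
    (fun x => ‖cb ν a b k 1 x * F x‖)
    ((eventually_gt_atTop 0).mono fun S hS =>
      (testl_int_cb hn hν h hk hS hF).aestronglyMeasurable)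
    ((eventually_ge_atTop 2).mono fun S hS => Eventually.of_forall fun x => by
      rcases le_or_gt ‖x‖ S with hx | hx
      · rw [hz S (by linarith) x hx, zero_mul, norm_zero]; exact norm_nonneg _
      · simp only [cb, norm_mul, chi_eq_one one_pos (x := x) (by linarith), Complex.norm_real,
          norm_one, Real.norm_of_nonneg (chi_nonneg S x)]
        gcongr
        exact chi_le_one S x)
    (testl_int_cb hn hν h hk one_pos hF).norm
    (Eventually.of_forall fun x => tendsto_const_nhds.congr' (by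
      filter_upwards [eventually_gt_atTop 0, eventually_ge_atTop ‖x‖] with S h1 h2
      rw [hz S h1 x h2, zero_mul]))
  simpa using this

theorem testl_ineq {S G V : ℝ} (hS : 1 ≤ S) (hV : 0 ≤ V) {n k : ℕ} (hn : 3 ≤ n) (hk : 4 ≤ k) :
    (1 + (2 * S) ^ 2) ^ 2 * (G / S ^ (n + k)) ^ 2 * (2 * S) ^ n * V ≤
      25 * G ^ 2 * 2 ^ n * V * S⁻¹ := by
  have h0 : 0 < S := by linarith
  have h1 : (1 + (2 * S) ^ 2) ^ 2 ≤ 25 * S ^ 4 := by
    have : 1 + (2 * S) ^ 2 ≤ 5 * S ^ 2 := by nlinarith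
    calc (1 + (2 * S) ^ 2) ^ 2 ≤ (5 * S ^ 2) ^ 2 := by gcongr
      _ = 25 * S ^ 4 := by ring
  have h2 : S ^ (n + 5) ≤ (S ^ (n + k)) ^ 2 := by
    rw [← pow_mul]; exact pow_le_pow_right₀ hS (by omega)
  calc (1 + (2 * S) ^ 2) ^ 2 * (G / S ^ (n + k)) ^ 2 * (2 * S) ^ n * V
      ≤ 25 * S ^ 4 * (G ^ 2 / S ^ (n + 5)) * (2 * S) ^ n * V := by
        rw [div_pow]; gcongr
    _ = 25 * G ^ 2 * 2 ^ n * V * S⁻¹ := by
        rw [mul_pow, pow_add]; field_simp

theorem testl_lim_lap (hn : 3 ≤ n) {ν a b : E n} (hν : ‖ν‖ = 1) (h : ON a b) {k : ℕ} (hk : 4 ≤ k)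
    {w : E n → ℂ} (hw : WL2 w) :
    Tendsto (fun S : ℝ => ∫ x, Δ (cb ν a b k S) x * w x) atTop (𝓝 0) := by
  obtain ⟨G, hG0, hG⟩ := lap_cb hn hν h k
  obtain ⟨V, hV⟩ : ∃ V, V = (volume (closedBall (0 : E n) 1)).toReal := ⟨_, rfl⟩
  have hV0 : 0 ≤ V := hV ▸ ENNReal.toReal_nonneg
  have hl : Tendsto (fun S : ℝ => √(25 * G ^ 2 * 2 ^ n * V * S⁻¹) * √(Q wt w).toReal) atTop
      (𝓝 0) := by
    have := ((tendsto_inv_atTop_zero.const_mul (25 * G ^ 2 * 2 ^ n * V)).sqrt).mul_const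
      √(Q wt w).toReal
    simpa only [mul_zero, Real.sqrt_zero, zero_mul] using this
  refine squeeze_zero_norm' ?_ hl
  filter_upwards [eventually_ge_atTop 1] with S hS
  have h0 : 0 < S := by linarith
  refine cs_real continuous_wt.measurable wt_pos
    (contDiff_lap (contDiff_cb ν a b k h0)).continuous.measurable hw.1 (by positivity)
    ENNReal.toReal_nonneg ?_ (ENNReal.ofReal_toReal hw.2).ge
  refine (Q_le_ball (c := (1 + (2 * S) ^ 2) ^ 2 * (G / S ^ (n + k)) ^ 2) (R := 2 * S)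
    (by positivity) (by positivity) (fun x => ?_) fun x hx => ?_).trans
    (ENNReal.ofReal_le_ofReal (by rw [← hV]; exact testl_ineq hS hV0 hn hk))
  · rcases le_or_gt ‖x‖ (2 * S) with hx | hx
    · have := (hG S h0 x).1
      rw [wt, inv_inv]
      gcongr
    · rw [(hG S h0 x).2 (Or.inr hx), norm_zero, zero_pow two_ne_zero, mul_zero]
      positivity
  · rw [(hG S h0 x).2 (Or.inr hx), norm_zero, zero_pow two_ne_zero, mul_zero]

theorem test_id (hn : 3 ≤ n) {ν a b : E n} (hν : ‖ν‖ = 1) (h : ON a b) {k : ℕ} (hk : 4 ≤ k)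
    {ρ : ℝ} (hρ : 0 < ρ) {G : Set (E n)} {w F : E n → ℂ} (hw : HP ν G w F) :
    ∫ x, cb ν a b k ρ x * F x = ∫ x, Δ (cb ν a b k ρ) x * w x := by
  have h1 := (testl_lim_cb hn hν h hk hw.l2F).sub (testl_lim_lap hn hν h hk hw.l2w)
  rw [sub_zero] at h1
  exact sub_eq_zero.1 (tendsto_nhds_unique (tendsto_const_nhds.congr'
    ((eventually_gt_atTop 0).mono fun S hS => testl_const hn hν h hk hρ hS hw)) h1)

theorem test_idq (hn : 3 ≤ n) {ν a b : E n} (hν : ‖ν‖ = 1) (h : ON a b) {k : ℕ} (hk : 4 ≤ k)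
    {ρ : ℝ} (hρ : 0 < ρ) {G : Set (E n)} {A : ℝ} {q w g : E n → ℂ} (hq : Dec A q)
    (hw : HP ν G w fun x => g x + q x * w x) :
    ∫ x, cb ν a b k ρ x * g x =
      ∫ x, (Δ (cb ν a b k ρ) x - q x * cb ν a b k ρ x) * w x := by
  have h1 := test_id hn hν h hk hρ hw
  have i1 := testl_int_cb hn hν h hk hρ hw.l2F
  have i2 := testl_int_cb hn hν h hk hρ (hw.l2w.dec hq)
  have i3 := testl_int_lap hn hν h k hρ hw.l2w
  calc ∫ x, cb ν a b k ρ x * g x
      = ∫ x, (cb ν a b k ρ x * (g x + q x * w x) - cb ν a b k ρ x * (q x * w x)) :=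
        integral_congr_ae (Eventually.of_forall fun x => by ring)
    _ = ∫ x, (Δ (cb ν a b k ρ) x * w x - cb ν a b k ρ x * (q x * w x)) := by
        rw [integral_sub i1 i2, integral_sub i3 i2, h1]
    _ = _ := integral_congr_ae (Eventually.of_forall fun x => by ring)

end Pool.Agent.MP_71da5e_an

end

section

namespace Pool.Agent.MP_71da5e_an

open MeasureTheory Metric Set Laplacian Filter Topology
open scoped ContDiff ENNReal RealInnerProductSpace

variable {n : ℕ}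

/-- The average of `q` over translations along the hyperplane and dilations. -/
noncomputable def avg (ν : E n) (f : E n → ℝ) (q : E n → ℂ) (x : E n) : ℂ :=
  ∫ w, f w • q (⟪w, ν⟫ • x + (w - ⟪w, ν⟫ • ν))

theorem avg_nu (ν : E n) (f : E n → ℝ) (q : E n → ℂ) : avg ν f q ν = ∫ w, f w • q w := by
  simp [avg]

lemma avgA_wt {l W : ℝ} (hl : 0 < l) (hl1 : l ≤ 1) {t : ℝ} (ht : l ≤ t) (x z : E n)
    (hz : ‖z‖ ≤ W) : wt (t • x + z) ≤ (2 * (1 + W ^ 2)) ^ 2 * (l ^ 4)⁻¹ * wt x := by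
  have h1 : wt (t • x) ≤ (l ^ 4)⁻¹ * wt x := by
    rw [wt, wt, ← mul_inv, norm_smul, Real.norm_of_nonneg (hl.le.trans ht)]
    refine inv_anti₀ (by positivity) ?_
    rw [show l ^ 4 * (1 + ‖x‖ ^ 2) ^ 2 = (l ^ 2 + (l * ‖x‖) ^ 2) ^ 2 by ring]
    gcongr
    exact pow_le_one₀ hl.le hl1
  have h2 := (wt_pos (t • x)).le
  refine (wt_add_le z _).trans ?_
  rw [mul_assoc]
  gcongr

theorem dec_avg {ν : E n} (hν : ‖ν‖ = 1) {f : E n → ℝ} (hf : Continuous f)
    (hc : HasCompactSupport f) (hs : tsupport f ⊆ Hs ν) {A : ℝ} {q : E n → ℂ} (hq : Dec A q) :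
    ∃ A', Dec A' (avg ν f q) := by
  obtain ⟨l, hl, hl1, h⟩ : ∃ l : ℝ, 0 < l ∧ l ≤ 1 ∧ ∀ w ∈ tsupport f, l ≤ ⟪w, ν⟫ := by
    rcases (tsupport f).eq_empty_or_nonempty with h | h
    · exact ⟨1, one_pos, le_rfl, by simp [h]⟩
    · obtain ⟨w, hw, h1⟩ := hc.isCompact.exists_isMinOn h (f := fun w => ⟪w, ν⟫) (by fun_prop)
      exact ⟨min ⟪w, ν⟫ 1, lt_min (hs hw) one_pos, min_le_right _ _,
        fun v hv => (min_le_left _ _).trans (h1 hv)⟩
  obtain ⟨R, hR⟩ := hc.isBounded.subset_closedBall 0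
  have hi := (hf.integrable_of_hasCompactSupport (μ := volume) hc).norm
  refine ⟨(∫ w, ‖f w‖) * (A * ((2 * (1 + (2 * R) ^ 2)) ^ 2 * (l ^ 4)⁻¹)), ?_, fun x => ?_⟩
  · refine (StronglyMeasurable.integral_prod_right
      (f := fun x w => f w • q (⟪w, ν⟫ • x + (w - ⟪w, ν⟫ • ν))) ?_).measurable
    refine Measurable.stronglyMeasurable ?_
    exact (hf.measurable.comp measurable_snd).smul (hq.1.comp (Continuous.measurable (by fun_prop)))
  · rw [mul_assoc, ← integral_mul_const]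
    refine norm_integral_le_of_norm_le (hi.mul_const _) (ae_of_all _ fun w => ?_)
    rw [norm_smul]
    by_cases hw : w ∈ tsupport f
    · refine mul_le_mul_of_nonneg_left ((hq.2 _).trans ?_) (norm_nonneg _)
      rw [mul_assoc]
      refine mul_le_mul_of_nonneg_left (avgA_wt hl hl1 (h w hw) x _ ?_) hq.nonneg
      have h1 : ‖w‖ ≤ R := mem_closedBall_zero_iff.1 (hR hw)
      have h2 := abs_real_inner_le_norm w ν
      refine (norm_sub_le _ _).trans ?_
      rw [norm_smul, hν, Real.norm_eq_abs]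
      rw [hν] at h2
      linarith
    · simp [image_eq_zero_of_notMem_tsupport hw]

/-- The inverse of the linear map `w ↦ ⟪w, ν⟫ • x + (w - ⟪w, ν⟫ • ν)`. -/
noncomputable def avgC (ν x : E n) : E n →L[ℝ] E n :=
  ContinuousLinearMap.id ℝ _ - (innerSL ℝ ν).smulRight (⟪x, ν⟫⁻¹ • (x - ν))

lemma avgC_apply (ν x v : E n) : avgC ν x v = v - ⟪v, ν⟫ • ⟪x, ν⟫⁻¹ • (x - ν) := by
  simp [avgC, real_inner_comm]

lemma avgC_right {ν x : E n} (hν : ‖ν‖ = 1) (hx : ⟪x, ν⟫ ≠ 0) (v : E n) :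
    ⟪avgC ν x v, ν⟫ • x + (avgC ν x v - ⟪avgC ν x v, ν⟫ • ν) = v := by
  have h : ⟪avgC ν x v, ν⟫ = ⟪v, ν⟫ * ⟪x, ν⟫⁻¹ := by
    simp only [avgC_apply, inner_sub_left, real_inner_smul_left, real_inner_self_eq_norm_sq, hν]
    field_simp
    ring
  rw [h, avgC_apply]
  module

lemma avg_eq {ν x : E n} (hν : ‖ν‖ = 1) (hx : ⟪x, ν⟫ ≠ 0) (f : E n → ℝ) (q : E n → ℂ) :
    avg ν f q x = |(avgC ν x).det| • ∫ v, f (avgC ν x v) • q v := by
  have hi : Function.Injective (avgC ν x) := fun v w h => by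
    rw [← avgC_right hν hx v, h, avgC_right hν hx]
  have hs : Function.Surjective (avgC ν x) :=
    LinearMap.injective_iff_surjective (f := (avgC ν x).toLinearMap).1 hi
  have := integral_image_eq_integral_abs_det_fderiv_smul volume MeasurableSet.univ
    (fun v _ => (avgC ν x).hasFDerivAt.hasFDerivWithinAt) hi.injOn
    fun w => f w • q (⟪w, ν⟫ • x + (w - ⟪w, ν⟫ • ν))
  rw [image_univ, hs.range_eq, Measure.restrict_univ, integral_smul] at this
  simp only [avgC_right hν hx] at this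
  exact this

theorem continuousOn_avg {ν : E n} (hν : ‖ν‖ = 1) {f : E n → ℝ} (hf : Continuous f)
    (hc : HasCompactSupport f) {A : ℝ} {q : E n → ℂ} (hq : Dec A q) :
    ContinuousOn (avg ν f q) (Pl ν)ᶜ := by
  intro x₀ hx₀
  have hx₀' : ⟪x₀, ν⟫ ≠ 0 := hx₀
  have hev : ∀ᶠ x in 𝓝 x₀, ⟪x, ν⟫ ≠ 0 := (isClosed_Pl ν).isOpen_compl.mem_nhds hx₀
  have h1 : ContinuousAt (fun x : E n => ⟪x, ν⟫⁻¹ • (x - ν)) x₀ :=
    (ContinuousAt.inv₀ (f := fun x : E n => ⟪x, ν⟫) (by fun_prop) hx₀').smul (by fun_prop)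
  have h2 : ContinuousAt (avgC ν) x₀ :=
    continuousAt_const.sub
      ((ContinuousLinearMap.smulRightL ℝ (E n) (E n) (innerSL ℝ ν)).continuous.continuousAt.comp h1)
  obtain ⟨R, hR0, hR⟩ := hc.isBounded.subset_closedBall_lt 0 0
  obtain ⟨M, hM⟩ := hf.bounded_above_of_compact_support hc
  refine ContinuousAt.continuousWithinAt (ContinuousAt.congr ?_
    (hev.mono fun x hx => (avg_eq hν hx f q).symm))
  refine (ContinuousLinearMap.continuous_det.continuousAt.comp h2).abs.smul ?_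
  refine continuousAt_of_dominated
    (bound := (closedBall 0 (R * (‖x₀‖ + 3))).indicator fun _ => M * A)
    (Eventually.of_forall fun x => ?_) ?_ ?_ (ae_of_all _ fun v => ?_)
  · exact ((hf.comp (avgC ν x).continuous).measurable.smul hq.1).aestronglyMeasurable
  · filter_upwards [hev, ball_mem_nhds x₀ one_pos] with x hx hx1
    refine ae_of_all _ fun v => ?_
    by_cases hv : avgC ν x v ∈ tsupport f
    · have h3 : ‖avgC ν x v‖ ≤ R := mem_closedBall_zero_iff.1 (hR hv)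
      have h4 := abs_real_inner_le_norm (avgC ν x v) ν
      have h5 : ‖x‖ ≤ ‖x₀‖ + 1 := by
        have := norm_le_norm_add_norm_sub' x x₀
        linarith [mem_ball_iff_norm.1 hx1]
      have h6 : ‖v‖ ≤ R * (‖x₀‖ + 3) := by
        rw [← avgC_right hν hx v]
        refine (norm_add_le _ _).trans ((add_le_add le_rfl (norm_sub_le _ _)).trans ?_)
        rw [norm_smul, norm_smul, hν, Real.norm_eq_abs]
        rw [hν] at h4
        have h7 : |⟪avgC ν x v, ν⟫| * ‖x‖ ≤ R * (‖x₀‖ + 1) :=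
          mul_le_mul (by linarith) h5 (norm_nonneg _) hR0.le
        linarith
      rw [indicator_of_mem (mem_closedBall_zero_iff.2 h6), norm_smul]
      exact mul_le_mul (hM _) ((hq.2 v).trans (mul_le_of_le_one_right hq.nonneg (wt_le_one v)))
        (norm_nonneg _) ((norm_nonneg _).trans (hM 0))
    · rw [image_eq_zero_of_notMem_tsupport hv, zero_smul, norm_zero]
      exact indicator_nonneg (fun _ _ => mul_nonneg ((norm_nonneg _).trans (hM 0)) hq.nonneg) v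
  · exact (integrableOn_const measure_closedBall_lt_top.ne).integrable_indicator
      measurableSet_closedBall
  · exact (hf.continuousAt.comp (h2.clm_apply continuousAt_const)).smul continuousAt_const

end Pool.Agent.MP_71da5e_an

end

section

namespace Pool.Agent.MP_71da5e_an

open MeasureTheory Metric Set Laplacian Filter Topology
open scoped ContDiff ENNReal RealInnerProductSpace

variable {n : ℕ}

lemma avgB_wt_smul {l t : ℝ} (hl : 0 < l) (hl1 : l ≤ 1) (ht : l ≤ t) (x : E n) :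
    wt (t • x) ≤ (l ^ 4)⁻¹ * wt x := by
  unfold wt
  rw [← mul_inv, norm_smul, Real.norm_of_nonneg (hl.le.trans ht)]
  refine inv_anti₀ (by positivity) ?_
  have h1 : l ^ 2 * (1 + ‖x‖ ^ 2) ≤ 1 + (t * ‖x‖) ^ 2 := by
    have h2 : l ^ 2 ≤ 1 := pow_le_one₀ hl.le hl1
    have h3 : l ^ 2 ≤ t ^ 2 := pow_le_pow_left₀ hl.le ht 2
    have h4 : l ^ 2 * ‖x‖ ^ 2 ≤ t ^ 2 * ‖x‖ ^ 2 := mul_le_mul_of_nonneg_right h3 (sq_nonneg _)
    nlinarith
  calc l ^ 4 * (1 + ‖x‖ ^ 2) ^ 2 = (l ^ 2 * (1 + ‖x‖ ^ 2)) ^ 2 := by ring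
    _ ≤ _ := pow_le_pow_left₀ (by positivity) h1 2

lemma avgB_scale (hn : 3 ≤ n) (a b : E n) (k : ℕ) (q : E n → ℂ) (y : E n) {t : ℝ} (ht : 0 < t) :
    ∫ x, q (t • x + y) * kap a b k x =
      (((t ^ 2)⁻¹ : ℝ) : ℂ) * ∫ x, q (x + y) * kap a b k x := by
  have h := Measure.integral_comp_smul (volume : Measure (E n))
    (fun x => q (x + y) * (kap a b k x : ℂ)) t
  simp only [kap_smul hn a b k ht, finrank_euclideanSpace, Fintype.card_fin] at h
  have h2 : ∫ x, q (t • x + y) * (((t ^ (n - 2))⁻¹ * kap a b k x : ℝ) : ℂ) =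
      (((t ^ (n - 2))⁻¹ : ℝ) : ℂ) * ∫ x, q (t • x + y) * kap a b k x := by
    rw [← integral_const_mul]
    refine integral_congr_ae (Eventually.of_forall fun x => ?_)
    push_cast
    ring
  rw [h2, abs_of_pos (by positivity), Complex.real_smul] at h
  have h3 : t ^ n = t ^ (n - 2) * t ^ 2 := by
    rw [← pow_add]
    congr 1
    omega
  have h4 : (((t ^ (n - 2))⁻¹ : ℝ) : ℂ) ≠ 0 := by
    exact_mod_cast (by positivity : (t ^ (n - 2))⁻¹ ≠ 0)
  refine mul_left_cancel₀ h4 ?_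
  rw [h, h3, mul_inv]
  push_cast
  ring

lemma avgB_consts {ν : E n} {f : E n → ℝ} (hc : HasCompactSupport f) (hs : tsupport f ⊆ Hs ν) :
    ∃ l W : ℝ, 0 < l ∧ l ≤ 1 ∧ 0 ≤ W ∧ ∀ w, f w ≠ 0 → l ≤ ⟪w, ν⟫ ∧ ‖w‖ ≤ W := by
  obtain ⟨l, hl, hl'⟩ := hc.isCompact.exists_forall_le' (f := fun w : E n => ⟪w, ν⟫)
    (by fun_prop) (a := 0) fun w hw => hs hw
  obtain ⟨W, hW⟩ := hc.isCompact.isBounded.exists_norm_le
  refine ⟨min l 1, max W 0, lt_min hl one_pos, min_le_right _ _, le_max_right _ _, fun w hw => ?_⟩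
  have hw' : w ∈ tsupport f := subset_tsupport f hw
  exact ⟨(min_le_left _ _).trans (hl' w hw'), (hW w hw').trans (le_max_left _ _)⟩

lemma avgB_shift {ν : E n} (hν : ‖ν‖ = 1) {l W : ℝ} (hl : 0 < l) {w z : E n} (hz : z ∈ Pl ν)
    (h₁ : l ≤ ⟪w, ν⟫) (h₂ : ‖w‖ ≤ W) :
    ⟪w, ν⟫ • z + (w - ⟪w, ν⟫ • ν) ∈ Pl ν ∧
      l * ‖z‖ - 2 * W ≤ ‖⟪w, ν⟫ • z + (w - ⟪w, ν⟫ • ν)‖ ∧
      ‖⟪w, ν⟫ • z + (w - ⟪w, ν⟫ • ν)‖ ≤ W * ‖z‖ + 2 * W := by
  have h0 : 0 ≤ ⟪w, ν⟫ := hl.le.trans h₁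
  have h3 : ⟪w, ν⟫ ≤ W := by
    have := real_inner_le_norm w ν
    rw [hν, mul_one] at this
    exact this.trans h₂
  have h4 : ‖w - ⟪w, ν⟫ • ν‖ ≤ 2 * W := by
    have := norm_sub_le w (⟪w, ν⟫ • ν)
    rw [norm_smul, hν, mul_one, Real.norm_of_nonneg h0] at this
    linarith
  have h5 : ‖⟪w, ν⟫ • z‖ = ⟪w, ν⟫ * ‖z‖ := by rw [norm_smul, Real.norm_of_nonneg h0]
  refine ⟨?_, ?_, ?_⟩
  · have hz' : ⟪z, ν⟫ = 0 := hz
    change ⟪⟪w, ν⟫ • z + (w - ⟪w, ν⟫ • ν), ν⟫ = 0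
    rw [inner_add_left, inner_sub_left, real_inner_smul_left, real_inner_smul_left, hz',
      real_inner_self_eq_norm_sq, hν]
    ring
  · have h6 := norm_sub_le (⟪w, ν⟫ • z + (w - ⟪w, ν⟫ • ν)) (w - ⟪w, ν⟫ • ν)
    rw [add_sub_cancel_right, h5] at h6
    have h7 : l * ‖z‖ ≤ ⟪w, ν⟫ * ‖z‖ := mul_le_mul_of_nonneg_right h₁ (norm_nonneg _)
    linarith
  · have h6 := norm_add_le (⟪w, ν⟫ • z) (w - ⟪w, ν⟫ • ν)
    rw [h5] at h6
    have h7 : ⟪w, ν⟫ * ‖z‖ ≤ W * ‖z‖ := mul_le_mul_of_nonneg_right h3 (norm_nonneg _)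
    linarith

theorem tendsto_avg (hn : 3 ≤ n) {ν : E n} (hν : ‖ν‖ = 1) {f : E n → ℝ} (hf : Continuous f)
    (hc : HasCompactSupport f) (hs : tsupport f ⊆ Hs ν) {A : ℝ} {q : E n → ℂ} (hq : Dec A q)
    (R : ℝ) : ∃ R' : ℝ, ∀ a b : E n, ON a b →
      (∀ z ∈ Pl ν, R ≤ ‖z‖ →
        Tendsto (fun k => (∫ x, q (x + z) * kap a b k x) / mass a b k) atTop (𝓝 0)) →
      ∀ z ∈ Pl ν, R' ≤ ‖z‖ →
        Tendsto (fun k => (∫ x, avg ν f q (x + z) * kap a b k x) / mass a b k) atTop (𝓝 0) := by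
  obtain ⟨l, W, hl, hl1, hW, hlW⟩ := avgB_consts hc hs
  refine ⟨(R + 2 * W) / l, fun a b hab hlim z hz hR => ?_⟩
  have hA := hq.nonneg
  have hfi : Integrable f := hf.integrable_of_hasCompactSupport hc
  set ζ : E n → E n := fun w => ⟪w, ν⟫ • z + (w - ⟪w, ν⟫ • ν) with hζ
  set C : ℝ := A * (2 * (1 + (W * ‖z‖ + 2 * W) ^ 2)) ^ 2 * (l ^ 4)⁻¹ with hC
  set G : ℕ → E n → E n → ℂ := fun k x w => f w • q (⟪w, ν⟫ • x + ζ w) * kap a b k x with hG
  have hb : ∀ k x w, ‖G k x w‖ ≤ wt x * kap a b k x * (C * ‖f w‖) := by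
    intro k x w
    by_cases hw : f w = 0
    · simp [hG, hw]
    obtain ⟨h₁, h₂⟩ := hlW w hw
    obtain ⟨-, -, h₃⟩ := avgB_shift hν hl hz h₁ h₂
    have h4 : ‖q (⟪w, ν⟫ • x + ζ w)‖ ≤ C * wt x := by
      have h5 : (2 * (1 + ‖ζ w‖ ^ 2)) ^ 2 ≤ (2 * (1 + (W * ‖z‖ + 2 * W) ^ 2)) ^ 2 := by
        gcongr
      have h6 := (wt_pos (⟪w, ν⟫ • x)).le
      calc ‖q (⟪w, ν⟫ • x + ζ w)‖ ≤ A * wt (⟪w, ν⟫ • x + ζ w) := hq.2 _
        _ ≤ A * ((2 * (1 + ‖ζ w‖ ^ 2)) ^ 2 * wt (⟪w, ν⟫ • x)) :=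
          mul_le_mul_of_nonneg_left (wt_add_le _ _) hA
        _ ≤ A * ((2 * (1 + (W * ‖z‖ + 2 * W) ^ 2)) ^ 2 * ((l ^ 4)⁻¹ * wt x)) :=
          mul_le_mul_of_nonneg_left
            (mul_le_mul h5 (avgB_wt_smul hl hl1 h₁ x) h6 (by positivity)) hA
        _ = C * wt x := by rw [hC]; ring
    have h7 := kap_nonneg a b k x
    calc ‖G k x w‖ = ‖f w‖ * ‖q (⟪w, ν⟫ • x + ζ w)‖ * kap a b k x := by
          simp only [hG, norm_mul, norm_smul, Complex.norm_real, Real.norm_of_nonneg h7]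
      _ ≤ ‖f w‖ * (C * wt x) * kap a b k x := by gcongr
      _ = _ := by ring
  have hm : ∀ k, Measurable (Function.uncurry (G k)) := by
    intro k
    have h1 : Measurable fun p : E n × E n => q (⟪p.2, ν⟫ • p.1 + ζ p.2) :=
      hq.1.comp (by simp only [hζ]; fun_prop)
    have h2 : Measurable fun p : E n × E n => (kap a b k p.1 : ℂ) :=
      Complex.measurable_ofReal.comp ((measurable_kap a b k).comp measurable_fst)
    exact ((hf.measurable.comp measurable_snd).smul h1).mul h2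
  have hi : ∀ k, Integrable (Function.uncurry (G k)) (volume.prod volume) := fun k =>
    ((integrable_wt_kap hn hab k).mul_prod (hfi.norm.const_mul C)).mono'
      (hm k).aestronglyMeasurable (Eventually.of_forall fun p => hb k p.1 p.2)
  have he : ∀ k, (∫ x, avg ν f q (x + z) * kap a b k x) / mass a b k =
      ∫ w, (∫ x, G k x w) / mass a b k := by
    intro k
    rw [integral_div, ← integral_integral_swap (hi k)]
    congr 1
    refine integral_congr_ae (Eventually.of_forall fun x => ?_)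
    simp only [avg, hG, hζ, smul_add, add_assoc]
    rw [integral_mul_const]
  simp only [he]
  have h0 : (0 : ℂ) = ∫ _ : E n, (0 : ℂ) := by simp
  rw [h0]
  refine tendsto_integral_of_dominated_convergence (fun w => C * ‖f w‖)
    (fun k => ((hi k).integral_prod_right.div_const _).aestronglyMeasurable)
    (hfi.norm.const_mul C) (fun k => Eventually.of_forall fun w => ?_)
    (Eventually.of_forall fun w => ?_)
  · have h1 := mass_pos hn hab k
    rw [norm_div, Complex.norm_real, Real.norm_of_nonneg h1.le, div_le_iff₀ h1]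
    calc ‖∫ x, G k x w‖ ≤ ∫ x, wt x * kap a b k x * (C * ‖f w‖) :=
          norm_integral_le_of_norm_le ((integrable_wt_kap hn hab k).mul_const _)
            (Eventually.of_forall fun x => hb k x w)
      _ = _ := by rw [integral_mul_const, mass, mul_comm]
  · by_cases hw : f w = 0
    · simp [hG, hw]
    obtain ⟨h₁, h₂⟩ := hlW w hw
    obtain ⟨h₃, h₄, -⟩ := avgB_shift hν hl hz h₁ h₂
    have h5 : R ≤ ‖ζ w‖ := by
      rw [div_le_iff₀ hl] at hR
      change R ≤ ‖⟪w, ν⟫ • z + (w - ⟪w, ν⟫ • ν)‖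
      linarith
    have h6 := (hlim (ζ w) h₃ h5).const_mul ((f w : ℂ) * (((⟪w, ν⟫ ^ 2)⁻¹ : ℝ) : ℂ))
    rw [mul_zero] at h6
    refine h6.congr fun k => ?_
    have h7 : ∫ x, G k x w = (f w : ℂ) * ∫ x, q (⟪w, ν⟫ • x + ζ w) * kap a b k x := by
      rw [← integral_const_mul]
      refine integral_congr_ae (Eventually.of_forall fun x => ?_)
      simp only [hG, Complex.real_smul, mul_assoc]
    rw [h7, avgB_scale hn a b k q (ζ w) (hl.trans_le h₁)]
    ring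

end Pool.Agent.MP_71da5e_an

end
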