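import Pool.Agent.Mg.F71da5e.G8cdf38
import Pool.Agent.Mg.F71da5e.G63ce8a

section

namespace Pool.Agent.MP_71da5e_an

open MeasureTheory Metric Set Laplacian Filter Topology
open scoped ContDiff ENNReal RealInnerProductSpace

variable {n : ℕ}

lemma ball1_bound {F : Type*} [NormedAddCommGroup F] {g : E n → F} (hg : Continuous g) :
    ∃ C, 0 ≤ C ∧ ∀ x ∈ closedBall (0 : E n) 1, ‖g x‖ ≤ C := by
  obtain ⟨C, hC⟩ := (isCompact_closedBall (0 : E n) 1).exists_bound_of_continuousOn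
    hg.continuousOn
  exact ⟨max C 0, le_max_right _ _, fun x hx => (hC x hx).trans (le_max_left _ _)⟩

lemma ball1_mul {f g : E n → ℂ} (hf : IntegrableOn f (ball 0 1)) (hg : Continuous g) :
    IntegrableOn (fun x => f x * g x) (ball 0 1) := by
  obtain ⟨C, -, hC⟩ := ball1_bound hg
  refine Integrable.mul_bdd (c := C) hf hg.aestronglyMeasurable ?_
  filter_upwards [ae_restrict_mem measurableSet_ball] with x hx
  exact hC x (ball_subset_closedBall hx)

lemma ball1_int_u {u : E n → ℂ} (hu : MemLp u 2 (volume.restrict (ball 0 1))) :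
    IntegrableOn u (ball 0 1) := by
  have : IsFiniteMeasure (volume.restrict (ball (0 : E n) 1)) :=
    isFiniteMeasure_restrict.2 measure_ball_lt_top.ne
  exact hu.integrable one_le_two

lemma ball1_int_qu {q u : E n → ℂ} (hq : MemLp q ⊤ (volume.restrict (ball 0 1)))
    (hu : MemLp u 2 (volume.restrict (ball 0 1))) :
    IntegrableOn (fun x => q x * u x) (ball 0 1) :=
  Integrable.mul_of_top_right (ball1_int_u hu) hq

lemma ball1_two {F : Type*} [NormedAddCommGroup F] [NormedSpace ℝ F] {φ : E n → F}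
    (hφ : ContDiff ℝ ∞ φ) (x : E n) : ContDiffAt ℝ 2 φ x :=
  (hφ.of_le (WithTop.coe_le_coe.2 le_top :
    ((2 : ℕ∞) : WithTop ℕ∞) ≤ ((⊤ : ℕ∞) : WithTop ℕ∞))).contDiffAt

theorem integrable_green {q u φ : E n → ℂ} (hq : MemLp q ⊤ (volume.restrict (ball 0 1)))
    (hu : MemLp u 2 (volume.restrict (ball 0 1))) (hφ : ContDiff ℝ ∞ φ) :
    IntegrableOn (fun x => q x * u x * φ x - u x * Δ φ x) (ball 0 1) :=
  Integrable.sub (ball1_mul (ball1_int_qu hq hu) hφ.continuous)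
    (ball1_mul (ball1_int_u hu) (contDiff_lap hφ).continuous)

theorem green_add {q u φ ψ : E n → ℂ} (hq : MemLp q ⊤ (volume.restrict (ball 0 1)))
    (hu : MemLp u 2 (volume.restrict (ball 0 1))) (hφ : ContDiff ℝ ∞ φ) (hψ : ContDiff ℝ ∞ ψ) :
    green q u (fun x => φ x + ψ x) = green q u φ + green q u ψ := by
  unfold green
  rw [← integral_add (integrable_green hq hu hφ) (integrable_green hq hu hψ)]
  refine integral_congr_ae (Eventually.of_forall fun x => ?_)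
  have h : Δ (fun x => φ x + ψ x) x = Δ φ x + Δ ψ x :=
    (ball1_two hφ x).laplacian_add (ball1_two hψ x)
  simp only [h]
  ring

theorem contDiff_rho : ContDiff ℝ ∞ (rho : E n → ℂ) := by
  unfold rho
  exact Complex.ofRealCLM.contDiff.comp (((contDiff_norm_sq ℝ).sub contDiff_const).div_const 2)

theorem green_split {q u φ : E n → ℂ} (hq : MemLp q ⊤ (volume.restrict (ball 0 1)))
    (hu : MemLp u 2 (volume.restrict (ball 0 1))) (hφ : ContDiff ℝ ∞ φ) :
    green q u φ = neumann q u φ - dirichlet q u fun x => fderiv ℝ φ x x := by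
  have hD : ContDiff ℝ ∞ fun x : E n => fderiv ℝ φ x x :=
    (hφ.fderiv_right (m := ∞) (by simp)).clm_apply contDiff_id
  have h1 : ContDiff ℝ ∞ fun x : E n => rho x * fderiv ℝ φ x x := contDiff_rho.mul hD
  unfold neumann dirichlet
  rw [sub_neg_eq_add, ← green_add hq hu (hφ.sub h1) h1]
  simp only [sub_add_cancel]

lemma ball1_hasFDeriv {g : ℝ → ℝ} (hg : Differentiable ℝ g) (j : ℝ) (x : E n) :
    HasFDerivAt (fun y : E n => g (j * (1 - ‖y‖ ^ 2) - 1))
      ((-(2 * j) * deriv g (j * (1 - ‖x‖ ^ 2) - 1)) • innerSL ℝ x) x := by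
  have h1 : HasFDerivAt (fun y : E n => ‖y‖ ^ 2) (2 • innerSL ℝ x) x :=
    (hasStrictFDerivAt_norm_sq x).hasFDerivAt
  have h2 := ((h1.const_sub 1).const_mul j).sub_const 1
  have h3 := (hg (j * (1 - ‖x‖ ^ 2) - 1)).hasDerivAt.comp_hasFDerivAt x h2
  refine h3.congr_fderiv ?_
  ext v
  simp
  ring

lemma ball1_contDiff {g : ℝ → ℝ} (hg : ContDiff ℝ ∞ g) (j : ℝ) :
    ContDiff ℝ ∞ fun y : E n => g (j * (1 - ‖y‖ ^ 2) - 1) :=
  hg.comp ((contDiff_const.mul (contDiff_const.sub (contDiff_norm_sq ℝ))).sub contDiff_const)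

lemma ball1_norm_ev (i : Fin n) : ‖(ev i : E n)‖ = 1 := by simp [ev]

lemma ball1_grad {g : ℝ → ℝ} (hg : ContDiff ℝ ∞ g) {j M : ℝ} (hj : 0 ≤ j) {x : E n}
    (hx : ‖x‖ ≤ 1) (hM : |deriv g (j * (1 - ‖x‖ ^ 2) - 1)| ≤ M) :
    ‖gradient (fun y : E n => g (j * (1 - ‖y‖ ^ 2) - 1)) x‖ ≤ 2 * j * M := by
  rw [norm_gradient_eq, (ball1_hasFDeriv (hg.differentiable (by simp)) j x).fderiv, norm_smul,
    innerSL_apply_norm, Real.norm_eq_abs, abs_mul, abs_neg, abs_of_nonneg (by positivity)]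
  have h0 : 0 ≤ M := (abs_nonneg _).trans hM
  calc 2 * j * |deriv g (j * (1 - ‖x‖ ^ 2) - 1)| * ‖x‖ ≤ 2 * j * M * 1 := by gcongr
    _ = 2 * j * M := mul_one _

lemma ball1_lap {g : ℝ → ℝ} (hg : ContDiff ℝ ∞ g) {j M : ℝ} (hj : 1 ≤ j) {x : E n}
    (hx : ‖x‖ ≤ 1) (hM : |deriv g (j * (1 - ‖x‖ ^ 2) - 1)| ≤ M)
    (hM' : |deriv (deriv g) (j * (1 - ‖x‖ ^ 2) - 1)| ≤ M) :
    |Δ (fun y : E n => g (j * (1 - ‖y‖ ^ 2) - 1)) x| ≤ n * (6 * j ^ 2 * M) := by
  have hd : Differentiable ℝ g := hg.differentiable (by simp)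
  have hd' : Differentiable ℝ (deriv g) :=
    (hg.iterate_deriv 1).differentiable (by simp)
  have h0 : 0 ≤ M := (abs_nonneg _).trans hM
  rw [lap_eq (ball1_two (ball1_contDiff hg j) x)]
  refine (Finset.abs_sum_le_sum_abs _ _).trans ?_
  refine (Finset.sum_le_card_nsmul _ _ (6 * j ^ 2 * M) fun i _ => ?_).trans (by simp)
  have h1 : (fun y : E n => fderiv ℝ (fun y : E n => g (j * (1 - ‖y‖ ^ 2) - 1)) y (ev i)) =
      fun y => (-(2 * j) * deriv g (j * (1 - ‖y‖ ^ 2) - 1)) * innerSL ℝ (ev i : E n) y := by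
    funext y
    rw [(ball1_hasFDeriv hd j y).fderiv]
    simp [real_inner_comm]
  have h2 := ((ball1_hasFDeriv hd' j x).const_mul (-(2 * j))).mul
    (innerSL ℝ (ev i : E n)).hasFDerivAt
  rw [h1]
  erw [h2.fderiv]
  have ha : |⟪x, (ev i : E n)⟫| ≤ 1 := (abs_real_inner_le_norm _ _).trans (by
    rw [ball1_norm_ev, mul_one]; exact hx)
  have hb : ⟪(ev i : E n), ev i⟫ = 1 := by
    rw [real_inner_self_eq_norm_sq, ball1_norm_ev]; norm_num
  simp only [add_apply, smul_apply, innerSL_apply_apply,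
    smul_eq_mul, hb, real_inner_comm x (ev i)]
  set a := ⟪x, (ev i : E n)⟫
  set A := deriv g (j * (1 - ‖x‖ ^ 2) - 1)
  set B := deriv (deriv g) (j * (1 - ‖x‖ ^ 2) - 1)
  have e : -(2 * j) * A * 1 + a * (-(2 * j) * (-(2 * j) * B * a)) =
      -(2 * j * A) + 4 * j ^ 2 * (a * a * B) := by ring
  rw [e]
  have h3 : |a * a * B| ≤ M := by
    rw [abs_mul, abs_mul]
    calc |a| * |a| * |B| ≤ 1 * 1 * M := by gcongr
      _ = M := by ring
  have hj0 : 0 ≤ j := by linarith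
  calc |-(2 * j * A) + 4 * j ^ 2 * (a * a * B)|
      ≤ |-(2 * j * A)| + |4 * j ^ 2 * (a * a * B)| := abs_add_le _ _
    _ = 2 * j * |A| + 4 * j ^ 2 * |a * a * B| := by
        rw [abs_neg, abs_mul (2 * j), abs_mul (4 * j ^ 2), abs_of_nonneg (by positivity : 0 ≤ 2 * j),
          abs_of_nonneg (by positivity : 0 ≤ 4 * j ^ 2)]
    _ ≤ 2 * j ^ 2 * M + 4 * j ^ 2 * M := by
        gcongr
        nlinarith
    _ = 6 * j ^ 2 * M := by ring

/-- A smooth function that vanishes to second order on the sphere. -/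
lemma ball1_flat {ψ : E n → ℂ} (hψ : ContDiff ℝ ∞ ψ)
    (h0 : ∀ x ∈ sphere (0 : E n) 1, ψ x = 0) (h1 : ∀ x ∈ sphere (0 : E n) 1, fderiv ℝ ψ x = 0) :
    ∃ C, 0 ≤ C ∧ ∀ x : E n, x ≠ 0 → ‖x‖ ≤ 1 →
      ‖fderiv ℝ ψ x‖ ≤ C * (1 - ‖x‖ ^ 2) ∧ ‖ψ x‖ ≤ C * (1 - ‖x‖ ^ 2) ^ 2 := by
  have hD : ContDiff ℝ ∞ (fderiv ℝ ψ) := hψ.fderiv_right (m := ∞) (by simp)
  obtain ⟨C, hC0, hC⟩ := ball1_bound (hD.continuous_fderiv (by simp))
  refine ⟨C, hC0, fun x hx0 hx => ?_⟩
  have hn : 0 < ‖x‖ := norm_pos_iff.2 hx0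
  set z : E n := ‖x‖⁻¹ • x with hz
  have hz1 : ‖z‖ = 1 := by
    rw [hz, norm_smul, norm_inv, norm_norm, inv_mul_cancel₀ hn.ne']
  have hzs : z ∈ sphere (0 : E n) 1 := mem_sphere_zero_iff_norm.2 hz1
  have hzb : z ∈ closedBall (0 : E n) 1 := sphere_subset_closedBall hzs
  have hxb : x ∈ closedBall (0 : E n) 1 := mem_closedBall_zero_iff.2 hx
  have hxz : ‖x - z‖ ≤ 1 - ‖x‖ ^ 2 := by
    have : x - z = (‖x‖ - 1) • z := by
      rw [hz, smul_smul, sub_mul, mul_inv_cancel₀ hn.ne', one_mul, sub_smul, one_smul]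
    rw [this, norm_smul, hz1, mul_one, Real.norm_eq_abs, abs_of_nonpos (by linarith)]
    nlinarith
  have key : ∀ y ∈ closedBall (0 : E n) 1, ‖fderiv ℝ ψ y‖ ≤ C * ‖y - z‖ := fun y hy => by
    have := (convex_closedBall (0 : E n) 1).norm_image_sub_le_of_norm_fderiv_le
      (fun w _ => hD.differentiable (by simp) w) hC hzb hy
    rwa [h1 z hzs, sub_zero] at this
  refine ⟨(key x hxb).trans (mul_le_mul_of_nonneg_left hxz hC0), ?_⟩
  have h2 := ((convex_closedBall (0 : E n) 1).inter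
    (convex_closedBall z ‖x - z‖)).norm_image_sub_le_of_norm_fderiv_le (C := C * ‖x - z‖)
      (fun w _ => hψ.differentiable (by simp) w)
      (fun y hy => (key y hy.1).trans (mul_le_mul_of_nonneg_left
        (by rw [← dist_eq_norm]; exact hy.2) hC0))
      ⟨hzb, mem_closedBall_self (norm_nonneg _)⟩ ⟨hxb, by rw [mem_closedBall, dist_eq_norm]⟩
  rw [h0 z hzs, sub_zero] at h2
  refine h2.trans ?_
  rw [mul_assoc, ← sq]
  gcongr

theorem green_flat {q u ψ : E n → ℂ} (hq : MemLp q ⊤ (volume.restrict (ball 0 1)))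
    (hu : MemLp u 2 (volume.restrict (ball 0 1)))
    (hs : ∀ φ, ContDiff ℝ ∞ φ → tsupport φ ⊆ ball 0 1 → green q u φ = 0) (hψ : ContDiff ℝ ∞ ψ)
    (h0 : ∀ x ∈ sphere (0 : E n) 1, ψ x = 0) (h1 : ∀ x ∈ sphere (0 : E n) 1, fderiv ℝ ψ x = 0) :
    green q u ψ = 0 := by
  obtain ⟨C, hC0, hC⟩ := ball1_flat hψ h0 h1
  obtain ⟨B0, -, hB0⟩ := ball1_bound hψ.continuous
  obtain ⟨B1, hB10, hB1⟩ := ball1_bound (contDiff_lap hψ).continuous
  have hg : ContDiff ℝ ∞ Real.smoothTransition := Real.smoothTransition.contDiff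
  obtain ⟨M1, hM1⟩ := (isCompact_Icc (a := (-1 : ℝ)) (b := 1)).exists_bound_of_continuousOn
    (hg.iterate_deriv 1).continuous.continuousOn
  obtain ⟨M2, hM2⟩ := (isCompact_Icc (a := (-1 : ℝ)) (b := 1)).exists_bound_of_continuousOn
    (hg.iterate_deriv 2).continuous.continuousOn
  set M := max M1 M2
  have hM0 : 0 ≤ M := ((norm_nonneg _).trans (hM1 0 (by norm_num))).trans (le_max_left _ _)
  let η : ℕ → E n → ℝ := fun k y => Real.smoothTransition (((k : ℝ) + 3) * (1 - ‖y‖ ^ 2) - 1)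
  have hη : ∀ k, ContDiff ℝ ∞ (η k) := fun k => ball1_contDiff hg _
  let φ : ℕ → E n → ℂ := fun k y => (η k y : ℂ) * ψ y
  have hφ : ∀ k, ContDiff ℝ ∞ (φ k) := fun k =>
    (Complex.ofRealCLM.contDiff.comp (hη k)).mul hψ
  have hcont : ∀ k : ℕ, Continuous fun y : E n => ((k : ℝ) + 3) * (1 - ‖y‖ ^ 2) := fun k => by
    fun_prop
  have hsupp : ∀ k, tsupport (φ k) ⊆ ball 0 1 := by
    intro k
    have hc : IsClosed {y : E n | 1 ≤ ((k : ℝ) + 3) * (1 - ‖y‖ ^ 2)} :=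
      isClosed_le continuous_const (hcont k)
    refine (closure_minimal (fun y hy => ?_) hc).trans fun y hy => ?_
    · by_contra h
      apply hy
      have h' : ((k : ℝ) + 3) * (1 - ‖y‖ ^ 2) - 1 ≤ 0 := by
        simp only [mem_ofPred_eq, not_le] at h; linarith
      simp only [φ, η, Real.smoothTransition.zero_of_nonpos h', Complex.ofReal_zero, zero_mul]
    · rw [mem_ball_zero_iff]
      by_contra h
      have h2 : 1 ≤ ‖y‖ ^ 2 := one_le_pow₀ (not_lt.1 h)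
      have h3 : (0 : ℝ) ≤ (k : ℝ) + 3 := by positivity
      have h4 : 1 ≤ ((k : ℝ) + 3) * (1 - ‖y‖ ^ 2) := hy
      nlinarith
  have hev : ∀ (k : ℕ) (x : E n), 2 < ((k : ℝ) + 3) * (1 - ‖x‖ ^ 2) → φ k =ᶠ[𝓝 x] ψ := by
    intro k x hx
    filter_upwards [(isOpen_lt continuous_const (hcont k)).mem_nhds hx] with y hy
    have h' : 1 ≤ ((k : ℝ) + 3) * (1 - ‖y‖ ^ 2) - 1 := by
      have : 2 < ((k : ℝ) + 3) * (1 - ‖y‖ ^ 2) := hy
      linarith
    simp only [φ, η, Real.smoothTransition.one_of_one_le h', Complex.ofReal_one, one_mul]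
  have hη1 : ∀ k x, ‖(η k x : ℂ)‖ ≤ 1 := fun k x => by
    rw [Complex.norm_real, Real.norm_of_nonneg (Real.smoothTransition.nonneg _)]
    exact Real.smoothTransition.le_one _
  have hlap : ∀ (k : ℕ) (x : E n), ‖x‖ < 1 →
      ‖Δ (φ k) x‖ ≤ B1 + 8 * C * M + 24 * n * C * M := by
    intro k x hx
    have hxb : x ∈ closedBall (0 : E n) 1 := mem_closedBall_zero_iff.2 hx.le
    by_cases h : 2 < ((k : ℝ) + 3) * (1 - ‖x‖ ^ 2)
    · rw [lap_congr (hev k x h)]
      have : 0 ≤ 8 * C * M + 24 * n * C * M := by positivity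
      linarith [hB1 x hxb]
    · set j : ℝ := (k : ℝ) + 3 with hj
      have hj3 : 3 ≤ j := by rw [hj]; linarith [Nat.cast_nonneg (α := ℝ) k]
      set d := 1 - ‖x‖ ^ 2 with hd
      have hd0 : 0 ≤ d := by rw [hd]; nlinarith [norm_nonneg x]
      have hjd : j * d ≤ 2 := not_lt.1 h
      have hx0 : x ≠ 0 := by
        rintro rfl
        simp only [norm_zero, ne_eq, OfNat.ofNat_ne_zero, not_false_eq_true, zero_pow,
          sub_zero] at hd
        rw [hd] at hjd; linarith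
      have hmem : j * d - 1 ∈ Icc (-1 : ℝ) 1 := ⟨by nlinarith, by linarith⟩
      have hA : |deriv Real.smoothTransition (j * d - 1)| ≤ M :=
        (hM1 _ hmem).trans (le_max_left _ _)
      have hB : |deriv (deriv Real.smoothTransition) (j * d - 1)| ≤ M :=
        (hM2 _ hmem).trans (le_max_right _ _)
      have h2 : ‖gradient (η k) x‖ ≤ 2 * j * M := ball1_grad hg (by linarith) hx.le hA
      have h3 : |Δ (η k) x| ≤ n * (6 * j ^ 2 * M) := ball1_lap hg (by linarith) hx.le hA hB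
      obtain ⟨h4, h5⟩ := hC x hx0 hx.le
      rw [← hd] at h4 h5
      have e := lap_smul (ball1_two (hη k) x) (ball1_two hψ x)
      have e' : Δ (φ k) x = η k x * Δ ψ x + 2 * fderiv ℝ ψ x (gradient (η k) x) +
        (Δ (η k) x : ℝ) * ψ x := e
      rw [e']
      refine norm_add₃_le.trans (add_le_add (add_le_add ?_ ?_) ?_)
      · rw [norm_mul]
        calc ‖(η k x : ℂ)‖ * ‖Δ ψ x‖ ≤ 1 * B1 := by
              gcongr
              · exact hη1 k x
              · exact hB1 x hxb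
          _ = B1 := one_mul _
      · rw [norm_mul, Complex.norm_two]
        calc 2 * ‖fderiv ℝ ψ x (gradient (η k) x)‖
            ≤ 2 * (‖fderiv ℝ ψ x‖ * ‖gradient (η k) x‖) := by
              gcongr; exact ContinuousLinearMap.le_opNorm _ _
          _ ≤ 2 * (C * d * (2 * j * M)) := by gcongr
          _ = 4 * C * M * (j * d) := by ring
          _ ≤ 4 * C * M * 2 := by gcongr
          _ = 8 * C * M := by ring
      · rw [norm_mul, Complex.norm_real, Real.norm_eq_abs]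
        calc |Δ (η k) x| * ‖ψ x‖ ≤ n * (6 * j ^ 2 * M) * (C * d ^ 2) := by gcongr
          _ = 6 * n * C * M * (j * d) ^ 2 := by ring
          _ ≤ 6 * n * C * M * 2 ^ 2 := by gcongr
          _ = 24 * n * C * M := by ring
  have hlim : Tendsto (fun k => green q u (φ k)) atTop (𝓝 (green q u ψ)) := by
    unfold green
    refine tendsto_integral_of_dominated_convergence
      (fun x => ‖q x * u x‖ * B0 + ‖u x‖ * (B1 + 8 * C * M + 24 * n * C * M))
      (fun k => (integrable_green hq hu (hφ k)).aestronglyMeasurable)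
      (((ball1_int_qu hq hu).norm.mul_const _).add ((ball1_int_u hu).norm.mul_const _))
      (fun k => ?_) ?_
    · filter_upwards [ae_restrict_mem measurableSet_ball] with x hx
      refine (norm_sub_le _ _).trans (add_le_add ?_ ?_)
      · rw [norm_mul]
        refine mul_le_mul_of_nonneg_left ?_ (norm_nonneg _)
        calc ‖φ k x‖ = ‖(η k x : ℂ)‖ * ‖ψ x‖ := norm_mul _ _
          _ ≤ 1 * ‖ψ x‖ := by gcongr; exact hη1 k x
          _ ≤ B0 := by rw [one_mul]; exact hB0 x (ball_subset_closedBall hx)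
      · rw [norm_mul]
        exact mul_le_mul_of_nonneg_left (hlap k x (mem_ball_zero_iff.1 hx)) (norm_nonneg _)
    · filter_upwards [ae_restrict_mem measurableSet_ball] with x hx
      have hx1 : ‖x‖ < 1 := mem_ball_zero_iff.1 hx
      have hd : 0 < 1 - ‖x‖ ^ 2 := by nlinarith [norm_nonneg x]
      have ht : Tendsto (fun k : ℕ => ((k : ℝ) + 3) * (1 - ‖x‖ ^ 2)) atTop atTop :=
        (tendsto_atTop_add_const_right _ 3 tendsto_natCast_atTop_atTop).atTop_mul_const hd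
      refine tendsto_const_nhds.congr' ?_
      filter_upwards [ht.eventually_gt_atTop 2] with k hk
      rw [lap_congr (hev k x hk), (hev k x hk).eq_of_nhds]
  have hz : (fun k => green q u (φ k)) = fun _ => 0 := funext fun k => hs _ (hφ k) (hsupp k)
  rw [hz] at hlim
  exact tendsto_nhds_unique hlim tendsto_const_nhds

end Pool.Agent.MP_71da5e_an

end

section

namespace Pool.Agent.MP_71da5e_an

open MeasureTheory Metric Set Laplacian Filter Topology
open scoped ContDiff ENNReal RealInnerProductSpace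

variable {n : ℕ}

lemma ball2_rad {φ : E n → ℂ} (hφ : ContDiff ℝ ∞ φ) : ContDiff ℝ ∞ fun x => fderiv ℝ φ x x :=
  (hφ.fderiv_right (m := ∞) le_rfl).clm_apply contDiff_id

/-- Tangential derivatives of a function that vanishes on the sphere vanish. -/
lemma ball2_unit {φ : E n → ℂ} (hφ : ContDiff ℝ ∞ φ) (h0 : ∀ x ∈ sphere (0 : E n) 1, φ x = 0)
    {x : E n} (hx : ‖x‖ = 1) {u : E n} (hu : ‖u‖ = 1) (hw : ⟪x, u⟫ = 0) :
    fderiv ℝ φ x u = 0 := by
  have h1 : HasDerivAt (fun t : ℝ => Real.cos t • x + Real.sin t • u) u 0 := by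
    refine (((Real.hasDerivAt_cos 0).smul_const x).fun_add
      ((Real.hasDerivAt_sin 0).smul_const u)).congr_deriv ?_
    simp
  have h2 : HasFDerivAt φ (fderiv ℝ φ x) (Real.cos 0 • x + Real.sin 0 • u) := by
    simpa using (hφ.differentiable (by simp) x).hasFDerivAt
  have h3 := h2.comp_hasDerivAt (0 : ℝ) h1
  have h4 : (φ ∘ fun t : ℝ => Real.cos t • x + Real.sin t • u) = fun _ => 0 := by
    funext t
    refine h0 _ (mem_sphere_zero_iff_norm.2 ?_)
    rw [← sq_eq_sq₀ (norm_nonneg _) zero_le_one, norm_add_sq_real, inner_smul_left,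
      inner_smul_right, hw, norm_smul, norm_smul, hx, hu]
    simp
  rw [h4] at h3
  exact h3.unique (hasDerivAt_const _ _)

lemma ball2_tan {φ : E n → ℂ} (hφ : ContDiff ℝ ∞ φ) (h0 : ∀ x ∈ sphere (0 : E n) 1, φ x = 0)
    {x : E n} (hx : ‖x‖ = 1) {w : E n} (hw : ⟪x, w⟫ = 0) : fderiv ℝ φ x w = 0 := by
  by_cases hw0 : w = 0
  · rw [hw0, map_zero]
  have hn : ‖w‖ ≠ 0 := norm_ne_zero_iff.2 hw0
  have := ball2_unit hφ h0 hx (u := ‖w‖⁻¹ • w)
    (by rw [norm_smul, norm_inv, norm_norm, inv_mul_cancel₀ hn])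
    (by rw [inner_smul_right, hw, mul_zero])
  rw [map_smul] at this
  exact (smul_eq_zero.1 this).resolve_left (inv_ne_zero hn)

lemma ball2_rho (x : E n) :
    HasFDerivAt (rho : E n → ℂ) (Complex.ofRealCLM.comp (innerSL ℝ x)) x := by
  have h1 : HasFDerivAt (fun y : E n => (‖y‖ ^ 2 - 1) / 2) (innerSL ℝ x) x := by
    simp only [div_eq_mul_inv]
    refine (((hasStrictFDerivAt_norm_sq x).hasFDerivAt.sub_const 1).mul_const
      (2⁻¹ : ℝ)).congr_fderiv ?_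
    ext v
    simp
  exact Complex.ofRealCLM.hasFDerivAt.comp x h1

lemma ball2_rho0 {x : E n} (hx : ‖x‖ = 1) : rho x = 0 := by simp [rho, hx]

lemma ball2_add {q u φ ψ : E n → ℂ} (hq : MemLp q ⊤ (volume.restrict (ball 0 1)))
    (hu : MemLp u 2 (volume.restrict (ball 0 1))) (hφ : ContDiff ℝ ∞ φ) (hψ : ContDiff ℝ ∞ ψ) :
    dirichlet q u (fun x => φ x + ψ x) = dirichlet q u φ + dirichlet q u ψ := by
  simp only [dirichlet, mul_add]
  rw [green_add hq hu (contDiff_rho.mul hφ) (contDiff_rho.mul hψ), neg_add]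

/-- The Dirichlet data agree against every smooth function. -/
lemma ball2_dir {Γ : Set (E n)} (hΓ : ∃ U, IsOpen U ∧ Γ = U ∩ sphere 0 1)
    {q₁ q₂ u₁ u₂ : E n → ℂ} (hq₁ : MemLp q₁ ⊤ (volume.restrict (ball 0 1)))
    (hq₂ : MemLp q₂ ⊤ (volume.restrict (ball 0 1))) (h₁ : IsSol Γ q₁ u₁) (h₂ : IsSol Γ q₂ u₂)
    (hd : ∀ g : Test Γ, dirichlet q₁ u₁ g.1 = dirichlet q₂ u₂ g.1) {g : E n → ℂ}
    (hg : ContDiff ℝ ∞ g) : dirichlet q₁ u₁ g = dirichlet q₂ u₂ g := by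
  have hK : IsCompact (sphere (0 : E n) 1 \ Γ) := by
    obtain ⟨U, hU, rfl⟩ := hΓ
    rw [inter_comm, sdiff_self_inter]
    exact (isCompact_sphere _ _).diff hU
  have key := hK.induction_on (p := fun s => ∀ g : E n → ℂ, ContDiff ℝ ∞ g →
      ∃ g', ContDiff ℝ ∞ g' ∧ tsupport g' ⊆ tsupport g ∧ Disjoint (tsupport g') s ∧
        dirichlet q₁ u₁ g = dirichlet q₁ u₁ g' ∧ dirichlet q₂ u₂ g = dirichlet q₂ u₂ g')
    (fun g hg => ⟨g, hg, Subset.rfl, disjoint_empty _, rfl, rfl⟩)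
    (fun s t hst ht g hg => by
      obtain ⟨g', a, b, c, d⟩ := ht g hg
      exact ⟨g', a, b, c.mono_right hst, d⟩)
    (fun s t hs ht g hg => by
      obtain ⟨g', a, b, c, d, e⟩ := hs g hg
      obtain ⟨g'', a', b', c', d', e'⟩ := ht g' a
      exact ⟨g'', a', b'.trans b, disjoint_union_right.2 ⟨c.mono_left b', c'⟩, d.trans d',
        e.trans e'⟩)
    (fun x hx => by
      obtain ⟨ε₁, p₁, s₁⟩ := h₁.supp x hx
      obtain ⟨ε₂, p₂, s₂⟩ := h₂.supp x hx
      have hε : 0 < min ε₁ ε₂ := lt_min p₁ p₂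
      let β : ContDiffBump x := ⟨min ε₁ ε₂ / 4, min ε₁ ε₂ / 2, by positivity, by linarith⟩
      refine ⟨ball x β.rIn, mem_nhdsWithin_of_mem_nhds (ball_mem_nhds x β.rIn_pos), fun g hg => ?_⟩
      have hβ : ContDiff ℝ ∞ fun y => ((β y : ℝ) : ℂ) := Complex.ofRealCLM.contDiff.comp β.contDiff
      have c₁ : ContDiff ℝ ∞ fun y => (1 - ((β y : ℝ) : ℂ)) * g y := (contDiff_const.sub hβ).mul hg
      have c₂ : ContDiff ℝ ∞ fun y => ((β y : ℝ) : ℂ) * g y := hβ.mul hg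
      have e : g = fun y => (1 - ((β y : ℝ) : ℂ)) * g y + ((β y : ℝ) : ℂ) * g y := by
        funext y
        ring
      have t₂ : tsupport (fun y => ((β y : ℝ) : ℂ) * g y) ⊆ ball x (min ε₁ ε₂) := by
        refine (closure_minimal (fun y hy => ?_) isClosed_closedBall).trans
          (closedBall_subset_ball (half_lt_self hε))
        by_contra hy'
        rw [mem_closedBall, not_le] at hy'
        exact hy (by simp only [β.zero_of_le_dist hy'.le, Complex.ofReal_zero, zero_mul])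
      refine ⟨_, c₁, tsupport_mul_subset_right, ?_, ?_, ?_⟩
      · refine Disjoint.closure_left (disjoint_left.2 fun y hy hy' => hy ?_) isOpen_ball
        simp only [β.one_of_mem_closedBall (ball_subset_closedBall hy'), Complex.ofReal_one,
          sub_self, zero_mul]
      · conv_lhs => rw [e]
        rw [ball2_add hq₁ h₁.memL2 c₁ c₂, s₁ _ c₂ (t₂.trans (ball_subset_ball (min_le_left _ _))),
          add_zero]
      · conv_lhs => rw [e]
        rw [ball2_add hq₂ h₂.memL2 c₁ c₂, s₂ _ c₂ (t₂.trans (ball_subset_ball (min_le_right _ _))),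
          add_zero])
  obtain ⟨g', a, -, c, d, e⟩ := key g hg
  rw [d, e]
  exact hd ⟨g', a, fun y hy => by_contra fun hy' => disjoint_left.1 c hy.1 ⟨hy.2, hy'⟩⟩

theorem neumann_eq_zero {q u φ : E n → ℂ} (hn : 3 ≤ n)
    (hq : MemLp q ⊤ (volume.restrict (ball 0 1))) (hu : MemLp u 2 (volume.restrict (ball 0 1)))
    (hs : ∀ φ, ContDiff ℝ ∞ φ → tsupport φ ⊆ ball 0 1 → green q u φ = 0) (hφ : ContDiff ℝ ∞ φ)
    (h0 : ∀ x ∈ sphere (0 : E n) 1, φ x = 0) : neumann q u φ = 0 := by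
  refine green_flat hq hu hs (hφ.sub (contDiff_rho.mul (ball2_rad hφ))) (fun x hx => ?_)
    fun x hx => ?_
  · rw [h0 x hx, ball2_rho0 (mem_sphere_zero_iff_norm.1 hx), zero_mul, sub_zero]
  have hx1 := mem_sphere_zero_iff_norm.1 hx
  rw [((hφ.differentiable (by simp) x).hasFDerivAt.fun_sub ((ball2_rho x).fun_mul
    ((ball2_rad hφ).differentiable (by simp) x).hasFDerivAt)).fderiv, ball2_rho0 hx1]
  ext v
  have h1 := ball2_tan hφ h0 hx1 (w := v - ⟪x, v⟫ • x) (by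
    rw [inner_sub_right, inner_smul_right, real_inner_self_eq_norm_sq, hx1]
    ring)
  rw [map_sub, map_smul, sub_eq_zero] at h1
  simp [h1, mul_comm]

theorem green_eq (hn : 3 ≤ n) {Γ : Set (E n)} (hΓ : ∃ U, IsOpen U ∧ Γ = U ∩ sphere 0 1)
    {q₁ q₂ u₁ u₂ : E n → ℂ} (hq₁ : MemLp q₁ ⊤ (volume.restrict (ball 0 1)))
    (hq₂ : MemLp q₂ ⊤ (volume.restrict (ball 0 1))) (h₁ : IsSol Γ q₁ u₁) (h₂ : IsSol Γ q₂ u₂)
    (hd : ∀ g : Test Γ, dirichlet q₁ u₁ g.1 = dirichlet q₂ u₂ g.1)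
    (hN : ∀ f : Test Γ, neumann q₁ u₁ f.1 = neumann q₂ u₂ f.1) {φ : E n → ℂ}
    (hφ : ContDiff ℝ ∞ φ)
    (h : (∀ x ∈ sphere (0 : E n) 1, φ x = 0) ∨ tsupport φ ∩ sphere 0 1 ⊆ Γ) :
    green q₁ u₁ φ = green q₂ u₂ φ := by
  rw [green_split hq₁ h₁.memL2 hφ, green_split hq₂ h₂.memL2 hφ,
    ball2_dir hΓ hq₁ hq₂ h₁ h₂ hd (ball2_rad hφ)]
  rcases h with h | h
  · rw [neumann_eq_zero hn hq₁ h₁.memL2 h₁.solves hφ h,
      neumann_eq_zero hn hq₂ h₂.memL2 h₂.solves hφ h]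
  · rw [hN ⟨φ, hφ, h⟩]

end Pool.Agent.MP_71da5e_an

end

section

namespace Pool.Agent.MP_71da5e_an

open MeasureTheory Metric Set Laplacian Filter Topology
open scoped ContDiff ENNReal RealInnerProductSpace

variable {n : ℕ}

lemma kelB_ae_ne (hn : 3 ≤ n) (c : E n) : ∀ᵐ x : E n, x ≠ c := by
  have : Nonempty (Fin n) := ⟨⟨0, by omega⟩⟩
  exact Measure.ae_ne volume c

lemma kelB_inv_eq (c : E n) (R : ℝ) : inv c R = EuclideanGeometry.inversion c R := by
  funext x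
  simp only [inv, EuclideanGeometry.inversion, dist_eq_norm, vsub_eq_sub, vadd_eq_add, div_pow]
  exact add_comm _ _

/-- The derivative of the inversion. -/
noncomputable def kelBD (c : E n) (R : ℝ) (x : E n) : E n →L[ℝ] E n :=
  (R / dist x c) ^ 2 • ((ℝ ∙ (x - c))ᗮ.reflection : E n →L[ℝ] E n)

lemma kelB_hasFDerivAt {c : E n} (R : ℝ) {x : E n} (hx : x ≠ c) :
    HasFDerivAt (inv c R) (kelBD c R x) x := by
  rw [kelB_inv_eq]
  exact EuclideanGeometry.hasFDerivAt_inversion hx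

lemma kelB_det (c : E n) (R : ℝ) (x : E n) : |(kelBD c R x).det| = jac c R x ^ n := by
  have h1 : |LinearMap.det (((ℝ ∙ (x - c))ᗮ.reflection : E n →L[ℝ] E n) : E n →ₗ[ℝ] E n)| = 1 := by
    have h := Submodule.det_reflection (ℝ ∙ (x - c))ᗮ
    have h' : (((ℝ ∙ (x - c))ᗮ.reflection : E n →L[ℝ] E n) : E n →ₗ[ℝ] E n) =
        (ℝ ∙ (x - c))ᗮ.reflection.toLinearMap := rfl
    rw [h', h, abs_pow, abs_neg, abs_one, one_pow]
  rw [kelBD, ContinuousLinearMap.det, ContinuousLinearMap.toLinearMap_smul, LinearMap.det_smul,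
    abs_mul, h1, mul_one, finrank_euclideanSpace_fin, abs_pow, abs_of_nonneg (sq_nonneg _), jac,
    div_pow, dist_eq_norm]

lemma kelB_image (c : E n) {R : ℝ} (hR : 0 < R) : inv c R '' {c}ᶜ = {c}ᶜ := by
  ext y
  constructor
  · rintro ⟨x, hx, rfl⟩
    exact inv_ne hR hx
  · intro hy
    exact ⟨inv c R y, inv_ne hR hy, inv_inv' c hR y⟩

lemma kelB_injOn (c : E n) {R : ℝ} (hR : 0 < R) : InjOn (inv c R) {c}ᶜ := fun x _ y _ h => by
  rw [← inv_inv' c hR x, h, inv_inv' c hR y]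

lemma kelB_restrict (hn : 3 ≤ n) (c : E n) : (volume : Measure (E n)).restrict {c}ᶜ = volume :=
  Measure.restrict_eq_self_of_ae_mem (kelB_ae_ne hn c)

theorem integral_inv' (c : E n) {R : ℝ} (hR : 0 < R) (hn : 3 ≤ n) (g : E n → ℂ) :
    ∫ x, g x = ∫ y, ((jac c R y ^ n : ℝ) : ℂ) * g (inv c R y) := by
  have h := integral_image_eq_integral_abs_det_fderiv_smul (volume : Measure (E n))
    (measurableSet_singleton c).compl
    (fun x hx => (kelB_hasFDerivAt R (c := c) hx).hasFDerivWithinAt) (kelB_injOn c hR) g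
  rw [kelB_image c hR, kelB_restrict hn] at h
  rw [h]
  refine integral_congr_ae (Eventually.of_forall fun x => ?_)
  simp only [kelB_det, Complex.real_smul]

theorem lintegral_inv' (c : E n) {R : ℝ} (hR : 0 < R) (hn : 3 ≤ n) (g : E n → ℝ≥0∞) :
    ∫⁻ x, g x = ∫⁻ y, ENNReal.ofReal (jac c R y ^ n) * g (inv c R y) := by
  have h := lintegral_image_eq_lintegral_abs_det_fderiv_mul (volume : Measure (E n))
    (measurableSet_singleton c).compl
    (fun x hx => (kelB_hasFDerivAt R (c := c) hx).hasFDerivWithinAt) (kelB_injOn c hR) g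
  rw [kelB_image c hR, kelB_restrict hn] at h
  rw [h]
  simp only [kelB_det]

theorem ae_inv (c : E n) {R : ℝ} (hR : 0 < R) (hn : 3 ≤ n) {P : E n → Prop} (h : ∀ᵐ x, P x) :
    ∀ᵐ x, P (inv c R x) := by
  have h0 : volume (inv c R '' ({x | ¬ P x} ∩ {c}ᶜ)) = 0 :=
    addHaar_image_eq_zero_of_differentiableOn_of_addHaar_eq_zero volume
      (fun x hx => (kelB_hasFDerivAt R (c := c) hx.2).differentiableAt.differentiableWithinAt)
      (measure_mono_null inter_subset_left h)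
  filter_upwards [kelB_ae_ne hn c, compl_mem_ae_iff.2 h0] with x hx hx'
  by_contra hP
  exact hx' ⟨inv c R x, ⟨hP, inv_ne hR hx⟩, inv_inv' c hR x⟩

lemma kelB_jac (c : E n) (R : ℝ) (x : E n) : jac c R x = (R / ‖x - c‖) ^ 2 := by
  rw [jac, div_pow]

lemma kelB_fac (c : E n) {R : ℝ} (hR : 0 < R) (x : E n) :
    R / ‖inv c R x - c‖ = (R / ‖x - c‖)⁻¹ := by
  rw [norm_inv_sub, inv_div, div_div_eq_mul_div, sq, mul_div_mul_left _ _ hR.ne']

lemma kelB_kel_inv (c : E n) {R : ℝ} (hR : 0 < R) (w : E n → ℂ) (x : E n) :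
    kel c R w (inv c R x) = ((((R / ‖x - c‖)⁻¹) ^ (n - 2) : ℝ) : ℂ) * w x := by
  rw [kel, kelB_fac c hR, inv_inv' c hR]

lemma kelB_pow (hn : 3 ≤ n) {t : ℝ} (ht : t ≠ 0) :
    (t ^ 2) ^ n * t⁻¹ ^ (n - 2) = (t ^ 2) ^ 2 * t ^ (n - 2) := by
  obtain ⟨m, rfl⟩ : ∃ m, n = m + 2 := ⟨n - 2, by omega⟩
  rw [Nat.add_sub_cancel, inv_pow]
  field_simp
  ring

lemma kelB_ne {c : E n} {R : ℝ} (hR : 0 < R) {x : E n} (hx : x ≠ c) : R / ‖x - c‖ ≠ 0 :=
  (div_pos hR (norm_pos_iff.2 (sub_ne_zero.2 hx))).ne'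

lemma kelB_key (hn : 3 ≤ n) {c : E n} {R : ℝ} (hR : 0 < R) (w : E n → ℂ) {x : E n} (hx : x ≠ c) :
    ((jac c R x ^ n : ℝ) : ℂ) * kel c R w (inv c R x) =
      ((jac c R x ^ 2 : ℝ) : ℂ) * (((R / ‖x - c‖) ^ (n - 2) : ℝ) : ℂ) * w x := by
  rw [kelB_kel_inv c hR, ← mul_assoc, ← Complex.ofReal_mul, ← Complex.ofReal_mul, kelB_jac,
    kelB_pow hn (kelB_ne hR hx)]

lemma kelB_jj {c : E n} {R : ℝ} (hR : 0 < R) {x : E n} (hx : x ≠ c) :
    ((jac c R x ^ 2 : ℝ) : ℂ) * ((jac c R (inv c R x) ^ 2 : ℝ) : ℂ) = 1 := by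
  rw [jac_inv c hR, ← Complex.ofReal_mul, ← mul_pow, mul_inv_cancel₀ (jac_pos hR hx).ne', one_pow,
    Complex.ofReal_one]

theorem integral_kel_mul (c : E n) {R : ℝ} (hR : 0 < R) (hn : 3 ≤ n) (w q g : E n → ℂ) :
    ∫ x, kel c R w x * (q x * g x) = ∫ y, w y * (kq c R q y * kel c R g y) := by
  rw [integral_inv' c hR hn]
  refine integral_congr_ae ?_
  filter_upwards [kelB_ae_ne hn c] with y hy
  rw [← mul_assoc, kelB_key hn hR w hy, kq, kel]
  ring

theorem Q_kel (c : E n) {R : ℝ} (hR : 0 < R) (hn : 3 ≤ n) (a : E n → ℝ) (w : E n → ℂ) :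
    Q a (kel c R w) = Q (fun y => jac c R y ^ 2 * a (inv c R y)) w := by
  unfold Q
  rw [lintegral_inv' c hR hn]
  refine lintegral_congr_ae ?_
  filter_upwards [kelB_ae_ne hn c] with y hy
  rw [← ENNReal.ofReal_mul (pow_nonneg (jac_pos hR hy).le _), kelB_kel_inv c hR, norm_mul,
    Complex.norm_real, mul_pow, Real.norm_eq_abs, sq_abs, kelB_jac]
  congr 1
  have ht := kelB_ne hR hy
  have h := kelB_pow hn ht
  have h' : (R / ‖y - c‖) ^ (n - 2) * (R / ‖y - c‖)⁻¹ ^ (n - 2) = 1 := by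
    rw [← mul_pow, mul_inv_cancel₀ ht, one_pow]
  linear_combination (a (inv c R y) * ‖w y‖ ^ 2 * (R / ‖y - c‖)⁻¹ ^ (n - 2)) * h +
    (a (inv c R y) * ‖w y‖ ^ 2 * ((R / ‖y - c‖) ^ 2) ^ 2) * h'

theorem pair_kel (c : E n) {R : ℝ} (hR : 0 < R) (hn : 3 ≤ n) (w F : E n → ℂ) {φ : E n → ℂ}
    (hφ : ContDiff ℝ ∞ φ) :
    pair (kel c R w) (fun x => ((jac c R x ^ 2 : ℝ) : ℂ) * kel c R F x) φ =
      pair w F (kel c R φ) := by
  unfold pair
  rw [integral_inv' c hR hn]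
  refine integral_congr_ae ?_
  filter_upwards [kelB_ae_ne hn c] with y hy
  have h1 := kelB_key hn hR w hy
  have h2 := kelB_key hn hR F hy
  have h3 := kelB_jj hR hy
  rw [lap_kel hn hR hy (hφ.contDiffAt.of_le (WithTop.coe_le_coe.2 (le_top : (2 : ℕ∞) ≤ ⊤)))]
  rw [show kel c R φ y = (((R / ‖y - c‖) ^ (n - 2) : ℝ) : ℂ) * φ (inv c R y) from rfl,
    show kel c R (Δ φ) y = (((R / ‖y - c‖) ^ (n - 2) : ℝ) : ℂ) * Δ φ (inv c R y) from rfl]
  linear_combination (((jac c R (inv c R y) ^ 2 : ℝ) : ℂ) * φ (inv c R y)) * h2 -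
    Δ φ (inv c R y) * h1 + ((((R / ‖y - c‖) ^ (n - 2) : ℝ) : ℂ) * F y * φ (inv c R y)) * h3

theorem WL2.kel (hn : 3 ≤ n) {w : E n → ℂ} (h : WL2 w) : WL2 (kel 0 1 w) := by
  refine ⟨measurable_kel 0 1 h.1, ?_⟩
  rw [Q_kel 0 one_pos hn]
  have : Q (fun y => jac 0 1 y ^ 2 * wt (inv 0 1 y)) w = Q wt w := by
    unfold Q
    refine lintegral_congr_ae ?_
    filter_upwards [kelB_ae_ne hn (0 : E n)] with y hy
    rw [jac_sq_mul_wt hy]
  rw [this]
  exact h.2

lemma kelB_mem_Pl {ν x : E n} (hx : x ∈ Pl ν) : inv 0 1 x ∈ Pl ν := by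
  have hx' : ⟪x, ν⟫ = 0 := hx
  show ⟪inv 0 1 x, ν⟫ = 0
  rw [inner_inv_zero, hx', zero_div]

theorem Adm.kel (hn : 3 ≤ n) {ν : E n} {r : ℝ} (hr : 0 < r) {q u : E n → ℂ}
    (h : Adm ν {x | r < ‖x‖} (kq 0 1 q) u) :
    Adm ν {x | r < ‖x‖ ∧ ‖x‖ < r⁻¹} q (kel 0 1 u) := by
  refine ⟨h.l2.kel hn, fun x hx => ?_, fun φ hφ h0 hs => ?_⟩
  · have : inv 0 1 x ∉ Hs ν := by
      intro h'
      have h'' : 0 < ⟪inv 0 1 x, ν⟫ := h'
      rw [inner_inv_zero] at h''
      refine hx (show 0 < ⟪x, ν⟫ from lt_of_not_ge fun h1 => ?_)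
      exact absurd h'' (not_lt.2 (div_nonpos_of_nonpos_of_nonneg h1 (sq_nonneg _)))
    rw [Pool.Agent.MP_71da5e_an.kel, h.z _ this, mul_zero]
  · have hc : (0 : E n) ∉ tsupport φ := fun h' => by
      have h1 : (0 : E n) ∈ Pl ν := by
        show ⟪(0 : E n), ν⟫ = 0
        exact inner_zero_left _
      have h2 := (hs ⟨h', h1⟩).1
      rw [norm_zero] at h2
      exact lt_asymm hr h2
    have e : (fun x => q x * Pool.Agent.MP_71da5e_an.kel 0 1 u x) =ᵐ[volume] fun x =>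
        ((jac 0 1 x ^ 2 : ℝ) : ℂ) *
          Pool.Agent.MP_71da5e_an.kel 0 1 (fun y => kq 0 1 q y * u y) x := by
      filter_upwards [kelB_ae_ne hn (0 : E n)] with x hx
      have h3 := kelB_jj one_pos hx
      simp only [Pool.Agent.MP_71da5e_an.kel, kq]
      rw [inv_inv' 0 one_pos]
      linear_combination (-(q x * (((1 / ‖x - 0‖) ^ (n - 2) : ℝ) : ℂ) * u (inv 0 1 x))) * h3
    rw [pair_congr (EventuallyEq.refl _ _) e, pair_kel 0 one_pos hn _ _ hφ.1]
    refine h.weak _ (hφ.kel hn one_pos hc) (fun x hx => ?_) fun x hx => ?_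
    · rw [Pool.Agent.MP_71da5e_an.kel, h0 _ (kelB_mem_Pl hx), mul_zero]
    · have h1 := hs ⟨inv_mem_tsupport hn 0 one_pos hφ.2 hx.1, kelB_mem_Pl hx.2⟩
      obtain ⟨h2, h3⟩ := h1
      rw [norm_inv_zero] at h2 h3
      exact (inv_lt_inv₀ (inv_pos.1 (hr.trans h2)) hr).1 h3

end Pool.Agent.MP_71da5e_an

end

section

namespace Pool.Agent.MP_71da5e_an

open MeasureTheory Metric Set Laplacian Filter Topology
open scoped ContDiff ENNReal RealInnerProductSpace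

variable {n : ℕ}

theorem B3_two : (0:ℝ) < √2 := Real.sqrt_pos.2 two_pos

theorem B3_inner_self {p : E n} (hp : ‖p‖ = 1) : ⟪p, -p⟫ = -1 := by
  rw [inner_neg_right, real_inner_self_eq_norm_sq, hp]; norm_num

theorem B3_notMem_Hs {p : E n} (hp : ‖p‖ = 1) : p ∉ Hs (-p) := by
  simp only [Hs, mem_ofPred_eq, B3_inner_self hp]; norm_num

theorem B3_ne_of_Pl {p : E n} (hp : ‖p‖ = 1) {x : E n} (hx : x ∈ Pl (-p)) : x ≠ p := by
  rintro rfl
  simp only [Pl, mem_ofPred_eq, B3_inner_self hp] at hx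
  norm_num at hx

theorem B3_mem_ball {p : E n} (hp : ‖p‖ = 1) {x : E n} (hx : x ≠ p) :
    inv p √2 x ∈ ball (0 : E n) 1 ↔ x ∈ Hs (-p) := by
  have h := one_sub_norm_inv hp hx
  have hj := jac_pos B3_two hx
  have h0 := norm_nonneg (inv p √2 x)
  rw [mem_ball_zero_iff]
  simp only [Hs, mem_ofPred_eq]
  constructor
  · intro h1
    have : 0 < 2 * jac p √2 x * ⟪x, -p⟫ := by rw [← h]; nlinarith
    exact (mul_pos_iff_of_pos_left (by positivity)).1 this
  · intro h1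
    have : 0 < 2 * jac p √2 x * ⟪x, -p⟫ := by positivity
    nlinarith

theorem B3_sphere {p : E n} (hp : ‖p‖ = 1) {x : E n} (hx : x ∈ Pl (-p)) :
    inv p √2 x ∈ sphere (0 : E n) 1 := by
  have h := one_sub_norm_inv hp (B3_ne_of_Pl hp hx)
  have hx' : ⟪x, -p⟫ = 0 := hx
  rw [hx', mul_zero] at h
  have h0 := norm_nonneg (inv p √2 x)
  rw [mem_sphere_zero_iff_norm]
  nlinarith

theorem B3_Pl {p : E n} (hp : ‖p‖ = 1) {x : E n} (hx : x ∈ sphere (0 : E n) 1) (hxp : x ≠ p) :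
    inv p √2 x ∈ Pl (-p) := by
  have hne := inv_ne B3_two hxp
  have h := one_sub_norm_inv hp hne
  have hj := jac_pos B3_two hne
  rw [inv_inv' p B3_two, mem_sphere_zero_iff_norm.1 hx] at h
  have : 2 * jac p √2 (inv p √2 x) * ⟪inv p √2 x, -p⟫ = 0 := by rw [← h]; norm_num
  exact (mul_eq_zero.1 this).resolve_left (by positivity)

theorem B3_norm_sub {p : E n} (hp : ‖p‖ = 1) (x : E n) :
    ‖x - p‖ ^ 2 = ‖x‖ ^ 2 + 2 * ⟪x, -p⟫ + 1 := by
  rw [norm_sub_sq_real, inner_neg_right, hp]; ring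

theorem B3_jac (p x : E n) : jac p √2 x = 2 / ‖x - p‖ ^ 2 := by
  rw [jac, Real.sq_sqrt (by norm_num)]

theorem B3_jac_le {p : E n} (hp : ‖p‖ = 1) {x : E n} (hx : x ∈ Hs (-p)) :
    jac p √2 x ^ 2 ≤ 4 * wt x := by
  have hx' : 0 < ⟪x, -p⟫ := hx
  have h1 : 1 + ‖x‖ ^ 2 ≤ ‖x - p‖ ^ 2 := by rw [B3_norm_sub hp]; linarith
  have h0 : 0 < 1 + ‖x‖ ^ 2 := by positivity
  have h2 : jac p √2 x ≤ 2 / (1 + ‖x‖ ^ 2) := by
    rw [B3_jac]; exact div_le_div_of_nonneg_left (by norm_num) h0 h1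
  have h3 : 0 ≤ jac p √2 x := by rw [B3_jac]; positivity
  calc jac p √2 x ^ 2 ≤ (2 / (1 + ‖x‖ ^ 2)) ^ 2 := pow_le_pow_left₀ h3 h2 2
    _ = 4 * wt x := by rw [wt, div_pow]; norm_num [div_eq_mul_inv]

theorem B3_le_jac {p : E n} (hp : ‖p‖ = 1) {x : E n} (hx : x ≠ p) : wt x ≤ jac p √2 x ^ 2 := by
  have h0 : 0 < ‖x - p‖ ^ 2 := pow_pos (norm_pos_iff.2 (sub_ne_zero.2 hx)) 2
  have h1 : ‖x - p‖ ^ 2 ≤ 2 * (1 + ‖x‖ ^ 2) := by
    have h := norm_sub_le x p
    rw [hp] at h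
    have := pow_le_pow_left₀ (norm_nonneg _) h 2
    nlinarith [sq_nonneg (‖x‖ - 1)]
  have h2 : (1 + ‖x‖ ^ 2)⁻¹ ≤ jac p √2 x := by
    rw [B3_jac, inv_eq_one_div, div_le_div_iff₀ (by positivity) h0]; linarith
  rw [wt, ← inv_pow]
  exact pow_le_pow_left₀ (by positivity) h2 2

theorem B3_jac_wt {p : E n} (hp : ‖p‖ = 1) (y : E n) : jac p √2 y ^ 2 * wt (inv p √2 y) ≤ 1 := by
  by_cases hy : y = p
  · subst hy; simp [jac]
  · have h := B3_le_jac hp (inv_ne B3_two hy)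
    rw [jac_inv p B3_two] at h
    have hj := jac_pos B3_two hy
    calc jac p √2 y ^ 2 * wt (inv p √2 y) ≤ jac p √2 y ^ 2 * (jac p √2 y)⁻¹ ^ 2 := by gcongr
      _ = 1 := by field_simp

theorem dec_kq {p : E n} (hp : ‖p‖ = 1) {A : ℝ} {q : E n → ℂ} (hq : Measurable q)
    (hA : ∀ x, ‖q x‖ ≤ A) : Dec (4 * A) ((Hs (-p)).indicator (kq p √2 q)) := by
  have hA0 : 0 ≤ A := (norm_nonneg _).trans (hA 0)
  refine ⟨Measurable.indicator ?_ (isOpen_Hs _).measurableSet, fun x => ?_⟩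
  · unfold kq
    exact (Complex.measurable_ofReal.comp ((measurable_jac _ _).pow_const 2)).mul
      (hq.comp (measurable_inv' _ _))
  · by_cases hx : x ∈ Hs (-p)
    · rw [indicator_of_mem hx, kq, norm_mul, Complex.norm_real, Real.norm_of_nonneg (sq_nonneg _)]
      calc jac p √2 x ^ 2 * ‖q (inv p √2 x)‖ ≤ (4 * wt x) * A :=
            mul_le_mul (B3_jac_le hp hx) (hA _) (norm_nonneg _) (by have := wt_pos x; positivity)
        _ = 4 * A * wt x := by ring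
    · rw [indicator_of_notMem hx, norm_zero]
      have := wt_pos x
      positivity

theorem B3_kel_ball (hn : 3 ≤ n) {p : E n} (hp : ‖p‖ = 1) {u : E n → ℂ}
    (hz : ∀ x, x ∉ Hs (-p) → u x = 0) {x : E n} (hx : x ∉ ball (0 : E n) 1) :
    kel p √2 u x = 0 := by
  by_cases hxp : x = p
  · rw [hxp]; exact kel_center hn _ _ _
  · have : inv p √2 x ∉ Hs (-p) := fun h => hx (by
      have := (B3_mem_ball hp (inv_ne B3_two hxp)).2 h
      rwa [inv_inv' p B3_two] at this)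
    rw [kel, hz _ this, mul_zero]

theorem B3_kel_Hs (hn : 3 ≤ n) {p : E n} (hp : ‖p‖ = 1) {v : E n → ℂ}
    (hz : ∀ x, x ∉ ball (0 : E n) 1 → v x = 0) {x : E n} (hx : x ∉ Hs (-p)) :
    kel p √2 v x = 0 := by
  by_cases hxp : x = p
  · rw [hxp]; exact kel_center hn _ _ _
  · rw [kel, hz _ fun h => hx ((B3_mem_ball hp hxp).1 h), mul_zero]

theorem B3_green (hn : 3 ≤ n) {p : E n} (hp : ‖p‖ = 1) (q : E n → ℂ) {u φ : E n → ℂ}
    (hz : ∀ x, x ∉ Hs (-p) → u x = 0) (hφ : ContDiff ℝ ∞ φ) :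
    green q (kel p √2 u) φ =
      pair u (fun x => (Hs (-p)).indicator (kq p √2 q) x * u x) (kel p √2 φ) := by
  rw [← pair_kel p B3_two hn _ _ hφ, green, pair,
    setIntegral_eq_integral_of_forall_compl_eq_zero
      (fun x hx => by rw [B3_kel_ball hn hp hz hx]; ring)]
  refine integral_congr_ae (ae_of_all _ fun x => ?_)
  have : q x * kel p √2 u x = ((jac p √2 x ^ 2 : ℝ) : ℂ) *
      kel p √2 (fun x => (Hs (-p)).indicator (kq p √2 q) x * u x) x := by
    by_cases hxp : x = p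
    · rw [hxp, kel_center hn, kel_center hn, mul_zero, mul_zero]
    · have hj : ((jac p √2 x : ℝ) : ℂ) ≠ 0 := by exact_mod_cast (jac_pos B3_two hxp).ne'
      by_cases hH : inv p √2 x ∈ Hs (-p)
      · simp only [kel, indicator_of_mem hH, kq, inv_inv' p B3_two, jac_inv p B3_two]
        push_cast
        field_simp
      · simp only [kel, hz _ hH, mul_zero]
  simp only [this]

theorem B3_pair_kel_kel {p : E n} {w F : E n → ℂ} (φ : E n → ℂ) (hw : w p = 0) (hF : F p = 0) :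
    pair w F (kel p √2 (kel p √2 φ)) = pair w F φ := by
  refine integral_congr_ae (ae_of_all _ fun x => ?_)
  by_cases hxp : x = p
  · simp only [hxp, hw, hF, zero_mul]
  · have he : kel p √2 (kel p √2 φ) =ᶠ[𝓝 x] φ :=
      (isOpen_ne.mem_nhds hxp : {y | y ≠ p} ∈ 𝓝 x) |> fun h =>
        mem_of_superset h fun y hy => kel_kel B3_two φ hy
    simp only [kel_kel B3_two φ hxp, lap_congr he]

theorem B3_memLp {w : E n → ℂ} (hw : Measurable w) (h : Q (fun _ => 1) w ≠ ⊤) :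
    MemLp w 2 (volume : Measure (E n)) := by
  rw [memLp_two_iff_integrable_sq_norm hw.aestronglyMeasurable]
  refine (lintegral_ofReal_ne_top_iff_integrable (by fun_prop)
    (ae_of_all _ fun x => sq_nonneg _)).1 ?_
  simpa [Q] using h

theorem B3_Q_ne_top {w : E n → ℂ} (hw : Measurable w) (h : MemLp w 2 (volume : Measure (E n))) :
    Q (fun _ => 1) w ≠ ⊤ := by
  rw [memLp_two_iff_integrable_sq_norm hw.aestronglyMeasurable] at h
  have := (lintegral_ofReal_ne_top_iff_integrable (f := fun x => ‖w x‖ ^ 2) (μ := volume)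
    (by fun_prop) (ae_of_all _ fun x => sq_nonneg _)).2 h
  simpa [Q] using this

theorem B3_compact {φ : E n → ℂ} {c : E n} {r : ℝ} (h : tsupport φ ⊆ ball c r) :
    HasCompactSupport φ :=
  (isCompact_closedBall c r).of_isClosed_subset (isClosed_tsupport _) (h.trans ball_subset_closedBall)

theorem isSol_of_adm (hn : 3 ≤ n) {Γ : Set (E n)} {p : E n} (hp : ‖p‖ = 1) (hpΓ : p ∈ Γ) {R : ℝ}
    (hR : ∀ x ∈ Pl (-p), R ≤ ‖x‖ → inv p √2 x ∈ Γ) {q u : E n → ℂ}
    (hu : Adm (-p) (ball 0 R) ((Hs (-p)).indicator (kq p √2 q)) u) :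
    IsSol Γ q (kel p √2 u) := by
  refine ⟨?_, fun φ hφ hs => ?_, fun x₀ hx₀ => ?_⟩
  · refine (B3_memLp (measurable_kel _ _ hu.l2.1) ?_).restrict _
    rw [Q_kel p B3_two hn]
    refine ne_top_of_le_ne_top (Q_ne_top_of_le (a := fun x => 4 * wt x) hu.l2.2 (c := 4)
      fun _ => le_rfl) (Q_mono fun x => ?_)
    by_cases hx : x ∈ Hs (-p)
    · rw [mul_one]; exact mul_le_mul_of_nonneg_right (B3_jac_le hp hx) (sq_nonneg _)
    · simp [hu.z x hx]
  · have hc := B3_compact hs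
    have hno : ∀ x ∈ Pl (-p), inv p √2 x ∉ tsupport φ := fun x hx h => by
      have h1 := mem_ball_zero_iff.1 (hs h)
      rw [mem_sphere_zero_iff_norm.1 (B3_sphere hp hx)] at h1
      exact lt_irrefl _ h1
    rw [B3_green hn hp q hu.z hφ]
    refine hu.weak _ (Tst.kel hn B3_two ⟨hφ, hc⟩ fun h => ?_) (fun x hx => ?_) fun x hx => ?_
    · have h1 := mem_ball_zero_iff.1 (hs h)
      rw [hp] at h1
      exact lt_irrefl _ h1
    · rw [kel, image_eq_zero_of_notMem_tsupport (hno x hx), mul_zero]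
    · exact absurd (inv_mem_tsupport hn p B3_two hc hx.1) (hno x hx.2)
  · have hne : x₀ ≠ p := fun h => hx₀.2 (h ▸ hpΓ)
    have hPl := B3_Pl hp hx₀.1 hne
    have hlt : ‖inv p √2 x₀‖ < R := by
      by_contra h
      have := hR _ hPl (not_lt.1 h)
      rw [inv_inv' p B3_two] at this
      exact hx₀.2 this
    have hev : ∀ᶠ x in 𝓝 x₀, ‖inv p √2 x‖ < R ∧ x ≠ p :=
      (((contDiffAt_inv' (c := p) √2 hne).continuousAt.norm).eventually_lt continuousAt_const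
        hlt).and (isOpen_ne.mem_nhds hne)
    obtain ⟨ε, hε, hb⟩ := Metric.eventually_nhds_iff_ball.1 hev
    refine ⟨ε, hε, fun g hg hs => ?_⟩
    have hφ : ContDiff ℝ ∞ fun x => rho x * g x := contDiff_rho.mul hg
    have hs' : tsupport (fun x => rho x * g x) ⊆ ball x₀ ε := tsupport_mul_subset_right.trans hs
    have hc := B3_compact hs'
    rw [dirichlet, B3_green hn hp q hu.z hφ, neg_eq_zero]
    refine hu.weak _ (Tst.kel hn B3_two ⟨hφ, hc⟩ fun h => (hb _ (hs' h)).2 rfl) (fun x hx => ?_)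
      fun x hx => ?_
    · simp [kel, rho, mem_sphere_zero_iff_norm.1 (B3_sphere hp hx)]
    · have := (hb _ (hs' (inv_mem_tsupport hn p B3_two hc hx.1))).1
      rw [inv_inv' p B3_two] at this
      exact mem_ball_zero_iff.2 this

theorem B3_pair_sub {w w' F F' φ : E n → ℂ} (hw : WL2 w) (hw' : WL2 w') (hF : WL2 F) (hF' : WL2 F')
    (hφ : Tst φ) :
    pair (fun x => w x - w' x) (fun x => F x - F' x) φ = pair w F φ - pair w' F' φ := by
  have i1 := hF.integrable_mul hφ.1.continuous hφ.2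
  have i2 := hF'.integrable_mul hφ.1.continuous hφ.2
  have i3 := hw.integrable_mul hφ.lap.1.continuous hφ.lap.2
  have i4 := hw'.integrable_mul hφ.lap.1.continuous hφ.lap.2
  unfold pair
  have j1 : Integrable fun x => F x * φ x - w x * Δ φ x := i1.sub i3
  have j2 : Integrable fun x => F' x * φ x - w' x * Δ φ x := i2.sub i4
  rw [← integral_sub j1 j2]
  refine integral_congr_ae (ae_of_all _ fun x => ?_)
  simp only
  ring

theorem hyp_of_cauchy (hn : 3 ≤ n) {Γ : Set (E n)} (hΓ : ∃ U, IsOpen U ∧ Γ = U ∩ sphere 0 1)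
    {p : E n} (hpΓ : p ∈ Γ) {A : ℝ} {q₁ q₂ : E n → ℂ} (hq₁ : Measurable q₁) (hq₂ : Measurable q₂)
    (hA₁ : ∀ x, ‖q₁ x‖ ≤ A) (hA₂ : ∀ x, ‖q₂ x‖ ≤ A) (h : cauchy Γ q₁ ⊆ cauchy Γ q₂) :
    ∃ R, Hyp (-p) (ball 0 R) {x | R < ‖x‖} ((Hs (-p)).indicator (kq p √2 q₁))
      ((Hs (-p)).indicator (kq p √2 q₂)) := by
  obtain ⟨U, hU, hΓU⟩ := id hΓ
  have hpU : p ∈ U ∩ sphere (0 : E n) 1 := hΓU ▸ hpΓ
  have hp : ‖p‖ = 1 := mem_sphere_zero_iff_norm.1 hpU.2
  obtain ⟨δ, hδ, hb⟩ := Metric.isOpen_iff.1 hU p hpU.1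
  have hR : ∀ x ∈ Pl (-p), 2 / δ + 1 ≤ ‖x‖ → inv p √2 x ∈ Γ := by
    intro x hx hx'
    rw [hΓU]
    refine ⟨hb ?_, B3_sphere hp hx⟩
    have hx0 : ⟪x, -p⟫ = 0 := hx
    have h1 : ‖x‖ ≤ ‖x - p‖ := by
      refine (pow_le_pow_iff_left₀ (norm_nonneg _) (norm_nonneg _) two_ne_zero).1 ?_
      rw [B3_norm_sub hp, hx0]; linarith
    have h2 : 2 / δ < ‖x - p‖ := by linarith
    have h3 : 0 < ‖x - p‖ := lt_trans (by positivity) h2
    rw [mem_ball_iff_norm, norm_inv_sub, Real.sq_sqrt (by norm_num), div_lt_iff₀ h3]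
    rw [div_lt_iff₀ hδ] at h2
    linarith
  refine ⟨2 / δ + 1, fun u hu => ?_⟩
  have h₁ := isSol_of_adm hn hp hpΓ hR hu
  obtain ⟨u₂, h₂, he⟩ := h ⟨_, h₁, rfl⟩
  have hd := fun g => congrFun (congrArg Prod.fst he) g
  have hN := fun g => congrFun (congrArg Prod.snd he) g
  have m₁ : MemLp q₁ ⊤ (volume.restrict (ball (0 : E n) 1)) :=
    memLp_top_of_bound hq₁.aestronglyMeasurable A (ae_of_all _ hA₁)
  have m₂ : MemLp q₂ ⊤ (volume.restrict (ball (0 : E n) 1)) :=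
    memLp_top_of_bound hq₂.aestronglyMeasurable A (ae_of_all _ hA₂)
  have hm := h₂.memL2.aestronglyMeasurable
  set v : E n → ℂ := (ball (0 : E n) 1).indicator (hm.mk u₂) with hv
  have hvm : Measurable v := hm.stronglyMeasurable_mk.measurable.indicator measurableSet_ball
  have hvz : ∀ x, x ∉ ball (0 : E n) 1 → v x = 0 := fun x hx => indicator_of_notMem hx _
  have hvL : MemLp v 2 (volume : Measure (E n)) :=
    (memLp_indicator_iff_restrict measurableSet_ball).2 (h₂.memL2.ae_eq hm.ae_eq_mk)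
  have hgv : ∀ φ, green q₂ u₂ φ = green q₂ v φ := fun φ => by
    refine integral_congr_ae ?_
    filter_upwards [hm.ae_eq_mk, ae_restrict_mem measurableSet_ball] with x hx hx'
    rw [hv, indicator_of_mem hx', hx]
  have hkz : ∀ x, x ∉ Hs (-p) → kel p √2 v x = 0 := fun x hx => B3_kel_Hs hn hp hvz hx
  have hkk : kel p √2 (kel p √2 v) = v := by
    funext x
    by_cases hxp : x = p
    · rw [hxp, kel_center hn, hvz p (by rw [mem_ball_zero_iff, hp]; exact lt_irrefl _)]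
    · exact kel_kel B3_two v hxp
  have hkv : WL2 (kel p √2 v) := by
    refine ⟨measurable_kel _ _ hvm, ?_⟩
    rw [Q_kel p B3_two hn]
    exact ne_top_of_le_ne_top (B3_Q_ne_top hvm hvL) (Q_mono_left _ (B3_jac_wt hp))
  have d₁ := dec_kq hp hq₁ hA₁
  have d₂ := dec_kq hp hq₂ hA₂
  have hw : WL2 fun x => u x - kel p √2 v x := hu.l2.sub hkv
  refine ⟨fun x => u x - kel p √2 v x, hw, (hu.l2.dec (d₁.sub d₂)).add (hw.dec d₂),
    fun x hx => ?_, fun x hx => ?_, fun φ hφ hc => ?_⟩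
  · simp only [hu.z x hx, hkz x hx, sub_zero]
  · simp only [hu.z x hx, hkz x hx, sub_zero, mul_zero, add_zero]
  · have hψ := contDiff_kel hn p B3_two hφ
    have hF : (fun x => ((Hs (-p)).indicator (kq p √2 q₁) x - (Hs (-p)).indicator (kq p √2 q₂) x) *
        u x + (Hs (-p)).indicator (kq p √2 q₂) x * (u x - kel p √2 v x)) =
        fun x => (Hs (-p)).indicator (kq p √2 q₁) x * u x -
          (Hs (-p)).indicator (kq p √2 q₂) x * kel p √2 v x := by
      funext x; ring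
    have hup : u p = 0 := hu.z p (B3_notMem_Hs hp)
    have hvp : kel p √2 v p = 0 := hkz p (B3_notMem_Hs hp)
    rw [hF, B3_pair_sub hu.l2 hkv (hu.l2.dec d₁) (hkv.dec d₂) hφ,
      ← B3_pair_kel_kel (p := p) φ hup (by simp only [hup, mul_zero]),
      ← B3_pair_kel_kel (p := p) φ hvp (by simp only [hvp, mul_zero]),
      ← B3_green hn hp q₁ hu.z hψ, ← B3_green hn hp q₂ hkz hψ, hkk, ← hgv, sub_eq_zero]
    refine green_eq hn hΓ m₁ m₂ h₁ h₂ hd hN hψ (hc.imp (fun h0 x hx => ?_) fun h0 x hx => ?_)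
    · by_cases hxp : x = p
      · rw [hxp]; exact kel_center hn _ _ _
      · rw [kel, h0 _ (B3_Pl hp hx hxp), mul_zero]
    · by_cases hxp : x = p
      · rw [hxp]; exact hpΓ
      · have h1 : 2 / δ + 1 < ‖inv p √2 x‖ := h0 (inv_mem_tsupport hn p B3_two hφ.2 hx.1)
        have := hR _ (B3_Pl hp hx.2 hxp) h1.le
        rwa [inv_inv' p B3_two] at this

end Pool.Agent.MP_71da5e_an

end
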