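import Pool.Agent.MP_71da5e_an.Defs

section

namespace Pool.Agent.MP_71da5e_an

open MeasureTheory Metric Set Laplacian
open scoped ContDiff ENNReal RealInnerProductSpace

/-- Euclidean space. -/
abbrev E (n : ℕ) : Type := EuclideanSpace ℝ (Fin n)

variable {n : ℕ}

/-- The weighted quadratic form `∫ a |w|^2`. -/
noncomputable def Q (a : E n → ℝ) (w : E n → ℂ) : ℝ≥0∞ := ∫⁻ x, ENNReal.ofReal (a x * ‖w x‖ ^ 2)

/-- The weight `(1 + |x|^2)^(-2)`. -/
noncomputable def wt (x : E n) : ℝ := ((1 + ‖x‖ ^ 2) ^ 2)⁻¹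

/-- Measurable and square integrable for the weight `wt`. -/
def WL2 (w : E n → ℂ) : Prop := Measurable w ∧ Q wt w ≠ ⊤

/-- Measurable and bounded by `A * wt`. -/
def Dec (A : ℝ) (q : E n → ℂ) : Prop := Measurable q ∧ ∀ x, ‖q x‖ ≤ A * wt x

/-- Smooth with compact support. -/
def Tst (φ : E n → ℂ) : Prop := ContDiff ℝ ∞ φ ∧ HasCompactSupport φ

/-- The pairing `∫ (F φ - w Δ φ)`. -/
noncomputable def pair (w F φ : E n → ℂ) : ℂ := ∫ x, (F x * φ x - w x * Δ φ x)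

/-- `Δ w = F` in the sense of distributions on `U`. -/
def WP (U : Set (E n)) (w F : E n → ℂ) : Prop :=
  WL2 w ∧ WL2 F ∧ ∀ φ, Tst φ → tsupport φ ⊆ U → pair w F φ = 0

/-- The open half space. -/
def Hs (ν : E n) : Set (E n) := {x | 0 < ⟪x, ν⟫}

/-- The boundary hyperplane. -/
def Pl (ν : E n) : Set (E n) := {x | ⟪x, ν⟫ = 0}

/-- The reflection in the hyperplane (for a unit vector `ν`). -/
noncomputable def rf (ν x : E n) : E n := x - (2 * ⟪x, ν⟫) • ν

/-- `Δ w = F` in the half space, `w` has zero Dirichlet data, and zero Cauchy data in `G`. -/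
structure HP (ν : E n) (G : Set (E n)) (w F : E n → ℂ) : Prop where
  l2w : WL2 w
  l2F : WL2 F
  zw : ∀ x, x ∉ Hs ν → w x = 0
  zF : ∀ x, x ∉ Hs ν → F x = 0
  weak : ∀ φ, Tst φ → ((∀ x ∈ Pl ν, φ x = 0) ∨ tsupport φ ⊆ G) → pair w F φ = 0

/-- `Δ u = q u` in the half space and `u` has zero Dirichlet data in `D`. -/
structure Adm (ν : E n) (D : Set (E n)) (q u : E n → ℂ) : Prop where
  l2 : WL2 u
  z : ∀ x, x ∉ Hs ν → u x = 0
  weak : ∀ φ, Tst φ → (∀ x ∈ Pl ν, φ x = 0) → tsupport φ ∩ Pl ν ⊆ D →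
    pair u (fun x => q x * u x) φ = 0

/-- The form in which the equality of the Cauchy data is used. -/
def Hyp (ν : E n) (D G : Set (E n)) (q₁ q₂ : E n → ℂ) : Prop :=
  ∀ u, Adm ν D q₁ u → ∃ w, HP ν G w fun x => (q₁ x - q₂ x) * u x + q₂ x * w x

/-- Inversion in the sphere with centre `c` and radius `R`. -/
noncomputable def inv (c : E n) (R : ℝ) (x : E n) : E n := c + (R ^ 2 / ‖x - c‖ ^ 2) • (x - c)

/-- The conformal factor of the inversion. -/
noncomputable def jac (c : E n) (R : ℝ) (x : E n) : ℝ := R ^ 2 / ‖x - c‖ ^ 2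

/-- The Kelvin transform. -/
noncomputable def kel (c : E n) (R : ℝ) (f : E n → ℂ) (x : E n) : ℂ :=
  (((R / ‖x - c‖) ^ (n - 2) : ℝ) : ℂ) * f (inv c R x)

/-- A fixed bump function: `1` on the unit ball, `0` outside the ball of radius `2`. -/
noncomputable def bump (n : ℕ) : ContDiffBump (0 : E n) := ⟨1, 2, one_pos, one_lt_two⟩

/-- The cut-off function: `0` on the ball of radius `ρ`, `1` outside the ball of radius `2 ρ`. -/
noncomputable def chi (ρ : ℝ) (x : E n) : ℝ := 1 - bump n (ρ⁻¹ • x)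

/-- The Carleman weight. -/
noncomputable def om (N : ℕ) (s t : ℝ) (x : E n) : ℝ :=
  (‖x‖ ^ 2 + s ^ 2) * (‖x‖ ^ 2 + t ^ 2) / ‖x‖ ^ N

/-- The weight on the left of the flattened estimate. -/
noncomputable def aW (k : ℕ) (ρ : ℝ) (x : E n) : ℝ :=
  if ‖x‖ < ρ then (ρ ^ (2 * k + n + 1))⁻¹
  else (k ^ 2 * ‖x‖ ^ 2 / (1 + ‖x‖ ^ 2) + ρ ^ 2 / (‖x‖ ^ 2 + ρ ^ 2)) / ‖x‖ ^ (2 * k + n + 1)

/-- The weight on the right of the flattened estimate. -/
noncomputable def bW (k : ℕ) (ρ C Λ : ℝ) (x : E n) : ℝ :=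
  if ‖x‖ ≤ 30 * ρ then Λ * ρ ^ 4 / ρ ^ (2 * k + n + 1)
  else C * (‖x‖ ^ 4 * (1 + ‖x‖ ^ 2)) / ‖x‖ ^ (2 * k + n + 1)

/-- The Gaussian beam `(x · (a + i b))^k`. -/
noncomputable def beam (a b : E n) (k : ℕ) (x : E n) : ℂ :=
  ((⟪x, a⟫ : ℝ) + (⟪x, b⟫ : ℝ) * Complex.I) ^ k

/-- The odd part of the beam. -/
noncomputable def obeam (ν a b : E n) (k : ℕ) (x : E n) : ℂ := beam a b k x - beam a b k (rf ν x)

/-- The Kelvin transform of the odd beam. -/
noncomputable def kbeam (ν a b : E n) (k : ℕ) (x : E n) : ℂ :=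
  obeam ν a b k x / ((‖x‖ ^ (2 * k + n - 2) : ℝ) : ℂ)

/-- The Kelvin transform of the odd beam, cut off near the origin. -/
noncomputable def cb (ν a b : E n) (k : ℕ) (ρ : ℝ) (x : E n) : ℂ := chi ρ x * kbeam ν a b k x

/-- The even extension of the restriction of `q` to the half space. -/
noncomputable def evn (ν : E n) (q : E n → ℂ) (x : E n) : ℂ :=
  (Hs ν).indicator q x + (Hs ν).indicator q (rf ν x)

/-- The potential after an inversion. -/
noncomputable def kq (c : E n) (R : ℝ) (q : E n → ℂ) (x : E n) : ℂ :=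
  ((jac c R x ^ 2 : ℝ) : ℂ) * q (inv c R x)

/-- The standard basis vectors. -/
noncomputable def ev (i : Fin n) : E n := EuclideanSpace.single i 1

/-- `f` is radial with radial derivative `x · ∇ f = g` away from the origin. -/
def Rad (f g : E n → ℝ) : Prop :=
  ∀ x, x ≠ 0 → HasFDerivAt f ((g x / ‖x‖ ^ 2) • innerSL ℝ x) x

/-- The indicator function of the closed shell `s ≤ |x - y| ≤ t`. -/
noncomputable def sh (y : E n) (s t : ℝ) (x : E n) : ℝ :=
  if s ≤ ‖x - y‖ ∧ ‖x - y‖ ≤ t then 1 else 0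

/-- The kernel that concentrates on the plane spanned by `a` and `b`. -/
noncomputable def kap (a b : E n) (k : ℕ) (x : E n) : ℝ :=
  (⟪x, a⟫ ^ 2 + ⟪x, b⟫ ^ 2) ^ k / ‖x‖ ^ (2 * k + n - 2)

/-- The mass of the kernel. -/
noncomputable def mass (a b : E n) (k : ℕ) : ℝ := ∫ x, wt x * kap a b k x

/-- An orthonormal pair. -/
def ON (a b : E n) : Prop := ‖a‖ = 1 ∧ ‖b‖ = 1 ∧ ⟪a, b⟫ = 0

lemma wt_pos (x : E n) : 0 < wt x := by unfold wt; positivity

lemma wt_le_one (x : E n) : wt x ≤ 1 :=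
  inv_le_one_of_one_le₀ (one_le_pow₀ (le_add_of_nonneg_right (sq_nonneg _)))

lemma continuous_wt : Continuous (wt : E n → ℝ) := by
  unfold wt
  exact Continuous.inv₀ (by fun_prop) fun x => by positivity

lemma kap_nonneg (a b : E n) (k : ℕ) (x : E n) : 0 ≤ kap a b k x := by unfold kap; positivity

lemma measurable_kap (a b : E n) (k : ℕ) : Measurable (kap a b k) := by unfold kap; fun_prop

lemma isOpen_Hs (ν : E n) : IsOpen (Hs ν) := isOpen_lt continuous_const (by fun_prop)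

lemma isClosed_Pl (ν : E n) : IsClosed (Pl ν) := isClosed_eq (by fun_prop) continuous_const

lemma measurable_inv' (c : E n) (R : ℝ) : Measurable (inv c R) := by unfold inv; fun_prop

lemma measurable_jac (c : E n) (R : ℝ) : Measurable (jac c R) := by unfold jac; fun_prop

lemma measurable_kel (c : E n) (R : ℝ) {f : E n → ℂ} (hf : Measurable f) :
    Measurable (kel c R f) := by
  unfold kel
  exact Measurable.mul (by fun_prop) (hf.comp (measurable_inv' c R))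

lemma contDiff_chi (ρ : ℝ) : ContDiff ℝ ∞ (chi ρ : E n → ℝ) :=
  contDiff_const.sub ((bump n).contDiff.comp (contDiff_const_smul _))

lemma chi_nonneg (ρ : ℝ) (x : E n) : 0 ≤ chi ρ x := sub_nonneg.2 (bump n).le_one

lemma chi_le_one (ρ : ℝ) (x : E n) : chi ρ x ≤ 1 := sub_le_self _ (bump n).nonneg

lemma chi_eq_zero {ρ : ℝ} (hρ : 0 < ρ) {x : E n} (h : ‖x‖ ≤ ρ) : chi ρ x = 0 := by
  refine sub_eq_zero.2 ((bump n).one_of_mem_closedBall ?_).symm
  rw [mem_closedBall_zero_iff, norm_smul, norm_inv, Real.norm_of_nonneg hρ.le]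
  exact (inv_mul_le_iff₀ hρ).2 (by simpa [bump] using h)

lemma chi_eq_one {ρ : ℝ} (hρ : 0 < ρ) {x : E n} (h : 2 * ρ ≤ ‖x‖) : chi ρ x = 1 := by
  rw [chi, (bump n).zero_of_le_dist, sub_zero]
  rw [dist_zero_right, norm_smul, norm_inv, Real.norm_of_nonneg hρ.le]
  exact (le_inv_mul_iff₀ hρ).2 (by simpa [bump, mul_comm] using h)

lemma sh_nonneg (y : E n) (s t : ℝ) (x : E n) : 0 ≤ sh y s t x := by
  unfold sh; split_ifs <;> norm_num

lemma sh_le_one (y : E n) (s t : ℝ) (x : E n) : sh y s t x ≤ 1 := by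
  unfold sh; split_ifs <;> norm_num

lemma measurable_sh (y : E n) (s t : ℝ) : Measurable (sh y s t) := by
  have h₁ : MeasurableSet {x : E n | s ≤ ‖x - y‖} := measurableSet_le measurable_const (by fun_prop)
  have h₂ : MeasurableSet {x : E n | ‖x - y‖ ≤ t} := measurableSet_le (by fun_prop) measurable_const
  exact Measurable.ite (h₁.inter h₂) measurable_const measurable_const

lemma measurable_aW (k : ℕ) (ρ : ℝ) : Measurable (aW k ρ : E n → ℝ) :=
  Measurable.ite (measurableSet_lt (by fun_prop) measurable_const) measurable_const (by fun_prop)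

lemma measurable_bW (k : ℕ) (ρ C Λ : ℝ) : Measurable (bW k ρ C Λ : E n → ℝ) :=
  Measurable.ite (measurableSet_le (by fun_prop) measurable_const) measurable_const (by fun_prop)

lemma aW_pos (k : ℕ) {ρ : ℝ} (hρ : 0 < ρ) (x : E n) : 0 < aW k ρ x := by
  unfold aW
  split_ifs with h
  · positivity
  · have : 0 < ‖x‖ := hρ.trans_le (not_lt.1 h)
    positivity

lemma bW_pos (k : ℕ) {ρ C Λ : ℝ} (hρ : 0 < ρ) (hC : 0 < C) (hΛ : 0 < Λ) (x : E n) :
    0 < bW k ρ C Λ x := by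
  unfold bW
  split_ifs with h
  · positivity
  · have : 0 < ‖x‖ := lt_trans (by positivity) (not_le.1 h)
    positivity

lemma Dec.nonneg {A : ℝ} {q : E n → ℂ} (h : Dec A q) : 0 ≤ A :=
  nonneg_of_mul_nonneg_left ((norm_nonneg _).trans (h.2 0)) (wt_pos 0)

lemma HP.mono {ν : E n} {G G' : Set (E n)} {w F : E n → ℂ} (h : HP ν G w F) (hG : G' ⊆ G) :
    HP ν G' w F :=
  ⟨h.l2w, h.l2F, h.zw, h.zF, fun φ hφ h' => h.weak φ hφ (h'.imp id fun h'' => h''.trans hG)⟩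

lemma HP.wp {ν : E n} {G : Set (E n)} {w F : E n → ℂ} (h : HP ν G w F) : WP G w F :=
  ⟨h.l2w, h.l2F, fun φ hφ h' => h.weak φ hφ (Or.inr h')⟩

lemma Adm.mono {ν : E n} {D D' : Set (E n)} {q u : E n → ℂ} (h : Adm ν D q u) (hD : D' ⊆ D) :
    Adm ν D' q u :=
  ⟨h.l2, h.z, fun φ hφ h₁ h₂ => h.weak φ hφ h₁ (h₂.trans hD)⟩

lemma Hyp.mono {ν : E n} {D D' G G' : Set (E n)} {q₁ q₂ : E n → ℂ} (h : Hyp ν D G q₁ q₂)
    (hD : D ⊆ D') (hG : G' ⊆ G) : Hyp ν D' G' q₁ q₂ := fun u hu =>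
  (h u (hu.mono hD)).imp fun _ hw => hw.mono hG

lemma Q_mono {a a' : E n → ℝ} {w w' : E n → ℂ} (h : ∀ x, a x * ‖w x‖ ^ 2 ≤ a' x * ‖w' x‖ ^ 2) :
    Q a w ≤ Q a' w' := lintegral_mono fun x => ENNReal.ofReal_le_ofReal (h x)

lemma Q_mono_left {a a' : E n → ℝ} (w : E n → ℂ) (h : ∀ x, a x ≤ a' x) : Q a w ≤ Q a' w :=
  Q_mono fun x => mul_le_mul_of_nonneg_right (h x) (sq_nonneg _)

lemma Q_congr {a : E n → ℝ} {w w' : E n → ℂ} (h : w =ᵐ[volume] w') : Q a w = Q a w' :=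
  lintegral_congr_ae (h.mono fun x hx => by simp only [hx])

lemma Q_le_add {a a₁ a₂ : E n → ℝ} {w w₁ w₂ : E n → ℂ} (ha : Measurable a₁) (hw : Measurable w₁)
    (h : ∀ x, a x * ‖w x‖ ^ 2 ≤ a₁ x * ‖w₁ x‖ ^ 2 + a₂ x * ‖w₂ x‖ ^ 2) :
    Q a w ≤ Q a₁ w₁ + Q a₂ w₂ := by
  unfold Q
  rw [← lintegral_add_left (by fun_prop)]
  exact lintegral_mono fun x => (ENNReal.ofReal_le_ofReal (h x)).trans ENNReal.ofReal_add_le

lemma Q_add_left {a₁ a₂ : E n → ℝ} {w : E n → ℂ} (ha : Measurable a₁) (hw : Measurable w)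
    (h₁ : ∀ x, 0 ≤ a₁ x) (h₂ : ∀ x, 0 ≤ a₂ x) :
    Q (fun x => a₁ x + a₂ x) w = Q a₁ w + Q a₂ w := by
  unfold Q
  rw [← lintegral_add_left (by fun_prop)]
  refine lintegral_congr fun x => ?_
  rw [add_mul, ENNReal.ofReal_add (mul_nonneg (h₁ x) (sq_nonneg _))
    (mul_nonneg (h₂ x) (sq_nonneg _))]

lemma Q_const_mul {c : ℝ} (hc : 0 ≤ c) (a : E n → ℝ) (w : E n → ℂ) :
    Q (fun x => c * a x) w = ENNReal.ofReal c * Q a w := by
  unfold Q
  rw [← lintegral_const_mul' _ _ ENNReal.ofReal_ne_top]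
  refine lintegral_congr fun x => ?_
  rw [mul_assoc, ENNReal.ofReal_mul hc]

end Pool.Agent.MP_71da5e_an

end

section

namespace Pool.Agent.MP_71da5e_an

open MeasureTheory Metric Set Laplacian Filter Topology
open scoped ContDiff ENNReal RealInnerProductSpace

variable {n : ℕ}

variable {F : Type*} [NormedAddCommGroup F] [NormedSpace ℝ F]

theorem calc_lap_def (f : E n → F) :
    Δ f = fun x => ∑ i, fderiv ℝ (fderiv ℝ f) x (ev i) (ev i) := by
  rw [InnerProductSpace.laplacian_eq_iteratedFDeriv_orthonormalBasis f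
    (EuclideanSpace.basisFun (Fin n) ℝ)]
  funext x
  refine Finset.sum_congr rfl fun i _ => ?_
  rw [iteratedFDeriv_two_apply]
  simp [ev]

theorem calc_diff_fderiv {f : E n → F} {x : E n} (hf : ContDiffAt ℝ 2 f x) :
    DifferentiableAt ℝ (fderiv ℝ f) x :=
  (hf.fderiv_right (m := 1) (by norm_num)).differentiableAt (by norm_num)

theorem calc_fderiv_apply {f : E n → F} {x : E n} (hf : ContDiffAt ℝ 2 f x) (v w : E n) :
    fderiv ℝ (fun y => fderiv ℝ f y v) x w = fderiv ℝ (fderiv ℝ f) x w v := by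
  rw [fderiv_clm_apply (calc_diff_fderiv hf) (differentiableAt_const _)]
  simp

theorem lap_eq {f : E n → F} {x : E n} (hf : ContDiffAt ℝ 2 f x) :
    Δ f x = ∑ i, fderiv ℝ (fun y => fderiv ℝ f y (ev i)) x (ev i) := by
  simp only [calc_lap_def, calc_fderiv_apply hf]

theorem calc_lap_mul {A : Type*} [NormedCommRing A] [NormedAlgebra ℝ A] {f g : E n → A} {x : E n}
    (hf : ContDiffAt ℝ 2 f x) (hg : ContDiffAt ℝ 2 g x) :
    Δ (fun y => f y * g y) x =
      f x * Δ g x + 2 * ∑ i, fderiv ℝ f x (ev i) * fderiv ℝ g x (ev i) + Δ f x * g x := by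
  rw [lap_eq (hf.mul hg), lap_eq hf, lap_eq hg, Finset.mul_sum, Finset.mul_sum, Finset.sum_mul,
    ← Finset.sum_add_distrib, ← Finset.sum_add_distrib]
  refine Finset.sum_congr rfl fun i _ => ?_
  have h1 : (fun y => fderiv ℝ (fun y => f y * g y) y (ev i)) =ᶠ[𝓝 x]
      fun y => f y * fderiv ℝ g y (ev i) + g y * fderiv ℝ f y (ev i) := by
    filter_upwards [hf.eventually (by simp), hg.eventually (by simp)] with y h1 h2
    rw [fderiv_fun_mul (h1.differentiableAt (by norm_num)) (h2.differentiableAt (by norm_num))]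
    simp
  have df := hf.differentiableAt (by norm_num)
  have dg := hg.differentiableAt (by norm_num)
  have df' : DifferentiableAt ℝ (fun y => fderiv ℝ f y (ev i)) x :=
    (calc_diff_fderiv hf).clm_apply (differentiableAt_const _)
  have dg' : DifferentiableAt ℝ (fun y => fderiv ℝ g y (ev i)) x :=
    (calc_diff_fderiv hg).clm_apply (differentiableAt_const _)
  rw [h1.fderiv_eq, fderiv_fun_add (df.fun_mul dg') (dg.fun_mul df'), fderiv_fun_mul df dg',
    fderiv_fun_mul dg df']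
  simp only [add_apply, smul_apply, smul_eq_mul]
  ring

theorem lap_mul {f g : E n → ℂ} {x : E n} (hf : ContDiffAt ℝ 2 f x) (hg : ContDiffAt ℝ 2 g x) :
    Δ (fun y => f y * g y) x =
      f x * Δ g x + 2 * ∑ i, fderiv ℝ f x (ev i) * fderiv ℝ g x (ev i) + Δ f x * g x :=
  calc_lap_mul hf hg

theorem lap_mul_real {f g : E n → ℝ} {x : E n} (hf : ContDiffAt ℝ 2 f x)
    (hg : ContDiffAt ℝ 2 g x) : Δ (fun y => f y * g y) x =
      f x * Δ g x + 2 * ∑ i, fderiv ℝ f x (ev i) * fderiv ℝ g x (ev i) + Δ f x * g x :=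
  calc_lap_mul hf hg

theorem calc_sum_coord (x : E n) : ∑ i, x i • ev i = x := by
  simpa [ev] using (EuclideanSpace.basisFun (Fin n) ℝ).sum_repr x

theorem calc_inner_ev (x : E n) (i : Fin n) : ⟪x, ev i⟫ = x i := by
  simp [ev, EuclideanSpace.inner_single_right]

theorem calc_lap_ofReal {χ : E n → ℝ} {x : E n} (hχ : ContDiffAt ℝ 2 χ x) :
    Δ (fun y => (χ y : ℂ)) x = (Δ χ x : ℝ) :=
  hχ.laplacian_CLM_comp_left (l := Complex.ofRealCLM)

theorem lap_smul {χ : E n → ℝ} {W : E n → ℂ} {x : E n} (hχ : ContDiffAt ℝ 2 χ x)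
    (hW : ContDiffAt ℝ 2 W x) : Δ (fun y => (χ y : ℂ) * W y) x =
      χ x * Δ W x + 2 * fderiv ℝ W x (gradient χ x) + (Δ χ x : ℝ) * W x := by
  have h1 : ContDiffAt ℝ 2 (fun y => (χ y : ℂ)) x :=
    Complex.ofRealCLM.contDiff.contDiffAt.comp x hχ
  rw [lap_mul h1 hW, calc_lap_ofReal hχ]
  congr 3
  conv_rhs => rw [← calc_sum_coord (gradient χ x), map_sum]
  refine Finset.sum_congr rfl fun i _ => ?_
  have h2 : fderiv ℝ (fun y => (χ y : ℂ)) x (ev i) = (fderiv ℝ χ x (ev i) : ℝ) := by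
    have := (Complex.ofRealCLM.hasFDerivAt.comp x
      (hχ.differentiableAt (by norm_num)).hasFDerivAt).fderiv
    exact congrArg (fun L : E n →L[ℝ] ℂ => L (ev i)) this
  rw [h2, map_smul, ← calc_inner_ev, gradient, InnerProductSpace.toDual_symm_apply,
    Complex.real_smul]

theorem norm_gradient_eq (χ : E n → ℝ) (x : E n) : ‖gradient χ x‖ = ‖fderiv ℝ χ x‖ :=
  (InnerProductSpace.toDual ℝ (E n)).symm.norm_map _

theorem sum_sq_fderiv (L : E n →L[ℝ] ℝ) : ∑ i, L (ev i) ^ 2 = ‖L‖ ^ 2 := by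
  rw [← (InnerProductSpace.toDual ℝ (E n)).symm.norm_map L, EuclideanSpace.real_norm_sq_eq]
  refine Finset.sum_congr rfl fun i _ => ?_
  rw [← calc_inner_ev, InnerProductSpace.toDual_symm_apply]

theorem opNorm_sq_le (L : E n →L[ℝ] ℂ) : ‖L‖ ^ 2 ≤ ∑ i, ‖L (ev i)‖ ^ 2 := by
  have h0 : 0 ≤ ∑ i, ‖L (ev i)‖ ^ 2 := Finset.sum_nonneg fun i _ => sq_nonneg _
  rw [← Real.le_sqrt (norm_nonneg _) h0]
  refine L.opNorm_le_bound (Real.sqrt_nonneg _) fun x => ?_
  have h1 : ‖L x‖ ≤ ∑ i, ‖L (ev i)‖ * |x i| := by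
    conv_lhs => rw [← calc_sum_coord x, map_sum]
    refine (norm_sum_le _ _).trans (le_of_eq (Finset.sum_congr rfl fun i _ => ?_))
    rw [map_smul, norm_smul, Real.norm_eq_abs, mul_comm]
  refine h1.trans ((Real.sum_mul_le_sqrt_mul_sqrt _ _ _).trans (le_of_eq ?_))
  rw [EuclideanSpace.norm_eq]
  simp

theorem sum_coord_smul_ev (x : E n) : ∑ i, x i • ev i = x := calc_sum_coord x

theorem inner_ev (x : E n) (i : Fin n) : ⟪x, ev i⟫ = x i := calc_inner_ev x i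

theorem lap_ofReal {χ : E n → ℝ} {x : E n} (hχ : ContDiffAt ℝ 2 χ x) :
    Δ (fun y => (χ y : ℂ)) x = (Δ χ x : ℝ) := calc_lap_ofReal hχ

theorem lap_re {W : E n → ℂ} {x : E n} (hW : ContDiffAt ℝ 2 W x) :
    Δ (fun y => (W y).re) x = (Δ W x).re :=
  hW.laplacian_CLM_comp_left (l := Complex.reCLM)

theorem lap_im {W : E n → ℂ} {x : E n} (hW : ContDiffAt ℝ 2 W x) :
    Δ (fun y => (W y).im) x = (Δ W x).im :=
  hW.laplacian_CLM_comp_left (l := Complex.imCLM)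

theorem calc_fderiv_affine (f : E n → F) (c : E n) (t : ℝ) (x : E n) :
    fderiv ℝ (fun y => f (c + t • y)) x = t • fderiv ℝ f (c + t • x) := by
  rw [fderiv_comp_smul (f := fun z => f (c + z)) t, fderiv_comp_add_left]

theorem lap_affine {f : E n → F} (c : E n) (t : ℝ) {x : E n} (hf : ContDiffAt ℝ 2 f (c + t • x)) :
    Δ (fun y => f (c + t • y)) x = t ^ 2 • Δ f (c + t • x) := by
  simp only [calc_lap_def, Finset.smul_sum]
  refine Finset.sum_congr rfl fun i _ => ?_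
  have h1 : fderiv ℝ (fun y => f (c + t • y)) = fun y => (t • fderiv ℝ f) (c + t • y) :=
    funext (calc_fderiv_affine f c t)
  rw [h1, calc_fderiv_affine, fderiv_const_smul (calc_diff_fderiv hf)]
  simp [smul_smul, sq]

theorem lap_add_const (f : E n → F) (c x : E n) : Δ (fun y => f (y + c)) x = Δ f (x + c) := by
  simp only [InnerProductSpace.laplacian_eq_iteratedFDeriv_stdOrthonormalBasis,
    iteratedFDeriv_comp_add_right]

theorem lap_congr {f g : E n → F} {x : E n} (h : f =ᶠ[𝓝 x] g) : Δ f x = Δ g x :=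
  (InnerProductSpace.laplacian_congr_nhds h).eq_of_nhds

theorem lap_eq_zero {f : E n → F} {x : E n} (h : x ∉ tsupport f) : Δ f x = 0 := by
  rw [lap_congr (notMem_tsupport_iff_eventuallyEq.1 h)]
  exact congrFun (InnerProductSpace.laplacian_const (E := E n) (c := (0 : F))) x

theorem tsupport_lap (f : E n → F) : tsupport (Δ f) ⊆ tsupport f :=
  closure_minimal (fun _ hx => by_contra fun h => hx (lap_eq_zero h)) (isClosed_tsupport f)

theorem contDiffAt_lap {f : E n → F} {x : E n} (hf : ContDiffAt ℝ ∞ f x) :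
    ContDiffAt ℝ ∞ (Δ f) x := by
  rw [calc_lap_def]
  refine ContDiffAt.sum fun i _ => ?_
  exact (((hf.fderiv_right (m := ∞) le_rfl).fderiv_right (m := ∞) le_rfl).clm_apply
    contDiffAt_const).clm_apply contDiffAt_const

theorem contDiff_lap {f : E n → F} (hf : ContDiff ℝ ∞ f) : ContDiff ℝ ∞ (Δ f) :=
  contDiff_iff_contDiffAt.2 fun _ => contDiffAt_lap hf.contDiffAt

theorem Tst.lap {φ : E n → ℂ} (h : Tst φ) : Tst (Δ φ) :=
  ⟨contDiff_lap h.1, IsCompact.of_isClosed_subset h.2 (isClosed_tsupport _) (tsupport_lap φ)⟩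

theorem integral_fderiv_zero [CompleteSpace F] {g : E n → F} (hg : ContDiff ℝ 1 g)
    (hc : HasCompactSupport g) (v : E n) : ∫ x, fderiv ℝ g x v = 0 := by
  have h1 : Integrable (fun x => fderiv ℝ g x v) :=
    ((hg.continuous_fderiv (by norm_num)).clm_apply continuous_const).integrable_of_hasCompactSupport
      (hc.fderiv_apply ℝ v)
  have h2 := integral_smul_fderiv_eq_neg_fderiv_smul_of_integrable (μ := volume)
    (f := fun _ : E n => (1 : ℝ)) (g := g) (v := v) (by simp) (by simpa using h1)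
    (by simpa using hg.continuous.integrable_of_hasCompactSupport hc)
    (fun _ _ => differentiableAt_const _) (fun x _ => hg.differentiable (by norm_num) x)
  simpa using h2

/-- A function that is smooth on an open set `U` and supported in a closed subset of `U`. -/
theorem contDiff_of_closed {m : WithTop ℕ∞} {g : E n → F} {U K : Set (E n)} (hU : IsOpen U)
    (hK : IsClosed K) (hKU : K ⊆ U) (hg : ContDiffOn ℝ m g U) (h0 : ∀ x, x ∉ K → g x = 0) :
    ContDiff ℝ m g := by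
  refine contDiff_iff_contDiffAt.2 fun x => ?_
  by_cases hx : x ∈ K
  · exact hg.contDiffAt (hU.mem_nhds (hKU hx))
  · refine (contDiffAt_const (c := (0 : F))).congr_of_eventuallyEq ?_
    filter_upwards [hK.isOpen_compl.mem_nhds hx] with y hy using h0 y hy

theorem continuous_of_closed {g : E n → F} {U K : Set (E n)} (hU : IsOpen U)
    (hK : IsClosed K) (hKU : K ⊆ U) (hg : ContinuousOn g U) (h0 : ∀ x, x ∉ K → g x = 0) :
    Continuous g :=
  contDiff_zero.1 (contDiff_of_closed (m := 0) hU hK hKU (contDiffOn_zero.2 hg) h0)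

end Pool.Agent.MP_71da5e_an

end

section

namespace Pool.Agent.MP_71da5e_an

open MeasureTheory Metric Set Laplacian Filter Topology
open scoped ContDiff ENNReal RealInnerProductSpace

variable {n : ℕ}

theorem inner_rf_nu {ν : E n} (hν : ‖ν‖ = 1) (x : E n) : ⟪rf ν x, ν⟫ = -⟪x, ν⟫ := by
  simp only [rf, inner_sub_left, real_inner_smul_left, real_inner_self_eq_norm_sq, hν]
  ring

theorem rf_rf {ν : E n} (hν : ‖ν‖ = 1) (x : E n) : rf ν (rf ν x) = x := by
  rw [rf, inner_rf_nu hν, rf]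
  module

theorem inner_rf_left (ν x y : E n) : ⟪rf ν x, y⟫ = ⟪x, rf ν y⟫ := by
  simp only [rf, inner_sub_left, inner_sub_right, real_inner_smul_left, real_inner_smul_right,
    real_inner_comm ν y]
  ring

theorem inner_rf_rf {ν : E n} (hν : ‖ν‖ = 1) (x y : E n) : ⟪rf ν x, rf ν y⟫ = ⟪x, y⟫ := by
  rw [inner_rf_left, rf_rf hν]

theorem norm_rf {ν : E n} (hν : ‖ν‖ = 1) (x : E n) : ‖rf ν x‖ = ‖x‖ := by
  rw [norm_eq_sqrt_real_inner, inner_rf_rf hν, ← norm_eq_sqrt_real_inner]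

theorem rf_of_mem_Pl {ν x : E n} (hx : x ∈ Pl ν) : rf ν x = x := by
  have : ⟪x, ν⟫ = 0 := hx
  simp [rf, this]

theorem rf_neg (ν x : E n) : rf ν (-x) = -rf ν x := by
  simp only [rf, inner_neg_left]
  module

theorem contDiff_rf (ν : E n) : ContDiff ℝ ∞ (rf ν) :=
  contDiff_id.sub ((contDiff_const.mul (contDiff_id.inner ℝ contDiff_const)).smul contDiff_const)

/-- The reflection as a linear map. -/
noncomputable def reflL (ν : E n) : E n →ₗ[ℝ] E n where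
  toFun := rf ν
  map_add' x y := by simp only [rf, inner_add_left]; module
  map_smul' c x := by simp only [rf, real_inner_smul_left, RingHom.id_apply]; module

/-- The reflection as a linear isometry. -/
noncomputable def reflI {ν : E n} (hν : ‖ν‖ = 1) : E n ≃ₗᵢ[ℝ] E n :=
  { LinearEquiv.ofInvolutive (reflL ν) (rf_rf hν) with norm_map' := norm_rf hν }

lemma reflI_apply {ν : E n} (hν : ‖ν‖ = 1) (x : E n) : reflI hν x = rf ν x := rfl

theorem measurePreserving_rf {ν : E n} (hν : ‖ν‖ = 1) :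
    MeasurePreserving (rf ν) volume volume := (reflI hν).measurePreserving

theorem integral_rf {ν : E n} (hν : ‖ν‖ = 1) {F : Type*} [NormedAddCommGroup F] [NormedSpace ℝ F]
    (g : E n → F) : ∫ x, g (rf ν x) = ∫ x, g x :=
  (measurePreserving_rf hν).integral_comp (reflI hν).toHomeomorph.measurableEmbedding g

theorem lintegral_rf {ν : E n} (hν : ‖ν‖ = 1) (g : E n → ℝ≥0∞) :
    ∫⁻ x, g (rf ν x) = ∫⁻ x, g x :=
  (measurePreserving_rf hν).lintegral_comp_emb (reflI hν).toHomeomorph.measurableEmbedding g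

theorem integrable_rf {ν : E n} (hν : ‖ν‖ = 1) {F : Type*} [NormedAddCommGroup F] {g : E n → F}
    (hg : Integrable g) : Integrable fun x => g (rf ν x) :=
  (measurePreserving_rf hν).integrable_comp_of_integrable hg

theorem volume_Pl {ν : E n} (hν : ‖ν‖ = 1) : volume (Pl ν) = 0 := by
  have h := Measure.addHaar_submodule (volume : Measure (E n)) (LinearMap.ker (innerₗ (E n) ν))
    fun h => by
      have : ν ∈ LinearMap.ker (innerₗ (E n) ν) := h ▸ Submodule.mem_top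
      simp [hν] at this
  convert h using 2
  ext x
  simp [Pl, real_inner_comm]

theorem lap_rf {ν : E n} (hν : ‖ν‖ = 1) {f : E n → ℂ} {x : E n}
    (hf : ContDiffAt ℝ 2 f (rf ν x)) : Δ (fun y => f (rf ν y)) x = Δ f (rf ν x) := by
  rw [InnerProductSpace.laplacian_eq_iteratedFDeriv_orthonormalBasis _
      (EuclideanSpace.basisFun (Fin n) ℝ),
    InnerProductSpace.laplacian_eq_iteratedFDeriv_orthonormalBasis f
      ((EuclideanSpace.basisFun (Fin n) ℝ).map (reflI hν))]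
  refine Finset.sum_congr rfl fun i _ => ?_
  have := (reflI hν).toContinuousLinearEquiv.iteratedFDerivWithin_comp_right f uniqueDiffOn_univ
    (mem_univ ((reflI hν).toContinuousLinearEquiv x)) 2
  simp only [preimage_univ, iteratedFDerivWithin_univ] at this
  have e : (fun y => f (rf ν y)) = f ∘ (reflI hν).toContinuousLinearEquiv := rfl
  rw [e, this, ContinuousMultilinearMap.compContinuousLinearMap_apply]
  congr 1
  funext j
  fin_cases j <;> rfl

theorem Tst.rf {ν : E n} (hν : ‖ν‖ = 1) {φ : E n → ℂ} (h : Tst φ) : Tst fun x => φ (rf ν x) :=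
  ⟨h.1.comp (contDiff_rf ν), h.2.comp_homeomorph (reflI hν).toHomeomorph⟩

theorem ON.rf {ν a b : E n} (hν : ‖ν‖ = 1) (h : ON a b) : ON (rf ν a) (rf ν b) :=
  ⟨(norm_rf hν a).trans h.1, (norm_rf hν b).trans h.2.1, (inner_rf_rf hν a b).trans h.2.2⟩

theorem ON.neg {a b : E n} (h : ON a b) : ON a (-b) :=
  ⟨h.1, (norm_neg b).trans h.2.1, by rw [inner_neg_right, h.2.2, neg_zero]⟩

theorem ON.sq_le {a b : E n} (h : ON a b) (x : E n) : ⟪x, a⟫ ^ 2 + ⟪x, b⟫ ^ 2 ≤ ‖x‖ ^ 2 := by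
  have h0 := real_inner_self_nonneg (x := x - ⟪x, a⟫ • a - ⟪x, b⟫ • b)
  have h1 : ⟪b, a⟫ = 0 := by rw [real_inner_comm, h.2.2]
  simp only [inner_sub_left, inner_sub_right, real_inner_smul_left, real_inner_smul_right,
    real_inner_self_eq_norm_sq, norm_smul, mul_pow, Real.norm_eq_abs, sq_abs, h.1, h.2.1, h.2.2,
    h1, real_inner_comm x a, real_inner_comm x b] at h0
  nlinarith

theorem Dec.evn {ν : E n} (hν : ‖ν‖ = 1) {A : ℝ} {q : E n → ℂ} (h : Dec A q) :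
    Dec A (evn ν q) := by
  have hm := h.1.indicator (isOpen_Hs ν).measurableSet
  refine ⟨hm.add (hm.comp (contDiff_rf ν).continuous.measurable), fun x => ?_⟩
  unfold MP_71da5e_an.evn
  by_cases hx : x ∈ Hs ν
  · have h1 : rf ν x ∉ Hs ν := by
      have : 0 < ⟪x, ν⟫ := hx
      simp only [Hs, mem_ofPred_eq, inner_rf_nu hν, not_lt]
      linarith
    rw [indicator_of_mem hx, indicator_of_notMem h1, add_zero]
    exact h.2 x
  · rw [indicator_of_notMem hx, zero_add]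
    refine (norm_indicator_le_norm_self q _).trans ((h.2 _).trans_eq ?_)
    simp only [wt, norm_rf hν]

end Pool.Agent.MP_71da5e_an

end

section

namespace Pool.Agent.MP_71da5e_an

open MeasureTheory Metric Set Laplacian Filter Topology
open scoped ContDiff ENNReal RealInnerProductSpace

variable {n : ℕ}

theorem cs_lintegral {a : E n → ℝ} (ha : Measurable a) (ha0 : ∀ x, 0 < a x) {f g : E n → ℂ}
    (hf : Measurable f) (hg : Measurable g) :
    (∫⁻ x, ‖f x * g x‖ₑ) ^ 2 ≤ Q (fun x => (a x)⁻¹) f * Q a g := by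
  have h := ENNReal.lintegral_mul_le_Lp_mul_Lq (volume : Measure (E n))
    Real.HolderConjugate.two_two (f := fun x => ENNReal.ofReal (‖f x‖ / √(a x)))
    (g := fun x => ENNReal.ofReal (√(a x) * ‖g x‖)) (by fun_prop) (by fun_prop)
  have e0 : ∀ x, ‖f x * g x‖ₑ =
      ENNReal.ofReal (‖f x‖ / √(a x)) * ENNReal.ofReal (√(a x) * ‖g x‖) := fun x => by
    have := Real.sqrt_pos.2 (ha0 x)
    rw [← ENNReal.ofReal_mul (by positivity), ← ofReal_norm, norm_mul]
    congr 1; field_simp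
  have e1 : ∀ x, ENNReal.ofReal (‖f x‖ / √(a x)) ^ (2 : ℝ) =
      ENNReal.ofReal ((a x)⁻¹ * ‖f x‖ ^ 2) := fun x => by
    rw [ENNReal.rpow_two, ← ENNReal.ofReal_pow (by positivity), div_pow, Real.sq_sqrt (ha0 x).le]
    congr 1; ring
  have e2 : ∀ x, ENNReal.ofReal (√(a x) * ‖g x‖) ^ (2 : ℝ) =
      ENNReal.ofReal (a x * ‖g x‖ ^ 2) := fun x => by
    rw [ENNReal.rpow_two, ← ENNReal.ofReal_pow (by positivity), mul_pow, Real.sq_sqrt (ha0 x).le]
  simp only [Pi.mul_apply, ← e0, e1, e2] at h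
  refine (pow_le_pow_left' h 2).trans (le_of_eq ?_)
  rw [mul_pow, ← ENNReal.rpow_two, ← ENNReal.rpow_two, ← ENNReal.rpow_mul, ← ENNReal.rpow_mul]
  norm_num [Q]

theorem cs_integrable {a : E n → ℝ} (ha : Measurable a) (ha0 : ∀ x, 0 < a x) {f g : E n → ℂ}
    (hf : Measurable f) (hg : Measurable g) (h₁ : Q (fun x => (a x)⁻¹) f ≠ ⊤) (h₂ : Q a g ≠ ⊤) :
    Integrable fun x => f x * g x := by
  refine ⟨(hf.mul hg).aestronglyMeasurable, ?_⟩
  have h := (cs_lintegral ha ha0 hf hg).trans_lt (ENNReal.mul_ne_top h₁ h₂).lt_top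
  exact (ENNReal.pow_ne_top_iff.1 h.ne).resolve_right two_ne_zero |>.lt_top

theorem cs_enorm {a : E n → ℝ} (ha : Measurable a) (ha0 : ∀ x, 0 < a x) {f g : E n → ℂ}
    (hf : Measurable f) (hg : Measurable g) :
    ‖∫ x, f x * g x‖ₑ ^ 2 ≤ Q (fun x => (a x)⁻¹) f * Q a g :=
  (pow_le_pow_left' (enorm_integral_le_lintegral_enorm _) 2).trans (cs_lintegral ha ha0 hf hg)

theorem cs_real {a : E n → ℝ} (ha : Measurable a) (ha0 : ∀ x, 0 < a x) {f g : E n → ℂ}
    (hf : Measurable f) (hg : Measurable g) {s t : ℝ} (hs : 0 ≤ s) (ht : 0 ≤ t)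
    (h₁ : Q (fun x => (a x)⁻¹) f ≤ ENNReal.ofReal s) (h₂ : Q a g ≤ ENNReal.ofReal t) :
    ‖∫ x, f x * g x‖ ≤ √s * √t := by
  have h := (cs_enorm ha ha0 hf hg).trans (mul_le_mul' h₁ h₂)
  rw [← ofReal_norm, ← ENNReal.ofReal_pow (norm_nonneg _), ← ENNReal.ofReal_mul hs,
    ENNReal.ofReal_le_ofReal_iff (mul_nonneg hs ht)] at h
  rw [← Real.sqrt_mul hs]
  exact Real.le_sqrt_of_sq_le h

theorem Q_eq_ofReal {a : E n → ℝ} {w : E n → ℂ} (ha : ∀ x, 0 ≤ a x)
    (h : Integrable fun x => a x * ‖w x‖ ^ 2) :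
    Q a w = ENNReal.ofReal (∫ x, a x * ‖w x‖ ^ 2) :=
  (ofReal_integral_eq_lintegral_ofReal h
    (Eventually.of_forall fun x => mul_nonneg (ha x) (sq_nonneg _))).symm

theorem Q_ne_top_of_le {a : E n → ℝ} {w : E n → ℂ} (hw : Q wt w ≠ ⊤) {c : ℝ}
    (h : ∀ x, a x ≤ c * wt x) : Q a w ≠ ⊤ := by
  have h1 : Q a w ≤ Q (fun x => max c 0 * wt x) w := Q_mono_left w fun x =>
    (h x).trans (mul_le_mul_of_nonneg_right (le_max_left _ _) (wt_pos x).le)
  rw [Q_const_mul (le_max_right _ _)] at h1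
  exact ne_top_of_le_ne_top (ENNReal.mul_ne_top ENNReal.ofReal_ne_top hw) h1

theorem Q_sh_ne_top {w : E n → ℂ} (hw : WL2 w) (y : E n) (s t : ℝ) : Q (sh y s t) w ≠ ⊤ := by
  refine Q_ne_top_of_le hw.2 (c := (1 + (‖y‖ + t) ^ 2) ^ 2) fun x => ?_
  unfold sh
  split_ifs with h
  · have h1 : ‖x‖ ≤ ‖y‖ + t := by
      have := norm_sub_norm_le x y
      linarith [h.2]
    unfold wt
    rw [← div_eq_mul_inv, le_div_iff₀ (by positivity), one_mul]
    gcongr
  · exact mul_nonneg (by positivity) (wt_pos x).le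

theorem qb_le_ball {a : E n → ℝ} {w : E n → ℂ} {c R : ℝ} (hc : 0 ≤ c) (hR : 0 ≤ R)
    (h : ∀ x, a x * ‖w x‖ ^ 2 ≤ c) (h0 : ∀ x, R < ‖x‖ → a x * ‖w x‖ ^ 2 ≤ 0) :
    Q a w ≤ ENNReal.ofReal (c * R ^ n * (volume (closedBall (0 : E n) 1)).toReal) := by
  have h1 : Q a w ≤ ∫⁻ x, (closedBall (0 : E n) R).indicator (fun _ => ENNReal.ofReal c) x := by
    refine lintegral_mono fun x => ?_
    by_cases hx : x ∈ closedBall (0 : E n) R
    · rw [indicator_of_mem hx]; exact ENNReal.ofReal_le_ofReal (h x)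
    · rw [mem_closedBall_zero_iff, not_le] at hx
      simp only [ENNReal.ofReal_of_nonpos (h0 x hx), zero_le]
  refine h1.trans (le_of_eq ?_)
  rw [lintegral_indicator_const measurableSet_closedBall, Measure.addHaar_closedBall' _ _ hR,
    finrank_euclideanSpace_fin, ENNReal.ofReal_mul (by positivity), ENNReal.ofReal_mul hc,
    ENNReal.ofReal_toReal (isCompact_closedBall _ _).measure_ne_top, mul_assoc]

theorem Q_ne_top_of_bdd {a : E n → ℝ} {w : E n → ℂ} {c R : ℝ}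
    (h : ∀ x, a x * ‖w x‖ ^ 2 ≤ c) (h0 : ∀ x, R < ‖x‖ → w x = 0) : Q a w ≠ ⊤ :=
  ne_top_of_le_ne_top ENNReal.ofReal_ne_top (qb_le_ball (le_max_right c 0) (le_max_right R 0)
    (fun x => (h x).trans (le_max_left _ _))
    fun x hx => by simp [h0 x ((le_max_left _ _).trans_lt hx)])

theorem Q_le_ball {a : E n → ℝ} {w : E n → ℂ} {c R : ℝ} (hc : 0 ≤ c) (hR : 0 ≤ R)
    (h : ∀ x, a x * ‖w x‖ ^ 2 ≤ c) (h0 : ∀ x, R < ‖x‖ → a x * ‖w x‖ ^ 2 ≤ 0) :
    Q a w ≤ ENNReal.ofReal (c * R ^ n * (volume (closedBall (0 : E n) 1)).toReal) :=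
  qb_le_ball hc hR h h0

theorem Q_rf {ν : E n} (hν : ‖ν‖ = 1) {a : E n → ℝ} (ha : ∀ x, a (rf ν x) = a x) (w : E n → ℂ) :
    Q a (fun x => w (rf ν x)) = Q a w := by
  have h := lintegral_rf hν fun x => ENNReal.ofReal (a x * ‖w x‖ ^ 2)
  simp only [ha] at h
  exact h

theorem Q_odd {ν : E n} (hν : ‖ν‖ = 1) {a : E n → ℝ} (ham : Measurable a) (ha0 : ∀ x, 0 ≤ a x)
    (ha : ∀ x, a (rf ν x) = a x) {w : E n → ℂ} (hw : Measurable w)
    (h0 : ∀ x, x ∉ Hs ν → w x = 0) : Q a (fun x => w x - w (rf ν x)) = 2 * Q a w := by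
  rw [two_mul]
  nth_rewrite 2 [← Q_rf hν ha w]
  unfold Q
  rw [← lintegral_add_left (by fun_prop)]
  refine lintegral_congr fun x => ?_
  by_cases hx : x ∈ Hs ν
  · have : w (rf ν x) = 0 := h0 _ fun h' => by
      simp only [Hs, mem_ofPred_eq, inner_rf_nu hν] at h' hx
      linarith
    simp [this]
  · simp [h0 x hx]

theorem qb_int {w : E n → ℂ} (hw : WL2 w) : Integrable fun x => wt x * ‖w x‖ ^ 2 := by
  have h1 : Measurable fun x => wt x * ‖w x‖ ^ 2 :=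
    continuous_wt.measurable.mul (hw.1.norm.pow_const 2)
  refine ⟨h1.aestronglyMeasurable, ?_⟩
  rw [hasFiniteIntegral_iff_ofReal
    (Eventually.of_forall fun x => mul_nonneg (wt_pos x).le (sq_nonneg _))]
  exact hw.2.lt_top

theorem qb_li_sq {w : E n → ℂ} (hw : WL2 w) : LocallyIntegrable fun x => ‖w x‖ ^ 2 := by
  have h := (qb_int hw).locallyIntegrable.continuous_mul
    (g := fun x : E n => (1 + ‖x‖ ^ 2) ^ 2) (by fun_prop)
  convert h using 2 with x
  unfold wt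
  field_simp

theorem WL2.locallyIntegrable {w : E n → ℂ} (hw : WL2 w) : LocallyIntegrable w := by
  have h := (locallyIntegrable_const (μ := (volume : Measure (E n))) (1 : ℝ)).add (qb_li_sq hw)
  refine h.mono hw.1.aestronglyMeasurable (Eventually.of_forall fun x => ?_)
  simp only [Pi.add_apply]
  rw [Real.norm_of_nonneg (by positivity)]
  nlinarith [norm_nonneg (w x), sq_nonneg (‖w x‖ - 1)]

theorem WL2.locallyIntegrable_sq {w : E n → ℂ} (hw : WL2 w) :
    LocallyIntegrable fun x => ‖w x‖ ^ 2 := qb_li_sq hw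

theorem WL2.integrable_mul {w : E n → ℂ} (hw : WL2 w) {φ : E n → ℂ} (hφ : Continuous φ)
    (hc : HasCompactSupport φ) : Integrable fun x => w x * φ x :=
  hw.locallyIntegrable.integrable_smul_right_of_hasCompactSupport hφ hc

theorem qb_two {w w' v : E n → ℂ} (h : WL2 w) (h' : WL2 w') (hv : Measurable v)
    (hle : ∀ x, ‖v x‖ ≤ ‖w x‖ + ‖w' x‖) : WL2 v := by
  refine ⟨hv, ne_top_of_le_ne_top (ENNReal.add_ne_top.2
    ⟨Q_ne_top_of_le h.2 (a := fun x => 2 * wt x) fun _ => le_rfl,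
      Q_ne_top_of_le h'.2 (a := fun x => 2 * wt x) fun _ => le_rfl⟩)
    (Q_le_add (continuous_wt.measurable.const_mul 2) h.1 fun x => ?_)⟩
  have h1 : ‖v x‖ ^ 2 ≤ 2 * ‖w x‖ ^ 2 + 2 * ‖w' x‖ ^ 2 := by
    have := pow_le_pow_left₀ (norm_nonneg _) (hle x) 2
    nlinarith [sq_nonneg (‖w x‖ - ‖w' x‖)]
  nlinarith [mul_le_mul_of_nonneg_left h1 (wt_pos x).le]

theorem WL2.add {w w' : E n → ℂ} (h : WL2 w) (h' : WL2 w') : WL2 fun x => w x + w' x :=
  qb_two h h' (h.1.add h'.1) fun _ => norm_add_le _ _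

theorem WL2.sub {w w' : E n → ℂ} (h : WL2 w) (h' : WL2 w') : WL2 fun x => w x - w' x :=
  qb_two h h' (h.1.sub h'.1) fun _ => norm_sub_le _ _

theorem WL2.mul {w g : E n → ℂ} (h : WL2 w) (hg : Measurable g) {c : ℝ} (hc : ∀ x, ‖g x‖ ≤ c) :
    WL2 fun x => g x * w x := by
  refine ⟨hg.mul h.1, ne_top_of_le_ne_top
    (Q_ne_top_of_le h.2 (a := fun x => c ^ 2 * wt x) fun _ => le_rfl) (Q_mono fun x => ?_)⟩
  have h1 : ‖g x‖ ^ 2 ≤ c ^ 2 := pow_le_pow_left₀ (norm_nonneg _) (hc x) 2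
  rw [norm_mul, mul_pow]
  nlinarith [mul_le_mul_of_nonneg_left h1 (mul_nonneg (wt_pos x).le (sq_nonneg ‖w x‖))]

theorem WL2.dec {w q : E n → ℂ} (h : WL2 w) {A : ℝ} (hq : Dec A q) : WL2 fun x => q x * w x :=
  h.mul hq.1 fun x => (hq.2 x).trans (mul_le_of_le_one_right hq.nonneg (wt_le_one x))

theorem WL2.indicator {w : E n → ℂ} (h : WL2 w) {s : Set (E n)} (hs : MeasurableSet s) :
    WL2 (s.indicator w) :=
  ⟨h.1.indicator hs, ne_top_of_le_ne_top h.2 (Q_mono fun x => mul_le_mul_of_nonneg_left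
    (pow_le_pow_left₀ (norm_nonneg _) (norm_indicator_le_norm_self w x) 2) (wt_pos x).le)⟩

theorem WL2.rf {ν : E n} (hν : ‖ν‖ = 1) {w : E n → ℂ} (h : WL2 w) : WL2 fun x => w (rf ν x) :=
  ⟨h.1.comp (contDiff_rf ν).continuous.measurable,
    (Q_rf hν (fun x => by simp only [wt, norm_rf hν]) w).trans_ne h.2⟩

theorem Tst.wl2 {φ : E n → ℂ} (h : Tst φ) : WL2 φ := by
  have hc := h.1.continuous
  refine ⟨hc.measurable, ?_⟩
  have h1 : HasCompactSupport fun x => wt x * ‖φ x‖ ^ 2 :=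
    h.2.mono fun x hx h0 => hx (by simp [h0])
  rw [Q_eq_ofReal (fun x => (wt_pos x).le)
    ((continuous_wt.mul (hc.norm.pow 2)).integrable_of_hasCompactSupport h1)]
  exact ENNReal.ofReal_ne_top

theorem wt_add_le (z x : E n) : wt (x + z) ≤ (2 * (1 + ‖z‖ ^ 2)) ^ 2 * wt x := by
  have h1 : ‖x‖ ≤ ‖x + z‖ + ‖z‖ := by simpa using norm_sub_le (x + z) z
  have h2 : 1 + ‖x‖ ^ 2 ≤ 2 * (1 + ‖z‖ ^ 2) * (1 + ‖x + z‖ ^ 2) := by
    have := pow_le_pow_left₀ (norm_nonneg _) h1 2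
    nlinarith [sq_nonneg (‖x + z‖ - ‖z‖), sq_nonneg (‖x + z‖ * ‖z‖)]
  unfold wt
  rw [← div_eq_mul_inv, le_div_iff₀ (by positivity), inv_mul_le_iff₀ (by positivity), ← mul_pow,
    mul_comm]
  exact pow_le_pow_left₀ (by positivity) h2 2

theorem WL2.add_const {w : E n → ℂ} (h : WL2 w) (z : E n) : WL2 fun x => w (x + z) := by
  refine ⟨h.1.comp (measurable_add_const z), ?_⟩
  have h1 : Q wt (fun x => w (x + z)) = Q (fun x => wt (x + -z)) w := by
    unfold Q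
    rw [← lintegral_add_right_eq_self (fun x => ENNReal.ofReal (wt (x + -z) * ‖w x‖ ^ 2)) z]
    simp only [add_neg_cancel_right]
  rw [h1]
  exact Q_ne_top_of_le h.2 (wt_add_le (-z))

theorem Dec.add_const {A : ℝ} {q : E n → ℂ} (h : Dec A q) (z : E n) :
    Dec (A * (2 * (1 + ‖z‖ ^ 2)) ^ 2) fun x => q (x + z) :=
  ⟨h.1.comp (measurable_add_const z), fun x => (h.2 _).trans
    ((mul_le_mul_of_nonneg_left (wt_add_le z x) h.nonneg).trans_eq (mul_assoc _ _ _).symm)⟩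

theorem Dec.sub {A : ℝ} {q₁ q₂ : E n → ℂ} (h₁ : Dec A q₁) (h₂ : Dec A q₂) :
    Dec (2 * A) fun x => q₁ x - q₂ x :=
  ⟨h₁.1.sub h₂.1, fun x => (norm_sub_le _ _).trans (by linarith [h₁.2 x, h₂.2 x])⟩

theorem pair_eq {w F φ : E n → ℂ} (hw : WL2 w) (hF : WL2 F) (hφ : Tst φ) :
    pair w F φ = (∫ x, F x * φ x) - ∫ x, w x * Δ φ x :=
  integral_sub (hF.integrable_mul hφ.1.continuous hφ.2)
    (hw.integrable_mul hφ.lap.1.continuous hφ.lap.2)

theorem pair_congr {w w' F F' : E n → ℂ} (hw : w =ᵐ[volume] w') (hF : F =ᵐ[volume] F')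
    (φ : E n → ℂ) : pair w F φ = pair w' F' φ := by
  refine integral_congr_ae ?_
  filter_upwards [hw, hF] with x h1 h2
  rw [h1, h2]

theorem pair_add_const (w F φ : E n → ℂ) (z : E n) :
    pair (fun x => w (x + z)) (fun x => F (x + z)) (fun x => φ (x + z)) = pair w F φ := by
  unfold pair
  simp only [lap_add_const]
  exact integral_add_right_eq_self (fun x => F x * φ x - w x * Δ φ x) z

theorem qb_odd {ν : E n} (hν : ‖ν‖ = 1) {F φ : E n → ℂ} (hF : WL2 F) (hφ : Tst φ) :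
    ∫ x, (F x - F (rf ν x)) * φ x = ∫ x, F x * (φ x - φ (rf ν x)) := by
  have h1 := integral_rf hν fun x => F x * φ (rf ν x)
  simp only [rf_rf hν] at h1
  simp only [sub_mul, mul_sub]
  rw [integral_sub (hF.integrable_mul hφ.1.continuous hφ.2)
    ((hF.rf hν).integrable_mul hφ.1.continuous hφ.2),
    integral_sub (hF.integrable_mul hφ.1.continuous hφ.2)
    (hF.integrable_mul (hφ.rf hν).1.continuous (hφ.rf hν).2), h1]

theorem HP.odd {ν : E n} (hν : ‖ν‖ = 1) {G : Set (E n)} {w F : E n → ℂ} (h : HP ν G w F) :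
    WP univ (fun x => w x - w (rf ν x)) fun x => F x - F (rf ν x) := by
  have hw := h.l2w.sub (h.l2w.rf hν)
  have hF := h.l2F.sub (h.l2F.rf hν)
  refine ⟨hw, hF, fun φ hφ _ => ?_⟩
  have hr := hφ.rf hν
  have hψ : Tst fun x => φ x - φ (rf ν x) := ⟨hφ.1.sub hr.1, hφ.2.sub hr.2⟩
  have h1 := h.weak _ hψ (Or.inl fun x hx => by rw [rf_of_mem_Pl hx, sub_self])
  have h2 : ∀ x, Δ (fun x => φ x - φ (rf ν x)) x = Δ φ x - Δ φ (rf ν x) := fun x => by
    have h3 : ContDiff ℝ 2 φ := hφ.1.of_le (by norm_cast)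
    have h4 : ContDiff ℝ 2 fun x => φ (rf ν x) := hr.1.of_le (by norm_cast)
    rw [← lap_rf hν h3.contDiffAt]
    exact h3.contDiffAt.laplacian_sub h4.contDiffAt
  rw [pair_eq h.l2w h.l2F hψ] at h1
  simp only [h2] at h1
  rw [pair_eq hw hF hφ, qb_odd hν h.l2F hφ, qb_odd hν h.l2w hφ.lap, h1]

theorem qb_tst {φ : E n → ℂ} (h : Tst φ) (z : E n) : Tst fun x => φ (x + z) :=
  ⟨h.1.comp (contDiff_id.add contDiff_const), h.2.comp_homeomorph (Homeomorph.addRight z)⟩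

theorem qb_ts (φ : E n → ℂ) (z : E n) {x : E n} (hx : x ∈ tsupport fun x => φ (x + z)) :
    x + z ∈ tsupport φ :=
  tsupport_comp_subset_preimage φ (f := fun x => x + z) (by fun_prop) hx

theorem qb_inner {ν z : E n} (hz : z ∈ Pl ν) (x : E n) : ⟪x + z, ν⟫ = ⟪x, ν⟫ := by
  rw [inner_add_left, show ⟪z, ν⟫ = 0 from hz, add_zero]

theorem qb_neg {ν z : E n} (hz : z ∈ Pl ν) : -z ∈ Pl ν := by
  show ⟪-z, ν⟫ = 0
  rw [inner_neg_left, show ⟪z, ν⟫ = 0 from hz, neg_zero]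

theorem qb_Hs {ν z : E n} (hz : z ∈ Pl ν) {x : E n} (hx : x ∉ Hs ν) : x + z ∉ Hs ν := fun h =>
  hx (by simpa only [Hs, mem_ofPred_eq, qb_inner hz] using h)

theorem qb_Pl {ν z : E n} (hz : z ∈ Pl ν) {x : E n} (hx : x ∈ Pl ν) : x + z ∈ Pl ν :=
  (qb_inner hz x).trans hx

theorem Hyp.add_const {ν : E n} {D G : Set (E n)} {q₁ q₂ : E n → ℂ} (h : Hyp ν D G q₁ q₂)
    {z : E n} (hz : z ∈ Pl ν) :
    Hyp ν {x | x + z ∈ D} {x | x + z ∈ G} (fun x => q₁ (x + z)) fun x => q₂ (x + z) := by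
  intro u hu
  have hu' : Adm ν D q₁ fun x => u (x + -z) := by
    refine ⟨hu.l2.add_const _, fun x hx => hu.z _ (qb_Hs (qb_neg hz) hx), fun φ hφ h₁ h₂ => ?_⟩
    rw [← pair_add_const _ _ _ z]
    simp only [add_neg_cancel_right]
    exact hu.weak _ (qb_tst hφ z) (fun x hx => h₁ _ (qb_Pl hz hx))
      fun x hx => h₂ ⟨qb_ts φ z hx.1, qb_Pl hz hx.2⟩
  obtain ⟨w, hw⟩ := h _ hu'
  have hF := hw.l2F.add_const z
  simp only [add_neg_cancel_right] at hF
  refine ⟨fun x => w (x + z), hw.l2w.add_const z, hF, fun x hx => hw.zw _ (qb_Hs hz hx),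
    fun x hx => ?_, fun φ hφ h₁ => ?_⟩
  · simpa only [add_neg_cancel_right] using hw.zF _ (qb_Hs hz hx)
  · have h2 := hw.weak _ (qb_tst hφ (-z)) (h₁.imp (fun h₃ x hx => h₃ _ (qb_Pl (qb_neg hz) hx))
      fun h₃ x hx => by simpa using h₃ (qb_ts φ (-z) hx))
    rw [← pair_add_const _ _ _ z] at h2
    simpa only [add_neg_cancel_right] using h2

end Pool.Agent.MP_71da5e_an

end

section

namespace Pool.Agent.MP_71da5e_an

open MeasureTheory Metric Set Laplacian Filter Topology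
open scoped ContDiff ENNReal RealInnerProductSpace

variable {n : ℕ}

lemma scut_two : (2 : WithTop ℕ∞) ≤ (∞ : WithTop ℕ∞) :=
  WithTop.coe_le_coe.2 (le_top : (2 : ℕ∞) ≤ ⊤)

lemma scut_contDiff_dir {W : E n → ℂ} (hW : ContDiff ℝ ∞ W) (v : E n) :
    ContDiff ℝ ∞ fun y => fderiv ℝ W y v :=
  (hW.fderiv_right (m := ∞) le_rfl).clm_apply contDiff_const

lemma scut_fderiv {W : E n → ℂ} (hW : ContDiff ℝ ∞ W) {θ : E n → ℝ} (hθ : ContDiff ℝ ∞ θ)
    (v x : E n) :
    fderiv ℝ (fun y => θ y ^ 2 * ⟪W y, fderiv ℝ W y v⟫) x v =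
      θ x ^ 2 * (⟪W x, fderiv ℝ (fun y => fderiv ℝ W y v) x v⟫ + ‖fderiv ℝ W x v‖ ^ 2) +
        2 * θ x * fderiv ℝ θ x v * ⟪W x, fderiv ℝ W x v⟫ := by
  have h1 : HasFDerivAt θ (fderiv ℝ θ x) x := (hθ.differentiable (by simp) x).hasFDerivAt
  have h2 : HasFDerivAt W (fderiv ℝ W x) x := (hW.differentiable (by simp) x).hasFDerivAt
  have h3 : HasFDerivAt (fun y => fderiv ℝ W y v) (fderiv ℝ (fun y => fderiv ℝ W y v) x) x :=
    ((scut_contDiff_dir hW v).differentiable (by simp) x).hasFDerivAt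
  have h4 := (h1.pow 2).mul (h2.inner ℝ h3)
  have h5 : fderiv ℝ (fun y => θ y ^ 2 * ⟪W y, fderiv ℝ W y v⟫) x = _ := h4.fderiv
  rw [h5]
  simp only [add_apply, smul_apply,
    ContinuousLinearMap.comp_apply, ContinuousLinearMap.prod_apply, fderivInnerCLM_apply,
    smul_eq_mul, real_inner_self_eq_norm_sq, nsmul_eq_mul]
  push_cast
  ring

lemma scut_pt {t d a p s : ℝ} (h : |s| ≤ a * p) :
    0 ≤ t ^ 2 * p ^ 2 + 4 * (t * d * s) + 4 * (d ^ 2 * a ^ 2) := by
  have h1 : |t * d * s| ≤ |t| * |d| * (a * p) := by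
    rw [abs_mul, abs_mul]
    exact mul_le_mul_of_nonneg_left h (by positivity)
  have h2 := neg_abs_le (t * d * s)
  have h3 := sq_nonneg (|t| * p - 2 * (|d| * a))
  have h4 : |t| ^ 2 = t ^ 2 := sq_abs t
  have h5 : |d| ^ 2 = d ^ 2 := sq_abs d
  have h6 : (|t| * p - 2 * (|d| * a)) ^ 2 =
      |t| ^ 2 * p ^ 2 - 4 * (|t| * |d| * (a * p)) + 4 * (|d| ^ 2 * a ^ 2) := by ring
  rw [h6, h4, h5] at h3
  linarith

lemma scut_pt2 {κ a l s : ℝ} (hκ : 0 < κ) (h : |s| ≤ a * l) :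
    0 ≤ 2 * s + κ⁻¹ * l ^ 2 + κ * a ^ 2 := by
  have h2 := neg_abs_le s
  have h3 : 0 ≤ κ⁻¹ * (l - κ * a) ^ 2 := by positivity
  have h4 : κ⁻¹ * (l - κ * a) ^ 2 = κ⁻¹ * l ^ 2 - 2 * (a * l) + κ * a ^ 2 := by
    field_simp
    ring
  linarith

lemma scut_pointwise {W : E n → ℂ} (hW : ContDiff ℝ ∞ W) {θ : E n → ℝ} (hθ : ContDiff ℝ ∞ θ)
    {κ : ℝ} (hκ : 0 < κ) (x : E n) :
    θ x ^ 2 * ‖fderiv ℝ W x‖ ^ 2 ≤
      2 * (∑ i, fderiv ℝ (fun y => θ y ^ 2 * ⟪W y, fderiv ℝ W y (ev i)⟫) x (ev i)) +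
        (κ⁻¹ * θ x ^ 2 * ‖Δ W x‖ ^ 2 + (κ * θ x ^ 2 + 4 * ‖fderiv ℝ θ x‖ ^ 2) * ‖W x‖ ^ 2) := by
  have hL : Δ W x = ∑ i, fderiv ℝ (fun y => fderiv ℝ W y (ev i)) x (ev i) :=
    lap_eq (hW.contDiffAt.of_le scut_two)
  have h1 : θ x ^ 2 * ‖fderiv ℝ W x‖ ^ 2 ≤ ∑ i, θ x ^ 2 * ‖fderiv ℝ W x (ev i)‖ ^ 2 := by
    rw [← Finset.mul_sum]
    exact mul_le_mul_of_nonneg_left (opNorm_sq_le _) (sq_nonneg _)
  have h2 : ∑ i, fderiv ℝ (fun y => θ y ^ 2 * ⟪W y, fderiv ℝ W y (ev i)⟫) x (ev i) =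
      θ x ^ 2 * ⟪W x, Δ W x⟫ + (∑ i, θ x ^ 2 * ‖fderiv ℝ W x (ev i)‖ ^ 2) +
        2 * ∑ i, θ x * fderiv ℝ θ x (ev i) * ⟪W x, fderiv ℝ W x (ev i)⟫ := by
    rw [hL, inner_sum, Finset.mul_sum, Finset.mul_sum, ← Finset.sum_add_distrib,
      ← Finset.sum_add_distrib]
    refine Finset.sum_congr rfl fun i _ => ?_
    rw [scut_fderiv hW hθ]
    ring
  have h3 : 0 ≤ ∑ i, (θ x ^ 2 * ‖fderiv ℝ W x (ev i)‖ ^ 2 +
      4 * (θ x * fderiv ℝ θ x (ev i) * ⟪W x, fderiv ℝ W x (ev i)⟫) +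
        4 * (fderiv ℝ θ x (ev i) ^ 2 * ‖W x‖ ^ 2)) :=
    Finset.sum_nonneg fun i _ => scut_pt (abs_real_inner_le_norm _ _)
  rw [Finset.sum_add_distrib, Finset.sum_add_distrib, ← Finset.mul_sum (a := (4 : ℝ)),
    ← Finset.mul_sum (a := (4 : ℝ)), ← Finset.sum_mul, sum_sq_fderiv] at h3
  have h4 : 0 ≤ θ x ^ 2 * (2 * ⟪W x, Δ W x⟫ + κ⁻¹ * ‖Δ W x‖ ^ 2 + κ * ‖W x‖ ^ 2) :=
    mul_nonneg (sq_nonneg _) (scut_pt2 hκ (abs_real_inner_le_norm _ _))
  rw [h2]
  nlinarith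

lemma scut_int {θ g : E n → ℝ} (hθ : Continuous θ) (hc : HasCompactSupport θ)
    (hg : Continuous g) : Integrable fun x => θ x * g x :=
  (hθ.mul hg).integrable_of_hasCompactSupport hc.mul_right

lemma scut_sq {θ : E n → ℝ} (hc : HasCompactSupport θ) : HasCompactSupport fun x => θ x ^ 2 :=
  hc.comp_left (g := fun t : ℝ => t ^ 2) (by simp)

lemma scut_sq_fderiv {θ : E n → ℝ} (hc : HasCompactSupport θ) :
    HasCompactSupport fun x => ‖fderiv ℝ θ x‖ ^ 2 :=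
  (hc.fderiv (𝕜 := ℝ)).comp_left (g := fun t : E n →L[ℝ] ℝ => ‖t‖ ^ 2) (by simp)

lemma scut_int1 {W : E n → ℂ} (hW : ContDiff ℝ ∞ W) {θ : E n → ℝ} (hθ : ContDiff ℝ ∞ θ)
    (hc : HasCompactSupport θ) : Integrable fun x => θ x ^ 2 * ‖fderiv ℝ W x‖ ^ 2 :=
  scut_int (hθ.continuous.pow 2) (scut_sq hc) ((hW.continuous_fderiv (by simp)).norm.pow 2)

lemma scut_int2 {W : E n → ℂ} (hW : ContDiff ℝ ∞ W) {θ : E n → ℝ} (hθ : ContDiff ℝ ∞ θ)
    (hc : HasCompactSupport θ) (κ : ℝ) : Integrable fun x => κ * θ x ^ 2 * ‖Δ W x‖ ^ 2 :=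
  scut_int (continuous_const.mul (hθ.continuous.pow 2)) (scut_sq hc).mul_left
    ((contDiff_lap hW).continuous.norm.pow 2)

lemma scut_int3 {W : E n → ℂ} (hW : ContDiff ℝ ∞ W) {θ : E n → ℝ} (hθ : ContDiff ℝ ∞ θ)
    (hc : HasCompactSupport θ) (κ : ℝ) :
    Integrable fun x => (κ * θ x ^ 2 + 4 * ‖fderiv ℝ θ x‖ ^ 2) * ‖W x‖ ^ 2 :=
  scut_int ((continuous_const.mul (hθ.continuous.pow 2)).add
      (continuous_const.mul ((hθ.continuous_fderiv (by simp)).norm.pow 2)))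
    (HasCompactSupport.add (f := fun x => κ * θ x ^ 2) (scut_sq hc).mul_left
      (scut_sq_fderiv hc).mul_left)
    (hW.continuous.norm.pow 2)

theorem cacc {W : E n → ℂ} (hW : ContDiff ℝ ∞ W) {θ : E n → ℝ} (hθ : ContDiff ℝ ∞ θ)
    (hc : HasCompactSupport θ) {κ : ℝ} (hκ : 0 < κ) :
    ∫ x, θ x ^ 2 * ‖fderiv ℝ W x‖ ^ 2 ≤
      (∫ x, κ⁻¹ * θ x ^ 2 * ‖Δ W x‖ ^ 2) +
        ∫ x, (κ * θ x ^ 2 + 4 * ‖fderiv ℝ θ x‖ ^ 2) * ‖W x‖ ^ 2 := by
  have hg : ∀ i, ContDiff ℝ ∞ fun y => θ y ^ 2 * ⟪W y, fderiv ℝ W y (ev i)⟫ := fun i =>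
    (hθ.pow 2).mul (hW.inner ℝ (scut_contDiff_dir hW _))
  have hgc : ∀ i, HasCompactSupport fun y => θ y ^ 2 * ⟪W y, fderiv ℝ W y (ev i)⟫ := fun i =>
    (scut_sq hc).mul_right
  have hi : ∀ i, Integrable fun x =>
      fderiv ℝ (fun y => θ y ^ 2 * ⟪W y, fderiv ℝ W y (ev i)⟫) x (ev i) := fun i =>
    (((hg i).continuous_fderiv (by simp)).clm_apply continuous_const).integrable_of_hasCompactSupport
      ((hgc i).fderiv_apply (𝕜 := ℝ) _)
  have hs : Integrable fun x =>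
      ∑ i, fderiv ℝ (fun y => θ y ^ 2 * ⟪W y, fderiv ℝ W y (ev i)⟫) x (ev i) :=
    integrable_finsetSum _ fun i _ => hi i
  have h0 : ∫ x, ∑ i, fderiv ℝ (fun y => θ y ^ 2 * ⟪W y, fderiv ℝ W y (ev i)⟫) x (ev i) = 0 := by
    rw [integral_finsetSum _ fun i _ => hi i]
    exact Finset.sum_eq_zero fun i _ =>
      integral_fderiv_zero ((hg i).of_le (by exact_mod_cast le_top)) (hgc i) _
  have h1 := integral_mono (scut_int1 hW hθ hc)
    ((hs.const_mul 2).add ((scut_int2 hW hθ hc κ⁻¹).add (scut_int3 hW hθ hc κ)))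
    (scut_pointwise hW hθ hκ)
  rw [integral_add' (hs.const_mul 2) ((scut_int2 hW hθ hc κ⁻¹).add (scut_int3 hW hθ hc κ)),
    integral_add' (scut_int2 hW hθ hc κ⁻¹) (scut_int3 hW hθ hc κ), integral_const_mul, h0] at h1
  simpa using h1

lemma scut_three (x y z : ℂ) : ‖x + y + z‖ ^ 2 ≤ 3 * (‖x‖ ^ 2 + ‖y‖ ^ 2 + ‖z‖ ^ 2) := by
  have h : ‖x + y + z‖ ≤ ‖x‖ + ‖y‖ + ‖z‖ := norm_add₃_le
  have h' : ‖x + y + z‖ ^ 2 ≤ (‖x‖ + ‖y‖ + ‖z‖) ^ 2 := by gcongr
  nlinarith [sq_nonneg (‖x‖ - ‖y‖), sq_nonneg (‖x‖ - ‖z‖), sq_nonneg (‖y‖ - ‖z‖)]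

lemma scut_grad {W : E n → ℂ} (hW : ContDiff ℝ ∞ W) {θ : E n → ℝ} (hθ : ContDiff ℝ ∞ θ)
    (hc : HasCompactSupport θ) {κ : ℝ} (hκ : 0 < κ) :
    ∫⁻ x, ENNReal.ofReal (12 * (θ x ^ 2 * ‖fderiv ℝ W x‖ ^ 2)) ≤
      Q (fun x => 12 * (κ⁻¹ * θ x ^ 2)) (Δ W) +
        Q (fun x => 12 * (κ * θ x ^ 2 + 4 * ‖fderiv ℝ θ x‖ ^ 2)) W := by
  have e1 : ∫⁻ x, ENNReal.ofReal (12 * (θ x ^ 2 * ‖fderiv ℝ W x‖ ^ 2)) =
      ENNReal.ofReal 12 * ENNReal.ofReal (∫ x, θ x ^ 2 * ‖fderiv ℝ W x‖ ^ 2) := by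
    rw [ofReal_integral_eq_lintegral_ofReal (scut_int1 hW hθ hc)
      (Eventually.of_forall fun x => by positivity),
      ← lintegral_const_mul' _ _ ENNReal.ofReal_ne_top]
    exact lintegral_congr fun x => ENNReal.ofReal_mul (by norm_num)
  rw [e1, Q_const_mul (c := 12) (by norm_num), Q_const_mul (c := 12) (by norm_num), ← mul_add,
    Q_eq_ofReal (fun x => by positivity) (scut_int2 hW hθ hc κ⁻¹),
    Q_eq_ofReal (fun x => by positivity) (scut_int3 hW hθ hc κ)]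
  gcongr
  exact (ENNReal.ofReal_le_ofReal (cacc hW hθ hc hκ)).trans ENNReal.ofReal_add_le

theorem scut {a b : E n → ℝ} {V : Set (E n)} (hb : Measurable b) (hb0 : ∀ x, 0 ≤ b x)
    (hC : ∀ v, Tst v → tsupport v ⊆ V → Q a v ≤ Q b (Δ v)) {χ θ₁ θ₂ : E n → ℝ}
    (hχ : ContDiff ℝ ∞ χ) (hχc : HasCompactSupport χ) (hχV : tsupport χ ⊆ V)
    (h₁ : ContDiff ℝ ∞ θ₁) (h₁c : HasCompactSupport θ₁) (h₂ : ContDiff ℝ ∞ θ₂)
    (h₂c : HasCompactSupport θ₂) (hθ : ∀ x, b x * ‖fderiv ℝ χ x‖ ^ 2 ≤ θ₁ x ^ 2 + θ₂ x ^ 2)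
    {κ₁ κ₂ : ℝ} (hκ₁ : 0 < κ₁) (hκ₂ : 0 < κ₂) {W : E n → ℂ} (hW : ContDiff ℝ ∞ W) :
    Q (fun x => a x * χ x ^ 2) W ≤
      Q (fun x => 3 * (b x * χ x ^ 2) + 12 * (κ₁⁻¹ * θ₁ x ^ 2 + κ₂⁻¹ * θ₂ x ^ 2)) (Δ W) +
      Q (fun x => 3 * (b x * Δ χ x ^ 2) + 12 * (κ₁ * θ₁ x ^ 2 + κ₂ * θ₂ x ^ 2) +
        48 * (‖fderiv ℝ θ₁ x‖ ^ 2 + ‖fderiv ℝ θ₂ x‖ ^ 2)) W := by
  have hχC : ContDiff ℝ ∞ fun y => (χ y : ℂ) := Complex.ofRealCLM.contDiff.comp hχ
  have hsub : tsupport (fun y => (χ y : ℂ) * W y) ⊆ tsupport χ := by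
    refine closure_mono fun y hy h => hy ?_
    simp [h]
  have hv : Tst fun y => (χ y : ℂ) * W y :=
    ⟨hχC.mul hW, hχc.of_isClosed_subset (isClosed_tsupport _) hsub⟩
  have e0 : Q (fun x => a x * χ x ^ 2) W = Q a fun y => (χ y : ℂ) * W y := by
    unfold Q
    refine lintegral_congr fun x => ?_
    rw [norm_mul, Complex.norm_real, mul_pow, Real.norm_eq_abs, sq_abs, mul_assoc]
  have mW : Measurable W := hW.continuous.measurable
  have mL : Measurable (Δ W) := (contDiff_lap hW).continuous.measurable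
  have mχ : Measurable χ := hχ.continuous.measurable
  have mLχ : Measurable (Δ χ) := (contDiff_lap hχ).continuous.measurable
  have m₁ : Measurable θ₁ := h₁.continuous.measurable
  have m₂ : Measurable θ₂ := h₂.continuous.measurable
  have md₁ : Measurable fun x => ‖fderiv ℝ θ₁ x‖ :=
    (h₁.continuous_fderiv (by simp)).norm.measurable
  have md₂ : Measurable fun x => ‖fderiv ℝ θ₂ x‖ :=
    (h₂.continuous_fderiv (by simp)).norm.measurable
  have mdW : Measurable fun x => ‖fderiv ℝ W x‖ :=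
    (hW.continuous_fderiv (by simp)).norm.measurable
  have hpt : ∀ x, b x * ‖Δ (fun y => (χ y : ℂ) * W y) x‖ ^ 2 ≤
      3 * (b x * χ x ^ 2) * ‖Δ W x‖ ^ 2 + 3 * (b x * Δ χ x ^ 2) * ‖W x‖ ^ 2 +
        (12 * (θ₁ x ^ 2 * ‖fderiv ℝ W x‖ ^ 2) + 12 * (θ₂ x ^ 2 * ‖fderiv ℝ W x‖ ^ 2)) := by
    intro x
    rw [lap_smul (hχ.contDiffAt.of_le scut_two) (hW.contDiffAt.of_le scut_two)]
    have h3 := scut_three ((χ x : ℂ) * Δ W x) (2 * fderiv ℝ W x (gradient χ x))
      (((Δ χ x : ℝ) : ℂ) * W x)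
    have hg : ‖fderiv ℝ W x (gradient χ x)‖ ≤ ‖fderiv ℝ W x‖ * ‖fderiv ℝ χ x‖ := by
      rw [← norm_gradient_eq]
      exact ContinuousLinearMap.le_opNorm _ _
    have hg2 : ‖fderiv ℝ W x (gradient χ x)‖ ^ 2 ≤ (‖fderiv ℝ W x‖ * ‖fderiv ℝ χ x‖) ^ 2 := by
      gcongr
    simp only [norm_mul, Complex.norm_real, mul_pow, Real.norm_eq_abs, sq_abs,
      Complex.norm_ofNat] at h3 hg2
    have h4 := mul_le_mul_of_nonneg_left h3 (hb0 x)
    have h5 := mul_le_mul_of_nonneg_left hg2 (hb0 x)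
    have h6 := mul_le_mul_of_nonneg_left (hθ x) (sq_nonneg ‖fderiv ℝ W x‖)
    nlinarith
  have hle : Q b (Δ fun y => (χ y : ℂ) * W y) ≤
      Q (fun x => 3 * (b x * χ x ^ 2)) (Δ W) + Q (fun x => 3 * (b x * Δ χ x ^ 2)) W +
        ((∫⁻ x, ENNReal.ofReal (12 * (θ₁ x ^ 2 * ‖fderiv ℝ W x‖ ^ 2))) +
          ∫⁻ x, ENNReal.ofReal (12 * (θ₂ x ^ 2 * ‖fderiv ℝ W x‖ ^ 2))) := by
    unfold Q
    rw [← lintegral_add_left (by fun_prop), ← lintegral_add_left (by fun_prop),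
      ← lintegral_add_left (by fun_prop)]
    refine lintegral_mono fun x => (ENNReal.ofReal_le_ofReal (hpt x)).trans ?_
    exact ENNReal.ofReal_add_le.trans (add_le_add ENNReal.ofReal_add_le ENNReal.ofReal_add_le)
  have e1 : Q (fun x => 3 * (b x * χ x ^ 2) + 12 * (κ₁⁻¹ * θ₁ x ^ 2 + κ₂⁻¹ * θ₂ x ^ 2)) (Δ W) =
      Q (fun x => 3 * (b x * χ x ^ 2)) (Δ W) + (Q (fun x => 12 * (κ₁⁻¹ * θ₁ x ^ 2)) (Δ W) +
        Q (fun x => 12 * (κ₂⁻¹ * θ₂ x ^ 2)) (Δ W)) := by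
    rw [← Q_add_left (by fun_prop) mL (fun x => by positivity) (fun x => by positivity),
      ← Q_add_left (by fun_prop) mL (fun x => by have := hb0 x; positivity)
        (fun x => by positivity)]
    congr 1
    funext x
    ring
  have e2 : Q (fun x => 3 * (b x * Δ χ x ^ 2) + 12 * (κ₁ * θ₁ x ^ 2 + κ₂ * θ₂ x ^ 2) +
        48 * (‖fderiv ℝ θ₁ x‖ ^ 2 + ‖fderiv ℝ θ₂ x‖ ^ 2)) W =
      Q (fun x => 3 * (b x * Δ χ x ^ 2)) W +
        (Q (fun x => 12 * (κ₁ * θ₁ x ^ 2 + 4 * ‖fderiv ℝ θ₁ x‖ ^ 2)) W +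
          Q (fun x => 12 * (κ₂ * θ₂ x ^ 2 + 4 * ‖fderiv ℝ θ₂ x‖ ^ 2)) W) := by
    rw [← Q_add_left (by fun_prop) mW (fun x => by positivity) (fun x => by positivity),
      ← Q_add_left (by fun_prop) mW (fun x => by have := hb0 x; positivity)
        (fun x => by positivity)]
    congr 1
    funext x
    ring
  rw [e0, e1, e2]
  refine (hC _ hv (hsub.trans hχV)).trans (hle.trans ?_)
  refine (add_le_add le_rfl (add_le_add (scut_grad hW h₁ h₁c hκ₁) (scut_grad hW h₂ h₂c hκ₂))).trans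
    (le_of_eq ?_)
  ring

end Pool.Agent.MP_71da5e_an

end

section

namespace Pool.Agent.MP_71da5e_an

open MeasureTheory Metric Set Laplacian Filter Topology
open scoped ContDiff ENNReal RealInnerProductSpace

variable {n : ℕ}

/-- Mollification. -/
noncomputable def mol (η : ContDiffBump (0 : E n)) (w : E n → ℂ) (x : E n) : ℂ :=
  ∫ y, (η.normed volume (x - y) : ℂ) * w y

/-- Convolution with a test function. -/
noncomputable def mollCv (w φ : E n → ℂ) : E n → ℂ :=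
  convolution w φ (ContinuousLinearMap.mul ℝ ℂ) volume

lemma mollCv_apply (w φ : E n → ℂ) (x : E n) : mollCv w φ x = ∫ y, w y * φ (x - y) := rfl

lemma moll_tst_fderiv {φ : E n → ℂ} (h : Tst φ) (v : E n) : Tst fun y => fderiv ℝ φ y v :=
  ⟨(h.1.fderiv_right (m := ∞) (by simp)).clm_apply contDiff_const, h.2.fderiv_apply ℝ v⟩

lemma moll_contDiff {w φ : E n → ℂ} (hw : LocallyIntegrable w) (h : Tst φ) :
    ContDiff ℝ ∞ (mollCv w φ) :=
  h.2.contDiff_convolution_right _ hw h.1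

lemma moll_fderiv {w φ : E n → ℂ} (hw : LocallyIntegrable w) (h : Tst φ) (v : E n) :
    (fun x => fderiv ℝ (mollCv w φ) x v) = mollCv w fun y => fderiv ℝ φ y v := by
  funext x
  have h1 : ContDiff ℝ 1 φ := h.1.of_le (by simp)
  rw [mollCv, (h.2.hasFDerivAt_convolution_right _ hw h1 x).fderiv,
    convolution_precompR_apply _ hw (h.2.fderiv ℝ) (h1.continuous_fderiv one_ne_zero)]
  rfl

lemma moll_tst_sub {φ : E n → ℂ} (h : Tst φ) (x : E n) : Tst fun y => φ (x - y) :=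
  ⟨h.1.comp (contDiff_const.sub contDiff_id), h.2.comp_homeomorph (Homeomorph.subLeft x)⟩

lemma moll_lap {w φ : E n → ℂ} (hw : WL2 w) (h : Tst φ) (x : E n) :
    Δ (mollCv w φ) x = ∫ y, w y * Δ φ (x - y) := by
  have hl := hw.locallyIntegrable
  have h2 : (2 : WithTop ℕ∞) ≤ ((⊤ : ℕ∞) : WithTop ℕ∞) := by
    rw [show (2 : WithTop ℕ∞) = ((2 : ℕ∞) : WithTop ℕ∞) from rfl]
    exact_mod_cast le_top
  rw [lap_eq ((moll_contDiff hl h).of_le h2).contDiffAt]
  have e : ∀ i, fderiv ℝ (fun y => fderiv ℝ (mollCv w φ) y (ev i)) x (ev i) =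
      ∫ y, w y * fderiv ℝ (fun y => fderiv ℝ φ y (ev i)) (x - y) (ev i) := fun i => by
    rw [moll_fderiv hl h]
    exact congrFun (moll_fderiv hl (moll_tst_fderiv h _) (ev i)) x
  simp only [e]
  rw [← integral_finsetSum]
  · refine integral_congr_ae (Eventually.of_forall fun y => ?_)
    simp only [lap_eq (h.1.of_le h2).contDiffAt, Finset.mul_sum]
  · intro i _
    have h3 := moll_tst_sub (moll_tst_fderiv (moll_tst_fderiv h (ev i)) (ev i)) x
    exact hw.integrable_mul h3.1.continuous h3.2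

lemma moll_tst_normed (η : ContDiffBump (0 : E n)) : Tst fun y => (η.normed volume y : ℂ) :=
  ⟨Complex.ofRealCLM.contDiff.comp η.contDiff_normed,
    η.hasCompactSupport_normed.comp_left (g := fun t : ℝ => (t : ℂ)) Complex.ofReal_zero⟩

lemma moll_eq (η : ContDiffBump (0 : E n)) (w : E n → ℂ) :
    mol η w = mollCv w fun y => (η.normed volume y : ℂ) := by
  funext x
  simp only [mol, mollCv_apply, mul_comm]

theorem contDiff_mol (η : ContDiffBump (0 : E n)) {w : E n → ℂ} (hw : WL2 w) :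
    ContDiff ℝ ∞ (mol η w) := by
  rw [moll_eq]
  exact moll_contDiff hw.locallyIntegrable (moll_tst_normed η)

theorem lap_mol (η : ContDiffBump (0 : E n)) {U : Set (E n)} {w F : E n → ℂ} (h : WP U w F)
    {x : E n} (hx : closedBall x η.rOut ⊆ U) : Δ (mol η w) x = mol η F x := by
  have hη := moll_tst_normed η
  have ht := moll_tst_sub hη x
  have h2 : (2 : WithTop ℕ∞) ≤ ((⊤ : ℕ∞) : WithTop ℕ∞) := by
    rw [show (2 : WithTop ℕ∞) = ((2 : ℕ∞) : WithTop ℕ∞) from rfl]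
    exact_mod_cast le_top
  have hs : tsupport (fun y => (η.normed volume (x - y) : ℂ)) ⊆ U := by
    refine subset_trans (closure_minimal (fun y hy => ?_) isClosed_closedBall) hx
    have h1 : x - y ∈ Function.support (η.normed volume) := by
      intro h0
      exact hy (by simp [h0])
    rw [η.support_normed_eq, mem_ball_zero_iff] at h1
    rw [mem_closedBall, dist_comm, dist_eq_norm]
    exact h1.le
  have h3 := h.2.2 _ ht hs
  rw [pair_eq h.1 h.2.1 ht, sub_eq_zero] at h3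
  have h4 : ∀ y, Δ (fun y => (η.normed volume (x - y) : ℂ)) y =
      Δ (fun y => (η.normed volume y : ℂ)) (x - y) := fun y => by
    have h5 := lap_affine (f := fun y => (η.normed volume y : ℂ)) x (-1) (x := y)
      (hη.1.of_le h2).contDiffAt
    simpa only [neg_one_smul, ← sub_eq_add_neg, neg_one_sq, one_smul] using h5
  rw [moll_eq η w, moll_lap h.1 hη, moll_eq η F, mollCv_apply, h3]
  simp only [h4]

theorem tendsto_mol {η : ℕ → ContDiffBump (0 : E n)} (h₁ : Tendsto (fun j => (η j).rOut) atTop (𝓝 0))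
    (h₂ : ∀ j, (η j).rOut ≤ 2 * (η j).rIn) {w : E n → ℂ} (hw : WL2 w) :
    ∀ᵐ x, Tendsto (fun j => mol (η j) w x) atTop (𝓝 (w x)) := by
  filter_upwards [ContDiffBump.ae_convolution_tendsto_right_of_locallyIntegrable h₁
    (Eventually.of_forall h₂) hw.locallyIntegrable] with x hx
  simpa only [mol, convolution_lsmul_swap, Complex.real_smul] using hx

end Pool.Agent.MP_71da5e_an

end

section

namespace Pool.Agent.MP_71da5e_an

open MeasureTheory Metric Set Laplacian Filter Topology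
open scoped ContDiff ENNReal RealInnerProductSpace

variable {n : ℕ}

lemma mollB_one (η : ContDiffBump (0 : E n)) :
    ∫⁻ z, ENNReal.ofReal (η.normed volume z) = 1 := by
  rw [← ofReal_integral_eq_lintegral_ofReal η.integrable_normed
    (Eventually.of_forall fun z => η.nonneg_normed z), η.integral_normed, ENNReal.ofReal_one]

lemma mollB_jensen (η : ContDiffBump (0 : E n)) {F : E n → ℂ} (hF : Measurable F) (x : E n) :
    ENNReal.ofReal (‖mol η F x‖ ^ 2) ≤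
      ∫⁻ y, ENNReal.ofReal (η.normed volume (x - y)) * ENNReal.ofReal (‖F y‖ ^ 2) := by
  have hk : Measurable fun y => ENNReal.ofReal (η.normed volume (x - y)) :=
    (η.continuous_normed.measurable.comp (by fun_prop)).ennreal_ofReal
  have h1 : ∫⁻ y, ENNReal.ofReal (η.normed volume (x - y)) = 1 := by
    rw [lintegral_sub_left_eq_self (fun z => ENNReal.ofReal (η.normed volume z)) x, mollB_one]
  have h2 := ENNReal.lintegral_mul_norm_pow_le (μ := volume) hk.aemeasurable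
    (g := fun y => ENNReal.ofReal (η.normed volume (x - y)) * ENNReal.ofReal (‖F y‖ ^ 2))
    (hk.mul (by fun_prop)).aemeasurable (p := 1 / 2) (q := 1 / 2) (by norm_num) (by norm_num)
    (by norm_num)
  rw [h1, ENNReal.one_rpow, one_mul] at h2
  have h3 : ‖mol η F x‖ₑ ≤ ∫⁻ y, ENNReal.ofReal (η.normed volume (x - y)) ^ (1 / 2 : ℝ) *
      (ENNReal.ofReal (η.normed volume (x - y)) * ENNReal.ofReal (‖F y‖ ^ 2)) ^ (1 / 2 : ℝ) := by
    refine (enorm_integral_le_lintegral_enorm _).trans (le_of_eq (lintegral_congr fun y => ?_))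
    rw [← ENNReal.mul_rpow_of_nonneg _ _ (by norm_num), ← mul_assoc, ← pow_two,
      ENNReal.ofReal_pow (norm_nonneg _), ← mul_pow, ← ENNReal.rpow_natCast, ← ENNReal.rpow_mul,
      enorm_mul, ofReal_norm]
    norm_num
    congr 1
    rw [← ofReal_norm, Complex.norm_real, Real.norm_of_nonneg (η.nonneg_normed _)]
  rw [ENNReal.ofReal_pow (norm_nonneg _), ofReal_norm]
  refine (pow_le_pow_left' (h3.trans h2) 2).trans (le_of_eq ?_)
  rw [← ENNReal.rpow_natCast, ← ENNReal.rpow_mul]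
  norm_num

lemma mollB_le (η : ContDiffBump (0 : E n)) {b c : E n → ℝ} (hb0 : ∀ x, 0 ≤ b x)
    (hc : Measurable c) (hc0 : ∀ x, 0 ≤ c x) (h : ∀ x y, ‖x - y‖ < η.rOut → b x ≤ c y)
    {F : E n → ℂ} (hF : Measurable F) : Q b (mol η F) ≤ Q c F := by
  have hk : Measurable fun p : E n × E n => ENNReal.ofReal (η.normed volume (p.1 - p.2)) :=
    (η.continuous_normed.measurable.comp (by fun_prop)).ennreal_ofReal
  calc Q b (mol η F)
      ≤ ∫⁻ x, ∫⁻ y, ENNReal.ofReal (η.normed volume (x - y)) *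
          ENNReal.ofReal (c y * ‖F y‖ ^ 2) := by
        refine lintegral_mono fun x => ?_
        rw [ENNReal.ofReal_mul (hb0 x)]
        refine (mul_le_mul_right (mollB_jensen η hF x) _).trans ?_
        rw [← lintegral_const_mul' _ _ ENNReal.ofReal_ne_top]
        refine lintegral_mono fun y => ?_
        by_cases hxy : ‖x - y‖ < η.rOut
        · rw [mul_left_comm, ENNReal.ofReal_mul (hc0 y)]
          gcongr
          exact h x y hxy
        · have : η.normed volume (x - y) = 0 := by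
            by_contra hne
            have : x - y ∈ Function.support (η.normed volume) := hne
            rw [η.support_normed_eq, mem_ball_zero_iff] at this
            exact hxy this
          simp [this]
    _ = ∫⁻ y, ∫⁻ x, ENNReal.ofReal (η.normed volume (x - y)) *
          ENNReal.ofReal (c y * ‖F y‖ ^ 2) :=
        lintegral_lintegral_swap (hk.mul (by fun_prop)).aemeasurable
    _ = Q c F := by
        refine lintegral_congr fun y => ?_
        rw [lintegral_mul_const' _ _ ENNReal.ofReal_ne_top,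
          lintegral_sub_right_eq_self (fun z => ENNReal.ofReal (η.normed volume z)) y, mollB_one,
          one_mul]

theorem limsup_Q_mol {η : ℕ → ContDiffBump (0 : E n)}
    (h₁ : Tendsto (fun j => (η j).rOut) atTop (𝓝 0)) {b : E n → ℝ} (hb : Continuous b)
    (hc : HasCompactSupport b) (hb0 : ∀ x, 0 ≤ b x) {F : E n → ℂ} (hF : WL2 F) {δ : ℝ≥0∞}
    (hδ : δ ≠ 0) : ∀ᶠ j in atTop, Q b (mol (η j) F) ≤ Q b F + δ := by
  obtain ⟨R, hR⟩ := hc.isCompact.isBounded.subset_closedBall 0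
  obtain ⟨ε, hε, hεδ⟩ := ENNReal.exists_nnreal_pos_mul_lt (Q_sh_ne_top hF 0 0 (R + 1)) hδ
  have hε' : (0 : ℝ) < ε := hε
  obtain ⟨r, hr, hru⟩ := Metric.uniformContinuous_iff.1
    (hc.uniformContinuous_of_continuous hb) ε hε'
  filter_upwards [h₁.eventually (gt_mem_nhds (lt_min hr one_pos))] with j hj
  have hs : ∀ x : E n, 0 ≤ (ε : ℝ) * sh 0 0 (R + 1) x := fun x =>
    mul_nonneg hε'.le (sh_nonneg _ _ _ _)
  refine (mollB_le (η j) (c := fun x => b x + ε * sh 0 0 (R + 1) x) hb0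
    (hb.measurable.add ((measurable_sh _ _ _).const_mul _))
    (fun x => add_nonneg (hb0 x) (hs x)) (fun x y hxy => ?_) hF.1).trans ?_
  · by_cases hx : b x = 0
    · rw [hx]; exact add_nonneg (hb0 y) (hs y)
    have hxR : ‖x‖ ≤ R := mem_closedBall_zero_iff.1 (hR (subset_tsupport _ hx))
    have h1 : ‖x - y‖ < r := hxy.trans (hj.trans_le (min_le_left _ _))
    have h2 : ‖x - y‖ < 1 := hxy.trans (hj.trans_le (min_le_right _ _))
    have h3 : ‖y‖ ≤ R + 1 := by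
      have := norm_sub_le x (x - y)
      rw [sub_sub_cancel] at this
      linarith
    have h4 : sh 0 0 (R + 1) y = 1 := by simp [sh, h3]
    have h5 := hru (a := x) (b := y) (by rwa [dist_eq_norm])
    rw [Real.dist_eq, abs_lt] at h5
    simp only [h4]
    linarith [h5.2]
  · rw [Q_add_left hb.measurable hF.1 hb0 hs, Q_const_mul hε'.le, ENNReal.ofReal_coe_nnreal]
    exact add_le_add_right hεδ.le _

theorem transfer {a b₁ b₂ : E n → ℝ} {U : Set (E n)} (hU : IsOpen U) (ha : Measurable a)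
    (h₁ : Continuous b₁) (h₁c : HasCompactSupport b₁) (h₁0 : ∀ x, 0 ≤ b₁ x)
    (h₁U : tsupport b₁ ⊆ U) (h₂ : Continuous b₂) (h₂c : HasCompactSupport b₂)
    (h₂0 : ∀ x, 0 ≤ b₂ x)
    (h : ∀ W : E n → ℂ, ContDiff ℝ ∞ W → Q a W ≤ Q b₁ (Δ W) + Q b₂ W) {w F : E n → ℂ}
    (hw : WP U w F) : Q a w ≤ Q b₁ F + Q b₂ w := by
  let η : ℕ → ContDiffBump (0 : E n) := fun j =>
    ⟨1 / ((j : ℝ) + 1) / 2, 1 / ((j : ℝ) + 1), by positivity, half_lt_self (by positivity)⟩
  have hη : Tendsto (fun j => (η j).rOut) atTop (𝓝 0) := tendsto_one_div_add_atTop_nhds_zero_nat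
  have hη2 : ∀ j, (η j).rOut ≤ 2 * (η j).rIn := fun j => le_of_eq (by simp only [η]; ring)
  obtain ⟨r, hr, hrU⟩ := h₁c.isCompact.exists_cthickening_subset_open hU h₁U
  refine ENNReal.le_of_forall_pos_le_add fun ε hε _ => ?_
  have hδ : (ε : ℝ≥0∞) / 2 ≠ 0 := by simp [hε.ne']
  have hev : ∀ᶠ j in atTop, Q a (mol (η j) w) ≤ Q b₁ F + Q b₂ w + ε := by
    filter_upwards [limsup_Q_mol hη h₁ h₁c h₁0 hw.2.1 hδ, limsup_Q_mol hη h₂ h₂c h₂0 hw.1 hδ,
      hη.eventually (gt_mem_nhds hr)] with j j1 j2 j3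
    have e : Q b₁ (Δ (mol (η j) w)) ≤ Q b₁ (mol (η j) F) := by
      refine Q_mono fun x => ?_
      by_cases hx : b₁ x = 0
      · simp [hx]
      · rw [lap_mol (η j) hw ((closedBall_subset_closedBall j3.le).trans
          ((closedBall_subset_cthickening (subset_tsupport _ hx) r).trans hrU))]
    calc Q a (mol (η j) w) ≤ Q b₁ (Δ (mol (η j) w)) + Q b₂ (mol (η j) w) :=
          h _ (contDiff_mol _ hw.1)
      _ ≤ (Q b₁ F + ε / 2) + (Q b₂ w + ε / 2) := add_le_add (e.trans j1) j2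
      _ = Q b₁ F + Q b₂ w + ε := by rw [add_add_add_comm, ENNReal.add_halves]
  calc Q a w = ∫⁻ x, liminf (fun j => ENNReal.ofReal (a x * ‖mol (η j) w x‖ ^ 2)) atTop := by
        refine lintegral_congr_ae ((tendsto_mol hη hη2 hw.1).mono fun x hx => ?_)
        exact (ENNReal.tendsto_ofReal ((hx.norm.pow 2).const_mul (a x))).liminf_eq.symm
    _ ≤ liminf (fun j => Q a (mol (η j) w)) atTop := by
        refine lintegral_liminf_le fun j => ?_
        have := (contDiff_mol (η j) hw.1).continuous.measurable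
        fun_prop
    _ ≤ _ := liminf_le_of_frequently_le' hev.frequently

end Pool.Agent.MP_71da5e_an

end

section

namespace Pool.Agent.MP_71da5e_an

open MeasureTheory Metric Set Laplacian Filter Topology
open scoped ContDiff ENNReal RealInnerProductSpace FourierTransform

variable {n : ℕ}

lemma four_fub {F : E 3 → ℂ} (hF : Integrable F) (T : (ℝ × ℝ × ℝ) →ₗ[ℝ] E 3)
    (hT : Function.Injective T) (h : ∀ d, ∫ p : ℝ × ℝ, F (T (d, p)) = 0) : ∫ x, F x = 0 := by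
  set L := (LinearMap.linearEquivOfInjective T hT (by simp)).toContinuousLinearEquiv with hL
  have i2 : (volume : Measure (ℝ × ℝ)).IsAddHaarMeasure :=
    Measure.prod.instIsAddHaarMeasure volume volume
  have i3 : (volume : Measure (ℝ × ℝ × ℝ)).IsAddHaarMeasure :=
    Measure.prod.instIsAddHaarMeasure volume volume
  have e := Measure.isAddLeftInvariant_eq_smul (Measure.map L volume) (volume : Measure (E 3))
  have hk := Measure.addHaarScalarFactor_pos_of_isAddHaarMeasure (Measure.map L volume)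
    (volume : Measure (E 3))
  set k := Measure.addHaarScalarFactor (Measure.map L volume) (volume : Measure (E 3))
  have hm := L.toHomeomorph.measurableEmbedding
  have h1 : Integrable F (Measure.map L volume) := by
    rw [e]; exact hF.smul_measure_nnreal
  have h2 : ∫ x, F x ∂Measure.map L volume = 0 := by
    refine (hm.integral_map F).trans ?_
    refine (integral_prod _ (hm.integrable_map_iff.1 h1)).trans ?_
    exact integral_eq_zero_of_ae (ae_of_all _ h)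
  rw [e, integral_smul_nnreal_measure] at h2
  exact (smul_eq_zero.1 h2).resolve_left hk.ne'

lemma four_three {ν : E 3} (hν : ‖ν‖ = 1) {A R : ℝ} {g : E 3 → ℂ} (hg : Dec A g)
    (hc : ContinuousAt g ν) (h : ∀ z ∈ Pl ν, R ≤ ‖z‖ → ∀ a b : E 3, ON a b → ⟪a, ν⟫ = 0 →
      ⟪b, ν⟫ ≠ 0 → ⟪b, ν⟫ ^ 2 ≠ 1 → ∫ p : ℝ × ℝ, g (p.1 • a + p.2 • b + z) = 0) : g ν = 0 := by
  have hi : Integrable g := by
    refine ((integrable_rpow_neg_one_add_norm_sq (μ := volume) (r := 4)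
      (by simp; norm_num)).const_mul A).mono' hg.1.aestronglyMeasurable (ae_of_all _ fun x => ?_)
    refine (hg.2 x).trans_eq ?_
    rw [wt, show (-4 / 2 : ℝ) = -(2 : ℕ) by norm_num, Real.rpow_neg (by positivity),
      Real.rpow_natCast]
  have hsp : volume (Submodule.span ℝ {ν} : Set (E 3)) = 0 := by
    refine Measure.addHaar_submodule _ _ fun e => ?_
    have := finrank_span_le_card (R := ℝ) ({ν} : Set (E 3))
    rw [e] at this
    simp at this
  have h0 : 𝓕 g =ᵐ[volume] 0 := by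
    filter_upwards [measure_eq_zero_iff_ae_notMem.1 (volume_Pl hν),
      measure_eq_zero_iff_ae_notMem.1 hsp] with ξ h1 h2
    have h1' : ⟪ξ, ν⟫ ≠ 0 := h1
    have hξ : ‖ξ‖ ≠ 0 := fun e => h1' (by simp [norm_eq_zero.1 e])
    obtain ⟨a', ha, ha0⟩ := Submodule.exists_mem_ne_zero_of_ne_bot
      (LinearMap.ker_ne_bot_of_finrank_lt
        (f := (innerSL ℝ ξ).toLinearMap.prod (innerSL ℝ ν).toLinearMap) (by simp))
    obtain ⟨a1, a2⟩ : ⟪ξ, a'⟫ = 0 ∧ ⟪ν, a'⟫ = 0 := by simpa [Prod.ext_iff] using ha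
    set b' := ν - (⟪ξ, ν⟫ / ‖ξ‖ ^ 2) • ξ with hb'
    have b1 : ⟪ξ, b'⟫ = 0 := by
      rw [hb', inner_sub_right, real_inner_smul_right, real_inner_self_eq_norm_sq]
      field_simp; ring
    have b2 : ⟪b', ν⟫ = 1 - ⟪ξ, ν⟫ ^ 2 / ‖ξ‖ ^ 2 := by
      rw [hb', inner_sub_left, real_inner_smul_left, real_inner_self_eq_norm_sq, hν]; ring
    have b3 : ‖b'‖ ^ 2 = ⟪b', ν⟫ := by
      rw [← real_inner_self_eq_norm_sq]
      nth_rw 2 [hb']
      rw [inner_sub_right, real_inner_smul_right, real_inner_comm ξ b', b1, mul_zero, sub_zero]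
    have hb0 : b' ≠ 0 := fun e => h2 (Submodule.mem_span_singleton.2
      ⟨(⟪ξ, ν⟫ / ‖ξ‖ ^ 2)⁻¹, by
        nth_rw 2 [sub_eq_zero.1 (hb'.symm.trans e)]
        rw [smul_smul, inv_mul_cancel₀ (by positivity), one_smul]⟩)
    have nb := norm_ne_zero_iff.2 hb0
    set a := ‖a'‖⁻¹ • a' with hadef
    set b := ‖b'‖⁻¹ • b' with hbdef
    have na : ‖a‖ = 1 := norm_smul_inv_norm ha0
    have nb1 : ‖b‖ = 1 := norm_smul_inv_norm hb0
    have aξ : ⟪a, ξ⟫ = 0 := by rw [hadef, real_inner_smul_left, real_inner_comm, a1, mul_zero]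
    have aν : ⟪a, ν⟫ = 0 := by rw [hadef, real_inner_smul_left, real_inner_comm, a2, mul_zero]
    have bξ : ⟪b, ξ⟫ = 0 := by rw [hbdef, real_inner_smul_left, real_inner_comm, b1, mul_zero]
    have bν : ⟪b, ν⟫ = ‖b'‖ := by rw [hbdef, real_inner_smul_left, ← b3]; field_simp
    have ab : ⟪a, b⟫ = 0 := by
      rw [hbdef, real_inner_smul_right, hb', inner_sub_right, real_inner_smul_right, aξ, aν]; simp
    set e := ξ - (⟪ξ, ν⟫ / ‖b'‖) • b with he
    have eν : ⟪e, ν⟫ = 0 := by rw [he, inner_sub_left, real_inner_smul_left, bν]; field_simp; ring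
    have eξ : ⟪e, ξ⟫ = ‖ξ‖ ^ 2 := by
      rw [he, inner_sub_left, real_inner_smul_left, bξ, real_inner_self_eq_norm_sq]; ring
    have ae : ⟪a, e⟫ = 0 := by rw [he, inner_sub_right, real_inner_smul_right, aξ, ab]; simp
    set T : (ℝ × ℝ × ℝ) →ₗ[ℝ] E 3 := (LinearMap.toSpanSingleton ℝ _ e).coprod
      ((LinearMap.toSpanSingleton ℝ _ a).coprod (LinearMap.toSpanSingleton ℝ _ b)) with hT
    have hT' : ∀ d (p : ℝ × ℝ), T (d, p) = d • e + (p.1 • a + p.2 • b) := fun _ _ => rfl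
    have hTξ : ∀ d (p : ℝ × ℝ), ⟪T (d, p), ξ⟫ = d * ‖ξ‖ ^ 2 := fun d p => by
      simp only [hT', inner_add_left, real_inner_smul_left, eξ, aξ, bξ]; ring
    rw [Real.fourier_eq]
    refine four_fub ((Real.fourierIntegral_convergent_iff ξ).2 hi) T ?_ fun d => ?_
    · refine (injective_iff_map_eq_zero T).2 fun ⟨d, p⟩ hp => ?_
      have hd : d = 0 := by
        have := hTξ d p
        rw [hp, inner_zero_left] at this
        exact (mul_eq_zero.1 this.symm).resolve_right (pow_ne_zero 2 hξ)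
      rw [hT', hd, zero_smul, zero_add] at hp
      have p1 := congrArg (fun v => ⟪a, v⟫) hp
      have p2 := congrArg (fun v => ⟪v, b⟫) hp
      simp only [inner_add_right, inner_add_left, real_inner_smul_left, real_inner_smul_right, ab,
        real_inner_self_eq_norm_sq, na, nb1, inner_zero_left, inner_zero_right] at p1 p2
      exact Prod.ext hd (Prod.ext (by simpa using p1) (by simpa using p2))
    · simp only [hTξ, Circle.smul_def]
      rw [integral_smul]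
      have h3 := h (d • e + |R| • a) (by
        show ⟪_, ν⟫ = 0
        simp only [inner_add_left, real_inner_smul_left, eν, aν]; ring) (by
        have h4 := real_inner_le_norm a (d • e + |R| • a)
        simp only [inner_add_right, real_inner_smul_right, ae, real_inner_self_eq_norm_sq, na] at h4
        linarith [le_abs_self R]) a b ⟨na, nb1, ab⟩ aν (bν ▸ nb) (by
        rw [bν, b3, b2]
        have : 0 < ⟪ξ, ν⟫ ^ 2 / ‖ξ‖ ^ 2 := by positivity
        linarith)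
      rw [← integral_add_right_eq_self _ ((|R|, 0) : ℝ × ℝ)]
      refine smul_eq_zero_of_right _ (Eq.trans ?_ h3)
      congr 1
      funext p
      congr 1
      simp only [hT', Prod.fst_add, Prod.snd_add]
      module
  rw [← hi.fourierInv_fourier_eq ((integrable_zero _ _ _).congr h0.symm) hc, Real.fourierInv_eq]
  refine integral_eq_zero_of_ae ?_
  filter_upwards [h0] with ξ hξ
  simp [hξ]

theorem four (hn : 3 ≤ n) {ν : E n} (hν : ‖ν‖ = 1) {A R : ℝ} {g : E n → ℂ} (hg : Dec A g)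
    (hc : ContinuousOn g (Pl ν)ᶜ) (h : ∀ z ∈ Pl ν, R ≤ ‖z‖ → ∀ a b : E n, ON a b → ⟪a, ν⟫ = 0 →
      ⟪b, ν⟫ ≠ 0 → ⟪b, ν⟫ ^ 2 ≠ 1 → ∫ p : ℝ × ℝ, g (p.1 • a + p.2 • b + z) = 0) : g ν = 0 := by
  obtain ⟨B, hB⟩ := Orthonormal.exists_orthonormalBasis_extension_of_card_eq (𝕜 := ℝ) (ι := Fin n)
    (by simp) (v := fun _ => ν) (s := {Fin.castLE hn 0}) (by
      refine ⟨fun _ => hν, fun i j hij => absurd (Subsingleton.elim i j) hij⟩)
  set b := EuclideanSpace.basisFun (Fin 3) ℝ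
  have hv : Orthonormal ℝ (B ∘ Fin.castLE hn) := B.orthonormal.comp _ (Fin.castLE_injective hn)
  set L : E 3 →ₗᵢ[ℝ] E n := (b.toBasis.constr ℝ (B ∘ Fin.castLE hn)).isometryOfOrthonormal
    (v := b.toBasis) b.orthonormal (by
      convert hv using 1
      funext i
      exact b.toBasis.constr_basis ℝ _ i) with hL
  have h0 : L (b 0) = ν := (b.toBasis.constr_basis ℝ _ 0).trans (hB _ rfl)
  have hi : ∀ x, ⟪L x, ν⟫ = ⟪x, b 0⟫ := fun x => by rw [← h0, L.inner_map_map]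
  have hc' : ContinuousAt g (L (b 0)) := by
    rw [h0]
    refine hc.continuousAt ((isClosed_Pl ν).isOpen_compl.mem_nhds ?_)
    show ¬ ⟪ν, ν⟫ = 0
    simp [hν]
  rw [← h0]
  refine four_three (g := fun x => g (L x)) (A := A) (R := R) (b.orthonormal.1 0)
    ⟨hg.1.comp L.continuous.measurable, fun x => (hg.2 _).trans_eq (by simp [wt])⟩
    (hc'.comp L.continuous.continuousAt) fun z hz hR a c hac ha hc1 hc2 => ?_
  simpa only [map_add, map_smul] using h (L z) ((hi z).trans hz) (by rwa [L.norm_map]) (L a) (L c)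
    ⟨by rw [L.norm_map, hac.1], by rw [L.norm_map, hac.2.1], by rw [L.inner_map_map, hac.2.2]⟩
    ((hi a).trans ha) (by rwa [hi]) (by rwa [hi])

end Pool.Agent.MP_71da5e_an

end
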