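import Pool.Agent.Mg.F71da5e.G63ce8a
import Pool.Agent.Mg.F71da5e.G8cdf38

section

namespace Pool.Agent.MP_71da5e_an

open MeasureTheory Metric Set Laplacian Filter Topology
open scoped ContDiff ENNReal RealInnerProductSpace

variable {n : ℕ}

theorem bnd_split (hn : 3 ≤ n) {ν a b : E n} (hν : ‖ν‖ = 1) (h : ON a b) (k : ℕ)
    {α : E n → ℝ} {w : E n → ℂ} {c R d : ℝ} (hc : 0 ≤ c) (hR : 0 ≤ R) (hd : 0 ≤ d)
    (h₁ : ∀ x, ‖x‖ ≤ R → α x * ‖w x‖ ^ 2 ≤
      c + d * (wt x * (kap a b k x + kap a b k (rf ν x))))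
    (h₂ : ∀ x, R < ‖x‖ → α x * ‖w x‖ ^ 2 ≤ d * (wt x * (kap a b k x + kap a b k (rf ν x)))) :
    Q α w ≤ ENNReal.ofReal (2 * d * mass a b k +
      c * R ^ n * (volume (closedBall (0 : E n) 1)).toReal) := by
  have hm : Measurable fun x : E n => if ‖x‖ ≤ R then c else 0 :=
    Measurable.ite (measurableSet_le (by fun_prop) measurable_const) measurable_const
      measurable_const
  have e1 := Q_le_add (a := α) (w := w) (a₁ := fun x : E n => if ‖x‖ ≤ R then c else 0)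
    (w₁ := fun _ => 1) (a₂ := fun x => d * (wt x * (kap a b k x + kap a b k (rf ν x))))
    (w₂ := fun _ => 1) hm measurable_const (fun x => by
      by_cases hx : ‖x‖ ≤ R
      · simpa [hx] using h₁ x hx
      · simpa [hx] using h₂ x (not_le.1 hx))
  have e2 := Q_le_ball (a := fun x : E n => if ‖x‖ ≤ R then c else 0) (w := fun _ => 1) hc hR
    (fun x => by by_cases hx : ‖x‖ ≤ R <;> simp [hx, hc])
    (fun x hx => by simp [not_le.2 hx])
  have e3 : Q (fun x => d * (wt x * (kap a b k x + kap a b k (rf ν x)))) (fun _ => 1) =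
      ENNReal.ofReal (2 * d * mass a b k) := by
    rw [← lintegral_wt_kap hn hν h k hd]
    simp [Q]
  have hm0 := (mass_pos hn h k).le
  rw [ENNReal.ofReal_add (by positivity) (by positivity), add_comm, ← e3]
  exact e1.trans (add_le_add e2 le_rfl)

theorem bnd_wt (x : E n) : ‖x‖ * (1 + ‖x‖ ^ 2) * wt x ≤ 1 := by
  unfold wt
  have h0 : 0 < 1 + ‖x‖ ^ 2 := by positivity
  rw [← div_eq_mul_inv, div_le_one (by positivity)]
  nlinarith [sq_nonneg (‖x‖ - 1), norm_nonneg x]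

theorem bnd_dec {A : ℝ} {q : E n → ℂ} (hq : Dec A q) (x : E n) : ‖q x‖ ^ 2 ≤ A ^ 2 * wt x ^ 2 := by
  rw [← mul_pow]
  exact pow_le_pow_left₀ (norm_nonneg _) (hq.2 x) 2

theorem bnd_aW₁ (k : ℕ) {ρ : ℝ} (hρ : 0 < ρ) {x : E n} (h₁ : ρ ≤ ‖x‖) (h₂ : ‖x‖ ≤ 2 * ρ) :
    (aW k ρ x)⁻¹ ≤ 5 * (2 * ρ) ^ (2 * k + n + 1) := by
  have hx : 0 < ‖x‖ := hρ.trans_le h₁
  have h3 : ‖x‖ ^ (2 * k + n + 1) ≤ (2 * ρ) ^ (2 * k + n + 1) := pow_le_pow_left₀ hx.le h₂ _
  have h4 : 1 / 5 ≤ ρ ^ 2 / (‖x‖ ^ 2 + ρ ^ 2) := by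
    rw [div_le_div_iff₀ (by norm_num) (by positivity)]
    nlinarith
  have h5 : 0 ≤ (k : ℝ) ^ 2 * ‖x‖ ^ 2 / (1 + ‖x‖ ^ 2) := by positivity
  rw [aW, if_neg (not_lt.2 h₁), inv_div, div_le_iff₀ (by positivity)]
  have h6 : 0 < (2 * ρ) ^ (2 * k + n + 1) := by positivity
  nlinarith

theorem bnd_aW₂ {k : ℕ} (hk : 1 ≤ k) {ρ : ℝ} (hρ : 0 < ρ) {x : E n} (h₁ : ρ ≤ ‖x‖) :
    (aW k ρ x)⁻¹ ≤ ‖x‖ ^ (2 * k + n + 1) * (1 + ‖x‖ ^ 2) / (k ^ 2 * ‖x‖ ^ 2) := by
  have hx : 0 < ‖x‖ := hρ.trans_le h₁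
  have hk' : (0 : ℝ) < k := by exact_mod_cast hk
  have e : ‖x‖ ^ (2 * k + n + 1) * (1 + ‖x‖ ^ 2) / (k ^ 2 * ‖x‖ ^ 2) =
      ‖x‖ ^ (2 * k + n + 1) / (k ^ 2 * ‖x‖ ^ 2 / (1 + ‖x‖ ^ 2)) := by
    rw [div_div_eq_mul_div]
  rw [aW, if_neg (not_lt.2 h₁), inv_div, e]
  exact div_le_div_of_nonneg_left (by positivity) (by positivity)
    (le_add_of_nonneg_right (by positivity))

theorem bnd_cb {ν : E n} (hν : ‖ν‖ = 1) (a b : E n) (k : ℕ) (ρ : ℝ) {x : E n} (hx : x ≠ 0) :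
    ‖cb ν a b k ρ x‖ ^ 2 ≤ 2 * (kap a b k x + kap a b k (rf ν x)) / ‖x‖ ^ (2 * k + n - 2) := by
  have hx' : 0 < ‖x‖ ^ (2 * k + n - 2) := pow_pos (norm_pos_iff.2 hx) _
  have h1 := norm_obeam_sq_le hν a b k hx
  have h2 : ‖cb ν a b k ρ x‖ ≤ ‖obeam ν a b k x‖ / ‖x‖ ^ (2 * k + n - 2) := by
    rw [cb, kbeam, norm_mul, norm_div, Complex.norm_real, Complex.norm_real,
      Real.norm_of_nonneg (chi_nonneg ρ x), Real.norm_of_nonneg hx'.le]
    exact mul_le_of_le_one_left (by positivity) (chi_le_one ρ x)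
  refine (pow_le_pow_left₀ (norm_nonneg _) h2 2).trans ?_
  rw [div_pow, div_le_div_iff₀ (by positivity) hx']
  nlinarith

theorem bnd_qcb (hn : 3 ≤ n) {ν : E n} (hν : ‖ν‖ = 1) (a b : E n) {k : ℕ} (hk : 1 ≤ k)
    {A ρ : ℝ} {q : E n → ℂ} (hρ : 0 < ρ) (hq : Dec A q) (x : E n) :
    (aW k ρ x)⁻¹ * (2 * ‖q x * cb ν a b k ρ x‖ ^ 2) ≤
      4 * A ^ 2 / k ^ 2 * (wt x * (kap a b k x + kap a b k (rf ν x))) := by
  have hK : 0 ≤ kap a b k x + kap a b k (rf ν x) := add_nonneg (kap_nonneg ..) (kap_nonneg ..)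
  have hw := wt_pos x
  have hk' : (0 : ℝ) < k := by exact_mod_cast hk
  by_cases h₁ : ‖x‖ ≤ ρ
  · rw [cb, chi_eq_zero hρ h₁]
    simp only [Complex.ofReal_zero, zero_mul, mul_zero, norm_zero, ne_eq, OfNat.ofNat_ne_zero,
      not_false_eq_true, zero_pow]
    positivity
  have h₂ := (not_le.1 h₁).le
  have hx : 0 < ‖x‖ := hρ.trans_le h₂
  have e1 := bnd_aW₂ hk hρ h₂
  have e2 := bnd_cb hν a b k ρ (norm_pos_iff.1 hx)
  have e3 := bnd_dec hq x
  have e4 : 2 * k + n + 1 = 2 * k + n - 2 + 3 := by omega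
  rw [norm_mul, mul_pow]
  calc (aW k ρ x)⁻¹ * (2 * (‖q x‖ ^ 2 * ‖cb ν a b k ρ x‖ ^ 2))
      ≤ (‖x‖ ^ (2 * k + n + 1) * (1 + ‖x‖ ^ 2) / (k ^ 2 * ‖x‖ ^ 2)) * (2 * ((A ^ 2 * wt x ^ 2) *
        (2 * (kap a b k x + kap a b k (rf ν x)) / ‖x‖ ^ (2 * k + n - 2)))) := by gcongr
    _ = 4 * A ^ 2 / k ^ 2 * (wt x * (kap a b k x + kap a b k (rf ν x))) *
        (‖x‖ * (1 + ‖x‖ ^ 2) * wt x) := by
      rw [e4, pow_add]
      field_simp
      ring
    _ ≤ _ := mul_le_of_le_one_right (by positivity) (bnd_wt x)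

theorem fb (hn : 3 ≤ n) {ν a b : E n} (hν : ‖ν‖ = 1) (h : ON a b) {k : ℕ} (hk : 1 ≤ k) :
    ∃ c : ℝ, 0 ≤ c ∧ ∀ (A ρ : ℝ) (q : E n → ℂ), 0 < ρ → Dec A q →
      Q (fun x => (aW k ρ x)⁻¹) (fun x => Δ (cb ν a b k ρ) x - q x * cb ν a b k ρ x) ≤
        ENNReal.ofReal (8 * A ^ 2 * mass a b k / k ^ 2 + c * ρ) := by
  obtain ⟨G, hG, hlap⟩ := lap_cb hn hν h k
  refine ⟨10 * 2 ^ (2 * k + n + 1) * G ^ 2 * 2 ^ n * (volume (closedBall (0 : E n) 1)).toReal,
    by positivity, fun A ρ q hρ hq => ?_⟩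
  have hsq : ∀ x, (aW k ρ x)⁻¹ * ‖Δ (cb ν a b k ρ) x - q x * cb ν a b k ρ x‖ ^ 2 ≤
      (aW k ρ x)⁻¹ * (2 * ‖Δ (cb ν a b k ρ) x‖ ^ 2) +
        4 * A ^ 2 / k ^ 2 * (wt x * (kap a b k x + kap a b k (rf ν x))) := fun x => by
    refine le_trans ?_ (add_le_add le_rfl (bnd_qcb hn hν a b hk hρ hq x))
    rw [← mul_add]
    refine mul_le_mul_of_nonneg_left ?_ (inv_nonneg.2 (aW_pos k hρ x).le)
    have := pow_le_pow_left₀ (norm_nonneg _)
      (norm_sub_le (Δ (cb ν a b k ρ) x) (q x * cb ν a b k ρ x)) 2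
    nlinarith [sq_nonneg (‖Δ (cb ν a b k ρ) x‖ - ‖q x * cb ν a b k ρ x‖)]
  have key := bnd_split hn hν h k (α := fun x => (aW k ρ x)⁻¹)
    (w := fun x => Δ (cb ν a b k ρ) x - q x * cb ν a b k ρ x)
    (c := 5 * (2 * ρ) ^ (2 * k + n + 1) * (2 * (G / ρ ^ (n + k)) ^ 2)) (R := 2 * ρ)
    (d := 4 * A ^ 2 / k ^ 2) (by positivity) (by positivity) (by positivity)
    (fun x hx => by
      refine (hsq x).trans (add_le_add ?_ le_rfl)
      by_cases h₁ : ‖x‖ < ρ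
      · rw [(hlap ρ hρ x).2 (Or.inl h₁)]
        simp only [norm_zero, ne_eq, OfNat.ofNat_ne_zero, not_false_eq_true, zero_pow, mul_zero]
        positivity
      · have e1 := bnd_aW₁ k hρ (not_lt.1 h₁) hx
        have e2 := (hlap ρ hρ x).1
        gcongr)
    (fun x hx => by
      refine (hsq x).trans ?_
      rw [(hlap ρ hρ x).2 (Or.inr hx)]
      simp)
  refine key.trans (le_of_eq ?_)
  congr 1
  field_simp
  ring

theorem pb (hn : 3 ≤ n) {ν a b : E n} (hν : ‖ν‖ = 1) (h : ON a b) (k : ℕ) {C Λ : ℝ} (hC : 0 ≤ C)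
    (hΛ : 0 ≤ Λ) (A : ℝ) : ∃ c : ℝ, 0 ≤ c ∧ ∀ (ρ : ℝ) (q χ : E n → ℂ), 0 < ρ → ρ ≤ 1 → Dec A q →
      (∀ x, ‖χ x‖ ≤ 1) → Q (bW k ρ C Λ) (fun x => q x * (χ x * obeam ν a b k x)) ≤
        ENNReal.ofReal (4 * C * A ^ 2 * mass a b k + c * ρ) := by
  refine ⟨4 * Λ * A ^ 2 * 30 ^ (2 * k + n) * (volume (closedBall (0 : E n) 1)).toReal,
    by positivity, fun ρ q χ hρ hρ1 hq hχ => ?_⟩
  have hsq : ∀ x, ‖q x * (χ x * obeam ν a b k x)‖ ^ 2 ≤
      A ^ 2 * wt x ^ 2 * ‖obeam ν a b k x‖ ^ 2 := fun x => by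
    have e1 := bnd_dec hq x
    have e2 : ‖χ x * obeam ν a b k x‖ ≤ ‖obeam ν a b k x‖ := by
      rw [norm_mul]
      exact mul_le_of_le_one_left (norm_nonneg _) (hχ x)
    rw [norm_mul, mul_pow]
    gcongr
  have hK : ∀ x, 0 ≤ kap a b k x + kap a b k (rf ν x) := fun x =>
    add_nonneg (kap_nonneg ..) (kap_nonneg ..)
  have key := bnd_split hn hν h k (α := bW k ρ C Λ)
    (w := fun x => q x * (χ x * obeam ν a b k x))
    (c := Λ * ρ ^ 4 / ρ ^ (2 * k + n + 1) * (A ^ 2 * 1 ^ 2 * (2 * (30 * ρ) ^ k) ^ 2))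
    (R := 30 * ρ) (d := 2 * C * A ^ 2) (by positivity) (by positivity) (by positivity)
    (fun x hx => by
      have hw := wt_pos x
      have hK' := hK x
      refine le_trans ?_ (le_add_of_nonneg_right (by positivity))
      rw [bW, if_pos hx]
      refine mul_le_mul_of_nonneg_left ((hsq x).trans ?_) (by positivity)
      have e1 := wt_le_one x
      have e2 : ‖obeam ν a b k x‖ ≤ 2 * (30 * ρ) ^ k :=
        (norm_obeam_le hν h k x).trans (by gcongr)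
      gcongr)
    (fun x hx => by
      have hw := wt_pos x
      have hK' := hK x
      have hx0 : 0 < ‖x‖ := lt_trans (by positivity) hx
      have e1 := norm_obeam_sq_le hν a b k (norm_pos_iff.1 hx0)
      have e4 : 2 * k + n + 1 = 2 * k + n - 2 + 3 := by omega
      rw [bW, if_neg (not_le.2 hx)]
      calc C * (‖x‖ ^ 4 * (1 + ‖x‖ ^ 2)) / ‖x‖ ^ (2 * k + n + 1) *
            ‖q x * (χ x * obeam ν a b k x)‖ ^ 2
          ≤ C * (‖x‖ ^ 4 * (1 + ‖x‖ ^ 2)) / ‖x‖ ^ (2 * k + n + 1) * (A ^ 2 * wt x ^ 2 *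
            (2 * ‖x‖ ^ (2 * k + n - 2) * (kap a b k x + kap a b k (rf ν x)))) :=
            mul_le_mul_of_nonneg_left ((hsq x).trans (by gcongr)) (by positivity)
        _ = 2 * C * A ^ 2 * (wt x * (kap a b k x + kap a b k (rf ν x))) *
            (‖x‖ * (1 + ‖x‖ ^ 2) * wt x) := by
          rw [e4, pow_add]
          field_simp
        _ ≤ _ := mul_le_of_le_one_right (by positivity) (bnd_wt x))
  refine key.trans (ENNReal.ofReal_le_ofReal ?_)
  have e1 : Λ * ρ ^ 4 / ρ ^ (2 * k + n + 1) * (A ^ 2 * 1 ^ 2 * (2 * (30 * ρ) ^ k) ^ 2) *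
      (30 * ρ) ^ n * (volume (closedBall (0 : E n) 1)).toReal =
      4 * Λ * A ^ 2 * 30 ^ (2 * k + n) * (volume (closedBall (0 : E n) 1)).toReal * ρ ^ 3 := by
    field_simp
    ring
  have e2 : ρ ^ 3 ≤ ρ := pow_le_of_le_one hρ.le hρ1 (by norm_num)
  rw [e1]
  refine add_le_add (le_of_eq (by ring)) ?_
  gcongr

theorem bnd_outer {C Λ ρ t : ℝ} {m : ℕ} (hC : 0 < C) (hΛ : 0 ≤ Λ) (hρ : 0 < ρ) (hρ1 : ρ ≤ 1)
    (hρ2 : ρ ≤ C / (Λ * 30 ^ m + 1)) (ht : 0 ≤ t) (ht1 : t ≤ 30 * ρ) :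
    C * t ^ m * (Λ * ρ ^ 4 / ρ ^ (m + 2)) ≤ C ^ 2 := by
  have e1 : t ^ m ≤ (30 * ρ) ^ m := pow_le_pow_left₀ ht ht1 m
  have e2 : ρ * (Λ * 30 ^ m + 1) ≤ C := (le_div_iff₀ (by positivity)).1 hρ2
  calc C * t ^ m * (Λ * ρ ^ 4 / ρ ^ (m + 2))
      ≤ C * (30 * ρ) ^ m * (Λ * ρ ^ 4 / ρ ^ (m + 2)) := by gcongr
    _ = C * (ρ * (ρ * (Λ * 30 ^ m))) := by
      field_simp
      ring
    _ ≤ C * (1 * C) := by
      gcongr
      nlinarith
    _ = C ^ 2 := by ring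

theorem wb (hn : 3 ≤ n) (k : ℕ) {C Λ : ℝ} (hC : 0 < C) (hΛ : 0 ≤ Λ) : ∃ ρ₁ : ℝ, 0 < ρ₁ ∧
    ∀ ρ : ℝ, 0 < ρ → ρ ≤ ρ₁ → ∀ x : E n, x ≠ 0 →
      ‖x‖ ^ 4 * wt x ^ 2 * bW k ρ C Λ x * bW k ρ C Λ (inv 0 1 x) ≤ C ^ 2 := by
  obtain ⟨m, hm⟩ : ∃ m, 2 * k + n + 1 = m + 2 := ⟨2 * k + n - 1, by omega⟩
  refine ⟨min (1 / 31) (C / (Λ * 30 ^ m + 1)), by positivity, fun ρ hρ hρ' x hx => ?_⟩
  have hρ1 : ρ ≤ 1 / 31 := hρ'.trans (min_le_left _ _)
  have hρ2 : ρ ≤ C / (Λ * 30 ^ m + 1) := hρ'.trans (min_le_right _ _)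
  have hr : 0 < ‖x‖ := norm_pos_iff.2 hx
  have hrr : ‖x‖ * ‖x‖⁻¹ = 1 := mul_inv_cancel₀ hr.ne'
  have hri : 0 < ‖x‖⁻¹ := inv_pos.2 hr
  have h1 : 1 ≤ 1 + ‖x‖ ^ 2 := le_add_of_nonneg_right (sq_nonneg _)
  unfold bW wt
  rw [norm_inv_zero, hm]
  generalize ‖x‖ = r at *
  split_ifs with c1 c2 c2
  · nlinarith
  · refine le_trans ?_ (bnd_outer hC hΛ hρ (by linarith) hρ2 hr.le c1)
    have e : r ^ 4 * ((1 + r ^ 2) ^ 2)⁻¹ ^ 2 * (Λ * ρ ^ 4 / ρ ^ (m + 2)) *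
        (C * (r⁻¹ ^ 4 * (1 + r⁻¹ ^ 2)) / r⁻¹ ^ (m + 2)) =
        C * r ^ m * (Λ * ρ ^ 4 / ρ ^ (m + 2)) * ((1 + r ^ 2) ^ 3)⁻¹ := by
      simp only [inv_pow]
      field_simp
      ring
    rw [e]
    exact mul_le_of_le_one_right (by positivity) (inv_le_one_of_one_le₀ (one_le_pow₀ h1))
  · refine le_trans ?_ (bnd_outer hC hΛ hρ (by linarith) hρ2 hri.le c2)
    have e : r ^ 4 * ((1 + r ^ 2) ^ 2)⁻¹ ^ 2 * (C * (r ^ 4 * (1 + r ^ 2)) / r ^ (m + 2)) *
        (Λ * ρ ^ 4 / ρ ^ (m + 2)) =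
        C * r⁻¹ ^ m * (Λ * ρ ^ 4 / ρ ^ (m + 2)) * (r ^ 2 / (1 + r ^ 2)) ^ 3 := by
      simp only [inv_pow]
      field_simp
      ring
    rw [e]
    exact mul_le_of_le_one_right (by positivity) (pow_le_one₀ (by positivity)
      ((div_le_one (by positivity)).2 (by linarith)))
  · have e : r ^ 4 * ((1 + r ^ 2) ^ 2)⁻¹ ^ 2 * (C * (r ^ 4 * (1 + r ^ 2)) / r ^ (m + 2)) *
        (C * (r⁻¹ ^ 4 * (1 + r⁻¹ ^ 2)) / r⁻¹ ^ (m + 2)) = C ^ 2 * (r / (1 + r ^ 2)) ^ 2 := by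
      simp only [inv_pow]
      field_simp
      ring
    rw [e]
    exact mul_le_of_le_one_right (by positivity) (pow_le_one₀ (by positivity)
      ((div_le_one (by positivity)).2 (by nlinarith [sq_nonneg (r - 1)])))

theorem bW_le (hn : 3 ≤ n) {k : ℕ} (hk : 4 ≤ k) {ρ C Λ : ℝ} (hρ : 0 < ρ) (hC : 0 ≤ C)
    (hΛ : 0 ≤ Λ) : ∃ c : ℝ, ∀ x : E n, bW k ρ C Λ x ≤ c := by
  obtain ⟨m, hm⟩ : ∃ m, 2 * k + n + 1 = m + 6 := ⟨2 * k + n - 5, by omega⟩
  refine ⟨Λ * ρ ^ 4 / ρ ^ (m + 6) + (C / (30 * ρ) ^ (m + 2) + C / (30 * ρ) ^ m), fun x => ?_⟩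
  rw [bW, hm]
  split_ifs with h
  · exact le_add_of_nonneg_right (by positivity)
  · have h1 := (not_le.1 h).le
    have hr : 0 < ‖x‖ := lt_of_lt_of_le (by positivity) h1
    have e : C * (‖x‖ ^ 4 * (1 + ‖x‖ ^ 2)) / ‖x‖ ^ (m + 6) =
        C / ‖x‖ ^ (m + 2) + C / ‖x‖ ^ m := by
      field_simp
      ring
    rw [e]
    refine le_trans ?_ (le_add_of_nonneg_left (by positivity))
    gcongr

end Pool.Agent.MP_71da5e_an

end

section

namespace Pool.Agent.MP_71da5e_an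

open MeasureTheory Metric Set Laplacian Filter Topology
open scoped ContDiff ENNReal RealInnerProductSpace

variable {n : ℕ}

lemma dual_eLp (f : E n → ℂ) :
    eLpNorm f 2 volume ^ 2 = ∫⁻ x, ENNReal.ofReal (‖f x‖ ^ 2) := by
  have h := eLpNorm_nnreal_pow_eq_lintegral (f := f) (μ := volume) (p := 2) (by norm_num)
  have h2 : ((2 : NNReal) : ℝ) = ((2 : ℕ) : ℝ) := by norm_num
  rw [h2] at h
  simp only [ENNReal.rpow_natCast] at h
  have h3 : ((2 : NNReal) : ℝ≥0∞) = 2 := by norm_num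
  rw [h3] at h
  rw [h]
  refine lintegral_congr fun x => ?_
  rw [ENNReal.ofReal_pow (norm_nonneg _), ofReal_norm]

lemma dual_sq {b : E n → ℝ} (hb0 : ∀ x, 0 < b x) (w : E n → ℂ) :
    eLpNorm (fun x => ((√(b x) : ℝ) : ℂ) * w x) 2 volume ^ 2 = Q b w := by
  rw [dual_eLp]
  refine lintegral_congr fun x => ?_
  rw [norm_mul, Complex.norm_real, Real.norm_eq_abs, abs_of_nonneg (Real.sqrt_nonneg _), mul_pow,
    Real.sq_sqrt (hb0 x).le]

lemma dual_mem {b : E n → ℝ} (hb : Measurable b) (hb0 : ∀ x, 0 < b x) {w : E n → ℂ}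
    (hw : Measurable w) (hfin : Q b w ≠ ⊤) :
    MemLp (fun x => ((√(b x) : ℝ) : ℂ) * w x) 2 volume := by
  refine ⟨(Measurable.mul (Complex.measurable_ofReal.comp hb.sqrt) hw).aestronglyMeasurable, ?_⟩
  rw [← dual_sq hb0] at hfin
  exact lt_top_iff_ne_top.2 fun h => hfin (by rw [h]; simp)

lemma dual_hilbert {V H : Type*} [AddCommGroup V] [Module ℂ V] [NormedAddCommGroup H]
    [InnerProductSpace ℂ H] [CompleteSpace H] (T : V →ₗ[ℂ] H) (l : V →ₗ[ℂ] ℂ) {c : ℝ} (hc : 0 ≤ c)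
    (h : ∀ v, ‖l v‖ ≤ c * ‖T v‖) : ∃ g : H, ‖g‖ ≤ c ∧ ∀ v, inner ℂ g (T v) = l v := by
  have hk : LinearMap.ker T ≤ LinearMap.ker l := fun v hv => by
    have h1 := h v
    rw [LinearMap.mem_ker.1 hv, norm_zero, mul_zero] at h1
    exact LinearMap.mem_ker.2 (norm_le_zero_iff.1 h1)
  let φ : LinearMap.range T →ₗ[ℂ] ℂ :=
    ((LinearMap.ker T).liftQ l hk).comp (T.quotKerEquivRange.symm : _ →ₗ[ℂ] _)
  have hφ : ∀ v, φ ⟨T v, LinearMap.mem_range_self T v⟩ = l v := fun v => by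
    simp only [φ, LinearMap.comp_apply, LinearEquiv.coe_coe]
    rw [LinearMap.quotKerEquivRange_symm_apply_image]
    simp
  have hb : ∀ y : LinearMap.range T, ‖φ y‖ ≤ c * ‖y‖ := by
    rintro ⟨_, v, rfl⟩
    rw [hφ]
    exact h v
  obtain ⟨g, hg, hn⟩ := exists_extension_norm_eq (LinearMap.range T) (φ.mkContinuous c hb)
  refine ⟨(InnerProductSpace.toDual ℂ H).symm g, ?_, fun v => ?_⟩
  · rw [LinearIsometryEquiv.norm_map, hn]
    exact φ.mkContinuous_norm_le hc hb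
  · rw [InnerProductSpace.toDual_symm_apply]
    have := hg ⟨T v, LinearMap.mem_range_self T v⟩
    rw [LinearMap.mkContinuous_apply, hφ] at this
    exact this

theorem dual {V : Type*} [AddCommGroup V] [Module ℂ V] (G : V →ₗ[ℂ] (E n → ℂ)) (l : V →ₗ[ℂ] ℂ)
    {b : E n → ℝ} (hb : Measurable b) (hb0 : ∀ x, 0 < b x) (hG : ∀ v, Measurable (G v))
    (hfin : ∀ v, Q b (G v) ≠ ⊤) {C : ℝ≥0∞} (hC : C ≠ ⊤) (h : ∀ v, ‖l v‖ₑ ^ 2 ≤ C * Q b (G v)) :
    ∃ U : E n → ℂ, Measurable U ∧ Q (fun x => (b x)⁻¹) U ≤ C ∧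
      ∀ v, ∫ x, U x * G v x = l v := by
  have hm : ∀ v, MemLp (fun x => ((√(b x) : ℝ) : ℂ) * G v x) 2 volume := fun v =>
    dual_mem hb hb0 (hG v) (hfin v)
  let T : V →ₗ[ℂ] Lp ℂ 2 (volume : Measure (E n)) :=
    { toFun := fun v => (hm v).toLp _
      map_add' := fun v w => by
        rw [← MemLp.toLp_add]
        congr 1
        funext x
        simp [mul_add]
      map_smul' := fun a v => by
        rw [RingHom.id_apply, ← MemLp.toLp_const_smul]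
        congr 1
        funext x
        simp only [map_smul, Pi.smul_apply, smul_eq_mul]
        ring }
  have hT : ∀ v, ‖T v‖ₑ ^ 2 = Q b (G v) := fun v => by
    rw [← dual_sq hb0]
    congr 1
    exact Lp.enorm_toLp (hm v)
  have hl : ∀ v, ‖l v‖ ≤ √(C.toReal) * ‖T v‖ := fun v => by
    have h1 := h v
    rw [← hT] at h1
    have h2 := ENNReal.toReal_mono (ENNReal.mul_ne_top hC (ENNReal.pow_ne_top enorm_ne_top)) h1
    simp only [ENNReal.toReal_mul, ENNReal.toReal_pow, toReal_enorm] at h2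
    refine (pow_le_pow_iff_left₀ (norm_nonneg _) (by positivity) two_ne_zero).1 ?_
    rw [mul_pow, Real.sq_sqrt ENNReal.toReal_nonneg]
    exact h2
  obtain ⟨g, hg, hgT⟩ := dual_hilbert T l (Real.sqrt_nonneg _) hl
  have hs := Lp.aestronglyMeasurable g
  refine ⟨fun x => (starRingEnd ℂ) (hs.mk g x) * ((√(b x) : ℝ) : ℂ), ?_, ?_, fun v => ?_⟩
  · exact Measurable.mul (Complex.continuous_conj.measurable.comp hs.stronglyMeasurable_mk.measurable)
      (Complex.measurable_ofReal.comp hb.sqrt)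
  · have h1 : Q (fun x => (b x)⁻¹) (fun x => (starRingEnd ℂ) (hs.mk g x) * ((√(b x) : ℝ) : ℂ)) =
        eLpNorm g 2 volume ^ 2 := by
      rw [eLpNorm_congr_ae hs.ae_eq_mk, dual_eLp]
      refine lintegral_congr fun x => ?_
      have := (hb0 x).ne'
      simp only []
      rw [norm_mul, Complex.norm_real, Real.norm_eq_abs, abs_of_nonneg (Real.sqrt_nonneg _), mul_pow,
        Real.sq_sqrt (hb0 x).le, Complex.norm_conj]
      congr 1
      field_simp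
    rw [h1, ← Lp.enorm_def, ← ofReal_norm, ← ENNReal.ofReal_pow (norm_nonneg _),
      ← ENNReal.ofReal_toReal hC]
    refine ENNReal.ofReal_le_ofReal ?_
    calc ‖g‖ ^ 2 ≤ √(C.toReal) ^ 2 := by gcongr
      _ = C.toReal := Real.sq_sqrt ENNReal.toReal_nonneg
  · rw [← hgT v, L2.inner_def]
    refine integral_congr_ae ?_
    filter_upwards [hs.ae_eq_mk, (hm v).coeFn_toLp] with x h1 h2
    have h3 : (T v) x = ((√(b x) : ℝ) : ℂ) * G v x := h2
    rw [h3, ← h1, RCLike.inner_apply]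
    ring

end Pool.Agent.MP_71da5e_an

end

section

namespace Pool.Agent.MP_71da5e_an

open MeasureTheory Metric Set Laplacian Filter Topology
open scoped ContDiff ENNReal RealInnerProductSpace

variable {n : ℕ}

theorem greenH_real {ν : E n} (hν : ‖ν‖ = 1) {g : E n → ℝ} (hg : ContDiff ℝ 1 g)
    (hc : HasCompactSupport g) (h0 : ∀ x ∈ Pl ν, g x = 0) (v : E n) :
    ∫ x in Hs ν, fderiv ℝ g x v = 0 := by
  obtain ⟨C, hC⟩ := hg.lipschitzWith_of_hasCompactSupport hc one_ne_zero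
  have h1 := hC.comp (LipschitzWith.id.add
    ((ContinuousLinearMap.toSpanSingleton ℝ ν).lipschitz.comp
      ((innerSL ℝ ν).lipschitz.neg.max_const 0)))
  have h2 : (g ∘ fun x : E n => id x + (ContinuousLinearMap.toSpanSingleton ℝ ν ∘
      fun x => max ((-(innerSL ℝ ν : E n → ℝ)) x) 0) x) = (Hs ν).indicator g := by
    ext x
    simp only [Function.comp_apply, id, ContinuousLinearMap.toSpanSingleton_apply, Pi.neg_apply,
      innerSL_apply_apply, real_inner_comm x ν]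
    by_cases hx : x ∈ Hs ν
    · rw [indicator_of_mem hx, max_eq_right (neg_nonpos.2 (le_of_lt hx)), zero_smul, add_zero]
    · rw [indicator_of_notMem hx, max_eq_left (neg_nonneg.2 (not_lt.1 hx))]
      refine h0 _ ?_
      simp only [Pl, mem_ofPred_eq, inner_add_left, inner_smul_left, real_inner_self_eq_norm_sq, hν]
      simp
  rw [h2] at h1
  have h3 := LipschitzWith.integral_lineDeriv_mul_eq (μ := volume)
    (LipschitzWith.const (α := E n) (1 : ℝ)) h1 (hc.mono (by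
      rw [support_indicator]; exact inter_subset_right)) (-v)
  simp only [neg_neg, mul_one, lineDeriv, deriv_const', zero_mul, integral_zero] at h3
  rw [← integral_indicator (isOpen_Hs ν).measurableSet, h3]
  refine integral_congr_ae ?_
  filter_upwards [measure_eq_zero_iff_ae_notMem.1 (volume_Pl hν)] with x hx
  change _ = lineDeriv ℝ ((Hs ν).indicator g) x v
  rcases lt_or_gt_of_ne (show ⟪x, ν⟫ ≠ 0 from hx) with h | h
  · have : (Hs ν).indicator g =ᶠ[𝓝 x] fun _ => 0 := by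
      filter_upwards [(isOpen_lt (f := fun y : E n => ⟪y, ν⟫) (by fun_prop)
        continuous_const).mem_nhds h] with y hy
      exact indicator_of_notMem (s := Hs ν) (not_lt.2 (le_of_lt hy)) _
    rw [this.lineDeriv_eq, indicator_of_notMem (s := Hs ν) (not_lt.2 h.le)]
    simp [lineDeriv]
  · have : (Hs ν).indicator g =ᶠ[𝓝 x] g := by
      filter_upwards [(isOpen_Hs ν).mem_nhds h] with y hy
      exact indicator_of_mem hy _
    rw [this.lineDeriv_eq, indicator_of_mem (show x ∈ Hs ν from h),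
      (hg.differentiable one_ne_zero x).lineDeriv_eq_fderiv]

theorem greenH_int {g : E n → ℂ} (hg : ContDiff ℝ 1 g) (hc : HasCompactSupport g) (v : E n) :
    Integrable fun x => fderiv ℝ g x v :=
  ((hg.continuous_fderiv one_ne_zero).clm_apply continuous_const).integrable_of_hasCompactSupport
    (hc.fderiv_apply ℝ v)

theorem setIntegral_fderiv_zero {ν : E n} (hν : ‖ν‖ = 1) {g : E n → ℂ} (hg : ContDiff ℝ 1 g)
    (hc : HasCompactSupport g) (h0 : ∀ x ∈ Pl ν, g x = 0) (v : E n) :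
    ∫ x in Hs ν, fderiv ℝ g x v = 0 := by
  have key : ∀ L : ℂ →L[ℝ] ℝ, L (∫ x in Hs ν, fderiv ℝ g x v) = 0 := by
    intro L
    rw [← L.integral_comp_comm (greenH_int hg hc v).integrableOn,
      ← greenH_real hν (g := L ∘ g) (L.contDiff.comp hg) (hc.comp_left (map_zero L))
      (fun x hx => by simp [h0 x hx]) v]
    refine integral_congr_ae (Eventually.of_forall fun x => ?_)
    simp only [(L.hasFDerivAt.comp x (hg.differentiable one_ne_zero x).hasFDerivAt).fderiv,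
      ContinuousLinearMap.comp_apply]
  exact Complex.ext (key Complex.reCLM) (key Complex.imCLM)

theorem greenH_d {φ : E n → ℂ} (hφ : Tst φ) (v : E n) : ContDiff ℝ ∞ fun x => fderiv ℝ φ x v :=
  (hφ.1.fderiv_right (m := ∞) (by simp)).clm_apply contDiff_const

theorem greenH_d0 {φ : E n → ℂ} {x : E n} (h : x ∉ tsupport φ) (v : E n) :
    fderiv ℝ φ x v = 0 := by
  rw [(notMem_tsupport_iff_eventuallyEq.1 h).fderiv_eq]; simp

theorem green_half {ν : E n} (hν : ‖ν‖ = 1) {φ ψ : E n → ℂ} (hφ : Tst φ) (hψ : Tst ψ)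
    (h : ∀ x ∈ Pl ν, (φ x = 0 ∧ ψ x = 0) ∨ x ∉ tsupport φ ∨ x ∉ tsupport ψ) :
    pair ((Hs ν).indicator φ) ((Hs ν).indicator (Δ φ)) ψ = 0 := by
  set g : Fin n → E n → ℂ := fun i x => fderiv ℝ φ x (ev i) * ψ x - φ x * fderiv ℝ ψ x (ev i)
    with hg
  have g1 : ∀ i, ContDiff ℝ 1 (g i) := fun i =>
    (((greenH_d hφ _).mul hψ.1).sub (hφ.1.mul (greenH_d hψ _))).of_le (by simp)
  have g2 : ∀ i, HasCompactSupport (g i) := fun i => hψ.2.mul_left.sub hφ.2.mul_right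
  have g3 : ∀ i, ∀ x ∈ Pl ν, g i x = 0 := by
    intro i x hx
    rcases h x hx with h | h | h
    · simp [hg, h.1, h.2]
    · simp [hg, image_eq_zero_of_notMem_tsupport h, greenH_d0 h]
    · simp [hg, image_eq_zero_of_notMem_tsupport h, greenH_d0 h]
  have g4 : ∀ x, Δ φ x * ψ x - φ x * Δ ψ x = ∑ i, fderiv ℝ (g i) x (ev i) := by
    intro x
    have h2 : (2 : WithTop ℕ∞) ≤ ((⊤ : ℕ∞) : WithTop ℕ∞) := WithTop.coe_le_coe.2 le_top
    rw [lap_eq (hφ.1.of_le h2).contDiffAt, lap_eq (hψ.1.of_le h2).contDiffAt,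
      Finset.sum_mul, Finset.mul_sum, ← Finset.sum_sub_distrib]
    refine Finset.sum_congr rfl fun i _ => ?_
    have := ((((greenH_d hφ (ev i)).differentiable (by simp) x).hasFDerivAt.mul
      (hψ.1.differentiable (by simp) x).hasFDerivAt).sub
      ((hφ.1.differentiable (by simp) x).hasFDerivAt.mul
        ((greenH_d hψ (ev i)).differentiable (by simp) x).hasFDerivAt)).fderiv
    change fderiv ℝ (g i) x = _ at this
    rw [this]
    simp only [sub_apply, add_apply, smul_apply, smul_eq_mul]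
    ring
  have : pair ((Hs ν).indicator φ) ((Hs ν).indicator (Δ φ)) ψ =
      ∫ x in Hs ν, ∑ i, fderiv ℝ (g i) x (ev i) := by
    rw [pair, ← integral_indicator (isOpen_Hs ν).measurableSet]
    refine integral_congr_ae (Eventually.of_forall fun x => ?_)
    by_cases hx : x ∈ Hs ν
    · simp only [indicator_of_mem hx, g4]
    · simp only [indicator_of_notMem hx, zero_mul, sub_zero]
  rw [this, integral_finsetSum _ fun i _ => (greenH_int (g1 i) (g2 i) _).integrableOn]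
  exact Finset.sum_eq_zero fun i _ => setIntegral_fderiv_zero hν (g1 i) (g2 i) (g3 i) _

theorem HP_of_test {ν : E n} (hν : ‖ν‖ = 1) {G : Set (E n)} {φ : E n → ℂ} (hφ : Tst φ)
    (h0 : ∀ x ∈ Pl ν, φ x = 0) (hG : Disjoint (tsupport φ ∩ Pl ν) G) :
    HP ν G ((Hs ν).indicator φ) ((Hs ν).indicator (Δ φ)) := by
  refine ⟨hφ.wl2.indicator (isOpen_Hs ν).measurableSet,
    hφ.lap.wl2.indicator (isOpen_Hs ν).measurableSet, fun x hx => indicator_of_notMem hx _,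
    fun x hx => indicator_of_notMem hx _, fun ψ hψ h => green_half hν hφ hψ fun x hx => ?_⟩
  rcases h with h | h
  · exact Or.inl ⟨h0 x hx, h x hx⟩
  · by_cases h1 : x ∈ tsupport φ
    · exact Or.inr (Or.inr fun h2 => disjoint_left.1 hG ⟨h1, hx⟩ (h h2))
    · exact Or.inr (Or.inl h1)

end Pool.Agent.MP_71da5e_an

end

section

namespace Pool.Agent.MP_71da5e_an

open MeasureTheory Metric Set Laplacian Filter Topology
open scoped ContDiff ENNReal RealInnerProductSpace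

variable {n : ℕ}

/-- The test functions used in the duality argument. -/
def solV (ν : E n) (D : Set (E n)) : Submodule ℂ (E n → ℂ) where
  carrier := {φ | Tst φ ∧ (∀ x ∈ Pl ν, φ x = 0) ∧ tsupport φ ∩ Pl ν ⊆ D}
  zero_mem' := ⟨⟨contDiff_const, HasCompactSupport.zero⟩, fun _ _ => rfl, by simp⟩
  add_mem' := by
    rintro φ ψ ⟨h1, h2, h3⟩ ⟨g1, g2, g3⟩
    refine ⟨⟨h1.1.add g1.1, h1.2.add g1.2⟩, fun x hx => by simp [h2 x hx, g2 x hx], ?_⟩
    rintro x ⟨hx, hx'⟩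
    rcases tsupport_add φ ψ hx with h | h
    · exact h3 ⟨h, hx'⟩
    · exact g3 ⟨h, hx'⟩
  smul_mem' := by
    rintro c φ ⟨h1, h2, h3⟩
    refine ⟨⟨h1.1.const_smul c, h1.2.smul_left (f := fun _ => c)⟩,
      fun x hx => by simp [h2 x hx], ?_⟩
    rintro x ⟨hx, hx'⟩
    exact h3 ⟨tsupport_smul_subset_right (fun _ => c) φ hx, hx'⟩

theorem sol_c2 {φ : E n → ℂ} (h : Tst φ) (x : E n) : ContDiffAt ℝ 2 φ x :=
  (h.1.of_le (ENat.LEInfty.out (m := 2))).contDiffAt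

/-- The operator applied to a test function, cut off to the half space. -/
noncomputable def solG (ν : E n) (D : Set (E n)) (q : E n → ℂ) : solV ν D →ₗ[ℂ] (E n → ℂ) where
  toFun φ := (Hs ν).indicator fun x => Δ φ.1 x - q x * φ.1 x
  map_add' φ ψ := by
    ext x
    by_cases hx : x ∈ Hs ν
    · simp only [indicator_of_mem hx, Submodule.coe_add, Pi.add_apply,
        (sol_c2 φ.2.1 x).laplacian_add (sol_c2 ψ.2.1 x)]
      ring
    · simp [indicator_of_notMem hx]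
  map_smul' c φ := by
    ext x
    by_cases hx : x ∈ Hs ν
    · simp only [indicator_of_mem hx, Submodule.coe_smul, Pi.smul_apply,
        InnerProductSpace.laplacian_smul c (sol_c2 φ.2.1 x), smul_eq_mul, RingHom.id_apply]
      ring
    · simp [indicator_of_notMem hx]

theorem solG_apply (ν : E n) (D : Set (E n)) (q : E n → ℂ) (φ : solV ν D) :
    solG ν D q φ = (Hs ν).indicator fun x => Δ φ.1 x - q x * φ.1 x := rfl

theorem solG_meas (ν : E n) (D : Set (E n)) {q : E n → ℂ} (hq : Measurable q) (φ : solV ν D) :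
    Measurable (solG ν D q φ) :=
  (φ.2.1.lap.1.continuous.measurable.sub (hq.mul φ.2.1.1.continuous.measurable)).indicator
    (isOpen_Hs ν).measurableSet

theorem solG_fin (ν : E n) (D : Set (E n)) {A : ℝ} {q : E n → ℂ} (hq : Dec A q) (φ : solV ν D)
    {a : E n → ℝ} {c : ℝ} (hc : 0 ≤ c) (ha : ∀ x, a x ≤ c) : Q a (solG ν D q φ) ≠ ⊤ := by
  obtain ⟨M₁, hM₁⟩ := φ.2.1.2.exists_bound_of_continuous φ.2.1.1.continuous
  obtain ⟨M₂, hM₂⟩ := φ.2.1.lap.2.exists_bound_of_continuous φ.2.1.lap.1.continuous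
  obtain ⟨R, hR⟩ := φ.2.1.2.isCompact.isBounded.subset_closedBall 0
  have hA := hq.nonneg
  refine Q_ne_top_of_bdd (c := c * (M₂ + A * M₁) ^ 2) (R := R) (fun x => ?_) fun x hx => ?_
  · have h1 : ‖solG ν D q φ x‖ ≤ M₂ + A * M₁ := by
      refine (norm_indicator_le_norm_self (fun x => Δ φ.1 x - q x * φ.1 x) x).trans
        ((norm_sub_le (Δ φ.1 x) _).trans ?_)
      rw [norm_mul]
      have h2 : ‖q x‖ ≤ A := (hq.2 x).trans (mul_le_of_le_one_right hA (wt_le_one x))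
      gcongr
      · exact hM₂ x
      · exact hM₁ x
    calc a x * ‖solG ν D q φ x‖ ^ 2 ≤ c * ‖solG ν D q φ x‖ ^ 2 := by gcongr; exact ha x
      _ ≤ _ := by gcongr
  · have h1 : x ∉ tsupport φ.1 := fun h => by
      have := hR h
      rw [mem_closedBall_zero_iff] at this
      linarith
    rw [solG_apply, indicator_apply_eq_zero]
    intro _
    rw [lap_eq_zero h1, image_eq_zero_of_notMem_tsupport h1]
    simp

theorem sol_HP {ν : E n} (hν : ‖ν‖ = 1) {D G : Set (E n)} (hD : Disjoint D G) (q : E n → ℂ)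
    (φ : solV ν D) : HP ν G ((Hs ν).indicator φ.1)
      fun x => solG ν D q φ x + q x * (Hs ν).indicator φ.1 x := by
  have e : (fun x => solG ν D q φ x + q x * (Hs ν).indicator φ.1 x) =
      (Hs ν).indicator (Δ φ.1) := by
    ext x
    by_cases hx : x ∈ Hs ν
    · simp [solG_apply, indicator_of_mem hx]
    · simp [solG_apply, indicator_of_notMem hx]
  rw [e]
  exact HP_of_test hν φ.2.1 φ.2.2.1 (hD.mono_left φ.2.2.2)

theorem sol (hn : 3 ≤ n) {ν a b : E n} (hν : ‖ν‖ = 1) (h : ON a b) {k : ℕ} (hk : 4 ≤ k)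
    {ρ C Λ r A : ℝ} (hρ : 0 < ρ) (hC : 0 < C) (hΛ : 0 < Λ) (hr : 30 * ρ ≤ r) {q : E n → ℂ}
    (hq : Dec A q) (hest : ∀ w G : E n → ℂ, Measurable G →
      HP ν (ball 0 (30 * ρ)) w (fun x => G x + q x * w x) → Q (aW k ρ) w ≤ Q (bW k ρ C Λ) G) :
    ∃ U : E n → ℂ, Measurable U ∧
      Q (fun x => (bW k ρ C Λ x)⁻¹) U ≤
        Q (fun x => (aW k ρ x)⁻¹) (fun x => Δ (cb ν a b k ρ) x - q x * cb ν a b k ρ x) ∧
      Adm ν {x | r < ‖x‖} q ((Hs ν).indicator fun x => cb ν a b k ρ x - U x) := by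
  set f : E n → ℂ := fun x => Δ (cb ν a b k ρ) x - q x * cb ν a b k ρ x with hf
  set D : Set (E n) := {x | r < ‖x‖} with hD
  have hcb := contDiff_cb ν a b k hρ
  have hfm : Measurable f :=
    (contDiff_lap hcb).continuous.measurable.sub (hq.1.mul hcb.continuous.measurable)
  have hff : Q (fun x => (aW k ρ x)⁻¹) f ≠ ⊤ := by
    obtain ⟨c, -, hc⟩ := fb hn hν h (k := k) (by omega)
    exact ne_top_of_le_ne_top ENNReal.ofReal_ne_top (hc A ρ q hρ hq)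
  obtain ⟨c, hc⟩ := bW_le hn hk hρ hC.le hΛ.le
  have hb0 := bW_pos (n := n) k hρ hC hΛ
  have hc0 : 0 ≤ c := (hb0 0).le.trans (hc 0)
  have hdis : Disjoint D (ball 0 (30 * ρ)) := by
    rw [Set.disjoint_left]
    intro x hx hx'
    rw [mem_ball_zero_iff] at hx'
    have : r < ‖x‖ := hx
    linarith
  have hGm := solG_meas ν D hq.1
  have hHP := sol_HP hν hdis q
  have hfin : ∀ φ, Q (bW k ρ C Λ) (solG ν D q φ) ≠ ⊤ := fun φ => solG_fin ν D hq φ hc0 hc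
  have hle : ∀ φ : solV ν D, Q (aW k ρ) ((Hs ν).indicator φ.1) ≤ Q (bW k ρ C Λ) (solG ν D q φ) :=
    fun φ => hest _ _ (hGm φ) (hHP φ)
  have hint : ∀ φ : solV ν D, Integrable fun x => f x * (Hs ν).indicator φ.1 x := fun φ =>
    cs_integrable (measurable_aW k ρ) (aW_pos k hρ) hfm (hHP φ).l2w.1 hff
      (ne_top_of_le_ne_top (hfin φ) (hle φ))
  let l : solV ν D →ₗ[ℂ] ℂ :=
    { toFun := fun φ => ∫ x, f x * (Hs ν).indicator φ.1 x
      map_add' := fun φ ψ => by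
        rw [← integral_add (hint φ) (hint ψ)]
        congr 1
        ext x
        rw [Submodule.coe_add, indicator_add', Pi.add_apply, mul_add]
      map_smul' := fun t φ => by
        rw [RingHom.id_apply, smul_eq_mul, ← integral_const_mul]
        congr 1
        ext x
        by_cases hx : x ∈ Hs ν
        · simp only [indicator_of_mem hx, Submodule.coe_smul, Pi.smul_apply, smul_eq_mul]
          ring
        · simp [indicator_of_notMem hx] }
  obtain ⟨U, hU, hUQ, hUl⟩ := dual (solG ν D q) l (measurable_bW k ρ C Λ) hb0 hGm hfin hff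
    fun φ => (cs_enorm (measurable_aW k ρ) (aW_pos k hρ) hfm (hHP φ).l2w.1).trans
      (mul_le_mul_right (hle φ) _)
  have hUf : Q (fun x => (bW k ρ C Λ x)⁻¹) U ≠ ⊤ := ne_top_of_le_ne_top hff hUQ
  have hU2 : WL2 U := by
    refine ⟨hU, ne_top_of_le_ne_top ?_
      (Q_mono_left (a' := fun x => c * (bW k ρ C Λ x)⁻¹) U fun x => ?_)⟩
    · rw [Q_const_mul hc0]
      exact ENNReal.mul_ne_top ENNReal.ofReal_ne_top hUf
    · refine (wt_le_one x).trans ?_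
      rw [← div_eq_mul_inv, one_le_div (hb0 x)]
      exact hc x
  refine ⟨U, hU, hUQ, ((wl2_cb hn hν h hk hρ).sub hU2).indicator (isOpen_Hs ν).measurableSet,
    fun x hx => indicator_of_notMem hx _, fun φ h1 h2 h3 => ?_⟩
  let v : solV ν D := ⟨φ, h1, h2, h3⟩
  have i1 : Integrable fun x => U x * solG ν D q v x :=
    cs_integrable (measurable_bW k ρ C Λ) hb0 hU (hGm v) hUf (hfin v)
  have i2 : Integrable fun x => cb ν a b k ρ x * solG ν D q v x :=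
    cs_integrable continuous_wt.measurable wt_pos hcb.continuous.measurable (hGm v)
      (Q_cb_ne_top hn hν h hk hρ) (solG_fin ν D hq v zero_le_one wt_le_one)
  have e := test_idq hn hν h hk hρ hq (hHP v)
  have e2 : ∫ x, U x * solG ν D q v x = ∫ x, f x * (Hs ν).indicator φ x := hUl v
  have e3 : (∫ x, U x * solG ν D q v x) - ∫ x, cb ν a b k ρ x * solG ν D q v x = 0 := by
    rw [e2, e, sub_self]
  rw [← integral_sub i1 i2] at e3
  rw [← e3, pair]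
  congr 1
  ext x
  by_cases hx : x ∈ Hs ν
  · simp only [solG_apply, indicator_of_mem hx, v]
    ring
  · simp [solG_apply, indicator_of_notMem hx]

end Pool.Agent.MP_71da5e_an

end
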