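import Pool.Agent.Mg.F71da5e.G47ba66
import Pool.Agent.Mg.F71da5e.Gdedb55
import Pool.Agent.Mg.F71da5e.G6b7614
import Pool.Agent.Mg.F71da5e.G63ce8a
import Pool.Agent.Mg.F71da5e.G8cdf38

section

namespace Pool.Agent.MP_71da5e_an

open MeasureTheory Metric Set Laplacian Filter Topology
open scoped ContDiff ENNReal RealInnerProductSpace

variable {n : ℕ}

lemma est_pow {ρ r : ℝ} (hρ : 0 < ρ) (h : ρ ≤ r) {N : ℕ} (hN : 4 ≤ N) :
    r ^ 4 / r ^ N ≤ ρ ^ 4 / ρ ^ N := by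
  obtain ⟨j, rfl⟩ := Nat.exists_eq_add_of_le hN
  have hr := hρ.trans_le h
  rw [pow_add, pow_add, div_mul_cancel_left₀ (by positivity), div_mul_cancel_left₀ (by positivity)]
  exact inv_anti₀ (by positivity) (pow_le_pow_left₀ hρ.le h j)

lemma est_abs {a b : E n → ℝ} {w F : E n → ℂ} (h : Q a w ≠ ⊤)
    (h1 : Q a w ≤ Q (fun x => 1 / 2 * b x) F + Q (fun x => 1 / 2 * a x) w) : Q a w ≤ Q b F := by
  rw [Q_const_mul (by norm_num), Q_const_mul (by norm_num)] at h1
  have e : Q a w = ENNReal.ofReal (1 / 2) * Q a w + ENNReal.ofReal (1 / 2) * Q a w := by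
    rw [← add_mul, ← ENNReal.ofReal_add (by norm_num) (by norm_num)]
    norm_num
  nth_rewrite 1 [e] at h1
  exact (ENNReal.mul_le_mul_iff_right (by simp) ENNReal.ofReal_ne_top).1
    ((ENNReal.add_le_add_iff_right (ENNReal.mul_ne_top ENNReal.ofReal_ne_top h)).1 h1)

lemma est_low (k : ℕ) {ρ : ℝ} (hρ : 0 < ρ) {x : E n} (hx : ‖x‖ ≤ 30 * ρ) :
    1 / ρ ^ (2 * k + n + 1) ≤ 901 * 30 ^ (2 * k + n + 1) * aW k ρ x := by
  unfold aW
  split_ifs with h
  · rw [one_div]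
    refine le_mul_of_one_le_left (by positivity) ?_
    linarith [one_le_pow₀ (show (1 : ℝ) ≤ 30 by norm_num) (n := 2 * k + n + 1)]
  · have hr : 0 < ‖x‖ := hρ.trans_le (not_lt.1 h)
    have h1 : 1 / 901 ≤ k ^ 2 * ‖x‖ ^ 2 / (1 + ‖x‖ ^ 2) + ρ ^ 2 / (‖x‖ ^ 2 + ρ ^ 2) := by
      refine le_add_of_nonneg_of_le (by positivity) ?_
      rw [div_le_div_iff₀ (by norm_num) (by positivity)]
      nlinarith
    refine le_trans (le_of_eq ?_) (mul_le_mul_of_nonneg_left (div_le_div₀ (by positivity) h1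
      (by positivity) (pow_le_pow_left₀ hr.le hx _)) (by positivity))
    rw [mul_pow]
    field_simp

lemma est_sh {t : ℝ} (x : E n) : sh 0 0 t x = if ‖x‖ ≤ t then 1 else 0 := by
  simp [sh]

theorem Q_aW_ne_top (hn : 3 ≤ n) {k : ℕ} (hk : 4 ≤ k) {ρ : ℝ} (hρ : 0 < ρ) {w : E n → ℂ}
    (hw : WL2 w) : Q (aW k ρ) w ≠ ⊤ := by
  refine ne_top_of_le_ne_top (b := Q (fun x => (k ^ 2 + 1) * (1 / ρ ^ 2 + 1) ^ 2 *
    (ρ ^ 4 / ρ ^ (2 * k + n + 1)) * wt x) w) ?_ (Q_mono_left w fun x => ?_)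
  · rw [Q_const_mul (by positivity)]
    exact ENNReal.mul_ne_top ENNReal.ofReal_ne_top hw.2
  rw [wt, ← div_eq_mul_inv, le_div_iff₀ (by positivity), aW]
  split_ifs with h
  · have h1 : (1 + ‖x‖ ^ 2) ^ 2 ≤ (1 + ρ ^ 2) ^ 2 := by gcongr
    have e : (1 / ρ ^ 2 + 1) ^ 2 * (ρ ^ 4 / ρ ^ (2 * k + n + 1)) =
        (ρ ^ (2 * k + n + 1))⁻¹ * (1 + ρ ^ 2) ^ 2 := by field_simp
    rw [mul_assoc, e]
    exact (mul_le_mul_of_nonneg_left h1 (by positivity)).trans
      (le_mul_of_one_le_left (by positivity) (by linarith [sq_nonneg (k : ℝ)]))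
  · have h0 := not_lt.1 h
    have hr : 0 < ‖x‖ := hρ.trans_le h0
    have h1 : k ^ 2 * ‖x‖ ^ 2 / (1 + ‖x‖ ^ 2) + ρ ^ 2 / (‖x‖ ^ 2 + ρ ^ 2) ≤ k ^ 2 + 1 := by
      refine add_le_add ?_ ((div_le_one (by positivity)).2 (by linarith [sq_nonneg ‖x‖]))
      rw [div_le_iff₀ (by positivity)]
      nlinarith [sq_nonneg (k : ℝ)]
    have h2 : 1 + ‖x‖ ^ 2 ≤ (1 / ρ ^ 2 + 1) * ‖x‖ ^ 2 := by
      rw [add_mul, one_mul, add_le_add_iff_right, one_div_mul_eq_div, one_le_div (by positivity)]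
      gcongr
    have h3 := est_pow hρ h0 (N := 2 * k + n + 1) (by omega)
    calc _ ≤ (k ^ 2 + 1) / ‖x‖ ^ (2 * k + n + 1) * ((1 / ρ ^ 2 + 1) * ‖x‖ ^ 2) ^ 2 := by gcongr
      _ = (k ^ 2 + 1) * (1 / ρ ^ 2 + 1) ^ 2 * (‖x‖ ^ 4 / ‖x‖ ^ (2 * k + n + 1)) := by ring
      _ ≤ _ := by gcongr

theorem est (hn : 3 ≤ n) {k : ℕ} (hk : 4 ≤ k) : ∃ Λ : ℝ, 1 ≤ Λ ∧ ∀ (ν : E n) (ρ : ℝ)
    (w F : E n → ℂ), ‖ν‖ = 1 → 0 < ρ → 30 * ρ ≤ 1 → HP ν (ball 0 (30 * ρ)) w F →
    Q (aW k ρ) w ≤ Q (bW k ρ 12 Λ) F := by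
  obtain ⟨C, hC, h1⟩ := est_out hn hk
  obtain ⟨D, hD⟩ : ∃ D : ℝ, D = 901 * 30 ^ (2 * k + n + 1) := ⟨_, rfl⟩
  have hD0 : 0 < D := by rw [hD]; positivity
  obtain ⟨C', hC', h2⟩ := three n (ε := 1 / (2 * (C + 1) * D)) (by positivity)
  refine ⟨2 * (12 + C + (C + 1) * C'), by nlinarith, fun ν ρ w F hν hρ hρ1 H => ?_⟩
  have h3 := h1 ν ρ _ w F hν hρ (by linarith) H
  have h4 := h2 ν ρ w F hν hρ H.zw H.zF H.wp
  have hlow := fun x : E n => hD ▸ est_low k hρ (x := x)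
  obtain ⟨P, hP⟩ : ∃ P, P = ρ ^ (2 * k + n + 1) := ⟨_, rfl⟩
  have hP0 : 0 < P := by rw [hP]; positivity
  rw [← hP] at h3 hlow
  have m1 : MeasurableSet {x : E n | ‖x‖ < ρ} := measurableSet_lt (by fun_prop) measurable_const
  have h5 : Q (aW k ρ) w ≤ Q (fun x => if ‖x‖ < ρ then 0 else aW k ρ x) w +
      Q (fun x => 1 / P * sh 0 0 (2 * ρ) x) w := by
    refine Q_le_add (Measurable.ite m1 measurable_const (measurable_aW k ρ)) H.l2w.1 fun x => ?_
    rw [← add_mul, est_sh]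
    refine mul_le_mul_of_nonneg_right ?_ (sq_nonneg _)
    split_ifs with h h' h'
    · rw [aW, if_pos h, ← hP]
      simp
    · linarith
    · exact le_add_of_nonneg_right (by positivity)
    · simp
  rw [Q_const_mul (by positivity)] at h5
  have h6 := (h5.trans (add_le_add_left h3 _)).trans_eq (add_assoc _ _ _)
  rw [← add_mul, ← ENNReal.ofReal_add (by positivity) (by positivity)] at h6
  have h7 := h6.trans (add_le_add_right (mul_le_mul_right h4 _) _)
  rw [mul_add, ← mul_assoc, ← mul_assoc, ← ENNReal.ofReal_mul (by positivity),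
    ← ENNReal.ofReal_mul (by positivity), ← Q_const_mul (by positivity),
    ← Q_const_mul (by positivity), ← Q_const_mul (by positivity), add_comm (Q _ w), ← add_assoc]
    at h7
  have m2 : Measurable fun x : E n =>
      if ‖x‖ < ρ then 0 else 6 * (‖x‖ ^ 4 * (1 + ‖x‖ ^ 2)) / ‖x‖ ^ (2 * k + n + 1) :=
    Measurable.ite m1 measurable_const (by fun_prop)
  have p2 : ∀ x : E n,
      0 ≤ if ‖x‖ < ρ then 0 else 6 * (‖x‖ ^ 4 * (1 + ‖x‖ ^ 2)) / ‖x‖ ^ (2 * k + n + 1) :=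
    fun x => by split_ifs <;> positivity
  have p3 := sh_nonneg (0 : E n) 0
  rw [← Q_add_left m2 H.l2F.1 p2 fun x => mul_nonneg (by positivity) (p3 _ x),
    ← Q_add_left (m2.fun_add ((measurable_sh 0 0 _).const_mul _)) H.l2F.1
      (fun x => add_nonneg (p2 x) (mul_nonneg (by positivity) (p3 _ x)))
      fun x => mul_nonneg (by positivity) (p3 _ x)] at h7
  refine est_abs (Q_aW_ne_top hn hk hρ H.l2w) (h7.trans (add_le_add (Q_mono_left F fun x => ?_)
    (Q_mono_left w fun x => ?_)))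
  · rw [bW, ← hP]
    by_cases h : ‖x‖ ≤ 30 * ρ
    · have b1 : (if ‖x‖ < ρ then 0 else 6 * (‖x‖ ^ 4 * (1 + ‖x‖ ^ 2)) / ‖x‖ ^ (2 * k + n + 1)) ≤
          12 * (ρ ^ 4 / P) := by
        split_ifs with h'
        · positivity
        · have b2 : ‖x‖ ^ 2 ≤ 1 := pow_le_one₀ (norm_nonneg _) (h.trans hρ1)
          have b3 := est_pow hρ (not_lt.1 h') (N := 2 * k + n + 1) (by omega)
          rw [← hP] at b3
          calc _ = 6 * (1 + ‖x‖ ^ 2) * (‖x‖ ^ 4 / ‖x‖ ^ (2 * k + n + 1)) := by ring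
            _ ≤ _ := mul_le_mul (by linarith) b3 (by positivity) (by norm_num)
      have b2 := mul_le_mul_of_nonneg_left (sh_le_one (0 : E n) 0 (2 * ρ) x)
        (show 0 ≤ C * ρ ^ 4 / P by positivity)
      have b3 := mul_le_mul_of_nonneg_left (sh_le_one (0 : E n) 0 (30 * ρ) x)
        (show 0 ≤ (C / P + 1 / P) * (C' * ρ ^ 4) by positivity)
      rw [if_pos h]
      refine (add_le_add (add_le_add b1 b2) b3).trans_eq ?_
      ring
    · rw [est_sh, est_sh, if_neg h, if_neg h, if_neg (by linarith [not_le.1 h]),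
        if_neg (by linarith [not_le.1 h])]
      apply le_of_eq
      ring
  · rw [est_sh]
    split_ifs with h
    · refine le_trans (le_of_eq ?_) ((mul_le_mul_of_nonneg_left (hlow x h)
        (show 0 ≤ 1 / (2 * D) by positivity)).trans_eq ?_)
      · field_simp
      · field_simp
    · rw [mul_zero]
      exact mul_nonneg (by norm_num) (aW_pos k hρ x).le

theorem estQ (hn : 3 ≤ n) (A : ℝ) : ∃ k₀ : ℕ, 4 ≤ k₀ ∧ ∀ k, k₀ ≤ k → ∃ Λ ρ₀ : ℝ, 1 ≤ Λ ∧
    0 < ρ₀ ∧ 30 * ρ₀ ≤ 1 ∧ ∀ (ν : E n) (ρ : ℝ) (q w G : E n → ℂ), ‖ν‖ = 1 → 0 < ρ → ρ ≤ ρ₀ →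
    Dec A q → Measurable G → HP ν (ball 0 (30 * ρ)) w (fun x => G x + q x * w x) →
    Q (aW k ρ) w ≤ Q (bW k ρ 48 Λ) G := by
  refine ⟨4 + ⌈7 * A⌉₊, by omega, fun k hk => ?_⟩
  have hk4 : 4 ≤ k := by omega
  have hkA : 7 * A ≤ k := (Nat.le_ceil _).trans (by exact_mod_cast (by omega))
  obtain ⟨Λ, hΛ, h1⟩ := est hn hk4
  obtain ⟨D, hD⟩ : ∃ D : ℝ, D = 901 * 30 ^ (2 * k + n + 1) := ⟨_, rfl⟩
  have hD0 : 0 < D := by rw [hD]; positivity
  have hΛ0 : 0 < Λ := by linarith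
  refine ⟨4 * Λ, min (1 / 30) (1 / (4 * Λ * A ^ 2 * D + 1)), by linarith,
    lt_min (by norm_num) (by positivity),
    by linarith [min_le_left (1 / 30) (1 / (4 * Λ * A ^ 2 * D + 1))],
    fun ν ρ q w G hν hρ hρ0 hq hG H => ?_⟩
  have hρ1 : 30 * ρ ≤ 1 := by linarith [hρ0.trans (min_le_left _ _)]
  have hρ2 := (le_div_iff₀ (by positivity)).1 (hρ0.trans (min_le_right _ _))
  have hA := hq.nonneg
  refine est_abs (Q_aW_ne_top hn hk4 hρ H.l2w) ((h1 ν ρ w _ hν hρ hρ1 H).trans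
    (Q_le_add ((measurable_bW k ρ _ _).const_mul _) hG fun x => ?_))
  have hb := bW_pos k hρ (C := 12) (by norm_num) hΛ0 x
  have e : 1 / 2 * bW k ρ 48 (4 * Λ) x = 2 * bW k ρ 12 Λ x := by
    unfold bW
    split_ifs <;> ring
  have h2 : 4 * (bW k ρ 12 Λ x * (A * wt x) ^ 2) ≤ aW k ρ x := by
    rw [bW]
    split_ifs with h
    · have b1 := hD ▸ est_low k hρ h
      have b2 : ρ ^ 4 ≤ ρ := pow_le_of_le_one hρ.le (by linarith) (by norm_num)
      have b3 : A * wt x ≤ A := mul_le_of_le_one_right hA (wt_le_one x)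
      have b4 := (wt_pos x).le
      have b5 := (aW_pos k hρ x).le
      calc _ = 4 * Λ * ρ ^ 4 * (A * wt x) ^ 2 * (1 / ρ ^ (2 * k + n + 1)) := by ring
        _ ≤ 4 * Λ * ρ * A ^ 2 * (D * aW k ρ x) := by gcongr
        _ = ρ * (4 * Λ * A ^ 2 * D) * aW k ρ x := by ring
        _ ≤ _ := mul_le_of_le_one_left b5 (by nlinarith)
    · have hr : 0 < ‖x‖ := by linarith [not_le.1 h]
      rw [aW, if_neg (by linarith [not_le.1 h]), div_mul_eq_mul_div, ← mul_div_assoc]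
      refine div_le_div_of_nonneg_right (le_add_of_le_of_nonneg ?_ (by positivity)) (by positivity)
      have b1 : ‖x‖ ^ 2 / (1 + ‖x‖ ^ 2) ^ 2 ≤ 1 :=
        (div_le_one (by positivity)).2 (by nlinarith [sq_nonneg ‖x‖, sq_nonneg (‖x‖ ^ 2)])
      have b2 : 48 * A ^ 2 ≤ (k : ℝ) ^ 2 := by nlinarith
      calc _ = 48 * A ^ 2 * ‖x‖ ^ 2 / (1 + ‖x‖ ^ 2) * (‖x‖ ^ 2 / (1 + ‖x‖ ^ 2) ^ 2) := by
            rw [wt]
            field_simp
            ring
        _ ≤ k ^ 2 * ‖x‖ ^ 2 / (1 + ‖x‖ ^ 2) * 1 := by gcongr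
        _ = _ := mul_one _
  have h3 : ‖G x + q x * w x‖ ≤ ‖G x‖ + A * wt x * ‖w x‖ := (norm_add_le _ _).trans (by
    rw [norm_mul]
    exact add_le_add_right (mul_le_mul_of_nonneg_right (hq.2 x) (norm_nonneg _)) _)
  have h4 : ‖G x + q x * w x‖ ^ 2 ≤ 2 * ‖G x‖ ^ 2 + 2 * ((A * wt x) ^ 2 * ‖w x‖ ^ 2) := by
    nlinarith [pow_le_pow_left₀ (norm_nonneg _) h3 2, sq_nonneg (‖G x‖ - A * wt x * ‖w x‖)]
  rw [e]
  nlinarith [mul_le_mul_of_nonneg_left h4 hb.le, mul_le_mul_of_nonneg_right h2 (sq_nonneg ‖w x‖)]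

end Pool.Agent.MP_71da5e_an

end

section

namespace Pool.Agent.MP_71da5e_an

open MeasureTheory Metric Set Laplacian Filter Topology
open scoped ContDiff ENNReal RealInnerProductSpace

variable {n : ℕ}

lemma asm_ae_ne (hn : 3 ≤ n) : ∀ᵐ x : E n, x ≠ 0 := by
  have : Nonempty (Fin n) := ⟨⟨0, by omega⟩⟩
  exact compl_mem_ae_iff.2 (measure_singleton _)

lemma asm_dec_ind {A : ℝ} {q : E n → ℂ} (h : Dec A q) {s : Set (E n)} (hs : MeasurableSet s) :
    Dec A (s.indicator q) :=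
  ⟨h.1.indicator hs, fun x => (norm_indicator_le_norm_self q x).trans (h.2 x)⟩

lemma asm_integrable (hn : 3 ≤ n) {ν a b : E n} (hν : ‖ν‖ = 1) (h : ON a b) (k : ℕ) {A : ℝ}
    {q : E n → ℂ} (hq : Dec A q) :
    Integrable fun x => q x * (obeam ν a (-b) k x * kbeam ν a b k x) := by
  have h1 := integrable_wt_kap hn h k
  have h2 := integrable_rf hν h1
  refine Integrable.mono' ((h1.add h2).const_mul (2 * A)) ?_ ?_
  · exact (hq.1.mul ((contDiff_obeam ν a (-b) k).continuous.measurable.mul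
      (measurable_kbeam ν a b k))).aestronglyMeasurable
  · filter_upwards [asm_ae_ne hn] with x hx
    have hr : 0 < ‖x‖ ^ (2 * k + n - 2) := pow_pos (norm_pos_iff.2 hx) _
    have h3 := norm_obeam_sq_le hν a b k hx
    have h4 : wt (rf ν x) = wt x := by simp only [wt, norm_rf hν]
    have h5 : ‖obeam ν a (-b) k x * kbeam ν a b k x‖ ≤
        2 * (kap a b k x + kap a b k (rf ν x)) := by
      rw [kbeam, norm_mul, norm_div, norm_obeam_neg, Complex.norm_real, Real.norm_of_nonneg hr.le,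
        ← mul_div_assoc, div_le_iff₀ hr]
      linarith
    rw [norm_mul, Pi.add_apply, h4]
    calc _ ≤ A * wt x * (2 * (kap a b k x + kap a b k (rf ν x))) :=
          mul_le_mul (hq.2 x) h5 (norm_nonneg _) (mul_nonneg hq.nonneg (wt_pos x).le)
      _ = _ := by ring

lemma asm_kelU (hn : 3 ≤ n) {k : ℕ} {ρ C Λ A : ℝ} (hρ : 0 < ρ) (hC : 0 < C) (hΛ : 0 < Λ)
    (hw : ∀ x : E n, x ≠ 0 →
      ‖x‖ ^ 4 * wt x ^ 2 * bW k ρ C Λ x * bW k ρ C Λ (inv 0 1 x) ≤ C ^ 2)
    {q : E n → ℂ} (hq : Dec A q) (U : E n → ℂ) :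
    Q (bW k ρ C Λ) (fun x => q x * kel 0 1 U x) ≤
      ENNReal.ofReal (A ^ 2 * C ^ 2) * Q (fun x => (bW k ρ C Λ x)⁻¹) U := by
  have h1 : Q (bW k ρ C Λ) (fun x => q x * kel 0 1 U x) ≤
      Q (fun x => A ^ 2 * (wt x ^ 2 * bW k ρ C Λ x)) (kel 0 1 U) := by
    refine Q_mono fun x => ?_
    have := pow_le_pow_left₀ (norm_nonneg _) (hq.2 x) 2
    have hb := (bW_pos k hρ hC hΛ x).le
    rw [norm_mul, mul_pow]
    calc _ ≤ bW k ρ C Λ x * ((A * wt x) ^ 2 * ‖kel 0 1 U x‖ ^ 2) := by gcongr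
      _ = _ := by ring
  refine h1.trans ?_
  rw [Q_kel 0 one_pos hn, ← Q_const_mul (by positivity)]
  refine Q_mono_left U fun y => ?_
  have hb := bW_pos k hρ hC hΛ y
  by_cases hy : y = 0
  · subst hy
    simp only [jac, sub_zero, norm_zero, ne_eq, OfNat.ofNat_ne_zero, not_false_eq_true, zero_pow,
      div_zero, zero_mul]
    positivity
  · have h2 := hw _ (inv_ne one_pos hy)
    rw [inv_inv' 0 one_pos, norm_inv_zero] at h2
    have h3 : jac 0 1 y ^ 2 = ‖y‖⁻¹ ^ 4 := by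
      rw [jac, sub_zero]; ring
    rw [h3, ← div_eq_mul_inv, le_div_iff₀ hb]
    calc _ = A ^ 2 * (‖y‖⁻¹ ^ 4 * wt (inv 0 1 y) ^ 2 * bW k ρ C Λ (inv 0 1 y) * bW k ρ C Λ y) := by
          ring
      _ ≤ _ := by gcongr

lemma asm_step (hn : 3 ≤ n) {ν a b : E n} (hν : ‖ν‖ = 1) (h : ON a b) {k : ℕ} (hk : 4 ≤ k)
    {ρ C Λ r A e₁ e₂ : ℝ} (hρ : 0 < ρ) (hC : 0 < C) (hΛ : 0 < Λ) (hr : 30 * ρ ≤ r)
    (he₁ : 0 ≤ e₁) (he₂ : 0 ≤ e₂) {q₁ q₂ : E n → ℂ} (h₁ : Dec A q₁) (h₂ : Dec A q₂)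
    (hest : ∀ q w G : E n → ℂ, Dec A q → Measurable G →
      HP ν (ball 0 (30 * ρ)) w (fun x => G x + q x * w x) → Q (aW k ρ) w ≤ Q (bW k ρ C Λ) G)
    (hw : ∀ x : E n, x ≠ 0 →
      ‖x‖ ^ 4 * wt x ^ 2 * bW k ρ C Λ x * bW k ρ C Λ (inv 0 1 x) ≤ C ^ 2)
    (hf : ∀ b' q, b' = b ∨ b' = -b → Dec A q → Q (fun x => (aW k ρ x)⁻¹)
      (fun x => Δ (cb ν a b' k ρ) x - q x * cb ν a b' k ρ x) ≤ ENNReal.ofReal e₁)
    (hp : ∀ b' (q χ : E n → ℂ), b' = b ∨ b' = -b → Dec (2 * A) q → (∀ x, ‖χ x‖ ≤ 1) →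
      Q (bW k ρ C Λ) (fun x => q x * (χ x * obeam ν a b' k x)) ≤ ENNReal.ofReal e₂)
    (hyp : Hyp ν {x | r < ‖x‖ ∧ ‖x‖ < r⁻¹} (ball 0 r) q₁ q₂) :
    ‖∫ x, ((chi ρ x * chi ρ (inv 0 1 x) : ℝ) : ℂ) * ((Hs ν).indicator (fun y => q₁ y - q₂ y) x *
        (obeam ν a (-b) k x * kbeam ν a b k x))‖ ≤
      √e₁ * √(2 * e₂ + 2 * ((2 * A) ^ 2 * C ^ 2 * e₁)) + √e₁ * √e₂ := by
  have hr0 : 0 < r := by linarith
  have hH := (isOpen_Hs ν).measurableSet
  have hq := asm_dec_ind (h₁.sub h₂) hH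
  set q := (Hs ν).indicator fun y => q₁ y - q₂ y with hqd
  obtain ⟨U, hUm, hU, hadm⟩ := sol hn hν h.neg hk hρ hC hΛ hr h₁.kq fun w G => hest _ w G h₁.kq
  replace hU := hU.trans (hf _ _ (Or.inr rfl) h₁.kq)
  have hu := hadm.kel hn hr0
  obtain ⟨w, hw'⟩ := hyp _ hu
  set u := kel 0 1 ((Hs ν).indicator fun x => cb ν a (-b) k ρ x - U x) with hud
  have hgm : Measurable fun x => (q₁ x - q₂ x) * u x := (h₁.1.sub h₂.1).mul hu.l2.1
  have hQw := hest q₂ w _ h₂ hgm (hw'.mono (ball_subset_ball hr))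
  have hid := test_idq hn hν h hk hρ h₂ hw'
  have hχ : ∀ x : E n, ‖((chi ρ (inv 0 1 x) : ℝ) : ℂ)‖ ≤ 1 := fun x => by
    rw [Complex.norm_real, Real.norm_of_nonneg (chi_nonneg _ _)]
    exact chi_le_one _ _
  have hg : ∀ x, x ≠ 0 → (q₁ x - q₂ x) * u x =
      q x * (chi ρ (inv 0 1 x) * obeam ν a (-b) k x) - q x * kel 0 1 U x := by
    intro x hx
    have hx' : inv 0 1 x ∈ Hs ν ↔ x ∈ Hs ν := by
      have : 0 < ‖x‖ ^ 2 := pow_pos (norm_pos_iff.2 hx) 2
      simp only [Hs, mem_ofPred_eq, inner_inv_zero, div_pos_iff_of_pos_right this]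
    rw [← kel_cb hn ν a (-b) k ρ hx, hud, hqd]
    by_cases hxH : x ∈ Hs ν
    · simp only [kel, indicator_of_mem hxH, indicator_of_mem (hx'.2 hxH)]
      ring
    · simp only [kel, indicator_of_notMem hxH, indicator_of_notMem (mt hx'.1 hxH)]
      ring
  have hbm := measurable_bW (n := n) k ρ C Λ
  have hχm : Measurable fun x : E n => ((chi ρ (inv 0 1 x) : ℝ) : ℂ) :=
    Complex.measurable_ofReal.comp
      ((contDiff_chi ρ).continuous.measurable.comp (measurable_inv' 0 1))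
  have hom : ∀ b', Measurable (obeam ν a b' k) := fun b' =>
    (contDiff_obeam ν a b' k).continuous.measurable
  have hQg : Q (bW k ρ C Λ) (fun x => (q₁ x - q₂ x) * u x) ≤
      ENNReal.ofReal (2 * e₂ + 2 * ((2 * A) ^ 2 * C ^ 2 * e₁)) := by
    rw [Q_congr ((asm_ae_ne hn).mono hg)]
    refine (Q_le_add (a₁ := fun x => 2 * bW k ρ C Λ x) (a₂ := fun x => 2 * bW k ρ C Λ x)
      (w₁ := fun x => q x * (chi ρ (inv 0 1 x) * obeam ν a (-b) k x))
      (w₂ := fun x => q x * kel 0 1 U x) (hbm.const_mul 2) (hq.1.mul (hχm.mul (hom _)))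
      fun x => ?_).trans ?_
    · have hb := (bW_pos k hρ hC hΛ x).le
      generalize q x * (chi ρ (inv 0 1 x) * obeam ν a (-b) k x) = s
      generalize q x * kel 0 1 U x = t
      have h1 : ‖s - t‖ ^ 2 ≤ 2 * ‖s‖ ^ 2 + 2 * ‖t‖ ^ 2 := by
        have := pow_le_pow_left₀ (norm_nonneg _) (norm_sub_le s t) 2
        nlinarith [sq_nonneg (‖s‖ - ‖t‖)]
      nlinarith [mul_le_mul_of_nonneg_left h1 hb]
    · rw [Q_const_mul zero_le_two, Q_const_mul zero_le_two,
        ENNReal.ofReal_add (by positivity) (by positivity), ENNReal.ofReal_mul zero_le_two,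
        ENNReal.ofReal_mul zero_le_two, ENNReal.ofReal_mul (by positivity)]
      gcongr
      · exact hp _ _ _ (Or.inr rfl) hq hχ
      · exact (asm_kelU hn hρ hC hΛ hw hq U).trans (by gcongr)
  have hcb := contDiff_cb ν a b k hρ
  have h3 : ‖∫ x, cb ν a b k ρ x * ((q₁ x - q₂ x) * u x)‖ ≤
      √e₁ * √(2 * e₂ + 2 * ((2 * A) ^ 2 * C ^ 2 * e₁)) := by
    rw [hid]
    exact cs_real (measurable_aW k ρ) (aW_pos k hρ)
      ((contDiff_lap hcb).continuous.measurable.sub (h₂.1.mul hcb.continuous.measurable))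
      hw'.l2w.1 he₁ (by positivity) (hf _ _ (Or.inl rfl) h₂) (hQw.trans hQg)
  have h4 : ‖∫ x, kel 0 1 U x * (q x * cb ν a b k ρ x)‖ ≤ √e₁ * √e₂ := by
    rw [integral_kel_mul 0 one_pos hn]
    refine cs_real hbm (bW_pos k hρ hC hΛ) hUm
      (hq.kq.1.mul (measurable_kel 0 1 hcb.continuous.measurable)) he₁ he₂ hU ?_
    rw [Q_congr (w' := fun x => kq 0 1 q x * (chi ρ (inv 0 1 x) * obeam ν a b k x))
      ((asm_ae_ne hn).mono fun x hx => by simp only [Pi.mul_apply, kel_cb hn ν a b k ρ hx])]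
    exact hp _ _ _ (Or.inl rfl) hq.kq hχ
  have i1 : Integrable fun x => cb ν a b k ρ x * ((q₁ x - q₂ x) * u x) :=
    cs_integrable continuous_wt.measurable wt_pos hcb.continuous.measurable hgm
      (Q_cb_ne_top hn hν h hk hρ) (hu.l2.dec (h₁.sub h₂)).2
  have i2 : Integrable fun x => ((chi ρ x * chi ρ (inv 0 1 x) : ℝ) : ℂ) *
      (q x * (obeam ν a (-b) k x * kbeam ν a b k x)) := by
    refine (asm_integrable hn hν h k hq).bdd_mul (c := 1) ?_ (ae_of_all _ fun x => ?_)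
    · exact (Complex.measurable_ofReal.comp ((contDiff_chi ρ).continuous.measurable.mul
        ((contDiff_chi ρ).continuous.measurable.comp (measurable_inv' 0 1)))).aestronglyMeasurable
    · rw [Complex.norm_real, Real.norm_of_nonneg (mul_nonneg (chi_nonneg _ _) (chi_nonneg _ _))]
      exact mul_le_one₀ (chi_le_one _ _) (chi_nonneg _ _) (chi_le_one _ _)
  have e1 : (fun x => kel 0 1 U x * (q x * cb ν a b k ρ x)) =ᵐ[volume] fun x =>
      ((chi ρ x * chi ρ (inv 0 1 x) : ℝ) : ℂ) * (q x * (obeam ν a (-b) k x * kbeam ν a b k x)) -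
        cb ν a b k ρ x * ((q₁ x - q₂ x) * u x) := by
    filter_upwards [asm_ae_ne hn] with x hx
    rw [hg x hx, cb]
    push_cast
    ring
  rw [integral_congr_ae e1, integral_sub i2 i1] at h4
  exact (norm_le_norm_add_norm_sub' _ _).trans (add_le_add h3 h4)

theorem asm (hn : 3 ≤ n) (A : ℝ) : ∃ (C : ℝ) (k₀ : ℕ), ∀ k, k₀ ≤ k → ∀ (ν a b : E n) (r : ℝ)
    (q₁ q₂ : E n → ℂ), ‖ν‖ = 1 → ON a b → 0 < r → Dec A q₁ → Dec A q₂ →
    Hyp ν {x | r < ‖x‖ ∧ ‖x‖ < r⁻¹} (ball 0 r) q₁ q₂ →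
    ‖∫ x in Hs ν, (q₁ x - q₂ x) * (obeam ν a (-b) k x * kbeam ν a b k x)‖ ≤
      C * mass a b k / k := by
  obtain ⟨k₀, hk₀, hest⟩ := estQ hn A
  obtain ⟨α, hα⟩ : ∃ α, α = 8 * A ^ 2 := ⟨_, rfl⟩
  obtain ⟨β, hβ⟩ : ∃ β, β = 4 * 48 * (2 * A) ^ 2 := ⟨_, rfl⟩
  obtain ⟨γ, hγ⟩ : ∃ γ, γ = (2 * A) ^ 2 * 48 ^ 2 := ⟨_, rfl⟩
  have hα0 : 0 ≤ α := by rw [hα]; positivity
  have hβ0 : 0 ≤ β := by rw [hβ]; positivity
  have hγ0 : 0 ≤ γ := by rw [hγ]; positivity
  refine ⟨√α * √(2 * β + 2 * (γ * α)) + √α * √β, k₀,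
    fun k hk ν a b r q₁ q₂ hν h hr h₁ h₂ hyp => ?_⟩
  obtain ⟨Λ, ρ₀, hΛ, hρ₀, hρ₀', hest⟩ := hest k hk
  have hk4 : 4 ≤ k := hk₀.trans hk
  have hΛ0 : 0 < Λ := by linarith
  obtain ⟨c₁, hc₁, hf₁⟩ := fb hn hν h (k := k) (by omega)
  obtain ⟨c₂, hc₂, hf₂⟩ := fb hn hν h.neg (k := k) (by omega)
  obtain ⟨c₃, hc₃, hp₁⟩ := pb hn hν h k (C := 48) (by norm_num) hΛ0.le (2 * A)
  obtain ⟨c₄, hc₄, hp₂⟩ := pb hn hν h.neg k (C := 48) (by norm_num) hΛ0.le (2 * A)
  obtain ⟨ρ₁, hρ₁, hw⟩ := wb hn k (C := 48) (by norm_num) hΛ0.le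
  rw [mass_neg] at hf₂ hp₂
  have hM := mass_pos hn h k
  set M := mass a b k with hMd
  have hH := (isOpen_Hs ν).measurableSet
  have hq := asm_dec_ind (h₁.sub h₂) hH
  have hI := asm_integrable hn hν h k hq
  have hkR : (1 : ℝ) ≤ k := by exact_mod_cast (by omega)
  have t1 : Tendsto (fun ρ : ℝ => ∫ x, ((chi ρ x * chi ρ (inv 0 1 x) : ℝ) : ℂ) *
      ((Hs ν).indicator (fun y => q₁ y - q₂ y) x * (obeam ν a (-b) k x * kbeam ν a b k x)))
      (𝓝[>] 0) (𝓝 (∫ x, (Hs ν).indicator (fun y => q₁ y - q₂ y) x *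
        (obeam ν a (-b) k x * kbeam ν a b k x))) := by
    refine tendsto_integral_filter_of_dominated_convergence _ (Eventually.of_forall fun ρ => ?_)
      (Eventually.of_forall fun ρ => ae_of_all _ fun x => ?_) hI.norm ?_
    · exact (Complex.measurable_ofReal.comp ((contDiff_chi ρ).continuous.measurable.mul
        ((contDiff_chi ρ).continuous.measurable.comp
          (measurable_inv' 0 1)))).aestronglyMeasurable.mul hI.1
    · rw [norm_mul, Complex.norm_real,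
        Real.norm_of_nonneg (mul_nonneg (chi_nonneg _ _) (chi_nonneg _ _))]
      exact mul_le_of_le_one_left (norm_nonneg _)
        (mul_le_one₀ (chi_le_one _ _) (chi_nonneg _ _) (chi_le_one _ _))
    · filter_upwards [asm_ae_ne hn] with x hx
      refine tendsto_const_nhds.congr' ?_
      have hx1 : 0 < ‖x‖ / 2 := half_pos (norm_pos_iff.2 hx)
      have hx2 : 0 < ‖inv 0 1 x‖ / 2 := half_pos (norm_pos_iff.2 (inv_ne one_pos hx))
      filter_upwards [Ioc_mem_nhdsGT hx1, Ioc_mem_nhdsGT hx2] with ρ h1 h2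
      rw [chi_eq_one h1.1 (by linarith [h1.2]), chi_eq_one h1.1 (by linarith [h2.2])]
      simp
  have t2 : Tendsto (fun ρ : ℝ => √(α * M / k ^ 2 + (c₁ + c₂) * ρ) *
      √(2 * (β * M + (c₃ + c₄) * ρ) + 2 * (γ * (α * M / k ^ 2 + (c₁ + c₂) * ρ))) +
      √(α * M / k ^ 2 + (c₁ + c₂) * ρ) * √(β * M + (c₃ + c₄) * ρ)) (𝓝[>] 0)
      (𝓝 (√(α * M / k ^ 2) * √(2 * (β * M) + 2 * (γ * (α * M / k ^ 2))) +
        √(α * M / k ^ 2) * √(β * M))) := by
    refine Tendsto.mono_left ?_ nhdsWithin_le_nhds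
    refine Continuous.tendsto' (by fun_prop) _ _ ?_
    simp
  have t3 := le_of_tendsto_of_tendsto t1.norm t2 (by
    filter_upwards [Ioc_mem_nhdsGT hρ₀, Ioc_mem_nhdsGT hρ₁,
      Ioc_mem_nhdsGT (show 0 < r / 30 by positivity)] with ρ h1 h2 h3
    have hρ := h1.1
    have hρ1 : ρ ≤ 1 := by linarith [h1.2]
    rw [hγ]
    refine asm_step hn hν h hk4 hρ (by norm_num) hΛ0 (by linarith [h3.2]) (by positivity)
      (by positivity) h₁ h₂ (fun q w G hq hG hw => hest ν ρ q w G hν hρ h1.2 hq hG hw)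
      (hw ρ hρ h2.2) ?_ ?_ hyp
    · rintro b' q (rfl | rfl) hq
      · exact (hf₁ A ρ q hρ hq).trans (ENNReal.ofReal_le_ofReal (by rw [hα]; nlinarith))
      · exact (hf₂ A ρ q hρ hq).trans (ENNReal.ofReal_le_ofReal (by rw [hα]; nlinarith))
    · rintro b' q χ (rfl | rfl) hq hχ
      · exact (hp₁ ρ q χ hρ hρ1 hq hχ).trans (ENNReal.ofReal_le_ofReal (by rw [hβ]; nlinarith))
      · exact (hp₂ ρ q χ hρ hρ1 hq hχ).trans (ENNReal.ofReal_le_ofReal (by rw [hβ]; nlinarith)))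
  rw [← integral_indicator hH]
  have e1 : ((Hs ν).indicator fun x => (q₁ x - q₂ x) * (obeam ν a (-b) k x * kbeam ν a b k x)) =
      fun x => (Hs ν).indicator (fun y => q₁ y - q₂ y) x *
        (obeam ν a (-b) k x * kbeam ν a b k x) := by
    funext x
    by_cases hx : x ∈ Hs ν <;> simp [hx]
  rw [e1]
  refine t3.trans ?_
  have hk0 : (0 : ℝ) < k := by linarith
  have s1 : √(α * M / k ^ 2) = √α * √M / k := by
    rw [Real.sqrt_div' _ (by positivity), Real.sqrt_sq hk0.le, Real.sqrt_mul hα0]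
  have s2 : √(2 * (β * M) + 2 * (γ * (α * M / k ^ 2))) ≤ √(2 * β + 2 * (γ * α)) * √M := by
    rw [← Real.sqrt_mul (by positivity)]
    refine Real.sqrt_le_sqrt ?_
    have : α * M / k ^ 2 ≤ α * M := div_le_self (by positivity) (one_le_pow₀ hkR)
    nlinarith [mul_le_mul_of_nonneg_left this hγ0]
  have s3 : √M * √M = M := Real.mul_self_sqrt hM.le
  rw [s1, Real.sqrt_mul hβ0]
  calc _ ≤ √α * √M / k * (√(2 * β + 2 * (γ * α)) * √M) + √α * √M / k * (√β * √M) := by gcongr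
    _ = (√α * √(2 * β + 2 * (γ * α)) + √α * √β) * (√M * √M) / k := by ring
    _ = _ := by rw [s3]

end Pool.Agent.MP_71da5e_an

end

section

namespace Pool.Agent.MP_71da5e_an

open MeasureTheory Metric Set Laplacian Filter Topology
open scoped ContDiff ENNReal RealInnerProductSpace

variable {n : ℕ}

section Abstract

variable {W : Type*} [NormedAddCommGroup W] [MeasurableSpace W] [BorelSpace W]

lemma peak_abs (μ : Measure W) [IsFiniteMeasure μ] (hμ : ∀ δ, 0 < δ → 0 < μ.real (ball 0 δ))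
    {Φ : W → ℂ} (hΦ : Integrable Φ μ) (hc : ContinuousAt Φ 0) :
    (∀ k : ℕ, 0 < ∫ z, (1 + ‖z‖ ^ 2)⁻¹ ^ k ∂μ) ∧
    Tendsto (fun k : ℕ => ∫ z, ((1 + ‖z‖ ^ 2)⁻¹ ^ k / ∫ z, (1 + ‖z‖ ^ 2)⁻¹ ^ k ∂μ) • Φ z ∂μ) atTop
      (𝓝 (Φ 0)) := by
  have hm : ∀ k : ℕ, Continuous fun z : W => (1 + ‖z‖ ^ 2)⁻¹ ^ k := fun k =>
    (Continuous.inv₀ (by fun_prop) fun z => by positivity).pow k
  have hi : ∀ k : ℕ, Integrable (fun z : W => (1 + ‖z‖ ^ 2)⁻¹ ^ k) μ := fun k =>
    Integrable.of_bound (hm k).measurable.aestronglyMeasurable 1 (Eventually.of_forall fun z => by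
      rw [Real.norm_of_nonneg (by positivity)]
      exact pow_le_one₀ (by positivity) (inv_le_one_of_one_le₀ (by nlinarith [sq_nonneg ‖z‖])))
  have hl : ∀ (k : ℕ) (δ : ℝ), 0 < δ →
      μ.real (ball 0 δ) * (1 + δ ^ 2)⁻¹ ^ k ≤ ∫ z, (1 + ‖z‖ ^ 2)⁻¹ ^ k ∂μ := by
    intro k δ hδ
    refine le_trans ?_ (setIntegral_le_integral (s := ball 0 δ) (hi k)
      (Eventually.of_forall fun z => by positivity))
    rw [← smul_eq_mul, ← setIntegral_const]
    refine setIntegral_mono_on (integrable_const _).integrableOn (hi k).integrableOn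
      measurableSet_ball fun z hz => ?_
    have h1 := mem_ball_zero_iff.1 hz
    gcongr
  have hp : ∀ k : ℕ, 0 < ∫ z, (1 + ‖z‖ ^ 2)⁻¹ ^ k ∂μ := fun k =>
    lt_of_lt_of_le (mul_pos (hμ 1 one_pos) (by positivity)) (hl k 1 one_pos)
  refine ⟨hp, tendsto_integral_peak_smul_of_integrable_of_tendsto MeasurableSet.univ univ_mem
    (measure_ne_top _ _) (Eventually.of_forall fun k z => div_nonneg (by positivity) (hp k).le)
    (fun u hu h0 => ?_) ?_
    (Eventually.of_forall fun k => ((hm k).div_const _).measurable.aestronglyMeasurable) hΦ hc⟩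
  · obtain ⟨δ, hδ, hδu⟩ := Metric.isOpen_iff.1 hu 0 h0
    have h1 := hμ (δ / 2) (half_pos hδ)
    have h2 : Tendsto (fun k : ℕ => ((1 + (δ / 2) ^ 2) / (1 + δ ^ 2)) ^ k /
        μ.real (ball 0 (δ / 2))) atTop (𝓝 (0 / μ.real (ball 0 (δ / 2)))) :=
      (tendsto_pow_atTop_nhds_zero_of_lt_one (by positivity)
        ((div_lt_one (by positivity)).2 (by nlinarith))).div_const _
    rw [zero_div] at h2
    refine Metric.tendstoUniformlyOn_iff.2 fun ε hε => ?_
    filter_upwards [h2.eventually (gt_mem_nhds hε)] with k hk z hz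
    have h3 : δ ≤ ‖z‖ := not_lt.1 fun h => hz (hδu (mem_ball_zero_iff.2 h))
    rw [Pi.zero_apply, dist_zero_left,
      Real.norm_of_nonneg (div_nonneg (by positivity) (hp k).le)]
    refine lt_of_le_of_lt ?_ hk
    calc _ ≤ (1 + δ ^ 2)⁻¹ ^ k / (μ.real (ball 0 (δ / 2)) * (1 + (δ / 2) ^ 2)⁻¹ ^ k) := by
          gcongr
          exact hl k _ (half_pos hδ)
      _ = _ := by
          have h4 : 0 < (1 + (δ / 2) ^ 2) ^ k := by positivity
          have h5 : 0 < (1 + δ ^ 2) ^ k := by positivity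
          rw [div_pow (1 + (δ / 2) ^ 2), inv_pow, inv_pow]
          generalize (1 + (δ / 2) ^ 2) ^ k = s at *
          generalize (1 + δ ^ 2) ^ k = t at *
          field_simp
  · simp only [Measure.restrict_univ, integral_div, div_self (hp _).ne', tendsto_const_nhds]

end Abstract

/-- The orthogonal complement of the plane. -/
noncomputable def peakW (a b : E n) : Submodule ℝ (E n) :=
  LinearMap.ker ((innerSL ℝ a).prod (innerSL ℝ b) : E n →ₗ[ℝ] ℝ × ℝ)

lemma peak_mem {a b z : E n} : z ∈ peakW a b ↔ ⟪a, z⟫ = 0 ∧ ⟪b, z⟫ = 0 := by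
  simp [peakW]

lemma peak_inner {a b : E n} (h : ON a b) (p : ℝ × ℝ) (z : peakW a b) :
    ⟪p.1 • a + p.2 • b + z, a⟫ = p.1 ∧ ⟪p.1 • a + p.2 • b + z, b⟫ = p.2 ∧
      ‖p.1 • a + p.2 • b + z‖ ^ 2 = p.1 ^ 2 + p.2 ^ 2 + ‖z‖ ^ 2 := by
  obtain ⟨h1, h2, h3⟩ := h
  obtain ⟨h4, h5⟩ := peak_mem.1 z.2
  have h6 : ⟪b, a⟫ = 0 := by rwa [real_inner_comm]
  have h7 : ⟪(z : E n), a⟫ = 0 := by rwa [real_inner_comm]
  have h8 : ⟪(z : E n), b⟫ = 0 := by rwa [real_inner_comm]
  refine ⟨?_, ?_, ?_⟩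
  · simp [inner_add_left, inner_smul_left, h1, h6, h7]
  · simp [inner_add_left, inner_smul_left, h2, h3, h8]
  · rw [← real_inner_self_eq_norm_sq]
    simp only [inner_add_left, inner_add_right, real_inner_smul_left, real_inner_smul_right,
      real_inner_self_eq_norm_sq, h1, h2, h3, h4, h5, h6, h7, h8, Submodule.coe_norm, norm_smul,
      Real.norm_eq_abs, mul_one, sq_abs]
    ring

lemma peak_equiv {a b : E n} (h : ON a b) : ∃ L : ((ℝ × ℝ) × peakW a b) ≃L[ℝ] E n,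
    ∀ q, L q = q.1.1 • a + q.1.2 • b + q.2 := by
  let T : ((ℝ × ℝ) × peakW a b) →ₗ[ℝ] E n :=
    ((LinearMap.toSpanSingleton ℝ _ a).coprod (LinearMap.toSpanSingleton ℝ _ b)).coprod
      (peakW a b).subtype
  have hT : ∀ q, T q = q.1.1 • a + q.1.2 • b + q.2 := fun q => rfl
  have h1 : Function.Injective T := by
    refine (injective_iff_map_eq_zero T).2 fun q hq => ?_
    obtain ⟨h2, h3, h4⟩ := peak_inner h q.1 q.2
    rw [← hT, hq] at h2 h3 h4
    rw [inner_zero_left] at h2 h3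
    rw [← h2, ← h3] at h4
    exact Prod.ext (Prod.ext h2.symm h3.symm) (by simpa using h4.symm)
  have h2 : Function.Surjective T := by
    intro x
    obtain ⟨h1, h2, h3⟩ := h
    have h6 : ⟪b, a⟫ = 0 := by rwa [real_inner_comm]
    refine ⟨((⟪a, x⟫, ⟪b, x⟫), ⟨x - ⟪a, x⟫ • a - ⟪b, x⟫ • b, peak_mem.2 ⟨?_, ?_⟩⟩), ?_⟩
    · simp [inner_sub_right, inner_smul_right, h1, h3]
    · simp [inner_sub_right, inner_smul_right, h2, h6]
    · rw [hT]
      simp only
      abel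
  exact ⟨(LinearEquiv.ofBijective T ⟨h1, h2⟩).toContinuousLinearEquiv, hT⟩

lemma peak_rank {a b : E n} (h : ON a b) : Module.finrank ℝ (peakW a b) + 2 = n := by
  obtain ⟨L, -⟩ := peak_equiv h
  have := L.toLinearEquiv.finrank_eq
  simp only [Module.finrank_prod, Module.finrank_self, finrank_euclideanSpace,
    Fintype.card_fin] at this
  omega

lemma peak_coord {a b : E n} (h : ON a b) : ∃ c : ℝ, 0 < c ∧ ∀ F : E n → ℂ, Integrable F →
    ∫ p : ℝ × ℝ, ∫ z : peakW a b, F (p.1 • a + p.2 • b + z) = c * ∫ x, F x := by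
  obtain ⟨L, hL⟩ := peak_equiv h
  have : ((volume : Measure (ℝ × ℝ)).prod (volume : Measure (peakW a b))).IsAddHaarMeasure :=
    Measure.prod.instIsAddHaarMeasure _ _
  have := L.isAddHaarMeasure_map ((volume : Measure (ℝ × ℝ)).prod (volume : Measure (peakW a b)))
  have h1 := Measure.isAddLeftInvariant_eq_smul
    (((volume : Measure (ℝ × ℝ)).prod (volume : Measure (peakW a b))).map L) volume
  refine ⟨_, NNReal.coe_pos.2 (Measure.addHaarScalarFactor_pos_of_isAddHaarMeasure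
    (((volume : Measure (ℝ × ℝ)).prod (volume : Measure (peakW a b))).map L) volume),
    fun F hF => ?_⟩
  have h2 := L.toHomeomorph.measurableEmbedding
  have h3 : Integrable (F ∘ L) ((volume : Measure (ℝ × ℝ)).prod volume) := by
    refine h2.integrable_map_iff.1 ?_
    change Integrable F (Measure.map L _)
    rw [h1]
    exact hF.smul_measure_nnreal
  have h4 := h2.integral_map (μ := (volume : Measure (ℝ × ℝ)).prod volume) F
  change ∫ y, F y ∂(Measure.map L _) = ∫ x, F (L x) ∂_ at h4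
  rw [h1, integral_smul_nnreal_measure] at h4
  rw [← Complex.real_smul, ← NNReal.smul_def, h4]
  simpa only [Function.comp, hL] using (integral_prod _ h3).symm

/-- The weight on the orthogonal complement. -/
noncomputable def peakG (a b : E n) (z : peakW a b) : ℝ := (√(1 + ‖z‖ ^ 2) ^ n)⁻¹

/-- The integral over a cone. -/
noncomputable def peakP (a b : E n) (f : E n → ℂ) (z : peakW a b) : ℂ :=
  ∫ p : ℝ × ℝ, f (p.1 • a + p.2 • b + (√(p.1 ^ 2 + p.2 ^ 2) • z : peakW a b))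

lemma peak_G_pos (a b : E n) (z : peakW a b) : 0 < peakG a b z := by unfold peakG; positivity

lemma peak_G_meas (a b : E n) : Measurable (peakG a b) := by unfold peakG; fun_prop

lemma peak_G_int {a b : E n} (h : ON a b) : Integrable (peakG a b) := by
  have h1 : (Module.finrank ℝ (peakW a b) : ℝ) < n := by
    have := peak_rank h
    exact_mod_cast (by omega)
  refine (integrable_rpow_neg_one_add_norm_sq h1).congr (Eventually.of_forall fun z => ?_)
  simp only [peakG]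
  rw [Real.sqrt_eq_rpow, ← Real.rpow_mul_natCast (by positivity), ← Real.rpow_neg (by positivity)]
  congr 1
  ring

lemma peak_int2 : Integrable fun p : ℝ × ℝ => ((1 + (p.1 ^ 2 + p.2 ^ 2)) ^ 2)⁻¹ := by
  refine (integrable_inv_one_add_sq.mul_prod integrable_inv_one_add_sq).mono'
    (Measurable.aestronglyMeasurable (by fun_prop)) (Eventually.of_forall fun p => ?_)
  rw [Real.norm_of_nonneg (by positivity), ← mul_inv, sq (1 + _)]
  gcongr <;> nlinarith [sq_nonneg p.1, sq_nonneg p.2]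

lemma peak_bd {a b : E n} (h : ON a b) {A : ℝ} {f : E n → ℂ} (hf : Dec A f) (p : ℝ × ℝ)
    (z : peakW a b) : ‖f (p.1 • a + p.2 • b + z)‖ ≤ A * ((1 + (p.1 ^ 2 + p.2 ^ 2)) ^ 2)⁻¹ := by
  refine (hf.2 _).trans (mul_le_mul_of_nonneg_left ?_ hf.nonneg)
  rw [wt, (peak_inner h p z).2.2]
  gcongr ((1 + ?_) ^ 2)⁻¹
  nlinarith [sq_nonneg ‖z‖]

lemma peak_meas (a b : E n) {f : E n → ℂ} (hf : Measurable f) :
    Measurable fun q : (ℝ × ℝ) × peakW a b =>
      f (q.1.1 • a + q.1.2 • b + (√(q.1.1 ^ 2 + q.1.2 ^ 2) • q.2 : peakW a b)) :=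
  hf.comp (Continuous.measurable (by fun_prop))

lemma peak_kap {a b : E n} (h : ON a b) (k : ℕ) {p : ℝ × ℝ} (hp : p ≠ 0) (z : peakW a b) :
    √(p.1 ^ 2 + p.2 ^ 2) ^ Module.finrank ℝ (peakW a b) *
      kap a b (k + 1) (p.1 • a + p.2 • b + (√(p.1 ^ 2 + p.2 ^ 2) • z : peakW a b)) =
      peakG a b z * (1 + ‖z‖ ^ 2)⁻¹ ^ k := by
  have h0 : 0 < p.1 ^ 2 + p.2 ^ 2 := by
    by_contra h1
    exact hp (Prod.ext (by simp only [Prod.fst_zero]; nlinarith [sq_nonneg p.1, sq_nonneg p.2])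
      (by simp only [Prod.snd_zero]; nlinarith [sq_nonneg p.1, sq_nonneg p.2]))
  obtain ⟨h1, h2, h3⟩ := peak_inner h p (√(p.1 ^ 2 + p.2 ^ 2) • z)
  have h4 := Real.sq_sqrt h0.le
  have h5 := Real.sqrt_pos.2 h0
  have h6 := Real.sq_sqrt (show 0 ≤ 1 + ‖z‖ ^ 2 by positivity)
  have h7 := Real.sqrt_pos.2 (show 0 < 1 + ‖z‖ ^ 2 by positivity)
  rw [kap, peakG, h1, h2]
  generalize √(p.1 ^ 2 + p.2 ^ 2) = r at *
  generalize √(1 + ‖z‖ ^ 2) = s at *
  have h8 : ‖p.1 • a + p.2 • b + (r • z : peakW a b)‖ = r * s := by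
    refine (sq_eq_sq₀ (norm_nonneg _) (by positivity)).1 ?_
    rw [h3, norm_smul, mul_pow, mul_pow, Real.norm_eq_abs, sq_abs, h6, ← h4]
    ring
  have h9 := peak_rank h
  generalize Module.finrank ℝ (peakW a b) = m at *
  rw [h8, ← h4, ← h6, show 2 * (k + 1) + n - 2 = 2 * k + n by omega]
  clear h1 h2 h3 h8 h6
  rw [← h9, inv_pow]
  field_simp
  ring

lemma peak_eq (hn : 3 ≤ n) {a b : E n} (h : ON a b) {A : ℝ} {f : E n → ℂ} (hf : Dec A f) (k : ℕ) :
    Integrable (fun x => f x * kap a b (k + 1) x) ∧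
    ∫ p : ℝ × ℝ, ∫ z : peakW a b, f (p.1 • a + p.2 • b + z) *
        kap a b (k + 1) (p.1 • a + p.2 • b + z) =
      ∫ z, (1 + ‖z‖ ^ 2)⁻¹ ^ k • peakP a b f z
        ∂volume.withDensity fun z => ENNReal.ofReal (peakG a b z) := by
  constructor
  · refine ((integrable_wt_kap hn h (k + 1)).const_mul A).mono'
      (hf.1.mul (Complex.measurable_ofReal.comp (measurable_kap a b _))).aestronglyMeasurable
      (Eventually.of_forall fun x => ?_)
    rw [norm_mul, Complex.norm_real, Real.norm_of_nonneg (kap_nonneg _ _ _ _), ← mul_assoc]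
    exact mul_le_mul_of_nonneg_right (hf.2 x) (kap_nonneg _ _ _ _)
  rw [integral_withDensity_eq_integral_toReal_smul (peak_G_meas a b).ennreal_ofReal
    (Eventually.of_forall fun _ => ENNReal.ofReal_lt_top)]
  simp only [ENNReal.toReal_ofReal (peak_G_pos a b _).le, smul_smul, peakP, ← integral_smul]
  refine Eq.trans ?_ (integral_integral_swap ?_)
  · refine integral_congr_ae ?_
    filter_upwards [Measure.ae_ne volume (0 : ℝ × ℝ)] with p hp
    have h1 : 0 < √(p.1 ^ 2 + p.2 ^ 2) := by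
      refine lt_of_le_of_ne (Real.sqrt_nonneg _) fun h2 => ?_
      have h3 := peak_kap h 0 hp 0
      rw [← h2, zero_pow (by have := peak_rank h; omega), zero_mul, pow_zero, mul_one] at h3
      exact (peak_G_pos a b 0).ne h3
    have h2 := Measure.integral_comp_smul_of_nonneg volume (fun z : peakW a b =>
      f (p.1 • a + p.2 • b + z) * kap a b (k + 1) (p.1 • a + p.2 • b + z)) _ (hR := h1.le)
    rw [eq_inv_smul_iff₀ (by positivity), ← integral_smul] at h2
    rw [← h2]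
    refine integral_congr_ae (Eventually.of_forall fun z => ?_)
    simp only [← peak_kap h k hp z, Complex.real_smul, Complex.ofReal_mul]
    ring
  · refine ((peak_int2.const_mul A).mul_prod (peak_G_int h)).mono'
      (Measurable.aestronglyMeasurable ?_) (Eventually.of_forall fun q => ?_)
    · exact (((peak_G_meas a b).comp measurable_snd).mul (by fun_prop)).smul (peak_meas a b hf.1)
    · have h1 := peak_G_pos a b q.2
      simp only [Function.uncurry]
      rw [norm_smul, Real.norm_of_nonneg (by positivity), mul_comm]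
      refine mul_le_mul (peak_bd h hf _ _) (mul_le_of_le_one_right h1.le (pow_le_one₀
        (by positivity) (inv_le_one_of_one_le₀ (by nlinarith [sq_nonneg ‖q.2‖])))) (by positivity)
        (mul_nonneg hf.nonneg (by positivity))

lemma peak_lim (hn : 3 ≤ n) {a b : E n} (h : ON a b) : ∃ c : ℕ → ℝ, (∀ k, 0 < c k) ∧
    ∀ (A : ℝ) (f : E n → ℂ), Dec A f → (∀ᵐ p : ℝ × ℝ, ContinuousAt f (p.1 • a + p.2 • b)) →
    Tendsto (fun k => (∫ x, f x * kap a b (k + 1) x) / c k) atTop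
      (𝓝 (∫ p : ℝ × ℝ, f (p.1 • a + p.2 • b))) := by
  obtain ⟨c, hc, h1⟩ := peak_coord h
  have := isFiniteMeasure_withDensity_ofReal (peak_G_int h).2
  set μ := (volume : Measure (peakW a b)).withDensity fun z => ENNReal.ofReal (peakG a b z)
  have hμ : ∀ δ, 0 < δ → 0 < μ.real (ball 0 δ) := fun δ hδ =>
    ENNReal.toReal_pos (fun h2 => (measure_ball_pos volume _ hδ).ne'
      (withDensity_absolutelyContinuous' (peak_G_meas a b).ennreal_ofReal.aemeasurable
        (Eventually.of_forall fun z => (ENNReal.ofReal_pos.2 (peak_G_pos a b z)).ne') h2))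
      (measure_ne_top _ _)
  have hp := (peak_abs μ hμ (integrable_zero _ _ _) continuousAt_const).1
  refine ⟨fun k => (∫ z, (1 + ‖z‖ ^ 2)⁻¹ ^ k ∂μ) / c, fun k => div_pos (hp k) hc,
    fun A f hf hcf => ?_⟩
  have h2 : Integrable (peakP a b f) μ :=
    Integrable.of_bound
      (peak_meas a b hf.1).stronglyMeasurable.integral_prod_left'.aestronglyMeasurable _
      (Eventually.of_forall fun z => norm_integral_le_of_norm_le (peak_int2.const_mul A)
        (Eventually.of_forall fun p => peak_bd h hf p _))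
  have h3 : ContinuousAt (peakP a b f) 0 := by
    refine continuousAt_of_dominated (Eventually.of_forall fun z =>
      ((peak_meas a b hf.1).comp measurable_prodMk_right).aestronglyMeasurable)
      (Eventually.of_forall fun z => Eventually.of_forall fun p => peak_bd h hf p _)
      (peak_int2.const_mul A) (hcf.mono fun p hp => ?_)
    exact ContinuousAt.comp (g := f) (by simpa using hp) (Continuous.continuousAt (by fun_prop))
  have h4 := (peak_abs μ hμ h2 h3).2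
  have h5 : peakP a b f 0 = ∫ p : ℝ × ℝ, f (p.1 • a + p.2 • b) := by simp [peakP]
  rw [h5] at h4
  refine h4.congr fun k => ?_
  obtain ⟨h6, h7⟩ := peak_eq hn h hf k
  have h8 : (c : ℂ) ≠ 0 := Complex.ofReal_ne_zero.2 hc.ne'
  simp only [div_eq_inv_mul, mul_smul, integral_smul]
  rw [← h7, h1 _ h6, Complex.real_smul]
  push_cast
  rw [mul_inv, inv_inv]
  ring

theorem peak (hn : 3 ≤ n) {a b : E n} (h : ON a b) : ∃ m : ℝ, 0 < m ∧ ∀ (A : ℝ) (f : E n → ℂ),
    Dec A f → (∀ᵐ p : ℝ × ℝ, ContinuousAt f (p.1 • a + p.2 • b)) →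
    Tendsto (fun k => (∫ x, f x * kap a b k x) / mass a b k) atTop
      (𝓝 ((∫ p : ℝ × ℝ, f (p.1 • a + p.2 • b)) / m)) := by
  obtain ⟨c, hc, h1⟩ := peak_lim hn h
  have hw : Continuous fun x : E n => (wt x : ℂ) := Complex.continuous_ofReal.comp continuous_wt
  have h2 := h1 1 (fun x => wt x) ⟨hw.measurable, fun x => by
    rw [Complex.norm_real, Real.norm_of_nonneg (wt_pos x).le, one_mul]⟩
    (Eventually.of_forall fun _ => hw.continuousAt)
  have h3 : 0 < ∫ p : ℝ × ℝ, wt (p.1 • a + p.2 • b) := by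
    refine (integral_pos_iff_support_of_nonneg (fun p => (wt_pos _).le)
      (peak_int2.congr (Eventually.of_forall fun p => ?_))).2 ?_
    · have h4 := (peak_inner h p 0).2.2
      simp only [ZeroMemClass.coe_zero, add_zero, norm_zero, ne_eq, OfNat.ofNat_ne_zero,
        not_false_eq_true, zero_pow] at h4
      simp only [wt, h4]
    · rw [Function.support_eq_univ fun p => (wt_pos _).ne']
      exact isOpen_univ.measure_pos _ univ_nonempty
  refine ⟨_, h3, fun A f hf hcf => (tendsto_add_atTop_iff_nat 1).1 ?_⟩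
  rw [integral_complex_ofReal] at h2
  refine ((h1 A f hf hcf).div h2 (Complex.ofReal_ne_zero.2 h3.ne')).congr fun k => ?_
  rw [Pi.div_apply, div_div_div_cancel_right₀ (Complex.ofReal_ne_zero.2 (hc k).ne'), mass,
    ← integral_complex_ofReal]
  simp only [Complex.ofReal_mul]

end Pool.Agent.MP_71da5e_an

end

section

namespace Pool.Agent.MP_71da5e_an

open MeasureTheory Metric Set Laplacian Filter Topology
open scoped ContDiff ENNReal RealInnerProductSpace

variable {n : ℕ}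

lemma cross_sqrt {s t ε : ℝ} (hs : 0 ≤ s) (ht : 0 ≤ t) (hε : 0 < ε) :
    √(s * t) ≤ ε * t + ε⁻¹ * s := by
  refine Real.sqrt_le_iff.2 ⟨by positivity, ?_⟩
  have : (ε * t + ε⁻¹ * s) ^ 2 = (ε * t) ^ 2 + (ε⁻¹ * s) ^ 2 + 2 * (s * t) := by
    field_simp
    ring
  nlinarith [mul_nonneg hs ht, sq_nonneg (ε * t), sq_nonneg (ε⁻¹ * s)]

theorem cross (hn : 3 ≤ n) {ν a b : E n} (hν : ‖ν‖ = 1) (h : ON a b) (ha : ⟪a, ν⟫ = 0)
    (hb : ⟪b, ν⟫ ≠ 0) (hb' : ⟪b, ν⟫ ^ 2 ≠ 1) :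
    Tendsto (fun k => (∫ x, wt x * √(kap a b k x * kap a b k (rf ν x))) / mass a b k) atTop
      (𝓝 0) := by
  obtain ⟨m, hm, hpk⟩ := peak hn h
  set S : E n → ℝ := fun x => ⟪x, a⟫ ^ 2 + ⟪x, b⟫ ^ 2 with hS
  have hSc : Continuous S := by fun_prop
  have hrc := (contDiff_rf ν).continuous
  set T : Set (E n) := {x | S x ≤ S (rf ν x)} with hT
  have hTc : IsClosed T := isClosed_le hSc (hSc.comp hrc)
  have hw : ∀ x, wt (rf ν x) = wt x := fun x => by simp only [wt, norm_rf hν]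
  have hf : Dec 1 (T.indicator fun x => (wt x : ℂ)) :=
    ⟨(Complex.measurable_ofReal.comp continuous_wt.measurable).indicator hTc.measurableSet,
      fun x => (norm_indicator_le_norm_self _ x).trans (by
        rw [Complex.norm_real, Real.norm_of_nonneg (wt_pos x).le, one_mul])⟩
  have h0 : ∀ᵐ p : ℝ × ℝ, p.1 • a + p.2 • b ∉ T := by
    have h0 : ∀ᵐ p : ℝ × ℝ, p.2 ≠ 0 := by
      rw [Measure.volume_eq_prod]
      exact Measure.quasiMeasurePreserving_snd.ae (compl_mem_ae_iff.2 (measure_singleton _))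
    filter_upwards [h0] with p hp
    have h1 : ⟪b, a⟫ = 0 := by rw [real_inner_comm, h.2.2]
    have h2 : ⟪ν, a⟫ = 0 := by rw [real_inner_comm, ha]
    have h3 : ⟪b, ν⟫ ^ 2 ≤ 1 := by
      have := abs_real_inner_le_norm b ν
      rw [h.2.1, hν, one_mul] at this
      exact (sq_le_one_iff_abs_le_one _).2 this
    have h4 : 0 < ⟪b, ν⟫ ^ 2 * (1 - ⟪b, ν⟫ ^ 2) * p.2 ^ 2 :=
      mul_pos (mul_pos (by positivity) (sub_pos.2 (h3.lt_of_ne hb'))) (by positivity)
    simp only [hT, hS, rf, mem_ofPred_eq, inner_sub_left, inner_add_left, real_inner_smul_left,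
      real_inner_self_eq_norm_sq, h.1, h.2.1, h.2.2, h1, h2, ha, real_inner_comm b ν, not_le]
    nlinarith
  have t1 := hpk 1 _ hf (h0.mono fun p hp => continuousAt_const.congr (f := fun _ => 0) (by
    filter_upwards [hTc.isOpen_compl.mem_nhds hp] with y hy
    rw [indicator_of_notMem hy]))
  rw [integral_congr_ae (g := fun _ => 0) (h0.mono fun p hp => indicator_of_notMem hp _),
    integral_zero, zero_div] at t1
  have t2 : Tendsto (fun k => (∫ x, T.indicator (fun x => wt x * kap a b k x) x) / mass a b k)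
      atTop (𝓝 0) := by
    have := (Complex.continuous_re.tendsto _).comp t1
    refine this.congr fun k => ?_
    have e : (fun x => T.indicator (fun x => (wt x : ℂ)) x * kap a b k x) =
        fun x => ((T.indicator (fun x => wt x * kap a b k x) x : ℝ) : ℂ) := by
      funext x
      by_cases hx : x ∈ T <;> simp [hx]
    simp only [Function.comp_apply, e, integral_complex_ofReal, ← Complex.ofReal_div,
      Complex.ofReal_re]
  refine tendsto_order.2 ⟨fun c hc => Eventually.of_forall fun k => hc.trans_le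
    (div_nonneg (integral_nonneg fun x => mul_nonneg (wt_pos x).le (Real.sqrt_nonneg _))
      (mass_pos hn h k).le), fun c hc => ?_⟩
  have hε : 0 < c / 4 := by positivity
  filter_upwards [(tendsto_order.1 t2).2 (c / 4 * (c / 4)) (by positivity)] with k hk
  have hM := mass_pos hn h k
  have i0 := integrable_wt_kap hn h k
  have i1 := i0.indicator hTc.measurableSet
  have i2 : Integrable fun x => c / 4 * (wt x * kap a b k x) +
      (c / 4)⁻¹ * T.indicator (fun x => wt x * kap a b k x) x :=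
    (i0.const_mul _).add (i1.const_mul _)
  have h1 : ∫ x, wt x * √(kap a b k x * kap a b k (rf ν x)) ≤
      2 * (c / 4 * mass a b k + (c / 4)⁻¹ * ∫ x, T.indicator (fun x => wt x * kap a b k x) x) := by
    refine (integral_mono_of_nonneg
      (ae_of_all _ fun x => mul_nonneg (wt_pos x).le (Real.sqrt_nonneg _))
      (i2.add (integrable_rf hν i2)) (ae_of_all _ fun x => ?_)).trans_eq ?_
    · have k1 := kap_nonneg a b k x
      have k2 := kap_nonneg a b k (rf ν x)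
      have w0 := (wt_pos x).le
      have n1 : ∀ y, 0 ≤ T.indicator (fun x => wt x * kap a b k x) y := fun y =>
        indicator_nonneg (fun z _ => mul_nonneg (wt_pos z).le (kap_nonneg _ _ _ _)) y
      simp only [Pi.add_apply, hw]
      rcases le_total (S x) (S (rf ν x)) with h2 | h2
      · have := mul_le_mul_of_nonneg_left (cross_sqrt k1 k2 hε) w0
        rw [indicator_of_mem (show x ∈ T from h2)]
        nlinarith [mul_nonneg hε.le (mul_nonneg w0 k1), mul_nonneg (inv_pos.2 hε).le (n1 (rf ν x))]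
      · have := mul_le_mul_of_nonneg_left (cross_sqrt k2 k1 hε) w0
        rw [indicator_of_mem (show rf ν x ∈ T from by rw [hT, mem_ofPred_eq, rf_rf hν]; exact h2),
          hw, mul_comm (kap a b k x)]
        nlinarith [mul_nonneg hε.le (mul_nonneg w0 k2), mul_nonneg (inv_pos.2 hε).le (n1 x)]
    · simp only [Pi.add_apply]
      rw [integral_add i2 (integrable_rf hν i2), integral_rf hν fun x => c / 4 * (wt x * kap a b k x) +
        (c / 4)⁻¹ * T.indicator (fun x => wt x * kap a b k x) x,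
        integral_add (i0.const_mul _) (i1.const_mul _), integral_const_mul, integral_const_mul,
        two_mul, mass]
  rw [div_lt_iff₀ hM] at hk ⊢
  have h2 : (c / 4)⁻¹ * ∫ x, T.indicator (fun x => wt x * kap a b k x) x < c / 4 * mass a b k := by
    rw [inv_mul_lt_iff₀ hε]
    linarith
  linarith

end Pool.Agent.MP_71da5e_an

end

section

namespace Pool.Agent.MP_71da5e_an

open MeasureTheory Metric Set Laplacian Filter Topology
open scoped ContDiff ENNReal RealInnerProductSpace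

variable {n : ℕ}

lemma lim_pointwise {ν a b : E n} (hν : ‖ν‖ = 1) (k : ℕ) (x : E n) :
    ‖((kap a b k x + kap a b k (rf ν x) : ℝ) : ℂ) - obeam ν a (-b) k x * kbeam ν a b k x‖ ≤
      2 * √(kap a b k x * kap a b k (rf ν x)) := by
  have hr : 0 ≤ ‖x‖ ^ (2 * k + n - 2) := by positivity
  have e1 : ((kap a b k x + kap a b k (rf ν x) : ℝ) : ℂ) - obeam ν a (-b) k x * kbeam ν a b k x =
      (beam a (-b) k x * beam a b k (rf ν x) + beam a (-b) k (rf ν x) * beam a b k x) /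
        ((‖x‖ ^ (2 * k + n - 2) : ℝ) : ℂ) := by
    simp only [kap, norm_rf hν, Complex.ofReal_add, Complex.ofReal_div, ← beam_neg_mul, kbeam,
      obeam]
    ring
  have e2 : √(kap a b k x * kap a b k (rf ν x)) =
      ‖beam a b k x‖ * ‖beam a b k (rf ν x)‖ / ‖x‖ ^ (2 * k + n - 2) := by
    rw [Real.sqrt_eq_iff_mul_self_eq (mul_nonneg (kap_nonneg _ _ _ _) (kap_nonneg _ _ _ _))
      (by positivity)]
    simp only [kap, norm_rf hν, ← norm_beam_sq]
    ring
  rw [e1, e2, norm_div, Complex.norm_real, Real.norm_of_nonneg hr, ← mul_div_assoc]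
  refine div_le_div_of_nonneg_right ((norm_add_le _ _).trans_eq ?_) hr
  simp only [norm_mul, norm_beam_neg]
  ring

theorem beam_limit (hn : 3 ≤ n) {ν a b : E n} (hν : ‖ν‖ = 1) (h : ON a b) (ha : ⟪a, ν⟫ = 0)
    (hb : ⟪b, ν⟫ ≠ 0) (hb' : ⟪b, ν⟫ ^ 2 ≠ 1) {r A : ℝ} (hr : 0 < r) {q₁ q₂ : E n → ℂ}
    (h₁ : Dec A q₁) (h₂ : Dec A q₂) (hyp : Hyp ν {x | r < ‖x‖ ∧ ‖x‖ < r⁻¹} (ball 0 r) q₁ q₂) :
    Tendsto (fun k => (∫ x, evn ν (fun y => q₁ y - q₂ y) x * kap a b k x) / mass a b k) atTop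
      (𝓝 0) := by
  obtain ⟨C, k₀, hC⟩ := asm hn A
  have hH := (isOpen_Hs ν).measurableSet
  have hq := asm_dec_ind (h₁.sub h₂) hH
  have hA := hq.nonneg
  set q := (Hs ν).indicator fun y => q₁ y - q₂ y with hqd
  have t1 : Tendsto (fun k : ℕ => C / k + 2 * (2 * A) *
      ((∫ x, wt x * √(kap a b k x * kap a b k (rf ν x))) / mass a b k)) atTop (𝓝 0) := by
    simpa using (tendsto_const_div_atTop_nhds_zero_nat C).add
      ((cross hn hν h ha hb hb').const_mul (2 * (2 * A)))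
  refine squeeze_zero_norm' ?_ t1
  filter_upwards [eventually_ge_atTop k₀] with k hk
  have hM := mass_pos hn h k
  have i0 := integrable_wt_kap hn h k
  have i0' := integrable_rf hν i0
  have hw : ∀ x, wt (rf ν x) = wt x := fun x => by simp only [wt, norm_rf hν]
  have mk := measurable_kap a b k
  have mk' : Measurable fun x => kap a b k (rf ν x) := mk.comp (contDiff_rf ν).continuous.measurable
  have ig : ∀ κ : E n → ℝ, Measurable κ → (∀ x, 0 ≤ κ x) → Integrable (fun x => wt x * κ x) →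
      Integrable fun x => q x * κ x := fun κ hκ h0 hi => by
    refine Integrable.mono' (hi.const_mul (2 * A))
      (hq.1.mul (Complex.measurable_ofReal.comp hκ)).aestronglyMeasurable (ae_of_all _ fun x => ?_)
    rw [norm_mul, Complex.norm_real, Real.norm_of_nonneg (h0 x), ← mul_assoc]
    exact mul_le_mul_of_nonneg_right (hq.2 x) (h0 x)
  have i1 := ig _ mk (kap_nonneg a b k) i0
  have i2 := ig _ mk' (fun x => kap_nonneg a b k _) (by simpa only [hw] using i0')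
  have i3 := asm_integrable hn hν h k hq
  have e1 : ∫ x, evn ν (fun y => q₁ y - q₂ y) x * kap a b k x =
      ∫ x, q x * ((kap a b k x + kap a b k (rf ν x) : ℝ) : ℂ) := by
    have i4 := integrable_rf hν i2
    simp only [rf_rf hν] at i4
    have e2 := integral_rf hν fun x => q x * (kap a b k (rf ν x) : ℂ)
    simp only [rf_rf hν] at e2
    simp only [evn, ← hqd, add_mul, Complex.ofReal_add, mul_add]
    rw [integral_add i1 i4, integral_add i1 i2, e2]
  have e3 : ∫ x in Hs ν, (q₁ x - q₂ x) * (obeam ν a (-b) k x * kbeam ν a b k x) =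
      ∫ x, q x * (obeam ν a (-b) k x * kbeam ν a b k x) := by
    rw [← integral_indicator hH]
    congr 1
    funext x
    by_cases hx : x ∈ Hs ν <;> simp [hqd, hx]
  have h3 := hC k hk ν a b r q₁ q₂ hν h hr h₁ h₂ hyp
  rw [e3] at h3
  have i5 : Integrable fun x => wt x * √(kap a b k x * kap a b k (rf ν x)) := by
    refine Integrable.mono' (i0.add i0') (continuous_wt.measurable.mul
      (mk.mul mk').sqrt).aestronglyMeasurable (ae_of_all _ fun x => ?_)
    have h0 := kap_nonneg a b k x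
    have h0' := kap_nonneg a b k (rf ν x)
    rw [Real.norm_of_nonneg (mul_nonneg (wt_pos x).le (Real.sqrt_nonneg _)), Pi.add_apply, hw,
      ← mul_add]
    refine mul_le_mul_of_nonneg_left (Real.sqrt_le_iff.2 ⟨by positivity, ?_⟩) (wt_pos x).le
    nlinarith [mul_nonneg h0 h0']
  have i6 : Integrable fun x => q x * ((kap a b k x + kap a b k (rf ν x) : ℝ) : ℂ) := by
    simp only [Complex.ofReal_add, mul_add]
    exact i1.add i2
  have h4 : ‖(∫ x, q x * ((kap a b k x + kap a b k (rf ν x) : ℝ) : ℂ)) -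
      ∫ x, q x * (obeam ν a (-b) k x * kbeam ν a b k x)‖ ≤
      2 * (2 * A) * ∫ x, wt x * √(kap a b k x * kap a b k (rf ν x)) := by
    rw [← integral_sub i6 i3, ← integral_const_mul]
    refine norm_integral_le_of_norm_le (i5.const_mul _) (ae_of_all _ fun x => ?_)
    rw [← mul_sub, norm_mul]
    calc _ ≤ 2 * A * wt x * (2 * √(kap a b k x * kap a b k (rf ν x))) :=
          mul_le_mul (hq.2 x) (lim_pointwise hν k x) (norm_nonneg _)
            (mul_nonneg hA (wt_pos x).le)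
      _ = _ := by ring
  rw [e1, norm_div, Complex.norm_real, Real.norm_of_nonneg hM.le, div_le_iff₀ hM]
  refine (norm_le_norm_add_norm_sub' _ _).trans ((add_le_add h3 h4).trans_eq ?_)
  field_simp

end Pool.Agent.MP_71da5e_an

end

section

namespace Pool.Agent.MP_71da5e_an

open MeasureTheory Metric Set Laplacian Filter Topology
open scoped ContDiff ENNReal RealInnerProductSpace

variable {n : ℕ}

lemma half_evn {ν z : E n} (hz : z ∈ Pl ν) (q : E n → ℂ) (x : E n) :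
    evn ν (fun y => q (y + z)) x = evn ν q (x + z) := by
  have hz' : ⟪z, ν⟫ = 0 := hz
  have h1 : ∀ y : E n, y + z ∈ Hs ν ↔ y ∈ Hs ν := fun y => by
    simp only [Hs, mem_ofPred_eq, inner_add_left, hz', add_zero]
  have h2 : rf ν (x + z) = rf ν x + z := by
    simp only [rf, inner_add_left, hz', add_zero]
    abel
  have h3 : ∀ y : E n, (Hs ν).indicator (fun y => q (y + z)) y = (Hs ν).indicator q (y + z) := by
    intro y
    by_cases hy : y ∈ Hs ν
    · rw [indicator_of_mem hy, indicator_of_mem ((h1 y).2 hy)]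
    · rw [indicator_of_notMem hy, indicator_of_notMem (mt (h1 y).1 hy)]
  rw [evn, evn, h2, h3, h3]

theorem half (hn : 3 ≤ n) {ν : E n} (hν : ‖ν‖ = 1) {A R : ℝ} {q₁ q₂ : E n → ℂ} (h₁ : Dec A q₁)
    (h₂ : Dec A q₂) (hyp : Hyp ν (ball 0 R) {x | R < ‖x‖} q₁ q₂) :
    ∀ᵐ x, x ∈ Hs ν → q₁ x = q₂ x := by
  have hq := (h₁.sub h₂).evn hν
  set q := evn ν fun y => q₁ y - q₂ y with hqd
  have lim : ∀ a b : E n, ON a b → ⟪a, ν⟫ = 0 → ⟪b, ν⟫ ≠ 0 → ⟪b, ν⟫ ^ 2 ≠ 1 → ∀ z ∈ Pl ν,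
      |R| + 1 ≤ ‖z‖ →
      Tendsto (fun k => (∫ x, q (x + z) * kap a b k x) / mass a b k) atTop (𝓝 0) := by
    intro a b h ha hb hb' z hz hzR
    have hR := le_abs_self R
    have hR0 := abs_nonneg R
    have hs : 1 ≤ ‖z‖ + |R| := by linarith
    have := beam_limit hn hν h ha hb hb' (r := (‖z‖ + |R|)⁻¹) (by positivity) (h₁.add_const z)
      (h₂.add_const z) ((hyp.add_const hz).mono (fun x hx => ?_) fun x hx => ?_)
    · simpa only [half_evn hz (fun y => q₁ y - q₂ y)] using this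
    · have h1 : ‖x + z‖ < R := mem_ball_zero_iff.1 hx
      have h2 : ‖z‖ ≤ ‖x + z‖ + ‖x‖ := by simpa using norm_sub_le (x + z) x
      have h3 : ‖x‖ ≤ ‖x + z‖ + ‖z‖ := by simpa using norm_sub_le (x + z) z
      refine ⟨(inv_le_one_of_one_le₀ hs).trans_lt (by linarith), ?_⟩
      rw [inv_inv]
      linarith
    · have h1 : ‖x‖ < 1 := (mem_ball_zero_iff.1 hx).trans_le (inv_le_one_of_one_le₀ hs)
      have h2 : ‖z‖ ≤ ‖x + z‖ + ‖x‖ := by simpa using norm_sub_le (x + z) x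
      show R < ‖x + z‖
      linarith
  have hloc : LocallyIntegrable q := fun x => by
    refine ⟨ball x 1, ball_mem_nhds x one_pos, Measure.integrableOn_of_bounded (M := 2 * A)
      measure_ball_lt_top.ne hq.1.aestronglyMeasurable (ae_of_all _ fun y => ?_)⟩
    exact (hq.2 y).trans (mul_le_of_le_one_right hq.nonneg (wt_le_one y))
  have key := (isOpen_Hs ν).ae_eq_zero_of_integral_contDiff_smul_eq_zero
    (hloc.locallyIntegrableOn _) fun f hf hc hs => by
      obtain ⟨A', hA'⟩ := dec_avg hν hf.continuous hc hs hq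
      have hcont := continuousOn_avg hν hf.continuous hc hq
      obtain ⟨R', hR'⟩ := tendsto_avg hn hν hf.continuous hc hs hq (|R| + 1)
      rw [← avg_nu ν]
      refine four hn hν hA' hcont (R := R') fun z hz hzR a b h ha hb hb' => ?_
      obtain ⟨m, hm, hpk⟩ := peak hn h
      have h1 := hpk _ _ (hA'.add_const z) (by
        have h0 : ∀ᵐ p : ℝ × ℝ, p.2 ≠ 0 := by
          rw [Measure.volume_eq_prod]
          exact Measure.quasiMeasurePreserving_snd.ae (compl_mem_ae_iff.2 (measure_singleton _))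
        filter_upwards [h0] with p hp
        refine ContinuousAt.comp (f := fun x => x + z) (hcont.continuousAt
          ((isClosed_Pl ν).isOpen_compl.mem_nhds fun h3 => ?_)) (by fun_prop)
        have h4 : ⟪p.1 • a + p.2 • b + z, ν⟫ = 0 := h3
        have hz' : ⟪z, ν⟫ = 0 := hz
        simp only [inner_add_left, real_inner_smul_left, ha, hz', mul_zero, zero_add,
          add_zero] at h4
        exact mul_ne_zero hp hb h4)
      have h2 := tendsto_nhds_unique h1 (hR' a b h (lim a b h ha hb hb') z hz hzR)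
      exact (div_eq_zero_iff.1 h2).resolve_right (by exact_mod_cast hm.ne')
  filter_upwards [key] with x hx hxH
  have h1 := hx hxH
  have h2 : rf ν x ∉ Hs ν := by
    have : 0 < ⟪x, ν⟫ := hxH
    simp only [Hs, mem_ofPred_eq, inner_rf_nu hν, not_lt]
    linarith
  rw [hqd, evn, indicator_of_mem hxH, indicator_of_notMem h2, add_zero] at h1
  exact sub_eq_zero.1 h1

end Pool.Agent.MP_71da5e_an

end

section

namespace Pool.Agent.MP_71da5e_an

open MeasureTheory Metric Set Laplacian Filter Topology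
open scoped ContDiff ENNReal RealInnerProductSpace

variable {n : ℕ}

lemma main_rep {q : E n → ℂ} (h : MemLp q ⊤ (volume.restrict (ball 0 1))) :
    ∃ (A : ℝ) (q' : E n → ℂ), Measurable q' ∧ (∀ x, ‖q' x‖ ≤ A) ∧
      q =ᵐ[volume.restrict (ball 0 1)] q' := by
  obtain ⟨A, hA⟩ := eLpNormEssSup_lt_top_iff_isBoundedUnder.1
    (show eLpNormEssSup q (volume.restrict (ball 0 1)) < ⊤ by simpa using h.2)
  have hA' : ∀ᵐ x ∂volume.restrict (ball (0 : E n) 1), ‖q x‖ ≤ (A : ℝ) :=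
    (eventually_map.1 hA).mono fun x hx => by exact_mod_cast hx
  have hm := h.1.measurable_mk
  refine ⟨A, {x | ‖h.1.mk q x‖ ≤ A}.indicator (h.1.mk q),
    hm.indicator (measurableSet_le hm.norm measurable_const), fun x => ?_, ?_⟩
  · by_cases hx : x ∈ {x | ‖h.1.mk q x‖ ≤ A}
    · rw [indicator_of_mem hx]; exact hx
    · rw [indicator_of_notMem hx, norm_zero]; exact A.2
  · filter_upwards [hA', h.1.ae_eq_mk] with x h1 h2
    rw [indicator_of_mem (show x ∈ {x | ‖h.1.mk q x‖ ≤ A} from show ‖h.1.mk q x‖ ≤ A from h2 ▸ h1),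
      h2]

lemma main_green {q q' : E n → ℂ} (h : q =ᵐ[volume.restrict (ball 0 1)] q') :
    green q = green q' := by
  funext u φ
  exact integral_congr_ae (h.mono fun x hx => by simp only [hx])

lemma main_cauchy (Γ : Set (E n)) {q q' : E n → ℂ} (h : q =ᵐ[volume.restrict (ball 0 1)] q') :
    cauchy Γ q ⊆ cauchy Γ q' := by
  have e := main_green h
  rintro _ ⟨u, hu, rfl⟩
  refine ⟨u, ⟨hu.memL2, e ▸ hu.solves, ?_⟩, ?_⟩
  · simpa only [dirichlet, e] using hu.supp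
  · simp only [dirichlet, neumann, e]

theorem main (hn : 3 ≤ n) {Γ : Set (E n)} (hΓ : ∃ U, IsOpen U ∧ Γ = U ∩ sphere 0 1)
    (hne : Γ.Nonempty) {q₁ q₂ : E n → ℂ} (h₁ : MemLp q₁ ⊤ (volume.restrict (ball 0 1)))
    (h₂ : MemLp q₂ ⊤ (volume.restrict (ball 0 1))) (h : cauchy Γ q₁ ⊆ cauchy Γ q₂) :
    q₁ =ᵐ[volume.restrict (ball 0 1)] q₂ := by
  obtain ⟨A₁, r₁, m₁, b₁, e₁⟩ := main_rep h₁
  obtain ⟨A₂, r₂, m₂, b₂, e₂⟩ := main_rep h₂
  have c₁ : ∀ x, ‖r₁ x‖ ≤ max A₁ A₂ := fun x => (b₁ x).trans (le_max_left _ _)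
  have c₂ : ∀ x, ‖r₂ x‖ ≤ max A₁ A₂ := fun x => (b₂ x).trans (le_max_right _ _)
  obtain ⟨p, hp⟩ := hne
  have hp1 : ‖p‖ = 1 := by
    obtain ⟨U, -, rfl⟩ := hΓ
    simpa using hp.2
  obtain ⟨R, hyp⟩ := hyp_of_cauchy hn hΓ hp m₁ m₂ c₁ c₂
    ((main_cauchy Γ e₁.symm).trans (h.trans (main_cauchy Γ e₂)))
  have h2 : (0 : ℝ) < √2 := by positivity
  have key := ae_inv p h2 hn
    (half hn (by rw [norm_neg, hp1]) (dec_kq hp1 m₁ c₁) (dec_kq hp1 m₂ c₂) hyp)
  refine e₁.trans (EventuallyEq.trans ?_ e₂.symm)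
  rw [EventuallyEq, ae_restrict_iff' measurableSet_ball]
  filter_upwards [key] with x hx hxb
  have hx1 : ‖x‖ < 1 := mem_ball_zero_iff.1 hxb
  have hxp : x ≠ p := by rintro rfl; exact hx1.ne hp1
  have hy := inv_ne h2 hxp
  have hj := jac_pos h2 hy
  have hH : inv p √2 x ∈ Hs (-p) := by
    have h3 := one_sub_norm_inv hp1 hy
    rw [inv_inv' p h2] at h3
    have h4 : 0 < 1 - ‖x‖ ^ 2 := by nlinarith [norm_nonneg x]
    rw [h3] at h4
    exact (mul_pos_iff_of_pos_left (by positivity)).1 h4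
  have h5 := hx hH
  rw [indicator_of_mem hH, indicator_of_mem hH, kq, kq, inv_inv' p h2] at h5
  exact mul_left_cancel₀ (by exact_mod_cast (pow_pos hj 2).ne') h5

end Pool.Agent.MP_71da5e_an

end
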